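import Pool.Agent.Lib.CritL.Final4

/-!
# Short forms of the statements
-/

set_option autoImplicit false

namespace CritL

open Matrix

/-- `f` maps the lattice of `b` into itself -/
def Keeps {d : ℕ} (b : Fin d → E d) (f : E d → E d) : Prop := ∀ x ∈ lat b, f x ∈ lat b

/-- dimension of the space spanned by the values -/
noncomputable def rk {d : ℕ} (f : E d → E d) : ℕ := Module.finrank ℝ (Submodule.span ℝ (Set.range f))

/-- dimension of the space spanned by the fixed vectors -/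
noncomputable def fix {d : ℕ} (f : E d → E d) : ℕ := Module.finrank ℝ (Submodule.span ℝ {x : E d | f x = x})

/-- the volume of the image of each unit cube of `k` vectors orthogonal to the kernel is greater than `t` -/
def Expands {d : ℕ} (f : E d → E d) (k : ℕ) (t : ℝ) : Prop := ∀ u : Fin k → E d, Orthonormal ℝ u →
  (∀ i, ∀ x, f x = 0 → inner ℝ (u i) x = (0 : ℝ)) → t < vol fun i => f (u i)

/-- (a) -/
def DualLarge {d : ℕ} (t : ℝ) (b : Fin d → E d) : Prop :=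
  2 ≤ d → ∀ w : E d, w ≠ 0 → InDual w b → t < exc b * (minL b * ‖w‖)

/-- (b) -/
def EndoLarge {d : ℕ} (τ : ℝ) (b : Fin d → E d) : Prop := ∀ f : E d → E d, IsLinearMap ℝ f → Keeps b f → 0 < rk f →
  rk f < d → Expands f (rk f) ((d.choose (rk f) : ℝ) ^ τ / exc b)

/-- bounds for the dimension of the space of the fixed vectors -/
def FixBound {d : ℕ} (τ ε c ρ : ℝ) (f : E d → E d) : Prop :=
  ((1 / 2 + ε) * d < fix f → (d.choose (fix f) : ℝ) ^ c < ρ) ∧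
  (∀ p a : ℕ, p.Prime → (∀ x, f^[p ^ a] x = x) →
    (d.choose (fix f) : ℝ) ^ (τ * ((p : ℝ) - 1)) < ρ ^ (p - 1) * (p : ℝ) ^ (d - fix f)) ∧
  ∀ n : ℕ, 0 < n → (∀ x, f^[n] x = x) → 0 < fix f → (d.choose (fix f) : ℝ) ^ τ < ρ * (n : ℝ) ^ fix f

/-- (c) -/
def FixSmall {d : ℕ} (τ ε c : ℝ) (b : Fin d → E d) : Prop := ∀ f : E d → E d, IsLinearMap ℝ f → (∀ x, ‖f x‖ = ‖x‖) →
  Keeps b f → (∃ x, f x ≠ x) → FixBound τ ε c (exc b) f

/-- the values -/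
def SplitLarge (τ : ℝ) (d : ℕ) : Prop :=
  ∀ k, 0 < k → k < d → (d.choose k : ℝ) ^ τ * delta d < delta k * delta (d - k)

/-- the rigid dimensions -/
def Rig (τ ε c : ℝ) (d : ℕ) : Prop := SplitLarge τ d ∧
  ∀ b : Fin d → E d, LinearIndependent ℝ b → DualLarge ((d : ℝ) ^ τ) b ∧ EndoLarge τ b ∧ FixSmall τ ε c b

theorem rk_eq {d : ℕ} (F : E d →ₗ[ℝ] E d) : rk F = Module.finrank ℝ (LinearMap.range F) := by
  unfold rk
  rw [← LinearMap.coe_range, Submodule.span_eq]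

theorem fix_eq {d : ℕ} (σ : E d ≃ₗᵢ[ℝ] E d) : fix σ = fixedDim σ := by
  unfold fix fixedDim
  have h : {x : E d | σ x = x} = (LinearMap.ker ((σ.toLinearEquiv : E d →ₗ[ℝ] E d) - LinearMap.id) : Set (E d)) := by
    ext x
    rw [SetLike.mem_coe, LinearMap.mem_ker, LinearMap.sub_apply, LinearMap.id_apply, sub_eq_zero]
    rfl
  rw [h, Submodule.span_eq]

/-- a norm preserving linear map as an isometry -/
theorem exists_iso {d : ℕ} {f : E d → E d} (hf : IsLinearMap ℝ f) (hn : ∀ x, ‖f x‖ = ‖x‖) :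
    ∃ σ : E d ≃ₗᵢ[ℝ] E d, ⇑σ = f := by
  let g : E d →ₗᵢ[ℝ] E d := ⟨hf.mk' f, hn⟩
  refine ⟨g.toLinearIsometryEquiv rfl, ?_⟩
  funext x
  rfl

theorem RigidDim.rig {τ ε c : ℝ} {d : ℕ} (h : RigidDim τ ε c d) : Rig τ ε c d := by
  refine ⟨h.1, fun b hb => ⟨(h.2 b hb).1, fun f hf hF h0 hlt => ?_, fun f hf hn hσ hne => ?_⟩⟩
  · exact (h.2 b hb).2.1 (hf.mk' f) hF (rk f) h0 hlt (rk_eq (hf.mk' f)).symm
  · obtain ⟨σ, rfl⟩ := exists_iso hf hn
    refine ⟨fun hlt => ?_, fun p a hp hpow => ?_, fun n hn hpow hpos => ?_⟩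
    · rw [fix_eq] at hlt ⊢
      exact ((h.2 b hb).2.2 σ hσ hne).1 hlt
    · rw [fix_eq]
      exact ((h.2 b hb).2.2 σ hσ hne).2.1 p a hp hpow
    · rw [fix_eq] at hpos ⊢
      exact ((h.2 b hb).2.2 σ hσ hne).2.2 n hn hpow hpos

open scoped Classical in
/-- **rigidity in many dimensions** -/
theorem part_rig (τ ε : ℝ) (hτ : τ < 1 / 2) (hε : 0 < ε) : ∃ c : ℝ, 0 < c ∧ ∃ K : ℕ, 2 ≤ K ∧ ∀ N : ℕ, 2 * K ≤ N →
    (N : ℝ) / (40 * K * Real.log N) ≤ (((Finset.Ioc (N / K) N).filter (fun d => Rig τ ε c d)).card : ℝ) := by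
  obtain ⟨c, hc, K, hK, h⟩ := part_rigid' τ ε hτ hε
  refine ⟨c, hc, K, hK, fun N hN => (h N hN).trans ?_⟩
  have : (Finset.Ioc (N / K) N).filter (fun d => RigidDim τ ε c d) ⊆
      (Finset.Ioc (N / K) N).filter (fun d => Rig τ ε c d) := by
    intro d hd
    rw [Finset.mem_filter] at hd ⊢
    exact ⟨hd.1, hd.2.rig⟩
  exact_mod_cast Finset.card_le_card this

/-- the values -/
def SplitLarge' (T θ η : ℝ) (d : ℕ) : Prop :=
  ∀ k, 0 < k → k < d → (k : ℝ) ≤ T * (d : ℝ) ^ θ → (T * (d : ℝ) ^ η) ^ k * delta d < delta k * delta (d - k)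

/-- (b) -/
def EndoLarge' {d : ℕ} (T θ η : ℝ) (b : Fin d → E d) : Prop := ∀ f : E d → E d, IsLinearMap ℝ f → Keeps b f →
  0 < rk f → rk f < d → (rk f : ℝ) ≤ T * (d : ℝ) ^ θ → Expands f (rk f) ((T * (d : ℝ) ^ η) ^ rk f / exc b)

/-- (c) -/
def FixSmall' {d : ℕ} (T θ η : ℝ) (b : Fin d → E d) : Prop := ∀ f : E d → E d, IsLinearMap ℝ f →
  (∀ x, ‖f x‖ = ‖x‖) → Keeps b f → (∃ x, f x ≠ x) → 0 < fix f → (d : ℝ) - fix f ≤ T * (d : ℝ) ^ θ →
    (T * (d : ℝ) ^ η) ^ (d - fix f) < exc b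

/-- the sparse dimensions -/
def Spa (T θ η : ℝ) (d : ℕ) : Prop := SplitLarge' T θ η d ∧
  ∀ b : Fin d → E d, LinearIndependent ℝ b →
    DualLarge (T * (d : ℝ) ^ η) b ∧ EndoLarge' T θ η b ∧ FixSmall' T θ η b

theorem SparseDim.spa {T θ η : ℝ} {d : ℕ} (h : SparseDim T θ η d) : Spa T θ η d := by
  refine ⟨h.1, fun b hb => ⟨(h.2 b hb).1, fun f hf hF h0 hlt hT => ?_, fun f hf hn hσ hne hfix hle => ?_⟩⟩
  · exact (h.2 b hb).2.1 (hf.mk' f) hF (rk f) h0 hlt hT (rk_eq (hf.mk' f)).symm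
  · obtain ⟨σ, rfl⟩ := exists_iso hf hn
    rw [fix_eq] at hfix hle ⊢
    exact (h.2 b hb).2.2 σ hσ hne hfix hle

open scoped Classical in
/-- **density** -/
theorem part_spa (T θ η ε : ℝ) (hT : 1 ≤ T) (hθ : 0 ≤ θ) (hη : 0 ≤ η) (h2 : 2 * η + θ < 2) (hε : 0 < ε) :
    ∃ N₀ : ℕ, ∀ N ≥ N₀, (1 - 1 / (2 - 2 * η - θ) - ε) * N ≤
      (((Finset.Icc 1 N).filter (fun d => Spa T θ η d)).card : ℝ) := by
  obtain ⟨N₀, h⟩ := part_sparse T θ η ε hT hθ hη h2 hε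
  refine ⟨N₀, fun N hN => (h N hN).trans ?_⟩
  have : (Finset.Icc 1 N).filter (fun d => SparseDim T θ η d) ⊆ (Finset.Icc 1 N).filter (fun d => Spa T θ η d) := by
    intro d hd
    rw [Finset.mem_filter] at hd ⊢
    exact ⟨hd.1, hd.2.spa⟩
  exact_mod_cast Finset.card_le_card this

end CritL
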