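import Pool.Agent.Lib.CritL.AutOrd
import Pool.Agent.Lib.CritL.Final5

/-!
# The number of the automorphisms: final form
-/

set_option autoImplicit false

namespace CritL

open Matrix

/-- the automorphisms of the lattice of `b` -/
def auts {d : ℕ} (b : Fin d → E d) : Set (E d → E d) :=
  {f | IsLinearMap ℝ f ∧ (∀ x, ‖f x‖ = ‖x‖) ∧ ∀ x ∈ lat b, f x ∈ lat b}

theorem auts_eq {d : ℕ} (b : Fin d → E d) :
    auts b = (fun σ : E d ≃ₗᵢ[ℝ] E d => (σ : E d → E d)) '' {σ | ∀ x ∈ lat b, σ x ∈ lat b} := by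
  ext f
  constructor
  · rintro ⟨hf, hn, hl⟩
    obtain ⟨σ, rfl⟩ := exists_iso hf hn
    exact ⟨σ, hl, rfl⟩
  · rintro ⟨σ, hσ, rfl⟩
    exact ⟨⟨σ.map_add, fun c x => σ.map_smul c x⟩, σ.norm_map, hσ⟩

/-- few automorphisms -/
def FewAuts (C : ℝ) (d : ℕ) : Prop := ∀ b : Fin d → E d, LinearIndependent ℝ b →
  (auts b).Finite ∧ ((auts b).ncard : ℝ) ≤ C ^ d * exc b ^ (C * Real.log d)

open scoped Classical in
/-- **the number of the automorphisms** -/
theorem part_aut : ∃ C : ℝ, 0 < C ∧ ∃ K : ℕ, 2 ≤ K ∧ ∀ N : ℕ, 2 * K ≤ N →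
    (N : ℝ) / (40 * K * Real.log N) ≤ (((Finset.Ioc (N / K) N).filter (fun d => FewAuts C d)).card : ℝ) := by
  obtain ⟨c, hc, K, hK, h⟩ := part_rigid' (2 / 5) (1 / 4) (by norm_num) (by norm_num)
  obtain ⟨C, hC, hb⟩ := order_bound hc
  refine ⟨Real.exp C, Real.exp_pos C, K, hK, fun N hN => (h N hN).trans ?_⟩
  have hsub : (Finset.Ioc (N / K) N).filter (fun d => RigidDim (2 / 5) (1 / 4) c d) ⊆
      (Finset.Ioc (N / K) N).filter (fun d => FewAuts (Real.exp C) d) := by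
    intro d hd
    rw [Finset.mem_filter, Finset.mem_Ioc] at hd ⊢
    obtain ⟨⟨hd1, hdN⟩, hR⟩ := hd
    refine ⟨⟨hd1, hdN⟩, fun b hb' => ?_⟩
    have h2 : 2 ≤ N / K := (Nat.le_div_iff_mul_le (by omega)).2 hN
    obtain ⟨hf, hn⟩ := hb d (by omega) hR b hb'
    rw [auts_eq]
    refine ⟨hf.image _, ?_⟩
    rw [Set.ncard_image_of_injective _ (fun σ τ h => LinearIsometryEquiv.ext (congrFun h))]
    refine hn.trans ?_
    have he1 := one_le_exc (by omega) hb'
    have he0 : 0 < exc b := by linarith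
    have hl : 0 ≤ Real.log (d : ℝ) := Real.log_natCast_nonneg d
    have h3 : Real.exp (C * (d + Real.log (exc b) * Real.log d)) = Real.exp C ^ d * exc b ^ (C * Real.log d) := by
      rw [Real.rpow_def_of_pos he0, ← Real.exp_nat_mul, ← Real.exp_add]
      congr 1
      ring
    rw [h3]
    have h4 : C ≤ Real.exp C := by
      have := Real.add_one_le_exp C
      linarith
    exact mul_le_mul_of_nonneg_left (Real.rpow_le_rpow_of_exponent_le he1 (mul_le_mul_of_nonneg_right h4 hl))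
      (by positivity)
  exact_mod_cast Finset.card_le_card hsub

end CritL
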