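import Pool.Agent.Lib.CritL.AutSum

/-!
# Valuations
-/

set_option autoImplicit false

namespace CritL

open Finset

theorem prod_Ico_mul {p L U : ℕ} (hLU : L ≤ U) :
    ∏ s ∈ Ico (L + 1) (U + 1), p * s = p ^ (U - L) * (U.choose L * (U - L).factorial) := by
  rw [prod_mul_distrib, prod_const, Nat.card_Ico]
  congr 1
  · congr 1
    omega
  · have h1 := Finset.prod_Ico_id_eq_factorial L
    have h2 := Finset.prod_Ico_id_eq_factorial U
    have h3 := Finset.prod_Ico_consecutive (fun x : ℕ => x) (show 1 ≤ L + 1 by omega) (show L + 1 ≤ U + 1 by omega)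
    rw [h1, h2] at h3
    have h4 := Nat.choose_mul_factorial_mul_factorial hLU
    have h5 : L.factorial * ∏ x ∈ Ico (L + 1) (U + 1), x = L.factorial * (U.choose L * (U - L).factorial) := by
      rw [h3, ← h4]
      ring
    exact Nat.eq_of_mul_eq_mul_left (Nat.factorial_pos L) h5

theorem log_mul_le (p U : ℕ) (hp : p.Prime) : (Nat.log p U : ℝ) * Real.log p ≤ Real.log U := by
  rcases Nat.eq_zero_or_pos U with rfl | hU
  · simp
  · have h1 : (p : ℝ) ^ Nat.log p U ≤ U := by exact_mod_cast Nat.pow_log_le_self p hU.ne'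
    have hp0 : (0 : ℝ) < p := by exact_mod_cast hp.pos
    have h2 := Real.log_le_log (by positivity) h1
    rwa [Real.log_pow] at h2

theorem log_nat_nonneg (U : ℕ) : 0 ≤ Real.log U := Real.log_natCast_nonneg U

theorem fac_Ico {p L U : ℕ} (hp : p.Prime) :
    ((∏ s ∈ Ico (L + 1) (U + 1), p * s).factorization p : ℝ) * Real.log p ≤
      Real.log U + 2 * ((U - L : ℕ) : ℝ) * Real.log p := by
  have hl := (log_prime_pos hp).le
  rcases le_total L U with hLU | hUL
  · rw [prod_Ico_mul hLU, Nat.factorization_mul (pow_pos hp.pos _).ne'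
      (Nat.mul_ne_zero (Nat.choose_pos hLU).ne' (Nat.factorial_ne_zero _)),
      Nat.factorization_mul (Nat.choose_pos hLU).ne' (Nat.factorial_ne_zero _), Finsupp.add_apply, Finsupp.add_apply,
      hp.factorization_pow, Finsupp.single_eq_same]
    have h1 : (U.choose L).factorization p ≤ Nat.log p U := Nat.factorization_choose_le_log
    have h2 : (U - L).factorial.factorization p ≤ U - L :=
      (Nat.factorization_factorial_le_div_pred hp _).trans (Nat.div_le_self _ _)
    have h3 : (((U - L) + ((U.choose L).factorization p + (U - L).factorial.factorization p) : ℕ) : ℝ) ≤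
        ((U - L) + (Nat.log p U + (U - L)) : ℕ) := by exact_mod_cast by omega
    have h4 := mul_le_mul_of_nonneg_right h3 hl
    have h5 := log_mul_le p U hp
    push_cast at h4 ⊢
    nlinarith
  · rw [Finset.Ico_eq_empty_of_le (by omega), prod_empty]
    have := log_nat_nonneg U
    simp
    positivity

theorem fac_first {p K k0 : ℕ} (hp : p.Prime) (hK : p * K ≤ 2 * k0) :
    (∏ s ∈ Ico (0 + 1) (K + 1), p * s).factorization p ≤ (2 * k0).factorial.factorization p := by
  rw [prod_Ico_mul (Nat.zero_le K), Nat.choose_zero_right, one_mul, Nat.sub_zero,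
    Nat.factorization_mul (pow_pos hp.pos _).ne' (Nat.factorial_ne_zero _), Finsupp.add_apply,
    hp.factorization_pow, Finsupp.single_eq_same, add_comm, ← Nat.factorization_factorial_mul hp]
  exact (Nat.factorization_le_iff_dvd (Nat.factorial_ne_zero _) (Nat.factorial_ne_zero _)).2
    (Nat.factorial_dvd_factorial hK) p

/-- the set of the quotients -/
def SS (d k0 M p : ℕ) : Finset ℕ := Ico (0 + 1) (k0 / (p - 1) + 1) ∪ Ico ((d - M - 1) / p + 1) (d / (p - 1) + 1)

theorem term_le {d k0 M p h : ℕ} (hd : 0 < d) (hk0 : k0 ≤ d) (hp : p.Prime)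
    (hdvd : p ^ h ∣ ∏ s ∈ SS d k0 M p, p * s) : (h = 0 ∨ p ∈ P1 d) ∧ (p ∈ P1 d → (h : ℝ) * Real.log p ≤
      (2 * k0).factorial.factorization p * Real.log p + Real.log ((d : ℝ) / (p - 1)) +
      2 * (Real.log p * ((d : ℝ) / (p * (p - 1)) + (M + 1) / p + 1))) := by
  have hp2 := hp.two_le
  have hpos : ∀ s ∈ SS d k0 M p, 0 < s := by
    intro s hs
    unfold SS at hs
    rw [mem_union, mem_Ico, mem_Ico] at hs
    rcases hs with h | h
    · exact lt_of_lt_of_le (Nat.succ_pos _) h.1
    · exact lt_of_lt_of_le (Nat.succ_pos _) h.1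
  refine ⟨?_, fun hpP => ?_⟩
  · by_contra hcon
    push Not at hcon
    obtain ⟨hh, hP⟩ := hcon
    rw [mem_P1] at hP
    have hbig : d + 1 < p := by
      by_contra h1
      exact hP ⟨by omega, hp⟩
    have h1 : SS d k0 M p = ∅ := by
      unfold SS
      rw [Nat.div_eq_of_lt (show k0 < p - 1 by omega), Nat.div_eq_of_lt (show d < p - 1 by omega)]
      rw [Ico_eq_empty_of_le (le_refl _), Ico_eq_empty_of_le (Nat.succ_le_succ (Nat.zero_le _)), empty_union]
    rw [h1, prod_empty, Nat.dvd_one] at hdvd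
    have := Nat.one_lt_pow hh hp.one_lt
    omega
  · have hl := (log_prime_pos hp).le
    set A := ∏ s ∈ Ico (0 + 1) (k0 / (p - 1) + 1), p * s with hA
    set B := ∏ s ∈ Ico ((d - M - 1) / p + 1) (d / (p - 1) + 1), p * s with hB
    have hA0 : A ≠ 0 := by
      rw [hA, Finset.prod_ne_zero_iff]
      intro s hs
      rw [mem_Ico] at hs
      exact Nat.mul_ne_zero hp.ne_zero (by omega)
    have hB0 : B ≠ 0 := by
      rw [hB, Finset.prod_ne_zero_iff]
      intro s hs
      rw [mem_Ico] at hs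
      exact Nat.mul_ne_zero hp.ne_zero (lt_of_lt_of_le (Nat.succ_pos _) hs.1).ne'
    have h1 : p ^ h ∣ A * B := by
      refine hdvd.trans ?_
      rw [hA, hB, ← Finset.prod_union_inter]
      exact Dvd.intro _ rfl
    have h2 : h ≤ A.factorization p + B.factorization p := by
      have h3 := (Nat.factorization_le_iff_dvd (pow_pos hp.pos h).ne' (Nat.mul_ne_zero hA0 hB0)).2 h1 p
      rwa [hp.factorization_pow, Finsupp.single_eq_same, Nat.factorization_mul hA0 hB0, Finsupp.add_apply] at h3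
    have h4 : A.factorization p ≤ (2 * k0).factorial.factorization p := by
      refine fac_first hp ?_
      have h5 : p * (k0 / (p - 1)) ≤ 2 * ((p - 1) * (k0 / (p - 1))) := by
        have : p ≤ 2 * (p - 1) := by omega
        calc p * (k0 / (p - 1)) ≤ 2 * (p - 1) * (k0 / (p - 1)) := Nat.mul_le_mul_right _ this
          _ = _ := by ring
      have h6 : (p - 1) * (k0 / (p - 1)) ≤ k0 := Nat.mul_div_le _ _
      omega
    have h5 := fac_Ico (p := p) (L := (d - M - 1) / p) (U := d / (p - 1)) hp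
    have hp1 : (0 : ℝ) < (p : ℝ) - 1 := by
      have : (2 : ℝ) ≤ p := by exact_mod_cast hp2
      linarith
    have hp0 : (0 : ℝ) < p := by linarith
    have hcast : ((p - 1 : ℕ) : ℝ) = (p : ℝ) - 1 := by
      rw [Nat.cast_sub (by omega)]
      simp
    have hU : ((d / (p - 1) : ℕ) : ℝ) ≤ (d : ℝ) / (p - 1) := by
      rw [← hcast]
      exact Nat.cast_div_le
    have h6 : Real.log ((d / (p - 1) : ℕ) : ℝ) ≤ Real.log ((d : ℝ) / (p - 1)) := by
      rcases Nat.eq_zero_or_pos (d / (p - 1)) with h0 | h0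
      · rw [h0, Nat.cast_zero, Real.log_zero]
        apply Real.log_nonneg
        rw [le_div_iff₀ hp1, one_mul, ← hcast]
        have := (mem_P1.1 hpP).1
        exact_mod_cast (show p - 1 ≤ d by omega)
      · exact Real.log_le_log (by exact_mod_cast h0) hU
    have h7 : (((d / (p - 1) - (d - M - 1) / p : ℕ)) : ℝ) ≤ (d : ℝ) / (p * (p - 1)) + (M + 1) / p + 1 := by
      have hL : ((d : ℝ) - M - 1) / p - 1 ≤ (((d - M - 1) / p : ℕ) : ℝ) := by
        have h8 : ((d - M - 1 : ℕ) : ℝ) / p < (((d - M - 1) / p : ℕ) : ℝ) + 1 := by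
          rw [div_lt_iff₀ hp0]
          have h9 := Nat.lt_mul_div_succ (d - M - 1) hp.pos
          have h10 : ((d - M - 1 : ℕ) : ℝ) < (p : ℝ) * (((d - M - 1) / p : ℕ) + 1) := by exact_mod_cast h9
          linarith
        have h9 : (d : ℝ) - M - 1 ≤ ((d - M - 1 : ℕ) : ℝ) := by
          have : (d : ℤ) - M - 1 ≤ ((d - M - 1 : ℕ) : ℤ) := by omega
          exact_mod_cast this
        have h10 : ((d : ℝ) - M - 1) / p ≤ ((d - M - 1 : ℕ) : ℝ) / p := by gcongr
        linarith
      have hR : 0 ≤ (d : ℝ) / (p * (p - 1)) + (M + 1) / p + 1 := by positivity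
      have hid : (d : ℝ) / (p - 1) - (((d : ℝ) - M - 1) / p - 1) = (d : ℝ) / (p * (p - 1)) + (M + 1) / p + 1 := by
        field_simp
        ring
      rcases le_total ((d - M - 1) / p) (d / (p - 1)) with hle | hle
      · rw [Nat.cast_sub hle]
        linarith
      · rw [Nat.sub_eq_zero_of_le hle]
        simpa using hR
    have h8 : (h : ℝ) * Real.log p ≤ (A.factorization p : ℝ) * Real.log p + (B.factorization p : ℝ) * Real.log p := by
      rw [← add_mul]
      exact mul_le_mul_of_nonneg_right (by exact_mod_cast h2) hl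
    have h9 : (A.factorization p : ℝ) * Real.log p ≤ (2 * k0).factorial.factorization p * Real.log p :=
      mul_le_mul_of_nonneg_right (by exact_mod_cast h4) hl
    have h10 := mul_le_mul_of_nonneg_right h7 hl
    nlinarith

theorem log_bound {d k0 h : ℕ} {M : ℕ → ℕ} (hd : 0 < d) (hk0 : k0 ≤ d) (hh : h ≠ 0)
    (hdvd : ∀ p, p.Prime → p ^ h.factorization p ∣ ∏ s ∈ SS d k0 (M p) p, p * s) :
    Real.log h ≤ Real.log (2 * k0).factorial + d +
      2 * ∑ p ∈ P1 d, Real.log p * ((d : ℝ) / (p * (p - 1)) + (M p + 1) / p + 1) := by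
  rw [log_eq_sum hh]
  have h1 : ∑ p ∈ h.primeFactors, (h.factorization p : ℝ) * Real.log p ≤
      ∑ p ∈ P1 d, (h.factorization p : ℝ) * Real.log p := by
    refine sum_le_sum_of_subset_of_nonneg (fun p hp => ?_) fun p hp _ => ?_
    · have hp' := Nat.prime_of_mem_primeFactors hp
      refine ((term_le hd hk0 hp' (hdvd p hp')).1).resolve_left ?_
      rw [← Nat.support_factorization] at hp
      exact Finsupp.mem_support_iff.1 hp
    · have := log_prime_pos (mem_P1.1 hp).2
      positivity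
  refine h1.trans ?_
  have h2 : ∑ p ∈ P1 d, (h.factorization p : ℝ) * Real.log p ≤ ∑ p ∈ P1 d,
      ((2 * k0).factorial.factorization p * Real.log p + Real.log ((d : ℝ) / (p - 1)) +
      2 * (Real.log p * ((d : ℝ) / (p * (p - 1)) + (M p + 1) / p + 1))) :=
    sum_le_sum fun p hp => (term_le hd hk0 (mem_P1.1 hp).2 (hdvd p (mem_P1.1 hp).2)).2 hp
  refine h2.trans ?_
  rw [sum_add_distrib, sum_add_distrib, ← mul_sum]
  have h3 := sum_fac_le (Nat.factorial_ne_zero (2 * k0)) (s := P1 d) fun p hp => (mem_P1.1 hp).2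
  have h4 := sum_log_quot d hd
  linarith

/-- **the numerical bound** -/
theorem log_final (c1 c2 : ℝ) (hc1 : 0 ≤ c1) (hc2 : 0 ≤ c2) : ∃ C : ℝ, 0 < C ∧ ∀ (d k0 h : ℕ) (M : ℕ → ℕ) (l : ℝ),
    2 ≤ d → k0 ≤ d → h ≠ 0 → 0 ≤ l → (k0 : ℝ) ≤ c2 * l →
    (∀ p, p.Prime → (M p : ℝ) ≤ c1 * (l + d * Real.log p / (p - 1))) →
    (∀ p, p.Prime → p ^ h.factorization p ∣ ∏ s ∈ SS d k0 (M p) p, p * s) →
    Real.log h ≤ C * (d + l * Real.log d) := by
  obtain ⟨C0, hC0, hS⟩ := sum_sq_P1
  refine ⟨15 + 4 * C0 + 2 * c1 * C0 + 4 * c2 + 8 * c1, by positivity, ?_⟩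
  intro d k0 h M l hd hk0 hh hl hk hM hdvd
  have hb := log_bound (by omega) hk0 hh hdvd
  have hd2 : (2 : ℝ) ≤ d := by exact_mod_cast hd
  have hd0 : (0 : ℝ) < d := by linarith
  have hlog : 0 ≤ Real.log d := log_nat_nonneg d
  have hlog2 : Real.log 2 ≤ Real.log d := Real.log_le_log (by norm_num) hd2
  have hlogd : Real.log d ≤ d := (Real.log_le_sub_one_of_pos hd0).trans (by linarith)
  -- the factorial
  have h1 : Real.log (2 * k0).factorial ≤ 4 * c2 * l * Real.log d := by
    rcases Nat.eq_zero_or_pos k0 with h0 | h0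
    · subst h0
      simp
      positivity
    · have h2 : (((2 * k0).factorial : ℕ) : ℝ) ≤ ((2 * k0 : ℕ) : ℝ) ^ (2 * k0) := by
        exact_mod_cast Nat.factorial_le_pow (2 * k0)
      have h3 := Real.log_le_log (by positivity) h2
      rw [Real.log_pow] at h3
      have h4 : Real.log ((2 * k0 : ℕ) : ℝ) ≤ 2 * Real.log d := by
        have h5 : ((2 * k0 : ℕ) : ℝ) ≤ (d : ℝ) ^ 2 := by
          have : (k0 : ℝ) ≤ d := by exact_mod_cast hk0
          push_cast
          nlinarith
        have h6 := Real.log_le_log (by positivity) h5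
        rwa [Real.log_pow] at h6
      have h5 : ((2 * k0 : ℕ) : ℝ) * Real.log ((2 * k0 : ℕ) : ℝ) ≤ (2 * (c2 * l)) * (2 * Real.log d) := by
        refine mul_le_mul ?_ h4 (log_nat_nonneg _) (by positivity)
        push_cast
        linarith
      linarith
  -- the sum
  have hA := sum_log_P1 d
  have hB := sum_log_div_P1 d
  have hC := hS d
  have h2 : ∑ p ∈ P1 d, Real.log p * ((d : ℝ) / (p * (p - 1)) + (M p + 1) / p + 1) ≤
      (2 * d + c1 * d) * ∑ p ∈ P1 d, Real.log p ^ 2 / (p * (p - 1)) + (c1 * l + 1) * ∑ p ∈ P1 d, Real.log p / p +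
        ∑ p ∈ P1 d, Real.log p := by
    rw [mul_sum, mul_sum, ← sum_add_distrib, ← sum_add_distrib]
    refine sum_le_sum fun p hp => ?_
    have hp' := (mem_P1.1 hp).2
    have hlp := log_prime_pos hp'
    have hp2 : (2 : ℝ) ≤ p := by exact_mod_cast hp'.two_le
    have hp1 : (0 : ℝ) < (p : ℝ) - 1 := by linarith
    have hp0 : (0 : ℝ) < p := by linarith
    have h3 : (1 : ℝ) ≤ 2 * Real.log p := by
      have h4 : Real.log 2 ≤ Real.log p := Real.log_le_log (by norm_num) hp2
      have h5 := Real.log_two_gt_d9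
      linarith
    have h4 : Real.log p * ((d : ℝ) / (p * (p - 1))) ≤ 2 * d * (Real.log p ^ 2 / (p * (p - 1))) := by
      have h5 : 0 ≤ (d : ℝ) / (p * (p - 1)) * Real.log p := by positivity
      calc Real.log p * ((d : ℝ) / (p * (p - 1))) = (d : ℝ) / (p * (p - 1)) * Real.log p * 1 := by ring
        _ ≤ (d : ℝ) / (p * (p - 1)) * Real.log p * (2 * Real.log p) := by gcongr
        _ = _ := by ring
    have h5 : Real.log p * (M p / p) ≤ c1 * l * (Real.log p / p) + c1 * d * (Real.log p ^ 2 / (p * (p - 1))) := by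
      have h6 : Real.log p * (M p / p) ≤ Real.log p * (c1 * (l + d * Real.log p / (p - 1)) / p) := by
        have := hM p hp'
        gcongr
      refine h6.trans_eq ?_
      field_simp
    calc Real.log p * ((d : ℝ) / (p * (p - 1)) + (M p + 1) / p + 1)
        = Real.log p * ((d : ℝ) / (p * (p - 1))) + Real.log p * (M p / p) + Real.log p / p + Real.log p := by ring
      _ ≤ 2 * d * (Real.log p ^ 2 / (p * (p - 1))) + (c1 * l * (Real.log p / p) +
          c1 * d * (Real.log p ^ 2 / (p * (p - 1)))) + Real.log p / p + Real.log p := by linarith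
      _ = _ := by ring
  have hlog4 : Real.log 4 = 2 * Real.log 2 := by
    rw [show (4 : ℝ) = 2 ^ 2 by norm_num, Real.log_pow]
    norm_num
  have h3 : Real.log ((d : ℝ) + 1) ≤ 2 * Real.log d := by
    have h4 : (d : ℝ) + 1 ≤ (d : ℝ) ^ 2 := by nlinarith
    have h5 := Real.log_le_log (by positivity) h4
    rwa [Real.log_pow] at h5
  have h4 : ∑ p ∈ P1 d, Real.log p / p ≤ 4 * Real.log d := by linarith
  have h5 : ∑ p ∈ P1 d, Real.log p ≤ 3 * d := by
    have h6 := Real.log_two_lt_d9
    have h7 : ((d : ℝ) + 1) * Real.log 4 ≤ ((d : ℝ) + 1) * (2 * 0.6931471808) := by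
      rw [hlog4]
      gcongr
    linarith
  have h6 : (2 * d + c1 * d) * ∑ p ∈ P1 d, Real.log p ^ 2 / (p * (p - 1)) ≤ (2 * d + c1 * d) * C0 := by gcongr
  have h7 : (c1 * l + 1) * ∑ p ∈ P1 d, Real.log p / p ≤ (c1 * l + 1) * (4 * Real.log d) := by gcongr
  have h8 : 0 ≤ l * Real.log d := by positivity
  have h9 : 0 ≤ c2 * (d : ℝ) := by positivity
  have h10 : 0 ≤ c1 * (d : ℝ) := by positivity
  have h11 : 0 ≤ C0 * (l * Real.log d) := by positivity
  have h12 : 0 ≤ c1 * C0 * (l * Real.log d) := by positivity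
  nlinarith

end CritL
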