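import Pool.Agent.Lib.CritL.Dual

/-!
# Reflections and short dual vectors of critical lattices
-/

set_option autoImplicit false

namespace CritL

open Matrix

/-- some critical lattice in dimension `d` is preserved by a reflection -/
def HasReflection (d : ℕ) : Prop := ∃ b : Fin d → E d, IsCritical b ∧ ∃ v : E d, v ≠ 0 ∧ Preserves v b

/-- `w` is a vector of the dual lattice -/
def InDual {d : ℕ} (w : E d) (b : Fin d → E d) : Prop := ∀ x ∈ lat b, ∃ k : ℤ, inner ℝ w x = (k : ℝ)

/-- some critical lattice `L` in dimension `d` has a nonzero dual vector of length at most `T` divided by the minimum -/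
def HasShortDual (T : ℝ) (d : ℕ) : Prop :=
  ∃ b : Fin d → E d, IsCritical b ∧ ∃ w : E d, w ≠ 0 ∧ InDual w b ∧ minL b * ‖w‖ ≤ T

/-- the volume of the parallelepiped spanned by `w` -/
noncomputable def vol {n d : ℕ} (w : Fin n → E d) : ℝ := Real.sqrt (Matrix.of fun i j => inner ℝ (w i) (w j)).det

theorem part_short {d : ℕ} (hd : 0 < d) {b : Fin d → E d} (hb : IsCritical b) {n : ℕ} {w : Fin n → E d}
    (hw : LinearIndependent ℝ w) (h : ∀ i, InDual (w i) b ∧ minL b * ‖w i‖ ≤ 2) : n ≤ 23 := by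
  obtain ⟨W, hWi, hWg⟩ := exists_int_matrix hd hb.1 fun i => (h i).1
  refine lt_24 (nf_adm hd hb.1) (nf_crit hd hb) W (hWi hw) fun i => ?_
  have h1 := congrFun (congrFun hWg i) i
  have h2 : (rw' W * (nf b)⁻¹ * (rw' W)ᵀ) i i = qf (nf b)⁻¹ (ic (W i)) := by
    unfold qf
    rw [Matrix.mul_assoc]
    simp only [mul_apply, dotProduct, mulVec, transpose_apply, rw', map_apply, ic]
  rw [← h2, h1, Matrix.smul_apply, gm_apply, real_inner_self_eq_norm_sq, smul_eq_mul, ← mul_pow]
  have := minL_pos hd hb.1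
  have h3 := pow_le_pow_left₀ (by positivity) (h i).2 2
  linarith

theorem short_or {T : ℝ} {d : ℕ} (hd : 0 < d) (h : HasReflection d ∨ HasShortDual T d) :
    ShortK (max 4 (T ^ 2)) d := by
  have mono : ∀ K, K ≤ max 4 (T ^ 2) → ShortK K d → ShortK (max 4 (T ^ 2)) d := by
    rintro K hK ⟨P, hP, hcr, u, hu, h4⟩
    exact ⟨P, hP, hcr, u, hu, h4.trans hK⟩
  rcases h with ⟨b, hb, v, hv, hp⟩ | ⟨b, hb, w, hw, hint, hT⟩
  · exact mono 4 (le_max_left _ _) (short_of hd hb hv hp)
  · exact mono (T ^ 2) (le_max_right _ _) (shortK_of hd hb hw hint hT)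

theorem part_window (m : ℕ) : ∃ d, m < d ∧ d ≤ m + 24 ∧ ¬ HasReflection d ∧ ¬ HasShortDual 2 d := by
  obtain ⟨d, h1, h2, h3⟩ := window m
  have h4 : ¬ (HasReflection d ∨ HasShortDual 2 d) := by
    intro h
    apply h3
    have h5 := short_or (by omega) h
    have : max (4 : ℝ) (2 ^ 2) = 4 := by norm_num
    rwa [this] at h5
  exact ⟨d, h1, h2, fun h => h4 (Or.inl h), fun h => h4 (Or.inr h)⟩

open scoped Classical in
theorem part_density (T ε : ℝ) (hε : 0 < ε) :
    ∃ N₀ : ℕ, ∀ N ≥ N₀,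
      (((Finset.Icc 1 N).filter (fun d => HasReflection d ∨ HasShortDual T d)).card : ℝ) ≤ (1 / 2 + ε) * N := by
  obtain ⟨N₀, h⟩ := density (max 4 (T ^ 2)) ε hε
  refine ⟨N₀, fun N hN => le_trans ?_ (h N hN)⟩
  have hsub : (Finset.Icc 1 N).filter (fun d => HasReflection d ∨ HasShortDual T d) ⊆
      (Finset.Icc 1 N).filter (fun d => ShortK (max 4 (T ^ 2)) d) := by
    intro d hd
    rw [Finset.mem_filter, Finset.mem_Icc] at hd ⊢
    exact ⟨hd.1, short_or (by omega) hd.2⟩
  exact_mod_cast Finset.card_le_card hsub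

theorem part_volume {n d : ℕ} (hn : 1 ≤ n) (hnd : n < d) {b : Fin d → E d} (hb : IsCritical b) {w : Fin n → E d}
    (hw : LinearIndependent ℝ w) (hint : ∀ i, InDual (w i) b) {c : Fin n → E n} (hc : LinearIndependent ℝ c) :
    1 < minL b ^ n * vol w * ratio c := by
  obtain ⟨m, rfl⟩ : ∃ m, d = n + m := ⟨d - n, by omega⟩
  have hd : 0 < n + m := by omega
  have h1 := dual_vol (by omega) (by omega) hb hw hint (nf_adm (by omega) hc)
  rw [nf_det] at h1
  have hl := minL_pos hd hb.1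
  have hlc := minL_pos (by omega) hc
  have hr : 0 ≤ ratio c := by
    unfold ratio detL
    positivity
  have hg : (gm w) = Matrix.of fun i j => inner ℝ (w i) (w j) := by
    funext i j
    rw [gm_apply]
    rfl
  have hv : vol w ^ 2 = (gm w).det := by
    unfold vol
    rw [← hg, Real.sq_sqrt (gm_pd hw).det_pos.le]
  have h2 : (1 : ℝ) ^ 2 < (minL b ^ n * vol w * ratio c) ^ 2 := by
    rw [one_pow, mul_pow, mul_pow, hv, ← pow_mul, mul_comm n 2, pow_mul]
    exact h1
  refine lt_of_pow_lt_pow_left₀ 2 ?_ h2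
  have : 0 ≤ vol w := Real.sqrt_nonneg _
  positivity

end CritL
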