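import Pool.Agent.Lib.CritL.Tree

/-!
# The tree argument, local form
-/

set_option autoImplicit false

namespace CritL

open TreeAux

open scoped Classical in
/-- **the tree argument**, local form -/
theorem tree_loc' (D : ℕ → ℝ) (B : Set ℕ) (hlow : ∀ n, 1 ≤ n → 1 / ((n + 3).factorial : ℝ) ≤ D n)
    (hup : ∀ n, 1 ≤ n → D n ≤ (25 / (n : ℝ)) ^ n)
    (hM : ∀ n, 2 ≤ n → D n ^ (n + 1) ≤ D (n + 1) ^ (n - 1)) (s : ℝ) (hs : 0 < s) (hs1 : s < 1)
    (hB : ∀ d ∈ B, 2 ≤ d → ∃ k m : ℕ, 1 ≤ k ∧ 1 ≤ m ∧ k + m = d ∧ Real.log (D k) + Real.log (D m) ≤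
      s * ((d : ℝ) * Real.log (d : ℝ) - (k : ℝ) * Real.log (k : ℝ) - (m : ℝ) * Real.log (m : ℝ)) + Real.log (D d)) :
    ∃ K : ℕ, 2 ≤ K ∧ ∀ N : ℕ, 2 * K ≤ N →
      (N : ℝ) / (40 * K * Real.log N) ≤ (((Finset.Ioc (N / K) N).filter (fun d => d ∉ B)).card : ℝ) := by
  have hs' : 0 < 1 - s := by linarith
  obtain ⟨K₁, hK₁⟩ := exists_nat_ge (Real.exp ((12 + Real.log 25 + 1) / (1 - s)))
  set K : ℕ := max 2 K₁ with hKd
  have hK2 : 2 ≤ K := le_max_left _ _
  have hK2r : (2 : ℝ) ≤ K := by exact_mod_cast hK2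
  have hKr : (0 : ℝ) < K := by linarith
  have hKlog : 12 + Real.log 25 + 1 ≤ (1 - s) * Real.log K := by
    have h1 : Real.exp ((12 + Real.log 25 + 1) / (1 - s)) ≤ K :=
      hK₁.trans (by exact_mod_cast le_max_right 2 K₁)
    have h2 : (12 + Real.log 25 + 1) / (1 - s) ≤ Real.log K := by
      rw [Real.le_log_iff_exp_le hKr]
      exact h1
    rw [div_le_iff₀ hs'] at h2
    linarith
  refine ⟨K, hK2, fun N hN => ?_⟩
  have hN0 : 0 < N := by omega
  have hNr : (0 : ℝ) < N := by exact_mod_cast hN0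
  have hN3 : 3 ≤ N := by omega
  set M : ℕ := N / K with hMd
  have hM2 : 2 ≤ M := by
    rw [hMd, Nat.le_div_iff_mul_le (by omega)]
    exact hN
  have hMr : (2 : ℝ) ≤ M := by exact_mod_cast hM2
  have hM0 : (0 : ℝ) < M := by linarith
  have hMK : M * K ≤ N := Nat.div_mul_le_self N K
  have hMKr : (M : ℝ) * K ≤ N := by exact_mod_cast hMK
  have hMN : M ≤ N := Nat.div_le_self N K
  have hMlow : (N : ℝ) / (2 * K) ≤ M := by
    have h1 : N < (M + 1) * K := by
      have := Nat.lt_div_mul_add (a := N) (b := K) (by omega)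
      rw [← hMd] at this
      linarith [this]
    have h1r : (N : ℝ) < (M + 1) * K := by exact_mod_cast h1
    have h2 : (2 : ℝ) * K ≤ N := by exact_mod_cast hN
    rw [div_le_iff₀ (by positivity)]
    nlinarith
  have hind := ind D B hlow hM s hs hs1 hB M hM2 N (by omega)
  have hlow' := r_low D hlow hup N (by omega)
  have hW1 : 1 ≤ W B M N := by
    have h1 : ((1 - s) * Real.log N - Real.log 25) * N ≤
        ((1 - s) * Real.log M + 12 + W B M N) * N := by
      linarith
    have h2 := le_of_mul_le_mul_right h1 hNr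
    have h3 : Real.log M + Real.log K ≤ Real.log N := by
      rw [← Real.log_mul hM0.ne' hKr.ne']
      exact Real.log_le_log (by positivity) hMKr
    have h4 : (1 - s) * (Real.log M + Real.log K) ≤ (1 - s) * Real.log N :=
      mul_le_mul_of_nonneg_left h3 hs'.le
    linarith
  have hlogN : 0 < Real.log N := Real.log_pos (by
    have : (3 : ℝ) ≤ N := by exact_mod_cast hN3
    linarith)
  have hLN := L_le N hN3
  have hcard : W B M N ≤ (((Finset.Ioc M N).filter (fun d => d ∉ B)).card : ℝ)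
      * (20 * Real.log N / M) := by
    have h1 : W B M N ≤ ∑ g ∈ (Finset.Ioc M N).filter (fun g => g ∉ B),
        (20 * Real.log N / M) := by
      unfold W
      refine Finset.sum_le_sum fun g hg => ?_
      obtain ⟨hg1, -⟩ := Finset.mem_filter.1 hg
      obtain ⟨hg2, hg3⟩ := Finset.mem_Ioc.1 hg1
      have hgr : (M : ℝ) ≤ g := by exact_mod_cast hg2.le
      have h2 : L g ≤ 20 * Real.log N := (L_mono hg3).trans hLN
      exact div_le_div₀ (by positivity) h2 hM0 hgr
    rw [Finset.sum_const, nsmul_eq_mul] at h1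
    exact h1
  set X : ℝ := (((Finset.Ioc M N).filter (fun d => d ∉ B)).card : ℝ) with hX
  have h1 : 1 ≤ X * (20 * Real.log N / M) := hW1.trans hcard
  have h2 : (M : ℝ) ≤ X * (20 * Real.log N) := by
    have e : X * (20 * Real.log N / M) = X * (20 * Real.log N) / M := by ring
    rw [e, le_div_iff₀ hM0] at h1
    linarith
  have h3 : (N : ℝ) / (2 * K) ≤ X * (20 * Real.log N) := hMlow.trans h2
  have e : (N : ℝ) / (40 * K * Real.log N) = (N : ℝ) / (2 * K) / (20 * Real.log N) := by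
    field_simp
    norm_num
  rw [e, div_le_iff₀ (by positivity)]
  exact h3

end CritL
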