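import Pool.Agent.Lib.CritL.PPow
import Pool.Agent.Lib.CritL.TreeLoc
import Pool.Agent.Lib.CritL.Final

/-!
# Dimensions in which critical lattices are rigid
-/

set_option autoImplicit false

namespace CritL

open Matrix

/-- the infimum of the ratios -/
noncomputable def delta (d : ℕ) : ℝ := sInf {r : ℝ | ∃ b : Fin d → E d, LinearIndependent ℝ b ∧ r = ratio b}

theorem ratio_nonneg {d : ℕ} (hd : 0 < d) {b : Fin d → E d} (hb : LinearIndependent ℝ b) : 0 ≤ ratio b := by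
  have := minL_pos hd hb
  unfold ratio detL
  positivity

theorem delta_bdd {d : ℕ} (hd : 0 < d) :
    BddBelow {r : ℝ | ∃ b : Fin d → E d, LinearIndependent ℝ b ∧ r = ratio b} := by
  refine ⟨0, ?_⟩
  rintro r ⟨b, hb, rfl⟩
  exact ratio_nonneg hd hb

theorem delta_nonempty {d : ℕ} (hd : 0 < d) :
    {r : ℝ | ∃ b : Fin d → E d, LinearIndependent ℝ b ∧ r = ratio b}.Nonempty := by
  obtain ⟨c, hc, -, -⟩ := exists_basis hd (adm_one d)
  exact ⟨_, c, hc, rfl⟩

theorem delta_sq {d : ℕ} (hd : 0 < d) : delta d ^ 2 = Dn d := by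
  have h0 : 0 ≤ delta d := by
    refine le_csInf (delta_nonempty hd) ?_
    rintro r ⟨b, hb, rfl⟩
    exact ratio_nonneg hd hb
  apply le_antisymm
  · refine le_Dn fun G hG => ?_
    obtain ⟨c, hc, hc0, hle⟩ := exists_basis hd hG
    have h1 : delta d ≤ ratio c := csInf_le (delta_bdd hd) ⟨c, hc, rfl⟩
    exact (pow_le_pow_left₀ h0 h1 2).trans hle
  · have h1 : Real.sqrt (Dn d) ≤ delta d := by
      refine le_csInf (delta_nonempty hd) ?_
      rintro r ⟨b, hb, rfl⟩
      refine Real.sqrt_le_iff.2 ⟨ratio_nonneg hd hb, ?_⟩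
      rw [← nf_det]
      exact Dn_le (nf_adm hd hb)
    have h2 := pow_le_pow_left₀ (Real.sqrt_nonneg _) h1 2
    rwa [Real.sq_sqrt (Dn_pos d).le] at h2

theorem delta_pos {d : ℕ} (hd : 0 < d) : 0 < delta d := by
  have h0 : 0 ≤ delta d := by
    refine le_csInf (delta_nonempty hd) ?_
    rintro r ⟨b, hb, rfl⟩
    exact ratio_nonneg hd hb
  refine lt_of_le_of_ne h0 fun h => ?_
  have h1 := delta_sq hd
  rw [← h] at h1
  have h2 := Dn_pos d
  rw [← h1] at h2
  norm_num at h2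

/-- the difference of the `x log x` -/
noncomputable def ent (k m : ℕ) : ℝ :=
  ((k + m : ℕ) : ℝ) * Real.log ((k + m : ℕ) : ℝ) - (k : ℝ) * Real.log (k : ℝ) - (m : ℝ) * Real.log (m : ℝ)

/-- the property of the good dimensions -/
def Good (s : ℝ) (d : ℕ) : Prop := ∀ k m : ℕ, 1 ≤ k → 1 ≤ m → k + m = d →
  s * ent k m + Real.log (Dn d) < Real.log (Dn k) + Real.log (Dn m)

open scoped Classical in
theorem many_good {s : ℝ} (hs : 0 < s) (hs1 : s < 1) : ∃ K : ℕ, 2 ≤ K ∧ ∀ N : ℕ, 2 * K ≤ N →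
    (N : ℝ) / (40 * K * Real.log N) ≤ (((Finset.Ioc (N / K) N).filter (fun d => Good s d)).card : ℝ) := by
  obtain ⟨K, hK, h⟩ := tree_loc' Dn {d | ¬ Good s d} low up (fun n hn => mordell n (by omega)) s hs hs1 (by
    intro d hd _
    simp only [Set.mem_setOf_eq, Good] at hd
    push Not at hd
    obtain ⟨k, m, hk, hm, hkm, hle⟩ := hd
    refine ⟨k, m, hk, hm, hkm, ?_⟩
    unfold ent at hle
    rw [hkm] at hle
    exact hle)
  refine ⟨K, hK, fun N hN => ?_⟩
  have h1 := h N hN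
  simpa using h1

/-- comparison in good dimensions -/
theorem Good.key {s τ : ℝ} {d : ℕ} (h : Good s d) (hs : 0 < s) (hτ : 2 * τ ≤ s) {k m : ℕ} (hk : 1 ≤ k) (hm : 1 ≤ m)
    (hkm : k + m = d) {x : ℝ} (hx : 0 ≤ x) (hD : Dn k * Dn m ≤ x ^ 2 * Dn d) : (d.choose k : ℝ) ^ τ < x := by
  by_contra hcon
  push Not at hcon
  have hx0 : 0 < x := by
    refine lt_of_le_of_ne hx fun h0 => ?_
    rw [← h0] at hD
    have := mul_pos (Dn_pos k) (Dn_pos m)
    norm_num at hD
    linarith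
  have h1 := Real.log_le_log (mul_pos (Dn_pos k) (Dn_pos m)) hD
  rw [Real.log_mul (Dn_pos k).ne' (Dn_pos m).ne', Real.log_mul (by positivity) (Dn_pos d).ne', Real.log_pow] at h1
  push_cast at h1
  have h2 := h k m hk hm hkm
  have hC : 0 < (d.choose k : ℝ) := by exact_mod_cast Nat.choose_pos (by omega)
  have h3 := Real.log_le_log hx0 hcon
  rw [Real.log_rpow hC] at h3
  have h4 := log_choose_le k m
  have h5 : Real.log (d.choose k : ℝ) ≤ ent k m := by
    unfold ent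
    rw [hkm] at h4 ⊢
    exact h4
  have h6 : 0 ≤ Real.log (d.choose k : ℝ) := by
    apply Real.log_nonneg
    exact_mod_cast Nat.succ_le_of_lt (Nat.choose_pos (by omega))
  have h7 := mul_le_mul_of_nonneg_right hτ h6
  have h8 := mul_le_mul_of_nonneg_left h5 hs.le
  linarith

/-- the quotient `R / δ_d` of a lattice -/
noncomputable def exc {d : ℕ} (b : Fin d → E d) : ℝ := ratio b / delta d

theorem one_le_exc {d : ℕ} (hd : 0 < d) {b : Fin d → E d} (hb : LinearIndependent ℝ b) : 1 ≤ exc b := by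
  unfold exc
  rw [le_div_iff₀ (delta_pos hd), one_mul]
  exact csInf_le (delta_bdd hd) ⟨b, hb, rfl⟩

theorem exc_conv {d : ℕ} (hd : 0 < d) (b : Fin d → E d) {X y : ℝ} (h : X ≤ y ^ 2 * ratio b ^ 2) :
    X ≤ (exc b * y) ^ 2 * Dn d := by
  have h1 := delta_pos hd
  have h2 : (exc b * y) ^ 2 * Dn d = y ^ 2 * ratio b ^ 2 := by
    unfold exc
    rw [← delta_sq hd]
    field_simp
  rw [h2]
  exact h

theorem vol_sq {d : ℕ} {k m : ℕ} {w : Fin k → E d} {r : ℝ} (h : Dn k * Dn m ≤ (gm w).det * r ^ 2) :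
    Dn k * Dn m ≤ vol w ^ 2 * r ^ 2 := by
  have h1 : (Matrix.of fun i j => inner ℝ (w i) (w j)) = gm w := by
    funext i j
    rw [gm_apply, of_apply]
  have h2 : 0 < (gm w).det := by
    have h3 := lt_of_lt_of_le (mul_pos (Dn_pos k) (Dn_pos m)) h
    by_contra hcon
    push Not at hcon
    have := mul_nonpos_of_nonpos_of_nonneg hcon (sq_nonneg r)
    linarith
  unfold vol
  rw [h1, Real.sq_sqrt h2.le]
  exact h

/-- short dual vectors -/
theorem dualE {d : ℕ} (hd : 2 ≤ d) {b : Fin d → E d} (hb : LinearIndependent ℝ b) {w : E d} (hw : w ≠ 0)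
    (h : InDual w b) : Dn 1 * Dn (d - 1) ≤ (minL b * ‖w‖) ^ 2 * ratio b ^ 2 := by
  obtain ⟨n, rfl⟩ : ∃ n, d = n + 1 := ⟨d - 1, by omega⟩
  obtain ⟨W, hWi, hWg⟩ := exists_int_matrix (w := fun _ : Fin 1 => w) (by omega) hb (fun _ => h)
  have hli : LinearIndependent ℝ (fun _ : Fin 1 => w) := by
    rw [linearIndependent_unique_iff]
    exact hw
  have hW0 : W 0 ≠ 0 := (hWi hli).ne_zero 0
  have h1 := congrFun (congrFun hWg 0) 0
  have h2 : (rw' W * (nf b)⁻¹ * (rw' W)ᵀ) 0 0 = qf (nf b)⁻¹ (ic (W 0)) := by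
    unfold qf
    rw [Matrix.mul_assoc]
    simp only [mul_apply, dotProduct, mulVec, transpose_apply, rw', map_apply, ic]
  have h3 := section_ge (fun G hG => Dn_le hG) (nf_adm (by omega) hb) (W 0) hW0
  rw [← h2, h1, Matrix.smul_apply, gm_apply, real_inner_self_eq_norm_sq, smul_eq_mul, ← mul_pow, nf_det] at h3
  have h4 : Dn 1 ≤ 1 := by
    have := Dn_le (adm_one 1)
    rwa [det_one] at this
  rw [Nat.add_sub_cancel]
  have h5 := mul_le_mul_of_nonneg_right h4 (Dn_pos n).le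
  linarith

/-- the rank of an isometry minus the identity -/
theorem fixed_pos {d : ℕ} {σ : E d ≃ₗᵢ[ℝ] E d} (h : ∃ x, σ x ≠ x) : fixedDim σ < d := by
  obtain ⟨x₀, hx₀⟩ := h
  have h1 : LinearMap.ker ((σ.toLinearEquiv : E d →ₗ[ℝ] E d) - LinearMap.id) ≠ ⊤ := by
    intro htop
    have h2 : x₀ ∈ LinearMap.ker ((σ.toLinearEquiv : E d →ₗ[ℝ] E d) - LinearMap.id) := by rw [htop]; trivial
    rw [LinearMap.mem_ker, LinearMap.sub_apply, LinearMap.id_apply, sub_eq_zero] at h2
    exact hx₀ h2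
  have h2 := Submodule.finrank_lt h1
  unfold fixedDim
  simpa using h2

/-- isometries move at most the norm 2 -/
theorem isoE {d : ℕ} (hd : 0 < d) {b : Fin d → E d} (hb : LinearIndependent ℝ b) (σ : E d ≃ₗᵢ[ℝ] E d)
    (hσ : ∀ x ∈ lat b, σ x ∈ lat b) :
    ∃ k, k + fixedDim σ = d ∧ Dn k * Dn (fixedDim σ) ≤ ((2 : ℝ) ^ k) ^ 2 * ratio b ^ 2 := by
  set F : E d →ₗ[ℝ] E d := (σ.toLinearEquiv : E d →ₗ[ℝ] E d) - LinearMap.id with hFd
  have hFx : ∀ x, F x = σ x - x := fun x => rfl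
  have hF : ∀ x ∈ lat b, F x ∈ lat b := fun x hx => by
    rw [hFx]
    exact (lat b).sub_mem (hσ x hx) hx
  have hT : ∀ x, ‖F x‖ ≤ 2 * ‖x‖ := fun x => by
    rw [hFx]
    refine (norm_sub_le _ _).trans ?_
    rw [σ.norm_map]
    linarith
  obtain ⟨k, m, hkm, hk, hD⟩ := endoE hd hb F hF hT
  have hrn := LinearMap.finrank_range_add_finrank_ker F
  have hfd : Module.finrank ℝ (LinearMap.ker F) = fixedDim σ := rfl
  rw [hk, hfd] at hrn
  have hrn' : k + fixedDim σ = d := by simpa using hrn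
  obtain rfl : m = fixedDim σ := by omega
  refine ⟨k, hkm, ?_⟩
  rw [← pow_mul, mul_comm k 2, pow_mul]
  exact hD

/-- rigidity of the lattices in dimension `d` -/
def RigidDim (τ ε c : ℝ) (d : ℕ) : Prop :=
  (∀ k, 0 < k → k < d → (d.choose k : ℝ) ^ τ * delta d < delta k * delta (d - k)) ∧
  ∀ b : Fin d → E d, LinearIndependent ℝ b →
    (2 ≤ d → ∀ w : E d, w ≠ 0 → InDual w b → (d : ℝ) ^ τ < exc b * (minL b * ‖w‖)) ∧
    (∀ F : E d →ₗ[ℝ] E d, (∀ x ∈ lat b, F x ∈ lat b) →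
      ∀ k, 0 < k → k < d → Module.finrank ℝ (LinearMap.range F) = k → ∀ u : Fin k → E d, Orthonormal ℝ u →
        (∀ i, ∀ x, F x = 0 → inner ℝ (u i) x = (0 : ℝ)) → (d.choose k : ℝ) ^ τ / exc b < vol fun i => F (u i)) ∧
    ∀ σ : E d ≃ₗᵢ[ℝ] E d, (∀ x ∈ lat b, σ x ∈ lat b) → (∃ x, σ x ≠ x) →
      ((1 / 2 + ε) * d < (fixedDim σ : ℝ) → (d.choose (fixedDim σ) : ℝ) ^ c < exc b) ∧
      (∀ p a : ℕ, p.Prime → (∀ x, (⇑σ)^[p ^ a] x = x) →
        (d.choose (fixedDim σ) : ℝ) ^ (τ * ((p : ℝ) - 1)) < exc b ^ (p - 1) * (p : ℝ) ^ (d - fixedDim σ)) ∧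
      ∀ n : ℕ, 0 < n → (∀ x, (⇑σ)^[n] x = x) → 0 < fixedDim σ →
        (d.choose (fixedDim σ) : ℝ) ^ τ < exc b * (n : ℝ) ^ fixedDim σ

open scoped Classical in
/-- **rigidity in many dimensions** -/
theorem part_rigid' (τ ε : ℝ) (hτ : τ < 1 / 2) (hε : 0 < ε) : ∃ c : ℝ, 0 < c ∧ ∃ K : ℕ, 2 ≤ K ∧ ∀ N : ℕ, 2 * K ≤ N →
    (N : ℝ) / (40 * K * Real.log N) ≤
      (((Finset.Ioc (N / K) N).filter (fun d => RigidDim τ ε c d)).card : ℝ) := by
  obtain ⟨s₁, hs0, hs1, hs⟩ := ent_half ε hε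
  set s := max (2 * τ) ((1 + s₁) / 2) with hsd
  have hss : s < 1 := max_lt (by linarith) (by linarith)
  have hs2 : (1 + s₁) / 2 ≤ s := le_max_right _ _
  have hs0' : 0 < s := by linarith
  have h5 : 2 * τ ≤ s := le_max_left _ _
  obtain ⟨K, hK, h⟩ := many_good hs0' hss
  refine ⟨(1 - s₁) / 4, by linarith, K, hK, fun N hN => (h N hN).trans ?_⟩
  have hsub : (Finset.Ioc (N / K) N).filter (fun d => Good s d) ⊆
      (Finset.Ioc (N / K) N).filter (fun d => RigidDim τ ε ((1 - s₁) / 4) d) := by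
    intro d hd
    rw [Finset.mem_filter, Finset.mem_Ioc] at hd ⊢
    obtain ⟨⟨hd1, hdN⟩, hg⟩ := hd
    have hd0 : 0 < d := lt_of_le_of_lt (Nat.zero_le _) hd1
    refine ⟨⟨hd1, hdN⟩, fun k hk hkd => ?_, fun b hb => ?_⟩
    · have hdk : 0 < d - k := by omega
      have h1 := hg.key hs0' h5 (k := k) (m := d - k) hk hdk (by omega) (x := delta k * delta (d - k) / delta d)
        (div_nonneg (mul_nonneg (delta_pos hk).le (delta_pos hdk).le) (delta_pos hd0).le) (by
          rw [div_pow, mul_pow, delta_sq hk, delta_sq hdk, delta_sq hd0, div_mul_cancel₀ _ (Dn_pos d).ne'])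
      rwa [lt_div_iff₀ (delta_pos hd0)] at h1
    have he1 := one_le_exc hd0 hb
    have he0 : 0 < exc b := by linarith
    refine ⟨fun hd2 w hw0 hw => ?_, fun F hF k hk hkd hrank u hu hker => ?_, fun σ hσ hne =>
      ⟨fun hlt => ?_, fun p a hp hpow => ?_, fun n hn hpow hpos => ?_⟩⟩
    · have h1 := hg.key hs0' h5 (k := 1) (m := d - 1) le_rfl (by omega) (by omega)
        (mul_nonneg he0.le (mul_nonneg (minL_pos hd0 hb).le (norm_nonneg w)))
        (exc_conv hd0 b (dualE hd2 hb hw0 hw))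
      rwa [Nat.choose_one_right] at h1
    · obtain ⟨m, hm, hle⟩ := volE hd0 hb F hF hrank hu hker
      rw [div_lt_iff₀' he0]
      exact hg.key hs0' h5 hk (by omega) hm (mul_nonneg he0.le (Real.sqrt_nonneg _))
        (exc_conv hd0 b (vol_sq hle))
    · have hfix := fixed_pos hne
      have hd' : (0 : ℝ) < d := by exact_mod_cast hd0
      have hpos : 1 ≤ fixedDim σ := by
        by_contra hcon
        have h0 : fixedDim σ = 0 := by omega
        rw [h0, Nat.cast_zero] at hlt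
        have : 0 < (1 / 2 + ε) * (d : ℝ) := by positivity
        linarith
      obtain ⟨k, hkm, hD⟩ := isoE hd0 hb σ hσ
      have hk0 : 1 ≤ k := by omega
      have hkm' : (k : ℝ) + (fixedDim σ : ℝ) = d := by exact_mod_cast hkm
      have h1 := hs k (fixedDim σ) hk0 hpos (by
        rw [hkm]
        nlinarith)
      have h2 : Real.log 4 = 2 * Real.log 2 := by
        rw [show (4 : ℝ) = 2 ^ 2 by norm_num, Real.log_pow]
        norm_num
      rw [h2] at h1
      have h3 : 0 ≤ ent k (fixedDim σ) := ent_nonneg k (fixedDim σ)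
      have h6 := hg k (fixedDim σ) hk0 hpos hkm
      have h7 := Real.log_le_log (mul_pos (Dn_pos _) (Dn_pos _)) (exc_conv hd0 b hD)
      rw [Real.log_mul (Dn_pos _).ne' (Dn_pos _).ne', Real.log_mul (by positivity) (Dn_pos d).ne', Real.log_pow,
        Real.log_mul he0.ne' (by positivity), Real.log_pow] at h7
      push_cast at h7
      have h8 : (k : ℝ) * (2 * Real.log 2) ≤ s₁ * ent k (fixedDim σ) := h1
      by_contra hcon
      push Not at hcon
      have hC : 0 < (d.choose (fixedDim σ) : ℝ) := by exact_mod_cast Nat.choose_pos (by omega)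
      have h9 := Real.log_le_log he0 hcon
      rw [Real.log_rpow hC] at h9
      have h10 : Real.log (d.choose (fixedDim σ) : ℝ) ≤ ent k (fixedDim σ) := by
        have h11 := log_choose_le k (fixedDim σ)
        have hch : d.choose (fixedDim σ) = d.choose k := Nat.choose_symm_of_eq_add (by omega)
        rw [hch]
        unfold ent
        rw [hkm] at h11 ⊢
        exact h11
      have h12 : (1 - s₁) / 4 * Real.log (d.choose (fixedDim σ) : ℝ) ≤ (1 - s₁) / 4 * ent k (fixedDim σ) :=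
        mul_le_mul_of_nonneg_left h10 (by linarith)
      have h13 : (1 + s₁) / 2 * ent k (fixedDim σ) ≤ s * ent k (fixedDim σ) := mul_le_mul_of_nonneg_right hs2 h3
      nlinarith
    · have hfix := fixed_pos hne
      have hp2 : 2 ≤ p := hp.two_le
      have hp1 : (1 : ℝ) < p := by exact_mod_cast hp.one_lt
      obtain ⟨k, hkm, hle⟩ := primePowE hd0 hb σ hσ hp hpow
      have hk : k = d - fixedDim σ := by omega
      rw [← hk]
      rcases Nat.eq_zero_or_pos (fixedDim σ) with h0 | hpos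
      · rw [h0, Nat.choose_zero_right, Nat.cast_one, Real.one_rpow]
        have h1 : 1 < (p : ℝ) ^ k := one_lt_pow₀ hp1 (by omega)
        have h2 : 1 ≤ exc b ^ (p - 1) := one_le_pow₀ he1
        nlinarith
      set x : ℝ := (p : ℝ) ^ ((k : ℝ) / ((p : ℝ) - 1)) with hx
      have hx0 : 0 < x := Real.rpow_pos_of_pos (by linarith) _
      have hpc : (((p - 1 : ℕ) : ℝ)) = (p : ℝ) - 1 := by
        rw [Nat.cast_sub (by omega), Nat.cast_one]
      have hxp : x ^ (p - 1) = (p : ℝ) ^ k := by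
        rw [← Real.rpow_natCast x, hx, ← Real.rpow_mul (by linarith), hpc, div_mul_cancel₀ _ (by linarith),
          Real.rpow_natCast]
      have h1 : Dn k * Dn (fixedDim σ) ≤ x ^ 2 * ratio b ^ 2 := by
        have h2 : (Dn k * Dn (fixedDim σ)) ^ (p - 1) ≤ (x ^ 2 * ratio b ^ 2) ^ (p - 1) := by
          rw [mul_pow (x ^ 2), ← pow_mul, mul_comm 2, pow_mul, hxp]
          exact hle
        exact (pow_le_pow_iff_left₀ (mul_pos (Dn_pos _) (Dn_pos _)).le
          (mul_nonneg (by positivity) (sq_nonneg _)) (by omega)).1 h2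
      have h2 := hg.key hs0' h5 (k := k) (m := fixedDim σ) (by omega) hpos hkm (mul_nonneg he0.le hx0.le)
        (exc_conv hd0 b h1)
      have hch : d.choose (fixedDim σ) = d.choose k := Nat.choose_symm_of_eq_add (by omega)
      rw [hch, Real.rpow_mul (by positivity), ← hxp, ← hpc, Real.rpow_natCast, ← mul_pow]
      exact pow_lt_pow_left₀ h2 (by positivity) (by omega)
    · have hfix := fixed_pos hne
      obtain ⟨k, hkm, hle⟩ := normE hd0 hb σ hσ hn hpow
      exact hg.key hs0' h5 hpos (by omega) hkm (mul_nonneg he0.le (by positivity)) (exc_conv hd0 b hle)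
  exact_mod_cast Finset.card_le_card hsub

end CritL
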