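import Mathlib

/-!
# The order of a finite group of integer matrices and its traces
-/

set_option autoImplicit false

namespace CritL

open Finset Matrix

/-- the trace of an idempotent rational matrix is a natural number -/
theorem trace_idem {n : Type*} [Fintype n] [DecidableEq n] (e : Matrix n n ℚ) (he : e * e = e) :
    ∃ k : ℕ, e.trace = k := by
  have h1 : IsIdempotentElem (Matrix.toLin' e) := by
    unfold IsIdempotentElem
    rw [Module.End.mul_eq_comp, ← Matrix.toLin'_mul, he]
  refine ⟨Module.finrank ℚ (LinearMap.range (Matrix.toLin' e)), ?_⟩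
  rw [← (LinearMap.IsIdempotentElem.isProj_range _ h1).trace, Matrix.trace_toLin'_eq]

/-- the tensor power -/
def tp {d : ℕ} (k : ℕ) (M : Matrix (Fin d) (Fin d) ℚ) : Matrix (Fin k → Fin d) (Fin k → Fin d) ℚ :=
  Matrix.of fun x y => ∏ i, M (x i) (y i)

theorem tp_mul {d k : ℕ} (M N : Matrix (Fin d) (Fin d) ℚ) : tp k (M * N) = tp k M * tp k N := by
  funext x y
  simp only [tp, of_apply, mul_apply]
  rw [Finset.prod_univ_sum, Fintype.piFinset_univ]
  exact Finset.sum_congr rfl fun z _ => Finset.prod_mul_distrib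

theorem trace_tp {d k : ℕ} (M : Matrix (Fin d) (Fin d) ℚ) : (tp k M).trace = M.trace ^ k := by
  have h1 : M.trace ^ k = ∏ _i : Fin k, ∑ z, M z z := by
    rw [Finset.prod_const, Finset.card_univ, Fintype.card_fin]
    rfl
  rw [h1, Finset.prod_univ_sum, Fintype.piFinset_univ]
  rfl

theorem card_dvd_pow {G : Type*} [Group G] [Fintype G] {d : ℕ} (A : G →* Matrix (Fin d) (Fin d) ℤ) (k : ℕ) :
    (Fintype.card G : ℤ) ∣ ∑ g, (A g).trace ^ k := by
  set T : G → Matrix (Fin k → Fin d) (Fin k → Fin d) ℚ := fun g => tp k ((Int.castRingHom ℚ).mapMatrix (A g)) with hT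
  have hmul : ∀ g h, T (g * h) = T g * T h := by
    intro g h
    rw [hT]
    simp only
    rw [map_mul, map_mul, tp_mul]
  set c : ℚ := (Fintype.card G : ℚ) with hc
  have hc0 : c ≠ 0 := by
    rw [hc]
    exact_mod_cast Fintype.card_ne_zero
  set s := ∑ g, T g with hs
  have hss : s * s = c • s := by
    have h1 : ∀ g, T g * s = s := by
      intro g
      rw [hs, Finset.mul_sum]
      simp only [← hmul]
      exact (Equiv.sum_comp (Equiv.mulLeft g) T)
    conv_lhs => rw [hs, Finset.sum_mul]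
    rw [Finset.sum_congr rfl fun g _ => h1 g, Finset.sum_const, Finset.card_univ, hc, Nat.cast_smul_eq_nsmul]
  obtain ⟨m, hm⟩ := trace_idem (c⁻¹ • s) (by
    rw [smul_mul_smul_comm, hss, smul_smul]
    congr 1
    field_simp)
  have htr : s.trace = ∑ g, (((A g).trace : ℤ) : ℚ) ^ k := by
    rw [hs, Matrix.trace_sum]
    refine Finset.sum_congr rfl fun g _ => ?_
    rw [hT]
    simp only
    rw [trace_tp]
    congr 1
    simp [Matrix.trace]
  rw [Matrix.trace_smul, htr, smul_eq_mul, inv_mul_eq_iff_eq_mul₀ hc0] at hm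
  refine ⟨m, ?_⟩
  have h2 : ((∑ g, (A g).trace ^ k : ℤ) : ℚ) = ((Fintype.card G * m : ℤ) : ℚ) := by
    push_cast
    rw [hm, hc]
  exact_mod_cast h2

theorem card_dvd_poly {G : Type*} [Group G] [Fintype G] {d : ℕ} (A : G →* Matrix (Fin d) (Fin d) ℤ)
    (F : Polynomial ℤ) : (Fintype.card G : ℤ) ∣ ∑ g, F.eval (A g).trace := by
  simp only [Polynomial.eval_eq_sum_range]
  rw [Finset.sum_comm]
  refine Finset.dvd_sum fun i _ => ?_
  rw [← Finset.mul_sum]
  exact Dvd.dvd.mul_left (card_dvd_pow A i) _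

/-- **Schur's theorem** -/
theorem card_dvd_prod {G : Type*} [Group G] [Fintype G] {d : ℕ} (A : G →* Matrix (Fin d) (Fin d) ℤ) {T : Finset ℤ}
    (hT : ∀ g, g ≠ 1 → (A g).trace ∈ T) : (Fintype.card G : ℤ) ∣ ∏ t ∈ T, ((d : ℤ) - t) := by
  classical
  have h1 := card_dvd_poly A (∏ t ∈ T, (Polynomial.X - Polynomial.C t))
  have h2 : ∑ g, (∏ t ∈ T, (Polynomial.X - Polynomial.C t)).eval (A g).trace = ∏ t ∈ T, ((d : ℤ) - t) := by
    rw [Finset.sum_eq_single 1]
    · rw [Polynomial.eval_prod, map_one, Matrix.trace_one, Fintype.card_fin]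
      refine Finset.prod_congr rfl fun t _ => ?_
      simp
    · intro g _ hg
      rw [Polynomial.eval_prod]
      refine Finset.prod_eq_zero (hT g hg) ?_
      simp
    · intro h
      exact absurd (Finset.mem_univ _) h
  rwa [h2] at h1

end CritL
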