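import Pool.Agent.Lib.CritL.PPow
import Pool.Agent.Lib.CritL.Schur
import Pool.Agent.Lib.CritL.AutVal
import Pool.Agent.Lib.CritL.Final3

/-!
# The group of the automorphisms of a lattice
-/

set_option autoImplicit false

namespace CritL

open Matrix

theorem entries_bdd {d : ℕ} {b : Fin d → E d} (hb : LinearIndependent ℝ b) : ∃ R : ℤ, ∀ σ : E d ≃ₗᵢ[ℝ] E d,
    ∀ A : Matrix (Fin d) (Fin d) ℤ, (∀ z : Fin d → ℝ, σ (rp b z) = rp b (rm A *ᵥ z)) → ∀ i j, -R ≤ A i j ∧ A i j ≤ R := by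
  set e := LinearEquiv.ofBijective (rpl b) (rpl_bij hb) with he
  set L : E d →L[ℝ] (Fin d → ℝ) := LinearMap.toContinuousLinearMap (e.symm : E d →ₗ[ℝ] (Fin d → ℝ)) with hL
  refine ⟨⌈‖L‖ * ∑ j, ‖b j‖⌉, fun σ A hA i j => ?_⟩
  have h1 : L (σ (b j)) = fun i => (A i j : ℝ) := by
    have h2 : rp b (Pi.single j 1) = b j := by
      unfold rp
      rw [Finset.sum_eq_single j]
      · simp
      · intro k _ hk
        simp [hk]
      · simp
    have h3 := hA (Pi.single j 1)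
    rw [h2, rm_col] at h3
    have h4 : L (σ (b j)) = e.symm (σ (b j)) := rfl
    rw [h4, h3]
    exact e.symm_apply_apply _
  have h2 : |(A i j : ℝ)| ≤ ‖L‖ * ∑ j, ‖b j‖ := by
    calc |(A i j : ℝ)| = ‖L (σ (b j)) i‖ := by rw [h1]; rfl
      _ ≤ ‖L (σ (b j))‖ := norm_le_pi_norm _ i
      _ ≤ ‖L‖ * ‖σ (b j)‖ := L.le_opNorm _
      _ = ‖L‖ * ‖b j‖ := by rw [σ.norm_map]
      _ ≤ _ := by
        refine mul_le_mul_of_nonneg_left ?_ (norm_nonneg _)
        exact Finset.single_le_sum (f := fun j => ‖b j‖) (fun _ _ => norm_nonneg _) (Finset.mem_univ j)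
  have h3 := (abs_le.1 (h2.trans (Int.le_ceil _)))
  constructor
  · have : ((-⌈‖L‖ * ∑ j, ‖b j‖⌉ : ℤ) : ℝ) ≤ (A i j : ℝ) := by
      push_cast
      exact h3.1
    exact_mod_cast this
  · exact_mod_cast h3.2

/-- the group of the automorphisms -/
theorem exists_group {d : ℕ} {b : Fin d → E d} (hb : LinearIndependent ℝ b) :
    ∃ H : Subgroup (E d ≃ₗᵢ[ℝ] E d), (∀ σ, σ ∈ H ↔ ∀ x ∈ lat b, σ x ∈ lat b) ∧ Finite H := by
  classical
  set S : Set (E d ≃ₗᵢ[ℝ] E d) := {σ | ∀ x ∈ lat b, σ x ∈ lat b} with hS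
  have hex : ∀ σ : E d ≃ₗᵢ[ℝ] E d, ∃ A : Matrix (Fin d) (Fin d) ℤ, σ ∈ S →
      ∀ z : Fin d → ℝ, σ (rp b z) = rp b (rm A *ᵥ z) := by
    intro σ
    by_cases h : σ ∈ S
    · obtain ⟨A, hA⟩ := exists_mat (σ.toLinearEquiv : E d →ₗ[ℝ] E d) h
      exact ⟨A, fun _ => hA⟩
    · exact ⟨0, fun h' => absurd h' h⟩
  choose A hA using hex
  obtain ⟨R, hR⟩ := entries_bdd hb
  have hfin : S.Finite := by
    refine Set.Finite.of_injOn (f := fun σ => (fun i j => A σ i j : Fin d → Fin d → ℤ))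
      (t := Set.Icc (fun _ _ => -R : Fin d → Fin d → ℤ) (fun _ _ => R)) ?_ ?_ (Set.finite_Icc _ _)
    · intro σ hσ
      refine ⟨fun i j => ?_, fun i j => ?_⟩
      · exact (hR σ (A σ) (hA σ hσ) i j).1
      · exact (hR σ (A σ) (hA σ hσ) i j).2
    · intro σ hσ τ hτ h'
      have h : A σ = A τ := h'
      refine LinearIsometryEquiv.ext fun x => ?_
      obtain ⟨z, rfl⟩ := (rpl_bij hb).2 x
      have h1 := hA σ hσ z
      have h2 := hA τ hτ z
      rw [h, ← h2] at h1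
      exact h1
  have hone : (1 : E d ≃ₗᵢ[ℝ] E d) ∈ S := fun x hx => hx
  have hmul : ∀ σ τ, σ ∈ S → τ ∈ S → σ * τ ∈ S := fun σ τ hσ hτ x hx => hσ _ (hτ x hx)
  have hpow : ∀ σ ∈ S, ∀ n : ℕ, σ ^ n ∈ S := by
    intro σ hσ n
    induction n with
    | zero => exact hone
    | succ n ih =>
      rw [pow_succ]
      exact hmul _ _ ih hσ
  have hinv : ∀ σ ∈ S, σ⁻¹ ∈ S := by
    intro σ hσ
    have h1 : ¬ Function.Injective (fun n : ℕ => σ ^ n) := by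
      intro hinj
      exact Set.infinite_of_injective_forall_mem hinj (fun n => hpow σ hσ n) hfin
    rw [injective_pow_iff_not_isOfFinOrder, not_not] at h1
    obtain ⟨n, hn, hn1⟩ := isOfFinOrder_iff_pow_eq_one.1 h1
    obtain ⟨m, rfl⟩ : ∃ m, n = m + 1 := ⟨n - 1, by omega⟩
    rw [pow_succ] at hn1
    rw [← eq_inv_of_mul_eq_one_left hn1]
    exact hpow σ hσ m
  refine ⟨{ carrier := S, mul_mem' := fun {σ τ} hσ hτ => hmul σ τ hσ hτ, one_mem' := hone,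
            inv_mem' := fun {σ} hσ => hinv σ hσ }, fun σ => Iff.rfl, ?_⟩
  exact hfin.to_subtype

/-- the integer matrices as a homomorphism -/
theorem exists_hom {d : ℕ} {b : Fin d → E d} (hb : LinearIndependent ℝ b) (H : Subgroup (E d ≃ₗᵢ[ℝ] E d))
    (hH : ∀ σ ∈ H, ∀ x ∈ lat b, σ x ∈ lat b) : ∃ A : H →* Matrix (Fin d) (Fin d) ℤ,
      ∀ (σ : H) (z : Fin d → ℝ), (σ : E d ≃ₗᵢ[ℝ] E d) (rp b z) = rp b (rm (A σ) *ᵥ z) := by
  choose A hA using fun σ : H => exists_mat ((σ : E d ≃ₗᵢ[ℝ] E d).toLinearEquiv : E d →ₗ[ℝ] E d) (hH σ σ.2)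
  refine ⟨⟨⟨A, ?_⟩, ?_⟩, fun σ z => hA σ z⟩
  · refine mat_unique hb fun z => ?_
    rw [← hA]
    have h1 : rm (1 : Matrix (Fin d) (Fin d) ℤ) = 1 := by
      unfold rm
      exact Matrix.map_one _ Int.cast_zero Int.cast_one
    rw [h1, one_mulVec]
    rfl
  · intro σ τ
    refine mat_unique hb fun z => ?_
    have h1 : rm (A σ * A τ) = rm (A σ) * rm (A τ) := by
      unfold rm
      exact Matrix.map_mul (f := Int.castRingHom ℝ)
    rw [← hA, h1, ← mulVec_mulVec, ← hA, ← hA]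
    rfl

end CritL
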