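import Pool.Agent.Lib.CritL.AutGrp

/-!
# The order of the automorphism group in rigid dimensions
-/

set_option autoImplicit false

namespace CritL

open Matrix

/-- arithmetic of the traces of elements of prime power order -/
theorem mem_SS {d k0 M p k n1 s : ℕ} (hp : p.Prime) (hk : 0 < k) (hkd : k ≤ d) (hn : (p - 1) * n1 ≤ k)
    (hs : p * s = k + n1) (hgap : k ≤ k0 ∨ d ≤ k + M) : s ∈ SS d k0 M p := by
  have hp2 := hp.two_le
  obtain ⟨q, rfl⟩ : ∃ q, p = q + 1 := ⟨p - 1, by omega⟩
  simp only [Nat.add_sub_cancel] at hn ⊢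
  have h1 : q * s ≤ k := by
    have h2 : (q + 1) * (q * s) ≤ (q + 1) * k := by
      calc (q + 1) * (q * s) = q * ((q + 1) * s) := by ring
        _ = q * (k + n1) := by rw [hs]
        _ = q * k + q * n1 := by ring
        _ ≤ q * k + k := by omega
        _ = (q + 1) * k := by ring
    exact Nat.le_of_mul_le_mul_left h2 (Nat.succ_pos q)
  have h2 : 0 < s := by
    rcases Nat.eq_zero_or_pos s with h0 | h0
    · subst h0
      omega
    · exact h0
  have hq : 0 < q := by omega
  unfold SS
  rw [Finset.mem_union, Finset.mem_Ico, Finset.mem_Ico]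
  rcases hgap with h | h
  · refine Or.inl ⟨by omega, ?_⟩
    have h3 : s ≤ k0 / q := (Nat.le_div_iff_mul_le hq).2 (by rw [mul_comm]; omega)
    exact Nat.lt_succ_of_le h3
  · refine Or.inr ⟨?_, ?_⟩
    · have h3 : (d - M - 1) / (q + 1) < s := (Nat.div_lt_iff_lt_mul (Nat.succ_pos q)).2 (by
        rw [mul_comm, hs]
        omega)
      exact h3
    · have h3 : s ≤ d / q := (Nat.le_div_iff_mul_le hq).2 (by rw [mul_comm]; omega)
      exact Nat.lt_succ_of_le h3

/-- the order of a Sylow group -/
theorem sylow_dvd {d : ℕ} (hd : 0 < d) {b : Fin d → E d} (hb : LinearIndependent ℝ b)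
    (H : Subgroup (E d ≃ₗᵢ[ℝ] E d)) [Finite H] (hH : ∀ σ ∈ H, ∀ x ∈ lat b, σ x ∈ lat b)
    {p : ℕ} (hp : p.Prime) {k0 M : ℕ} (hgap : ∀ σ ∈ H, (∃ x, σ x ≠ x) → ∀ k N : ℕ, k + fixedDim σ = d → 0 < k →
      (p - 1) * N ≤ k → Dn k * Dn (fixedDim σ) ≤ ((p : ℝ) ^ N) ^ 2 * ratio b ^ 2 → k ≤ k0 ∨ d ≤ k + M) :
    p ^ (Nat.card H).factorization p ∣ ∏ s ∈ SS d k0 M p, p * s := by
  classical
  have := Fact.mk hp
  obtain ⟨A, hA⟩ := exists_hom hb H hH
  let P : Sylow p H := default
  have hcard := P.card_eq_multiplicity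
  have hfin : Fintype P := Fintype.ofFinite P
  set A' : P →* Matrix (Fin d) (Fin d) ℤ := A.comp (P : Subgroup H).subtype with hA'
  set T : Finset ℤ := (SS d k0 M p).image (fun s : ℕ => (d : ℤ) - p * s) with hT
  have hmem : ∀ g : P, g ≠ 1 → (A' g).trace ∈ T := by
    intro g hg
    obtain ⟨a, ha⟩ := P.isPGroup' g
    have hAp : A' g ^ p ^ a = 1 := by rw [← map_pow, ha, map_one]
    set σ : E d ≃ₗᵢ[ℝ] E d := ((g : H) : E d ≃ₗᵢ[ℝ] E d) with hσ
    have hσH : σ ∈ H := (g : H).2
    have hne : ∃ x, σ x ≠ x := by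
      by_contra hcon
      push Not at hcon
      apply hg
      apply Subtype.ext
      apply Subtype.ext
      exact LinearIsometryEquiv.ext hcon
    obtain ⟨k, N, n1, hk, hN, hn1, htr, hdvd, hle⟩ := ppowE hd hb σ (hH σ hσH) (A := A' g) (fun z => hA g z) hp hAp
    have hlt := fixed_pos hne
    have hk0 : 0 < k := by omega
    have hgp := hgap σ hσH hne k N hk hk0 hN hle
    obtain ⟨q, hq⟩ := hdvd
    have h1 : (d : ℤ) - (A' g).trace = k + n1 := by
      have h0 : (k : ℤ) + (fixedDim σ : ℤ) = (d : ℤ) := by exact_mod_cast hk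
      rw [htr]
      linarith
    have hp0 : (0 : ℤ) < p := by exact_mod_cast hp.pos
    have hq0 : 0 ≤ q := by
      by_contra hcon
      push Not at hcon
      have h2 : (p : ℤ) * q < 0 := mul_neg_of_pos_of_neg hp0 hcon
      omega
    obtain ⟨s, rfl⟩ := Int.eq_ofNat_of_zero_le hq0
    rw [hT, Finset.mem_image]
    refine ⟨s, mem_SS hp hk0 (by omega) hn1 ?_ hgp, by linarith⟩
    have h2 : ((p * s : ℕ) : ℤ) = ((k + n1 : ℕ) : ℤ) := by
      push_cast
      rw [← h1, hq]
    exact_mod_cast h2
  have h1 := card_dvd_prod A' hmem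
  have h2 : ∏ t ∈ T, ((d : ℤ) - t) = ((∏ s ∈ SS d k0 M p, p * s : ℕ) : ℤ) := by
    rw [hT, Finset.prod_image]
    · push_cast
      refine Finset.prod_congr rfl fun s _ => ?_
      ring
    · intro s _ t _ hst
      have hp0 : (p : ℤ) ≠ 0 := by exact_mod_cast hp.ne_zero
      have h3 : (p : ℤ) * s = p * t := by
        simp only at hst
        linarith
      exact_mod_cast mul_left_cancel₀ hp0 h3
  rw [h2] at h1
  have h3 : Fintype.card P ∣ ∏ s ∈ SS d k0 M p, p * s := by exact_mod_cast h1
  rwa [← Nat.card_eq_fintype_card, hcard] at h3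

/-- a lower bound for binomial coefficients -/
theorem le_log_choose {d m : ℕ} (hm : 0 < m) (hmd : m ≤ d) :
    (m : ℝ) * Real.log ((d : ℝ) / m) ≤ Real.log (d.choose m) := by
  have h1 : d ^ m * m.factorial ≤ m ^ m * (m.factorial * d.choose m) := by
    rw [← Nat.descFactorial_eq_factorial_mul_choose, ← Nat.descFactorial_self m, Nat.descFactorial_eq_prod_range,
      Nat.descFactorial_eq_prod_range]
    have h2 : ∀ x : ℕ, x ^ m = ∏ _i ∈ Finset.range m, x := fun x => by rw [Finset.prod_const, Finset.card_range]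
    rw [h2 d, h2 m, ← Finset.prod_mul_distrib, ← Finset.prod_mul_distrib]
    refine Finset.prod_le_prod' fun i hi => ?_
    have hi' := Finset.mem_range.1 hi
    have h3 : i * m ≤ i * d := Nat.mul_le_mul_left _ hmd
    have h4 : d * (m - i) + d * i = d * m := by rw [← Nat.mul_add, Nat.sub_add_cancel hi'.le]
    have h5 : m * (d - i) + m * i = m * d := by rw [← Nat.mul_add, Nat.sub_add_cancel (by omega)]
    have h6 : d * m = m * d := mul_comm _ _
    have h7 : i * m = m * i := mul_comm _ _
    have h8 : i * d = d * i := mul_comm _ _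
    omega
  have h2 : d ^ m ≤ m ^ m * d.choose m := by
    have h3 : d ^ m * m.factorial ≤ m ^ m * d.choose m * m.factorial := h1.trans_eq (by ring)
    exact Nat.le_of_mul_le_mul_right h3 (Nat.factorial_pos m)
  have hm0 : (0 : ℝ) < m := by exact_mod_cast hm
  have hd0 : (0 : ℝ) < d := by exact_mod_cast (by omega : 0 < d)
  have h3 : ((d : ℝ) / m) ^ m ≤ d.choose m := by
    rw [div_pow, div_le_iff₀ (by positivity)]
    have h4 : (d : ℝ) ^ m ≤ (m : ℝ) ^ m * d.choose m := by exact_mod_cast h2
    linarith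
  have h4 := Real.log_le_log (by positivity) h3
  rwa [Real.log_pow] at h4

/-- **the order of the automorphism group** -/
theorem order_bound {c : ℝ} (hc : 0 < c) : ∃ C : ℝ, 0 < C ∧ ∀ d : ℕ, 2 ≤ d → RigidDim (2 / 5) (1 / 4) c d →
    ∀ b : Fin d → E d, LinearIndependent ℝ b → {σ : E d ≃ₗᵢ[ℝ] E d | ∀ x ∈ lat b, σ x ∈ lat b}.Finite ∧
      (({σ : E d ≃ₗᵢ[ℝ] E d | ∀ x ∈ lat b, σ x ∈ lat b}.ncard : ℕ) : ℝ) ≤
        Real.exp (C * (d + Real.log (exc b) * Real.log d)) := by
  have hl2 : 0 < Real.log 2 := Real.log_pos (by norm_num)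
  have hl43 : 0 < Real.log (4 / 3) := Real.log_pos (by norm_num)
  set c1 : ℝ := (2 / 5 * Real.log (4 / 3))⁻¹ with hc1
  set c2 : ℝ := (c * Real.log 2)⁻¹ with hc2
  have hc1p : 0 < c1 := by positivity
  have hc2p : 0 < c2 := by positivity
  obtain ⟨C, hC, hfinal⟩ := log_final c1 c2 hc1p.le hc2p.le
  refine ⟨C, hC, fun d hd hR b hb => ?_⟩
  have hd0 : 0 < d := by omega
  have he1 := one_le_exc hd0 hb
  have he0 : 0 < exc b := by linarith
  set l : ℝ := Real.log (exc b) with hl
  have hl0 : 0 ≤ l := Real.log_nonneg he1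
  obtain ⟨H, hH, hHf⟩ := exists_group hb
  have hset : {σ : E d ≃ₗᵢ[ℝ] E d | ∀ x ∈ lat b, σ x ∈ lat b} = (H : Set (E d ≃ₗᵢ[ℝ] E d)) := by
    ext σ
    rw [SetLike.mem_coe, hH]
    rfl
  rw [hset]
  refine ⟨Set.toFinite _, ?_⟩
  have hnc : (H : Set (E d ≃ₗᵢ[ℝ] E d)).ncard = Nat.card H := rfl
  rw [hnc]
  have hcpos : Nat.card H ≠ 0 := Nat.card_pos.ne'
  set k0 : ℕ := min d ⌊c2 * l⌋₊ with hk0
  set M : ℕ → ℕ := fun p => ⌊c1 * (l + d * Real.log p / (p - 1))⌋₊ with hM
  have hkey := hfinal d k0 (Nat.card H) M l hd (min_le_left _ _) hcpos hl0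
    (by
      refine le_trans ?_ (Nat.floor_le (by positivity))
      exact_mod_cast min_le_right _ _)
    (by
      intro p hp
      have hp2 : (2 : ℝ) ≤ p := by exact_mod_cast hp.two_le
      have := (log_prime_pos hp).le
      refine Nat.floor_le (mul_nonneg hc1p.le (add_nonneg hl0 (div_nonneg (by positivity) (by linarith)))))
    (by
      intro p hp
      refine sylow_dvd hd0 hb H (fun σ hσ => (hH σ).1 hσ) hp fun σ hσ hne k N hk hkpos hN hle => ?_
      have hp2 : (2 : ℝ) ≤ p := by exact_mod_cast hp.two_le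
      have hlp := (log_prime_pos hp).le
      have hfix := ((hR.2 b hb).2.2 σ ((hH σ).1 hσ) hne).1
      set m := fixedDim σ with hm
      have hkm : (k : ℝ) + m = d := by exact_mod_cast hk
      have hch : d.choose m = d.choose k := Nat.choose_symm_of_eq_add (by omega)
      have hd' : (0 : ℝ) < d := by exact_mod_cast hd0
      have hk' : (0 : ℝ) < k := by exact_mod_cast hkpos
      rcases lt_or_ge ((1 / 2 + 1 / 4) * (d : ℝ)) (m : ℝ) with hlt | hge
      · left
        have h1 := hfix hlt
        rw [hch] at h1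
        have hcc : (0 : ℝ) < (d.choose k : ℝ) := by exact_mod_cast Nat.choose_pos (by omega)
        have h2 := Real.log_lt_log (Real.rpow_pos_of_pos hcc _) h1
        rw [Real.log_rpow hcc, ← hl] at h2
        have h3 := le_log_choose hkpos (show k ≤ d by omega)
        have h4 : Real.log 2 ≤ Real.log ((d : ℝ) / k) := by
          apply Real.log_le_log (by norm_num)
          rw [le_div_iff₀ hk']
          linarith
        have h5 : (k : ℝ) * Real.log 2 ≤ Real.log (d.choose k) := (mul_le_mul_of_nonneg_left h4 hk'.le).trans h3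
        have h6 : (k : ℝ) ≤ c2 * l := by
          rw [hc2, inv_mul_eq_div, le_div_iff₀ (by positivity)]
          have h7 := mul_le_mul_of_nonneg_left h5 hc.le
          linarith
        exact le_min (by omega) (Nat.le_floor h6)
      · right
        rcases Nat.eq_zero_or_pos m with h0 | hmpos
        · omega
        have hm' : (0 : ℝ) < m := by exact_mod_cast hmpos
        have hsp := hR.1 k hkpos (by omega)
        have hdk : d - k = m := by omega
        rw [hdk] at hsp
        -- the comparison without squares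
        have hδ : delta k * delta m ≤ (p : ℝ) ^ N * exc b * delta d := by
          have hpos := delta_pos hd0
          have h1 : (delta k * delta m) ^ 2 ≤ ((p : ℝ) ^ N * exc b * delta d) ^ 2 := by
            have h2 : (p : ℝ) ^ N * exc b * delta d = (p : ℝ) ^ N * ratio b := by
              unfold exc
              field_simp
            rw [h2, mul_pow, mul_pow, delta_sq hkpos, delta_sq hmpos]
            exact hle
          exact (pow_le_pow_iff_left₀ (mul_nonneg (delta_pos hkpos).le (delta_pos hmpos).le) (by positivity)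
            two_ne_zero).1 h1
        have hcc : (0 : ℝ) < (d.choose k : ℝ) := by exact_mod_cast Nat.choose_pos (by omega)
        have h1 : (d.choose k : ℝ) ^ (2 / 5 : ℝ) < (p : ℝ) ^ N * exc b := by
          have h2 := hsp.trans_le hδ
          exact lt_of_mul_lt_mul_right h2 (delta_pos hd0).le
        have hp0 : (0 : ℝ) < p := by linarith
        have h2 := Real.log_lt_log (Real.rpow_pos_of_pos hcc _) h1
        rw [Real.log_rpow hcc, Real.log_mul (by positivity) he0.ne', Real.log_pow, ← hl, ← hch] at h2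
        have h3 := le_log_choose hmpos (show m ≤ d by omega)
        have h4 : Real.log (4 / 3) ≤ Real.log ((d : ℝ) / m) := by
          apply Real.log_le_log (by norm_num)
          rw [le_div_iff₀ hm']
          linarith
        have h5 : (m : ℝ) * Real.log (4 / 3) ≤ Real.log (d.choose m) := (mul_le_mul_of_nonneg_left h4 hm'.le).trans h3
        have h6 : (N : ℝ) * Real.log p ≤ d * Real.log p / (p - 1) := by
          have hp1 : (0 : ℝ) < (p : ℝ) - 1 := by linarith
          rw [le_div_iff₀ hp1]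
          have h7 : ((p : ℝ) - 1) * N ≤ k := by
            have h8 : (((p - 1) * N : ℕ) : ℝ) ≤ k := by exact_mod_cast hN
            rw [Nat.cast_mul, Nat.cast_sub hp.one_lt.le, Nat.cast_one] at h8
            exact h8
          have h8 : ((p : ℝ) - 1) * N ≤ d := by linarith
          calc (N : ℝ) * Real.log p * ((p : ℝ) - 1) = (((p : ℝ) - 1) * N) * Real.log p := by ring
            _ ≤ d * Real.log p := mul_le_mul_of_nonneg_right h8 hlp
        have h7 : (m : ℝ) ≤ c1 * (l + d * Real.log p / (p - 1)) := by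
          rw [hc1, inv_mul_eq_div, le_div_iff₀ (by positivity)]
          linarith
        have h8 : m ≤ M p := Nat.le_floor h7
        omega)
  have hcR : (0 : ℝ) < (Nat.card H : ℝ) := by exact_mod_cast Nat.card_pos
  rw [← Real.log_le_iff_le_exp hcR]
  exact hkey

end CritL
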