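import Mathlib

/-!
# Sums over primes
-/

set_option autoImplicit false

namespace CritL

open Finset

/-- the primes up to `d + 1` -/
def P1 (d : ℕ) : Finset ℕ := (range (d + 2)).filter Nat.Prime

theorem mem_P1 {d p : ℕ} : p ∈ P1 d ↔ p < d + 2 ∧ p.Prime := by
  unfold P1
  rw [mem_filter, mem_range]

theorem log_prime_pos {p : ℕ} (hp : p.Prime) : 0 < Real.log p := Real.log_pos (by exact_mod_cast hp.one_lt)

theorem sum_log_P1 (d : ℕ) : ∑ p ∈ P1 d, Real.log p ≤ (d + 1) * Real.log 4 := by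
  have h1 := primorial_le_four_pow (d + 1)
  have h2 : ∑ p ∈ P1 d, Real.log p = Real.log (primorial (d + 1)) := by
    unfold primorial P1
    rw [Nat.cast_prod, Real.log_prod]
    intro p hp
    have := (mem_filter.1 hp).2.pos
    positivity
  rw [h2]
  have h3 : Real.log (primorial (d + 1)) ≤ Real.log ((4 : ℝ) ^ (d + 1)) := by
    apply Real.log_le_log
    · exact_mod_cast primorial_pos _
    · exact_mod_cast h1
  rwa [Real.log_pow, Nat.cast_add, Nat.cast_one] at h3

theorem log_eq_sum {n : ℕ} (hn : n ≠ 0) : Real.log n = ∑ p ∈ n.primeFactors, (n.factorization p : ℝ) * Real.log p := by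
  have h1 := Nat.prod_factorization_pow_eq_self hn
  have h2 : (n : ℝ) = ∏ p ∈ n.primeFactors, (p : ℝ) ^ n.factorization p := by
    conv_lhs => rw [← h1]
    rw [Finsupp.prod, Nat.support_factorization]
    push_cast
    rfl
  conv_lhs => rw [h2]
  rw [Real.log_prod]
  · exact sum_congr rfl fun p _ => by rw [Real.log_pow]
  · intro p hp
    have := (Nat.prime_of_mem_primeFactors hp).pos
    positivity

/-- any sum of factorizations is at most the logarithm -/
theorem sum_fac_le {n : ℕ} (hn : n ≠ 0) {s : Finset ℕ} (hs : ∀ p ∈ s, p.Prime) :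
    ∑ p ∈ s, (n.factorization p : ℝ) * Real.log p ≤ Real.log n := by
  rw [log_eq_sum hn]
  have h1 : ∑ p ∈ s, (n.factorization p : ℝ) * Real.log p =
      ∑ p ∈ s.filter (fun p => p ∈ n.primeFactors), (n.factorization p : ℝ) * Real.log p := by
    rw [sum_filter]
    refine sum_congr rfl fun p hp => ?_
    by_cases h : p ∈ n.primeFactors
    · rw [if_pos h]
    · rw [if_neg h]
      have : n.factorization p = 0 := by
        rw [← Finsupp.notMem_support_iff, Nat.support_factorization]
        exact h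
      rw [this]
      simp
  rw [h1]
  refine sum_le_sum_of_subset_of_nonneg (fun p hp => (mem_filter.1 hp).2) fun p hp _ => ?_
  have := log_prime_pos (Nat.prime_of_mem_primeFactors hp)
  positivity

theorem div_le_fac {n p : ℕ} (hp : p.Prime) : n / p ≤ n.factorial.factorization p := by
  have h1 : (p * (n / p)).factorial ∣ n.factorial := Nat.factorial_dvd_factorial (Nat.mul_div_le n p)
  have h2 := (Nat.factorization_le_iff_dvd (Nat.factorial_ne_zero _) (Nat.factorial_ne_zero _)).2 h1 p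
  rw [Nat.factorization_factorial_mul hp] at h2
  omega

/-- an elementary bound of Mertens type -/
theorem sum_log_div_P1 (d : ℕ) : ∑ p ∈ P1 d, Real.log p / p ≤ Real.log (d + 1) + Real.log 4 := by
  set n : ℕ := d + 1 with hn
  have hn0 : (0 : ℝ) < n := by positivity
  have h1 := sum_fac_le (Nat.factorial_ne_zero n) (s := P1 d) fun p hp => (mem_P1.1 hp).2
  have h2 : Real.log (n.factorial : ℝ) ≤ n * Real.log n := by
    have h3 : (n.factorial : ℝ) ≤ (n : ℝ) ^ n := by exact_mod_cast Nat.factorial_le_pow n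
    have h4 := Real.log_le_log (by positivity) h3
    rwa [Real.log_pow] at h4
  have h3 : ∑ p ∈ P1 d, ((n : ℝ) / p - 1) * Real.log p ≤ ∑ p ∈ P1 d, (n.factorial.factorization p : ℝ) * Real.log p := by
    refine sum_le_sum fun p hp => ?_
    have hp' := (mem_P1.1 hp).2
    have h4 : (n : ℝ) / p - 1 ≤ (n / p : ℕ) := by
      have h5 : (n : ℝ) / p < (n / p : ℕ) + 1 := by
        rw [div_lt_iff₀ (by exact_mod_cast hp'.pos)]
        have h6 := Nat.lt_mul_div_succ n hp'.pos
        have h7 : (n : ℝ) < (p : ℝ) * ((n / p : ℕ) + 1) := by exact_mod_cast h6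
        linarith
      linarith
    have h5 : ((n / p : ℕ) : ℝ) ≤ (n.factorial.factorization p : ℝ) := by exact_mod_cast div_le_fac hp'
    exact mul_le_mul_of_nonneg_right (h4.trans h5) (log_prime_pos hp').le
  have h4 : ∑ p ∈ P1 d, ((n : ℝ) / p - 1) * Real.log p = n * ∑ p ∈ P1 d, Real.log p / p - ∑ p ∈ P1 d, Real.log p := by
    rw [mul_sum, ← sum_sub_distrib]
    refine sum_congr rfl fun p _ => ?_
    ring
  have h5 := sum_log_P1 d
  have h6 : (n : ℝ) * ∑ p ∈ P1 d, Real.log p / p ≤ n * (Real.log n + Real.log 4) := by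
    have h7 : ((d : ℝ) + 1) = n := by rw [hn]; push_cast; ring
    rw [h7] at h5
    linarith
  have h7 := le_of_mul_le_mul_left h6 hn0
  rw [hn] at h7
  push_cast at h7
  exact h7

theorem sum_sq_P1 : ∃ C : ℝ, 0 < C ∧ ∀ d, ∑ p ∈ P1 d, Real.log p ^ 2 / (p * (p - 1)) ≤ C := by
  have hs : Summable fun n : ℕ => 1 / (n : ℝ) ^ (3 / 2 : ℝ) := Real.summable_one_div_nat_rpow.2 (by norm_num)
  refine ⟨32 * ∑' n : ℕ, 1 / (n : ℝ) ^ (3 / 2 : ℝ) + 1, ?_, fun d => ?_⟩
  · have : 0 ≤ ∑' n : ℕ, 1 / (n : ℝ) ^ (3 / 2 : ℝ) := tsum_nonneg fun n => by positivity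
    linarith
  · have h1 : ∑ p ∈ P1 d, Real.log p ^ 2 / (p * (p - 1)) ≤ ∑ p ∈ P1 d, 32 * (1 / (p : ℝ) ^ (3 / 2 : ℝ)) := by
      refine sum_le_sum fun p hp => ?_
      have hp' := (mem_P1.1 hp).2
      have hp2 : (2 : ℝ) ≤ p := by exact_mod_cast hp'.two_le
      have h2 := Real.log_natCast_le_rpow_div p (ε := 1 / 4) (by norm_num)
      have h3 := (log_prime_pos hp').le
      have h4 : Real.log p ^ 2 ≤ 16 * (p : ℝ) ^ (1 / 2 : ℝ) := by
        have h5 := pow_le_pow_left₀ h3 h2 2
        have h6 : ((p : ℝ) ^ (1 / 4 : ℝ) / (1 / 4)) ^ 2 = 16 * (p : ℝ) ^ (1 / 2 : ℝ) := by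
          rw [div_pow, ← Real.rpow_natCast, ← Real.rpow_mul (by positivity)]
          norm_num
          ring
        rwa [h6] at h5
      have h5 : (p : ℝ) ^ (3 / 2 : ℝ) * (p : ℝ) ^ (1 / 2 : ℝ) = (p : ℝ) ^ 2 := by
        rw [← Real.rpow_add (by positivity), ← Real.rpow_natCast]
        norm_num
      rw [mul_one_div, div_le_div_iff₀ (by nlinarith) (by positivity)]
      calc Real.log p ^ 2 * (p : ℝ) ^ (3 / 2 : ℝ) ≤ 16 * (p : ℝ) ^ (1 / 2 : ℝ) * (p : ℝ) ^ (3 / 2 : ℝ) := by gcongr
        _ = 16 * (p : ℝ) ^ 2 := by rw [← h5]; ring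
        _ ≤ 32 * (p * (p - 1)) := by nlinarith
    refine h1.trans ?_
    rw [← mul_sum]
    have h2 := hs.sum_le_tsum (P1 d) fun n _ => by positivity
    linarith

theorem sum_log_quot (d : ℕ) (hd : 0 < d) : ∑ p ∈ P1 d, Real.log ((d : ℝ) / (p - 1)) ≤ d := by
  have h1 : ∑ p ∈ P1 d, Real.log ((d : ℝ) / (p - 1)) ≤ ∑ n ∈ range d, Real.log ((d : ℝ) / (n + 1)) := by
    have h2 : ∑ p ∈ P1 d, Real.log ((d : ℝ) / (p - 1)) =
        ∑ n ∈ (P1 d).image (fun p : ℕ => (p - 2 : ℕ)), Real.log ((d : ℝ) / ((n : ℕ) + 1)) := by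
      rw [sum_image]
      · refine sum_congr rfl fun p hp => ?_
        have hp' := (mem_P1.1 hp).2.two_le
        rw [Nat.cast_sub hp']
        congr 2
        push_cast
        ring
      · intro p hp q hq h
        have hp' := (mem_P1.1 hp).2.two_le
        have hq' := (mem_P1.1 hq).2.two_le
        simp only at h
        omega
    rw [h2]
    refine sum_le_sum_of_subset_of_nonneg (fun n hn => ?_) fun n hn _ => ?_
    · obtain ⟨p, hp, rfl⟩ := mem_image.1 hn
      have hp' := mem_P1.1 hp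
      have := hp'.2.two_le
      rw [mem_range]
      omega
    · apply Real.log_nonneg
      rw [le_div_iff₀ (by positivity), one_mul]
      have := mem_range.1 hn
      exact_mod_cast this
  refine h1.trans ?_
  have h2 : ∑ n ∈ range d, Real.log ((d : ℝ) / (n + 1)) = Real.log ((d : ℝ) ^ d / d.factorial) := by
    rw [← Real.log_prod]
    · congr 1
      rw [prod_div_distrib, prod_const, card_range, ← prod_range_add_one_eq_factorial]
      push_cast
      rfl
    · intro n _
      positivity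
  rw [h2]
  have h3 := Real.pow_div_factorial_le_exp (x := (d : ℝ)) (by positivity) d
  have h4 := Real.log_le_log (by positivity) h3
  rwa [Real.log_exp] at h4

end CritL
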