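import Pool.Agent.Lib.CritL.Refl

/-!
# Dimensions in which critical forms have a dual vector of norm at most 4
-/

set_option autoImplicit false

namespace CritL

open Matrix

/-- there is a critical form in dimension `d` with a nonzero dual vector of norm at most `K` -/
def ShortK (K : ℝ) (d : ℕ) : Prop := ∃ P : Matrix (Fin d) (Fin d) ℝ, Adm P ∧
  (∀ G : Matrix (Fin d) (Fin d) ℝ, Adm G → P.det ≤ G.det) ∧ ∃ u : Fin d → ℤ, u ≠ 0 ∧ qf P⁻¹ (ic u) ≤ K

/-- the case `K = 4` -/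
def Short (d : ℕ) : Prop := ShortK 4 d

theorem ShortK.step {K : ℝ} {n : ℕ} (h : ShortK K (n + 1)) : Dn n ≤ K * Dn (n + 1) := by
  obtain ⟨P, hP, hcr, u, hu, h4⟩ := h
  rw [← Dn_eq hP hcr]
  have h1 := section_ge (fun G hG => Dn_le hG) hP u hu
  have h2 := mul_le_mul_of_nonneg_left h4 hP.pd.det_pos.le
  linarith

theorem Short.step {n : ℕ} (h : Short (n + 1)) : Dn n ≤ 4 * Dn (n + 1) := ShortK.step h

theorem Short.section {m : ℕ} (h : Short (1 + m)) :
    ∃ P₁ : Matrix (Fin m) (Fin m) ℝ, Adm P₁ ∧ P₁.det ≤ 4 * Dn (1 + m) := by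
  obtain ⟨P, hP, hcr, u, hu, h4⟩ := h
  have hW : LinearIndependent ℤ (fun _ : Fin 1 => u) := by
    rw [linearIndependent_unique_iff]
    exact hu
  obtain ⟨P₁, hP₁, h1⟩ := section_multi (n := 1) hP (fun _ => u) hW
  refine ⟨P₁, hP₁, ?_⟩
  have h2 := det_gram_le hP (fun _ : Fin 1 => u) fun _ => h4
  have h3 := mul_le_mul_of_nonneg_left h2 hP.pd.det_pos.le
  rw [← Dn_eq hP hcr]
  calc P₁.det ≤ _ := h1
    _ ≤ _ := h3
    _ = 4 * P.det := by ring

/-- **one of 24 consecutive dimensions** -/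
theorem window (m : ℕ) : ∃ d, m < d ∧ d ≤ m + 24 ∧ ¬ Short d := by
  by_contra hcon
  push Not at hcon
  obtain ⟨Q, hQ, hQd⟩ := exists_leech
  have hchain : ∀ k, k ≤ 23 → Dn (1 + m) ≤ 4 ^ k * Dn (1 + m + k) := by
    intro k
    induction k with
    | zero => intro _; simp
    | succ k ih =>
      intro hk
      have h1 := ih (by omega)
      have h2 : Short (1 + m + k + 1) := hcon _ (by omega) (by omega)
      have h3 := h2.step
      have h4 : (4 : ℝ) ^ k * Dn (1 + m + k) ≤ 4 ^ k * (4 * Dn (1 + m + k + 1)) :=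
        mul_le_mul_of_nonneg_left h3 (by positivity)
      calc Dn (1 + m) ≤ _ := h1
        _ ≤ _ := h4
        _ = 4 ^ (k + 1) * Dn (1 + m + (k + 1)) := by rw [pow_succ]; ring_nf
  have h23 := hchain 23 le_rfl
  rcases Nat.eq_zero_or_pos m with rfl | hm
  · have h1 := one_le_Dn_one
    have h2 := Dn_le hQ
    have h3 : Dn (1 + 0 + 23) ≤ (1 / 2) ^ 48 := h2.trans hQd
    have h4 : (4 : ℝ) ^ 23 * Dn (1 + 0 + 23) ≤ 4 ^ 23 * (1 / 2) ^ 48 := mul_le_mul_of_nonneg_left h3 (by positivity)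
    have h5 : (1 : ℝ) ≤ 4 ^ 23 * (1 / 2) ^ 48 := by
      calc (1 : ℝ) ≤ Dn (1 + 0) := h1
        _ ≤ _ := h23
        _ ≤ _ := h4
    norm_num at h5
  · obtain ⟨P₁, hP₁, h1⟩ := (hcon (1 + m) (by omega) (by omega)).section
    obtain ⟨G, hG, hlt⟩ := join (by norm_num) hm hQ hP₁
    have h2 := Dn_le hG
    have he : 1 + m + 23 = 24 + m := by omega
    rw [he] at h23
    have h3 : Q.det * P₁.det ≤ (1 / 2) ^ 48 * (4 * (4 ^ 23 * Dn (24 + m))) :=
      mul_le_mul hQd (h1.trans (by linarith)) hP₁.pd.det_pos.le (by positivity)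
    have h4 : (1 / 2 : ℝ) ^ 48 * (4 * (4 ^ 23 * Dn (24 + m))) = Dn (24 + m) := by
      ring_nf
    rw [h4] at h3
    linarith

open scoped Classical in
/-- **the upper density is at most 1/2** -/
theorem density (K ε : ℝ) (hε : 0 < ε) :
    ∃ N₀ : ℕ, ∀ N ≥ N₀, (((Finset.Icc 1 N).filter (fun d => ShortK K d)).card : ℝ) ≤ (1 / 2 + ε) * N := by
  obtain ⟨N₀, h⟩ := dens Dn {d | ShortK K d} low up (fun n hn => mordell n (by omega)) (max K 2)
    (lt_of_lt_of_le (by norm_num) (le_max_right _ _))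
    (fun n _ hn => (ShortK.step hn).trans (mul_le_mul_of_nonneg_right (le_max_left _ _) (Dn_pos _).le)) ε hε
  exact ⟨N₀, fun N hN => h N hN⟩

end CritL
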