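import Pool.Agent.Lib.CritL.Defs
import Pool.Agent.Lib.CritL.Window

/-!
# From lattices to forms
-/

set_option autoImplicit false

namespace CritL

open Matrix

/-- the matrix with the rows `b i` -/
noncomputable def bm {n d : ℕ} (b : Fin n → E d) : Matrix (Fin n) (Fin d) ℝ := Matrix.of fun i j => b i j

/-- the combination with real coefficients -/
noncomputable def rp {n d : ℕ} (b : Fin n → E d) (z : Fin n → ℝ) : E d := ∑ i, z i • b i

/-- the Gram matrix -/
noncomputable def gm {n d : ℕ} (b : Fin n → E d) : Matrix (Fin n) (Fin n) ℝ := bm b * (bm b)ᵀ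

theorem rp_apply {n d : ℕ} (b : Fin n → E d) (z : Fin n → ℝ) (j : Fin d) : rp b z j = (z ᵥ* bm b) j := by
  unfold rp bm
  simp [vecMul, dotProduct]

theorem inner_eq {d : ℕ} (x y : E d) : inner ℝ x y = ∑ j, x j * y j := by
  rw [PiLp.inner_apply]
  refine Finset.sum_congr rfl fun j _ => ?_
  simp [mul_comm]

theorem gm_apply {n d : ℕ} (b : Fin n → E d) (i j : Fin n) : gm b i j = inner ℝ (b i) (b j) := by
  rw [inner_eq]
  simp [gm, bm, mul_apply]

theorem inner_rp {n d : ℕ} (b : Fin n → E d) (y z : Fin n → ℝ) :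
    inner ℝ (rp b y) (rp b z) = y ⬝ᵥ (gm b *ᵥ z) := by
  rw [inner_eq]
  have h1 : ∀ j, rp b y j * rp b z j = (y ᵥ* bm b) j * (z ᵥ* bm b) j := fun j => by rw [rp_apply, rp_apply]
  simp only [h1]
  show (y ᵥ* bm b) ⬝ᵥ (z ᵥ* bm b) = _
  unfold gm
  rw [← mulVec_mulVec, mulVec_transpose, ← dotProduct_mulVec]

theorem norm_rp {n d : ℕ} (b : Fin n → E d) (z : Fin n → ℝ) : ‖rp b z‖ ^ 2 = qf (gm b) z := by
  rw [← real_inner_self_eq_norm_sq, inner_rp]
  rfl

theorem rp_inj {n d : ℕ} {b : Fin n → E d} (hb : LinearIndependent ℝ b) {z : Fin n → ℝ} (h : rp b z = 0) : z = 0 := by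
  funext i
  exact Fintype.linearIndependent_iff.1 hb z h i

theorem gm_pd {n d : ℕ} {b : Fin n → E d} (hb : LinearIndependent ℝ b) : (gm b).PosDef := by
  refine posDef_iff_dotProduct_mulVec.2 ⟨?_, fun z hz => ?_⟩
  · rw [IsHermitian, conjTranspose_eq_transpose_of_trivial, gm, transpose_mul, transpose_transpose]
  · rw [star_trivial]
    have h1 := norm_rp b z
    unfold qf at h1
    rw [← h1]
    have : rp b z ≠ 0 := fun h0 => hz (rp_inj hb h0)
    positivity

theorem mem_lat {d : ℕ} (b : Fin d → E d) (v : E d) : v ∈ lat b ↔ ∃ x : Fin d → ℤ, rp b (ic x) = v := by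
  unfold lat
  rw [Submodule.mem_span_range_iff_exists_fun]
  have h : ∀ x : Fin d → ℤ, ∑ i, x i • b i = rp b (ic x) := by
    intro x
    unfold rp ic
    refine Finset.sum_congr rfl fun i _ => ?_
    rw [Int.cast_smul_eq_zsmul]
  simp only [h]

/-- a lower bound for the values of a form at nonzero integer vectors -/
theorem exists_low {n : ℕ} {G : Matrix (Fin n) (Fin n) ℝ} (hG : G.PosDef) :
    ∃ c : ℝ, 0 < c ∧ ∀ x : Fin n → ℤ, x ≠ 0 → c ≤ qf G (ic x) := by
  rcases Nat.eq_zero_or_pos n with rfl | hn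
  · exact ⟨1, one_pos, fun x hx => absurd (Subsingleton.elim _ _) hx⟩
  have hGu : IsUnit G.det := isUnit_iff_ne_zero.2 hG.det_pos.ne'
  have hdiag : ∀ i, 0 < G⁻¹ i i := by
    intro i
    have := hG.inv.diag_pos (i := i)
    exact this
  have key : ∀ (y : Fin n → ℝ) (i : Fin n), y i ^ 2 ≤ G⁻¹ i i * qf G y := by
    intro y i
    set u : Fin n → ℝ := G⁻¹ *ᵥ Pi.single i 1 with hu
    have hGu1 : G *ᵥ u = Pi.single i 1 := by rw [hu, mulVec_mulVec, mul_nonsing_inv G hGu, one_mulVec]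
    have h1 : qf G u = G⁻¹ i i := by
      unfold qf
      rw [hGu1, dotProduct_single, mul_one, hu]
      simp
    have h2 : y ⬝ᵥ (G *ᵥ u) = y i := by rw [hGu1, dotProduct_single, mul_one]
    have h3 : u ⬝ᵥ (G *ᵥ y) = y i := by rw [dot_symm hG, hGu1, single_dotProduct, one_mul]
    have h4 := qf_nonneg hG (G⁻¹ i i • y - y i • u)
    have h5 : qf G (G⁻¹ i i • y - y i • u) = G⁻¹ i i * (G⁻¹ i i * qf G y - y i ^ 2) := by
      unfold qf at h1 ⊢
      rw [mulVec_sub, mulVec_smul, mulVec_smul, sub_dotProduct, dotProduct_sub, dotProduct_sub, smul_dotProduct,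
        smul_dotProduct, smul_dotProduct, smul_dotProduct, dotProduct_smul, dotProduct_smul, dotProduct_smul,
        dotProduct_smul, h2, h3, h1]
      simp only [smul_eq_mul]
      ring
    rw [h5] at h4
    have h6 := nonneg_of_mul_nonneg_right h4 (hdiag i)
    linarith
  set S := ∑ i, G⁻¹ i i with hS
  have hS0 : 0 < S := Finset.sum_pos (fun i _ => hdiag i) ⟨⟨0, hn⟩, Finset.mem_univ _⟩
  refine ⟨S⁻¹, inv_pos.2 hS0, fun x hx => ?_⟩
  obtain ⟨i, hi⟩ := Function.ne_iff.1 hx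
  have h1 : (1 : ℝ) ≤ (ic x i) ^ 2 := by
    have : 1 ≤ (x i) ^ 2 := by
      have := sq_pos_of_ne_zero hi
      omega
    have h2 : (1 : ℝ) ≤ ((x i : ℤ) : ℝ) ^ 2 := by exact_mod_cast this
    exact h2
  have h2 := key (ic x) i
  have h3 : G⁻¹ i i ≤ S := Finset.single_le_sum (f := fun i => G⁻¹ i i) (fun i _ => (hdiag i).le) (Finset.mem_univ i)
  have h4 : G⁻¹ i i * qf G (ic x) ≤ S * qf G (ic x) := mul_le_mul_of_nonneg_right h3 (qf_nonneg hG _)
  rw [inv_eq_one_div, div_le_iff₀ hS0]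
  linarith

theorem minL_bdd {d : ℕ} (b : Fin d → E d) : BddBelow {r : ℝ | ∃ v ∈ lat b, v ≠ 0 ∧ r = ‖v‖} := by
  refine ⟨0, ?_⟩
  rintro r ⟨v, -, -, rfl⟩
  exact norm_nonneg v

theorem minL_nonempty {d : ℕ} (hd : 0 < d) {b : Fin d → E d} (hb : LinearIndependent ℝ b) :
    {r : ℝ | ∃ v ∈ lat b, v ≠ 0 ∧ r = ‖v‖}.Nonempty :=
  ⟨_, b ⟨0, hd⟩, Submodule.subset_span (Set.mem_range_self _), hb.ne_zero _, rfl⟩

theorem minL_le {d : ℕ} (b : Fin d → E d) {v : E d} (hv : v ∈ lat b) (h0 : v ≠ 0) : minL b ≤ ‖v‖ :=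
  csInf_le (minL_bdd b) ⟨v, hv, h0, rfl⟩

theorem le_minL {d : ℕ} (hd : 0 < d) {b : Fin d → E d} (hb : LinearIndependent ℝ b) {c : ℝ} (hc : 0 ≤ c)
    (h : ∀ x : Fin d → ℤ, x ≠ 0 → c ^ 2 ≤ qf (gm b) (ic x)) : c ≤ minL b := by
  refine le_csInf (minL_nonempty hd hb) ?_
  rintro r ⟨v, hv, h0, rfl⟩
  obtain ⟨x, rfl⟩ := (mem_lat b v).1 hv
  have hx : x ≠ 0 := by
    rintro rfl
    apply h0
    simp [rp, ic]
  have h1 := h x hx
  rw [← norm_rp] at h1
  exact (sq_le_sq₀ hc (norm_nonneg _)).1 h1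

theorem minL_pos {d : ℕ} (hd : 0 < d) {b : Fin d → E d} (hb : LinearIndependent ℝ b) : 0 < minL b := by
  obtain ⟨c, hc, h⟩ := exists_low (gm_pd hb)
  have := le_minL hd hb (Real.sqrt_nonneg c) (fun x hx => by rw [Real.sq_sqrt hc.le]; exact h x hx)
  exact (Real.sqrt_pos.2 hc).trans_le this

/-- the normalized form of a lattice -/
noncomputable def nf {d : ℕ} (b : Fin d → E d) : Matrix (Fin d) (Fin d) ℝ := (minL b ^ 2)⁻¹ • gm b

theorem nf_adm {d : ℕ} (hd : 0 < d) {b : Fin d → E d} (hb : LinearIndependent ℝ b) : Adm (nf b) := by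
  have h0 := minL_pos hd hb
  refine adm_of (gm_pd hb) (by positivity) fun x hx => ?_
  rw [← norm_rp]
  have h1 : rp b (ic x) ≠ 0 := by
    intro h
    apply hx
    apply ic_inj
    rw [rp_inj hb h, ic_zero]
  exact pow_le_pow_left₀ h0.le (minL_le b ((mem_lat b _).2 ⟨x, rfl⟩) h1) 2

theorem nf_det {d : ℕ} (b : Fin d → E d) : (nf b).det = ratio b ^ 2 := by
  unfold nf gm ratio detL
  rw [det_smul, Fintype.card_fin, det_mul, det_transpose, div_pow, sq_abs]
  have : (bm b).det = (Matrix.of fun i j => b i j).det := rfl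
  rw [this]
  rw [← pow_mul, mul_comm d 2, pow_mul, inv_pow]
  ring

/-- every admissible form comes from a lattice with at most its determinant -/
theorem exists_basis {d : ℕ} (hd : 0 < d) {G : Matrix (Fin d) (Fin d) ℝ} (hG : Adm G) :
    ∃ c : Fin d → E d, LinearIndependent ℝ c ∧ 0 ≤ ratio c ∧ ratio c ^ 2 ≤ G.det := by
  obtain ⟨B, hB, hB0⟩ := exists_factor hG.pd
  let c : Fin d → E d := fun i => WithLp.toLp 2 (fun k => B k i)
  have hbm : bm c = Bᵀ := by
    funext i j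
    rfl
  have hgm : gm c = G := by
    unfold gm
    rw [hbm, transpose_transpose, hB]
  have hc : LinearIndependent ℝ c := by
    rw [Fintype.linearIndependent_iff]
    intro z hz i
    have h1 : z ᵥ* Bᵀ = 0 := by
      funext j
      rw [← hbm, ← rp_apply]
      have : rp c z = 0 := hz
      rw [this]
      rfl
    have h2 : Bᵀ.det ≠ 0 := by rwa [det_transpose]
    have h3 := eq_zero_of_vecMul_eq_zero h2 h1
    exact congrFun h3 i
  have hmin : 1 ≤ minL c := le_minL hd hc zero_le_one fun x hx => by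
    rw [hgm, one_pow]
    exact hG.one_le x hx
  refine ⟨c, hc, ?_, ?_⟩
  · unfold ratio detL
    positivity
  · unfold ratio
    rw [div_pow]
    have h1 : detL c ^ 2 = G.det := by
      unfold detL
      rw [sq_abs]
      have : (Matrix.of fun i j => c i j).det = (bm c).det := rfl
      rw [this, hbm, hB, det_mul, det_transpose, sq]
    rw [h1]
    exact div_le_self hG.pd.det_pos.le (one_le_pow₀ (one_le_pow₀ hmin))

theorem nf_crit {d : ℕ} (hd : 0 < d) {b : Fin d → E d} (hb : IsCritical b) :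
    ∀ G : Matrix (Fin d) (Fin d) ℝ, Adm G → (nf b).det ≤ G.det := by
  intro G hG
  obtain ⟨c, hc, -, hle⟩ := exists_basis hd hG
  rw [nf_det]
  refine le_trans (pow_le_pow_left₀ ?_ (hb.2 c hc) 2) hle
  have := minL_pos hd hb.1
  unfold ratio detL
  positivity

/-- a preserving reflection gives a dual vector -/
theorem exists_dual {d : ℕ} (hd : 0 < d) {b : Fin d → E d} (hb : LinearIndependent ℝ b) {v : E d} (hv : v ≠ 0)
    (h : Preserves v b) : ∃ (w : Fin d → ℤ) (t : ℝ) (ν : Fin d → ℝ), t ≠ 0 ∧ rp b ν = v ∧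
      ic w = t • (nf b *ᵥ ν) ∧ qf (nf b)⁻¹ (ic w) ≤ 4 := by
  have hl := minL_pos hd hb
  -- coordinates of `v`
  obtain ⟨ν, hν⟩ : ∃ ν, rp b ν = v := by
    have hspan : Submodule.span ℝ (Set.range b) = ⊤ := hb.span_eq_top_of_card_eq_finrank' (by simp)
    have hmem : v ∈ Submodule.span ℝ (Set.range b) := by rw [hspan]; exact Submodule.mem_top
    obtain ⟨ν, hν⟩ := (Submodule.mem_span_range_iff_exists_fun ℝ).1 hmem
    exact ⟨ν, hν⟩
  have hν0 : ν ≠ 0 := by
    rintro rfl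
    apply hv
    rw [← hν]
    simp [rp]
  obtain ⟨w, t, ht, hw, h4⟩ := refl_functional (nf_adm hd hb) ν hν0 (fun x => by
    have h1 := h _ ((mem_lat b _).2 ⟨x, rfl⟩)
    obtain ⟨y, hy⟩ := (mem_lat b _).1 h1
    refine ⟨y, ?_⟩
    have h2 : rp b (ic x - (2 * (ν ⬝ᵥ nf b *ᵥ ic x) / qf (nf b) ν) • ν) = rp b (ic y) := by
      rw [hy]
      unfold refl
      rw [← hν, inner_rp, inner_rp]
      have h3 : 2 * (ν ⬝ᵥ nf b *ᵥ ic x) / qf (nf b) ν = 2 * (ν ⬝ᵥ gm b *ᵥ ic x) / (ν ⬝ᵥ gm b *ᵥ ν) := by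
        unfold nf qf
        rw [smul_mulVec, smul_mulVec, dotProduct_smul, dotProduct_smul]
        simp only [smul_eq_mul]
        field_simp
      rw [h3]
      unfold rp
      rw [Finset.smul_sum, ← Finset.sum_sub_distrib]
      refine Finset.sum_congr rfl fun i _ => ?_
      rw [Pi.sub_apply, Pi.smul_apply, smul_eq_mul, sub_smul, smul_smul]
    have h3 : rp b (ic x - (2 * (ν ⬝ᵥ nf b *ᵥ ic x) / qf (nf b) ν) • ν - ic y) = 0 := by
      have h4 : ∀ p q : Fin d → ℝ, rp b (p - q) = rp b p - rp b q := by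
        intro p q
        unfold rp
        rw [← Finset.sum_sub_distrib]
        exact Finset.sum_congr rfl fun i _ => sub_smul _ _ _
      rw [h4, h2, sub_self]
    exact sub_eq_zero.1 (rp_inj hb h3))
  exact ⟨w, t, ν, ht, hν, hw, h4⟩

/-- **at most 23 independent reflections** -/
theorem reflections_le {d : ℕ} (hd : 0 < d) {b : Fin d → E d} (hb : IsCritical b) {n : ℕ} {v : Fin n → E d}
    (hv : LinearIndependent ℝ v) (h : ∀ i, Preserves (v i) b) : n ≤ 23 := by
  choose W t ν ht hν hW h4 using fun i => exists_dual hd hb.1 (hv.ne_zero i) (h i)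
  refine lt_24 (nf_adm hd hb.1) (nf_crit hd hb) W ?_ h4
  rw [Fintype.linearIndependent_iff]
  intro a ha
  have hP := (nf_adm hd hb.1).pd
  have h1 : nf b *ᵥ (∑ i, ((a i : ℝ) * t i) • ν i) = 0 := by
    rw [mulVec_sum]
    have h2 : ∀ i, nf b *ᵥ (((a i : ℝ) * t i) • ν i) = (a i : ℝ) • ic (W i) := by
      intro i
      rw [mulVec_smul, hW, smul_smul]
    simp only [h2]
    funext k
    have := congrFun ha k
    simp only [Finset.sum_apply, Pi.smul_apply, smul_eq_mul, Pi.zero_apply] at this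
    simp only [Finset.sum_apply, Pi.smul_apply, smul_eq_mul, Pi.zero_apply]
    have h3 := congrArg (Int.cast : ℤ → ℝ) this
    push_cast at h3
    exact h3
  have h2 : ∑ i, ((a i : ℝ) * t i) • ν i = 0 := by
    have := mulVec_inj hP.det_pos.ne' (h1.trans (mulVec_zero (nf b)).symm)
    exact this
  have h3 : ∑ i, ((a i : ℝ) * t i) • v i = 0 := by
    have h5 : rp b (∑ i, ((a i : ℝ) * t i) • ν i) = ∑ i, ((a i : ℝ) * t i) • v i := by
      simp only [← hν]
      unfold rp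
      simp only [Finset.sum_apply, Pi.smul_apply, smul_eq_mul, Finset.sum_smul, Finset.smul_sum, mul_smul]
      rw [Finset.sum_comm]
    rw [← h5, h2]
    simp [rp]
  intro i
  have h6 := Fintype.linearIndependent_iff.1 hv _ h3 i
  have h7 : (a i : ℝ) = 0 := (mul_eq_zero.1 h6).resolve_right (ht i)
  exact_mod_cast h7

/-- a critical lattice with a reflection gives `Short` -/
theorem short_of {d : ℕ} (hd : 0 < d) {b : Fin d → E d} (hb : IsCritical b) {v : E d} (hv : v ≠ 0)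
    (h : Preserves v b) : Short d := by
  obtain ⟨w, t, ν, ht, hν, hw, h4⟩ := exists_dual hd hb.1 hv h
  refine ⟨nf b, nf_adm hd hb.1, nf_crit hd hb, w, ?_, h4⟩
  rintro rfl
  rw [ic_zero] at hw
  have hP := (nf_adm hd hb.1).pd
  have h1 : nf b *ᵥ ν = 0 := by
    have := congrArg (t⁻¹ • ·) hw
    simpa [smul_smul, inv_mul_cancel₀ ht] using this.symm
  have h2 : ν = 0 := mulVec_inj hP.det_pos.ne' (h1.trans (mulVec_zero (nf b)).symm)
  rw [h2] at hν
  apply hv
  rw [← hν]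
  simp [rp]

end CritL
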