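import Pool.Agent.Lib.CritL.Gram

/-!
# Blichfeldt's bound

For every admissible form `G` in dimension `m` one has `π ^ m ≤ 2 ^ m * G.det * Γ(m / 2 + 2) ^ 2`.
-/

set_option autoImplicit false

namespace CritL

open Matrix MeasureTheory Module

open scoped ENNReal MatrixOrder

section

variable {ι : Type*} [Fintype ι]

/-- factorization -/
theorem exists_factor [DecidableEq ι] {G : Matrix ι ι ℝ} (hG : G.PosDef) :
    ∃ B : Matrix ι ι ℝ, G = Bᵀ * B ∧ B.det ≠ 0 := by
  obtain ⟨B, hB⟩ := CStarAlgebra.nonneg_iff_eq_star_mul_self.mp hG.posSemidef.nonneg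
  rw [star_eq_conjTranspose, conjTranspose_eq_transpose_of_trivial] at hB
  refine ⟨B, hB, fun h0 => ?_⟩
  have := hG.det_pos
  rw [hB, det_mul, h0, mul_zero] at this
  exact lt_irrefl _ this

/-- the pairwise identity -/
theorem sum_pairs {κ : Type*} (G : Matrix ι ι ℝ) (s : Finset κ) (p : κ → ι → ℝ) :
    ∑ a ∈ s, ∑ b ∈ s, qf G (p a - p b) = 2 * s.card * ∑ a ∈ s, qf G (p a) - 2 * qf G (∑ a ∈ s, p a) := by
  have h1 : ∀ a b, qf G (p a - p b) = qf G (p a) + qf G (p b) - p a ⬝ᵥ (G *ᵥ p b) - p b ⬝ᵥ (G *ᵥ p a) := by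
    intro a b
    unfold qf
    simp only [mulVec_sub, sub_dotProduct, dotProduct_sub]
    ring
  have h2 : qf G (∑ a ∈ s, p a) = ∑ a ∈ s, ∑ b ∈ s, p a ⬝ᵥ (G *ᵥ p b) := by
    unfold qf
    rw [Matrix.mulVec_sum, sum_dotProduct]
    simp only [dotProduct_sum]
  have h3 : ∑ a ∈ s, ∑ b ∈ s, p b ⬝ᵥ (G *ᵥ p a) = ∑ a ∈ s, ∑ b ∈ s, p a ⬝ᵥ (G *ᵥ p b) := Finset.sum_comm
  simp only [h1, Finset.sum_sub_distrib, Finset.sum_add_distrib, h3, ← h2, Finset.sum_const, nsmul_eq_mul]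
  rw [← Finset.mul_sum]
  ring

/-- Blichfeldt's lemma -/
theorem sum_le_one {κ : Type*} {G : Matrix ι ι ℝ} (hG : G.PosDef) (s : Finset κ) (p : κ → ι → ℝ)
    (hp : ∀ a ∈ s, ∀ b ∈ s, a ≠ b → 1 ≤ qf G (p a - p b)) : ∑ a ∈ s, (1 - 2 * qf G (p a)) ≤ 1 := by
  classical
  rcases s.eq_empty_or_nonempty with rfl | hs
  · simp
  have hk : (0 : ℝ) < s.card := by exact_mod_cast hs.card_pos
  have h1 : (s.card : ℝ) * (s.card - 1) ≤ ∑ a ∈ s, ∑ b ∈ s, qf G (p a - p b) := by
    have h2 : ∀ a ∈ s, (s.card : ℝ) - 1 ≤ ∑ b ∈ s, qf G (p a - p b) := by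
      intro a ha
      rw [← Finset.add_sum_erase s _ ha, sub_self, qf_zero, zero_add]
      have h3 : ∑ b ∈ s.erase a, (1 : ℝ) ≤ ∑ b ∈ s.erase a, qf G (p a - p b) :=
        Finset.sum_le_sum fun b hb => hp a ha b (Finset.mem_of_mem_erase hb) (Finset.ne_of_mem_erase hb).symm
      rw [Finset.sum_const, nsmul_eq_mul, mul_one, Finset.card_erase_of_mem ha] at h3
      have h4 : ((s.card - 1 : ℕ) : ℝ) = s.card - 1 := by
        rw [Nat.cast_sub hs.card_pos]; simp
      rwa [h4] at h3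
    calc (s.card : ℝ) * (s.card - 1) = ∑ _a ∈ s, ((s.card : ℝ) - 1) := by
          rw [Finset.sum_const, nsmul_eq_mul]
      _ ≤ _ := Finset.sum_le_sum h2
  rw [sum_pairs] at h1
  have h5 := qf_nonneg hG (∑ a ∈ s, p a)
  have h6 : (s.card : ℝ) * (s.card - 1) ≤ s.card * (2 * ∑ a ∈ s, qf G (p a)) := by nlinarith
  have h7 := le_of_mul_le_mul_left h6 hk
  rw [Finset.sum_sub_distrib, Finset.sum_const, nsmul_eq_mul, mul_one, ← Finset.mul_sum]
  linarith

theorem qf_continuous (G : Matrix ι ι ℝ) : Continuous (qf G) := by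
  unfold qf
  simp only [dotProduct, mulVec]
  fun_prop

/-- elements of the integer lattice -/
theorem exists_int {m : ℕ} (g : Submodule.span ℤ (Set.range (Pi.basisFun ℝ (Fin m)))) :
    ∃ x : Fin m → ℤ, (g : Fin m → ℝ) = ic x := by
  have h := (Module.Basis.mem_span_iff_repr_mem ℤ (Pi.basisFun ℝ (Fin m)) (g : Fin m → ℝ)).1 g.2
  choose x hx using h
  refine ⟨x, ?_⟩
  funext i
  have := hx i
  rw [Pi.basisFun_repr] at this
  simp only [ic]
  rw [← this]
  simp

/-- the integral over the space is at most 1 -/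
theorem lintegral_le_one {m : ℕ} {G : Matrix (Fin m) (Fin m) ℝ} (hG : Adm G) :
    ∫⁻ z : Fin m → ℝ, ENNReal.ofReal (1 - 2 * qf G z) ≤ 1 := by
  classical
  have hfd := ZSpan.isAddFundamentalDomain (Pi.basisFun ℝ (Fin m)) (volume : Measure (Fin m → ℝ))
  have : VAddInvariantMeasure (Submodule.span ℤ (Set.range (Pi.basisFun ℝ (Fin m)))) (Fin m → ℝ)
      (volume : Measure (Fin m → ℝ)) := ⟨fun c s _ => by
    show volume ((fun x : Fin m → ℝ => (c : Fin m → ℝ) + x) ⁻¹' s) = volume s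
    exact measure_preimage_add volume (c : Fin m → ℝ) s⟩
  rw [hfd.lintegral_eq_tsum']
  have hmeas : ∀ g : Submodule.span ℤ (Set.range (Pi.basisFun ℝ (Fin m))),
      Measurable fun x : Fin m → ℝ => ENNReal.ofReal (1 - 2 * qf G (-g +ᵥ x)) := by
    intro g
    have h1 : Continuous fun x : Fin m → ℝ => (-g +ᵥ x : Fin m → ℝ) := by
      have : (fun x : Fin m → ℝ => (-g +ᵥ x : Fin m → ℝ)) = fun x => -(g : Fin m → ℝ) + x := by
        funext x
        rfl
      rw [this]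
      exact continuous_const.add continuous_id
    exact (ENNReal.continuous_ofReal.comp (continuous_const.sub
      (continuous_const.mul ((qf_continuous G).comp h1)))).measurable
  rw [← lintegral_tsum fun g => (hmeas g).aemeasurable]
  have hpt : ∀ x : Fin m → ℝ, ∑' g : Submodule.span ℤ (Set.range (Pi.basisFun ℝ (Fin m))),
      ENNReal.ofReal (1 - 2 * qf G (-g +ᵥ x)) ≤ 1 := by
    intro x
    rw [ENNReal.tsum_eq_iSup_sum]
    refine iSup_le fun s => ?_
    set s' := s.filter fun g : Submodule.span ℤ (Set.range (Pi.basisFun ℝ (Fin m))) =>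
      0 < 1 - 2 * qf G (-g +ᵥ x) with hs'
    have h1 : ∑ g ∈ s, ENNReal.ofReal (1 - 2 * qf G (-g +ᵥ x)) =
        ∑ g ∈ s', ENNReal.ofReal (1 - 2 * qf G (-g +ᵥ x)) := by
      symm
      refine Finset.sum_subset (Finset.filter_subset _ _) fun g hg hg' => ?_
      rw [hs', Finset.mem_filter, not_and, not_lt] at hg'
      exact ENNReal.ofReal_of_nonpos (hg' hg)
    rw [h1, ← ENNReal.ofReal_sum_of_nonneg fun g hg => (Finset.mem_filter.1 hg).2.le, ← ENNReal.ofReal_one]
    apply ENNReal.ofReal_le_ofReal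
    refine sum_le_one hG.pd s' (fun g => (-g +ᵥ x : Fin m → ℝ)) fun a _ b _ hab => ?_
    obtain ⟨u, hu⟩ := exists_int a
    obtain ⟨v, hv⟩ := exists_int b
    have e : ((-a +ᵥ x : Fin m → ℝ) - (-b +ᵥ x : Fin m → ℝ)) = ic (v - u) := by
      have e1 : (-a +ᵥ x : Fin m → ℝ) = -(a : Fin m → ℝ) + x := rfl
      have e2 : (-b +ᵥ x : Fin m → ℝ) = -(b : Fin m → ℝ) + x := rfl
      rw [e1, e2, hu, hv, ic_sub]
      abel
    rw [e]
    refine hG.one_le _ fun h0 => hab ?_
    have : v = u := sub_eq_zero.1 h0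
    apply Subtype.ext
    rw [hu, hv, this]
  calc ∫⁻ x in ZSpan.fundamentalDomain (Pi.basisFun ℝ (Fin m)),
        ∑' g : Submodule.span ℤ (Set.range (Pi.basisFun ℝ (Fin m))), ENNReal.ofReal (1 - 2 * qf G (-g +ᵥ x))
      ≤ ∫⁻ _x in ZSpan.fundamentalDomain (Pi.basisFun ℝ (Fin m)), 1 := lintegral_mono fun x => hpt x
    _ = 1 := by
      rw [setLIntegral_one, ZSpan.fundamentalDomain_pi_basisFun, volume_pi, Measure.pi_pi]
      simp

/-- the integral of `1 - |y|^2` over the unit ball, in one variable -/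
theorem integral_one_var (m : ℕ) (hm : 0 < m) :
    ∫ y in Set.Ioi (0 : ℝ), y ^ (m - 1) • max (1 - y ^ 2) 0 = (2 / (m * (m + 2)) : ℝ) := by
  have h1 : ∫ y in Set.Ioi (0 : ℝ), y ^ (m - 1) • max (1 - y ^ 2) 0 =
      ∫ y in Set.Ioc (0 : ℝ) 1, (y ^ (m - 1) - y ^ (m + 1)) := by
    have hsub : Set.Ioc (0 : ℝ) 1 ⊆ Set.Ioi 0 := fun y hy => hy.1
    rw [setIntegral_eq_of_subset_of_forall_sdiff_eq_zero measurableSet_Ioi hsub]
    · refine setIntegral_congr_fun measurableSet_Ioc fun y hy => ?_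
      have h2 : y ^ 2 ≤ 1 := pow_le_one₀ hy.1.le hy.2
      simp only [smul_eq_mul]
      rw [max_eq_left (by linarith)]
      have h3 : y ^ (m + 1) = y ^ (m - 1) * y ^ 2 := by
        rw [← pow_add]
        congr 1
        omega
      rw [h3]
      ring
    · intro y hy
      have hy1 : 1 < y := by
        by_contra h
        push Not at h
        exact hy.2 ⟨hy.1, h⟩
      have h2 : 1 ≤ y ^ 2 := one_le_pow₀ hy1.le
      rw [max_eq_right (by linarith), smul_zero]
  rw [h1, ← intervalIntegral.integral_of_le zero_le_one,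
    intervalIntegral.integral_sub (intervalIntegral.intervalIntegrable_pow _)
      (intervalIntegral.intervalIntegrable_pow _), integral_pow, integral_pow]
  have hm' : (0 : ℝ) < m := by exact_mod_cast hm
  have e : (m - 1 + 1 : ℕ) = m := by omega
  have e2 : ((m - 1 : ℕ) : ℝ) + 1 = m := by
    have : ((m - 1 + 1 : ℕ) : ℝ) = m := by rw [e]
    push_cast at this
    exact this
  rw [e2, e]
  push_cast
  rw [one_pow, one_pow, zero_pow (by omega), zero_pow (by omega)]
  field_simp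
  ring

/-- the integral of `1 - |x|^2` over the unit ball -/
theorem lintegral_ball {m : ℕ} (hm : 0 < m) :
    ∫⁻ x : EuclideanSpace ℝ (Fin m), ENNReal.ofReal (1 - ‖x‖ ^ 2) =
      ENNReal.ofReal (Real.sqrt Real.pi ^ m / Real.Gamma (m / 2 + 2)) := by
  have hne : Nonempty (Fin m) := ⟨⟨0, hm⟩⟩
  have h1 : ∀ x : EuclideanSpace ℝ (Fin m), ENNReal.ofReal (1 - ‖x‖ ^ 2) =
      ENNReal.ofReal (max (1 - ‖x‖ ^ 2) 0) := by
    intro x
    rw [ENNReal.ofReal_max]
    simp
  simp only [h1]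
  have hcont : Continuous fun x : EuclideanSpace ℝ (Fin m) => max (1 - ‖x‖ ^ 2) 0 :=
    (continuous_const.sub (continuous_norm.pow 2)).max continuous_const
  have hcs : HasCompactSupport fun x : EuclideanSpace ℝ (Fin m) => max (1 - ‖x‖ ^ 2) 0 := by
    refine HasCompactSupport.intro (isCompact_closedBall (0 : EuclideanSpace ℝ (Fin m)) 1) fun x hx => ?_
    rw [Metric.mem_closedBall, dist_zero_right, not_le] at hx
    have : 1 ≤ ‖x‖ ^ 2 := one_le_pow₀ hx.le
    exact max_eq_right (by linarith)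
  rw [← ofReal_integral_eq_lintegral_ofReal (hcont.integrable_of_hasCompactSupport hcs)
    (Filter.Eventually.of_forall fun x => le_max_right _ _)]
  congr 1
  have h2 := integral_fun_norm_addHaar (volume : Measure (EuclideanSpace ℝ (Fin m)))
    (fun y : ℝ => max (1 - y ^ 2) 0)
  rw [h2, finrank_euclideanSpace, Fintype.card_fin, integral_one_var m hm, measureReal_def,
    EuclideanSpace.volume_ball, Fintype.card_fin, ENNReal.ofReal_one, one_pow, one_mul]
  have hg : 0 < Real.Gamma (m / 2 + 1) := Real.Gamma_pos_of_pos (by positivity)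
  rw [ENNReal.toReal_ofReal (by positivity)]
  have hg2 : Real.Gamma ((m : ℝ) / 2 + 2) = ((m : ℝ) / 2 + 1) * Real.Gamma (m / 2 + 1) := by
    have e : (m : ℝ) / 2 + 2 = ((m : ℝ) / 2 + 1) + 1 := by ring
    rw [e, Real.Gamma_add_one (by positivity)]
  rw [hg2, nsmul_eq_mul, smul_eq_mul]
  have hm' : (0 : ℝ) < m := by exact_mod_cast hm
  field_simp

/-- **Blichfeldt's bound** -/
theorem blichfeldt {m : ℕ} (hm : 0 < m) {G : Matrix (Fin m) (Fin m) ℝ} (hG : Adm G) :
    (Real.pi / 2) ^ m / Real.Gamma (m / 2 + 2) ^ 2 ≤ G.det := by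
  obtain ⟨B, hB, hBd⟩ := exists_factor hG.pd
  set M : Matrix (Fin m) (Fin m) ℝ := Real.sqrt 2 • B with hM
  have hMd : M.det = Real.sqrt 2 ^ m * B.det := by rw [hM, det_smul, Fintype.card_fin]
  have hM0 : M.det ≠ 0 := by
    rw [hMd]
    exact mul_ne_zero (pow_ne_zero _ (by positivity)) hBd
  have hq : ∀ z : Fin m → ℝ, 2 * qf G z = ‖(WithLp.toLp 2 (M *ᵥ z) : EuclideanSpace ℝ (Fin m))‖ ^ 2 := by
    intro z
    rw [EuclideanSpace.norm_sq_eq]
    have e : qf G z = (B *ᵥ z) ⬝ᵥ (B *ᵥ z) := by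
      unfold qf
      rw [hB, ← mulVec_mulVec, dotProduct_mulVec, vecMul_transpose]
    rw [e, hM]
    simp only [dotProduct, smul_mulVec, Pi.smul_apply, smul_eq_mul, Real.norm_eq_abs, sq_abs, Finset.mul_sum]
    refine Finset.sum_congr rfl fun i _ => ?_
    have : Real.sqrt 2 ^ 2 = 2 := Real.sq_sqrt (by norm_num)
    rw [mul_pow, this]
    ring
  have hFm : Measurable fun x : EuclideanSpace ℝ (Fin m) => ENNReal.ofReal (1 - ‖x‖ ^ 2) :=
    (ENNReal.continuous_ofReal.comp (continuous_const.sub (continuous_norm.pow 2))).measurable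
  have hFm2 : Measurable fun y : Fin m → ℝ =>
      ENNReal.ofReal (1 - ‖(WithLp.toLp 2 y : EuclideanSpace ℝ (Fin m))‖ ^ 2) :=
    hFm.comp (PiLp.volume_preserving_toLp (Fin m)).measurable
  have hle := lintegral_le_one hG
  have h1 : ∫⁻ z : Fin m → ℝ, ENNReal.ofReal (1 - 2 * qf G z) =
      ENNReal.ofReal (|M.det⁻¹|) * ENNReal.ofReal (Real.sqrt Real.pi ^ m / Real.Gamma (m / 2 + 2)) := by
    have hmap := Real.map_matrix_volume_pi_eq_smul_volume_pi hM0
    have h2 : ∫⁻ z : Fin m → ℝ, ENNReal.ofReal (1 - 2 * qf G z) =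
        ∫⁻ y : Fin m → ℝ, ENNReal.ofReal (1 - ‖(WithLp.toLp 2 y : EuclideanSpace ℝ (Fin m))‖ ^ 2)
          ∂(Measure.map (toLin' M) volume) := by
      rw [lintegral_map hFm2 (LinearMap.continuous_of_finiteDimensional _).measurable]
      refine lintegral_congr fun z => ?_
      rw [hq z, toLin'_apply]
    rw [h2, hmap, lintegral_smul_measure, smul_eq_mul,
      (PiLp.volume_preserving_toLp (Fin m)).lintegral_comp hFm, lintegral_ball hm]
  rw [h1, ← ENNReal.ofReal_mul (abs_nonneg _), ← ENNReal.ofReal_one,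
    ENNReal.ofReal_le_ofReal_iff zero_le_one] at hle
  have hg : 0 < Real.Gamma ((m : ℝ) / 2 + 2) := Real.Gamma_pos_of_pos (by positivity)
  have habs : 0 < |M.det| := abs_pos.2 hM0
  rw [abs_inv, inv_mul_le_iff₀ habs, mul_one] at hle
  have h3 : (Real.sqrt Real.pi ^ m / Real.Gamma (m / 2 + 2)) ^ 2 ≤ |M.det| ^ 2 :=
    pow_le_pow_left₀ (by positivity) hle 2
  have h4 : |M.det| ^ 2 = 2 ^ m * G.det := by
    rw [sq_abs, hMd, hB, det_mul, det_transpose, mul_pow, ← pow_mul, mul_comm m 2, pow_mul,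
      Real.sq_sqrt (by norm_num)]
    ring
  have h5 : (Real.sqrt Real.pi ^ m / Real.Gamma (m / 2 + 2)) ^ 2 = Real.pi ^ m / Real.Gamma (m / 2 + 2) ^ 2 := by
    rw [div_pow, ← pow_mul, mul_comm m 2, pow_mul, Real.sq_sqrt Real.pi_pos.le]
  rw [h4, h5] at h3
  rw [div_pow, div_div, div_le_iff₀ (by positivity)]
  rw [div_le_iff₀ (by positivity)] at h3
  linarith

end

end CritL
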