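import Pool.Agent.Lib.CritL.Hom

/-!
# Construction A with shortened extended Hamming codes

Sketch. Apply `exists_of_hom` with `A = (Fin m → ZMod 2) × ZMod 2`, `G₀ = 1`, `μ = 4` and
`φ x = (fun k => sum over the i with bit k of i set of x i, sum of the x i)` (`Nat.testBit`; the cardinality of `A` is `2 ^ (m + 1)`).
Let `φ x = 0`, `x ≠ 0`. If all `x i` are even then some `|x i| ≥ 2`, so `|x|^2 ≥ 4`. Otherwise the set `O` of the `i` with `x i`
odd is nonempty, its cardinality is even, and it is not `{i, j}` with `i ≠ j` since then all bits below `m` of `i` and `j` would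
agree, but `i, j < n ≤ 2 ^ m`. So `|O| ≥ 4` and `|x|^2 ≥ 4`.
-/

set_option autoImplicit false

namespace CritL

open Matrix

namespace ConsAAux

theorem cast_eq (a : ℤ) : (a : ZMod 2) = if Odd a then 1 else 0 := by
  split_ifs with h
  · obtain ⟨k, rfl⟩ := h
    push_cast
    have : (2 : ZMod 2) = 0 := rfl
    rw [this]; ring
  · rw [Int.not_odd_iff_even] at h
    obtain ⟨k, rfl⟩ := h
    push_cast
    have : (2 : ZMod 2) = 0 := rfl
    rw [← two_mul, this]; ring

/-- the syndrome -/
noncomputable def syn (n m : ℕ) : (Fin n → ℤ) →+ (Fin m → ZMod 2) × ZMod 2 where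
  toFun x := (fun k => ∑ i : Fin n, if i.val.testBit k.val then (x i : ZMod 2) else 0, ∑ i, (x i : ZMod 2))
  map_zero' := by
    ext k <;> simp
  map_add' x y := by
    ext k
    · simp only [Prod.fst_add, Pi.add_apply, ← Finset.sum_add_distrib]
      refine Finset.sum_congr rfl fun i _ => ?_
      split_ifs <;> simp
    · simp only [Prod.snd_add, Pi.add_apply, ← Finset.sum_add_distrib]
      refine Finset.sum_congr rfl fun i _ => ?_
      simp

theorem four_le (n m : ℕ) (hnm : n ≤ 2 ^ m) (x : Fin n → ℤ) (h : syn n m x = 0) (hx : x ≠ 0) :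
    4 ≤ ∑ i, x i ^ 2 := by
  have h1 : ∀ k : Fin m, ∑ i : Fin n, (if i.val.testBit k.val then (x i : ZMod 2) else 0) = 0 := fun k =>
    congrFun (congrArg Prod.fst h) k
  have h2 : ∑ i, (x i : ZMod 2) = 0 := congrArg Prod.snd h
  by_cases hO : ∃ i, Odd (x i)
  · obtain ⟨i₀, hi₀⟩ := hO
    set O : Finset (Fin n) := Finset.univ.filter fun i => Odd (x i) with hOdef
    have hi₀O : i₀ ∈ O := by simp [hOdef, hi₀]
    have hcard : Even O.card := by
      have : ((O.card : ℕ) : ZMod 2) = 0 := by
        rw [← h2, hOdef, ← Finset.sum_boole]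
        exact Finset.sum_congr rfl fun i _ => (cast_eq (x i)).symm
      exact (ZMod.natCast_eq_zero_iff_even).1 this
    have hpos : 0 < O.card := Finset.card_pos.2 ⟨i₀, hi₀O⟩
    have hne2 : O.card ≠ 2 := by
      intro h2c
      obtain ⟨i, j, hij, hOij⟩ := Finset.card_eq_two.1 h2c
      have hi : Odd (x i) := by
        have : i ∈ O := by rw [hOij]; simp
        simpa [hOdef] using this
      have hj : Odd (x j) := by
        have : j ∈ O := by rw [hOij]; simp
        simpa [hOdef] using this
      apply hij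
      apply Fin.ext
      apply Nat.eq_of_testBit_eq
      intro k
      by_cases hk : k < m
      · have e := h1 ⟨k, hk⟩
        have e2 : ∑ l ∈ O, (if l.val.testBit k then (x l : ZMod 2) else 0) = 0 := by
          refine Eq.trans (Finset.sum_subset (Finset.subset_univ O) ?_) e
          intro l _ hl
          have : ¬ Odd (x l) := by simpa [hOdef] using hl
          rw [cast_eq, if_neg this]; simp
        rw [hOij, Finset.sum_pair hij, cast_eq, cast_eq, if_pos hi, if_pos hj] at e2
        rcases hb : i.val.testBit k with _ | _ <;> rcases hb' : j.val.testBit k with _ | _ <;>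
          simp [hb, hb'] at e2 ⊢
      · have hk' : m ≤ k := not_lt.1 hk
        have a1 : i.val < 2 ^ k := lt_of_lt_of_le i.2 (hnm.trans (Nat.pow_le_pow_right (by norm_num) hk'))
        have a2 : j.val < 2 ^ k := lt_of_lt_of_le j.2 (hnm.trans (Nat.pow_le_pow_right (by norm_num) hk'))
        rw [Nat.testBit_lt_two_pow a1, Nat.testBit_lt_two_pow a2]
    have h4 : 4 ≤ O.card := by
      obtain ⟨r, hr⟩ := hcard
      omega
    calc (4 : ℤ) ≤ O.card := by exact_mod_cast h4
      _ = ∑ i ∈ O, (1 : ℤ) := by simp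
      _ ≤ ∑ i ∈ O, x i ^ 2 := by
        refine Finset.sum_le_sum fun i hi => ?_
        have hodd : Odd (x i) := by simpa [hOdef] using hi
        have : x i ≠ 0 := by
          rintro h0
          rw [h0] at hodd
          simp at hodd
        have : 0 < x i ^ 2 := by positivity
        omega
      _ ≤ ∑ i, x i ^ 2 :=
        Finset.sum_le_sum_of_subset_of_nonneg (Finset.subset_univ _) fun i _ _ => sq_nonneg _
  · push Not at hO
    obtain ⟨i, hi⟩ := Function.ne_iff.1 hx
    have hev : Even (x i) := by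
      have := hO i
      rwa [Int.not_odd_iff_even] at this
    obtain ⟨k, hk⟩ := hev
    have hk0 : k ≠ 0 := by
      rintro rfl
      exact hi (by simpa using hk)
    have hk1 : 0 < k ^ 2 := by positivity
    calc (4 : ℤ) ≤ x i ^ 2 := by rw [hk]; nlinarith
      _ ≤ ∑ i, x i ^ 2 :=
        Finset.single_le_sum (f := fun i => x i ^ 2) (fun i _ => sq_nonneg _) (Finset.mem_univ i)

end ConsAAux

open ConsAAux in
/-- Construction A -/
theorem exists_consA (n m : ℕ) (hnm : n ≤ 2 ^ m) :
    ∃ Q : Matrix (Fin n) (Fin n) ℝ, Adm Q ∧ Q.det ≤ 4 ^ (m + 1) / 4 ^ n := by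
  obtain ⟨Q, hQ, hd⟩ := exists_of_hom (syn n m) (1 : Matrix (Fin n) (Fin n) ℝ) Matrix.PosDef.one 4
    (by norm_num) (fun x h hx => by
      have h4 := four_le n m hnm x h hx
      have e : qf (1 : Matrix (Fin n) (Fin n) ℝ) (ic x) = ((∑ i, x i ^ 2 : ℤ) : ℝ) := by
        simp [qf, ic, dotProduct, pow_two]
      rw [e]
      exact_mod_cast h4)
  refine ⟨Q, hQ, hd.trans (le_of_eq ?_)⟩
  have hc : Nat.card ((Fin m → ZMod 2) × ZMod 2) = 2 ^ (m + 1) := by
    simp [pow_succ]
  rw [hc, Matrix.det_one, mul_one]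
  push_cast
  rw [← pow_mul, mul_comm (m + 1) 2, pow_mul]
  norm_num

end CritL
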