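import Mathlib

/-!
# Integer matrices of prime power order
-/

set_option autoImplicit false

namespace CritL

open Polynomial Finset

/-- a monic integer polynomial whose roots are roots of unity of order dividing `p ^ a` is a product of cyclotomic
polynomials -/
theorem cyc_fac {p a : ℕ} (hp : p.Prime) : ∀ (m : ℕ) (c : ℤ[X]), c.Monic → c.natDegree = m →
    (∀ z : ℂ, aeval z c = 0 → z ^ p ^ a = 1) →
    ∃ n : ℕ → ℕ, c = ∏ i ∈ range (a + 1), cyclotomic (p ^ i) ℤ ^ n i := by
  intro m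
  induction m using Nat.strong_induction_on with
  | _ m ih =>
    intro c hc hm hroot
    by_cases h0 : m = 0
    · refine ⟨fun _ => 0, ?_⟩
      simp only [pow_zero, prod_const_one]
      exact eq_one_of_monic_natDegree_zero hc (hm.trans h0)
    · obtain ⟨z, hz⟩ : ∃ z : ℂ, aeval z c = 0 := by
        have h1 : (c.map (Int.castRingHom ℂ)).degree ≠ 0 := by
          rw [hc.degree_map, degree_eq_natDegree hc.ne_zero, hm]
          exact_mod_cast h0
        obtain ⟨z, hz⟩ := IsAlgClosed.exists_root _ h1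
        refine ⟨z, ?_⟩
        rw [IsRoot.def, eval_map] at hz
        exact hz
      have hpow := hroot z hz
      obtain ⟨i, hi, hord⟩ := (Nat.dvd_prime_pow hp).1 (orderOf_dvd_of_pow_eq_one hpow)
      have hpi : 0 < p ^ i := pow_pos hp.pos i
      have hprim : IsPrimitiveRoot z (p ^ i) := hord ▸ IsPrimitiveRoot.orderOf z
      have hdvd : cyclotomic (p ^ i) ℤ ∣ c := by
        rw [cyclotomic_eq_minpoly hprim hpi]
        exact minpoly.isIntegrallyClosed_dvd (hprim.isIntegral hpi) hz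
      obtain ⟨c', rfl⟩ := hdvd
      have hc' : c'.Monic := (cyclotomic.monic (p ^ i) ℤ).of_mul_monic_left hc
      have hdeg : (cyclotomic (p ^ i) ℤ).natDegree + c'.natDegree = m := by
        rw [← hm, (cyclotomic.monic (p ^ i) ℤ).natDegree_mul hc']
      have hφ : 0 < (cyclotomic (p ^ i) ℤ).natDegree := by
        rw [natDegree_cyclotomic]
        exact Nat.totient_pos.2 hpi
      obtain ⟨n, hn⟩ := ih c'.natDegree (by omega) c' hc' rfl fun w hw => hroot w (by rw [map_mul, hw, mul_zero])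
      refine ⟨fun j => n j + if j = i then 1 else 0, ?_⟩
      simp only [pow_add, prod_mul_distrib]
      rw [← hn, prod_eq_single i (fun j _ hj => by rw [if_neg hj, pow_zero])
        (fun hh => absurd (mem_range.2 (by omega)) hh), if_pos rfl, pow_one, mul_comm]

theorem nextCoeff_X_pow_sub_one {n : ℕ} (hn : 0 < n) :
    (X ^ n - 1 : ℤ[X]).nextCoeff = if n = 1 then -1 else 0 := by
  have h1 : (X ^ n - 1 : ℤ[X]).natDegree = n := by
    have := natDegree_X_pow_sub_C (R := ℤ) (n := n) (r := 1)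
    simpa using this
  rw [nextCoeff_of_natDegree_pos (by rw [h1]; exact hn), h1, coeff_sub, coeff_X_pow, coeff_one]
  by_cases h : n = 1
  · subst h
    simp
  · rw [if_neg h, if_neg (by omega), if_neg (by omega), sub_zero]

theorem nextCoeff_cyc {p : ℕ} (hp : p.Prime) (k : ℕ) :
    (cyclotomic (p ^ (k + 1)) ℤ).nextCoeff = if k = 0 then 1 else 0 := by
  have := Fact.mk hp
  have h1 := cyclotomic_prime_pow_mul_X_pow_sub_one ℤ p k
  have hpk : 0 < p ^ k := pow_pos hp.pos k
  have hm : (X ^ p ^ k - 1 : ℤ[X]).Monic := by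
    have := monic_X_pow_sub_C (1 : ℤ) hpk.ne'
    simpa using this
  have h2 := congrArg nextCoeff h1
  rw [(cyclotomic.monic _ ℤ).nextCoeff_mul hm, nextCoeff_X_pow_sub_one hpk,
    nextCoeff_X_pow_sub_one (pow_pos hp.pos _)] at h2
  have h3 : p ^ (k + 1) ≠ 1 := (Nat.one_lt_pow (Nat.succ_ne_zero k) hp.one_lt).ne'
  rw [if_neg h3] at h2
  by_cases hk : k = 0
  · subst hk
    simp at h2 ⊢
    omega
  · have h4 : p ^ k ≠ 1 := (Nat.one_lt_pow hk hp.one_lt).ne'
    rw [if_neg h4] at h2
    rw [if_neg hk]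
    omega

/-- the summary of the factorisation -/
theorem cyc_summary {p a d : ℕ} (hp : p.Prime) (A : Matrix (Fin d) (Fin d) ℤ) (hA : A ^ p ^ a = 1) :
    ∃ (m N n1 : ℕ) (c : ℤ[X]), A.charpoly = (X - 1) ^ m * c ∧ c.eval 1 = (p : ℤ) ^ N ∧ m ≤ d ∧
      (p - 1) * N ≤ d - m ∧ (p - 1) * n1 ≤ d - m ∧ A.trace = m - n1 ∧ (p : ℤ) ∣ d - A.trace := by
  have := Fact.mk hp
  have hroot : ∀ z : ℂ, aeval z A.charpoly = 0 → z ^ p ^ a = 1 := by
    intro z hz
    set B : Matrix (Fin d) (Fin d) ℂ := A.map (Int.castRingHom ℂ) with hB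
    have h1 : B.charpoly.eval z = 0 := by
      rw [hB, Matrix.charpoly_map, eval_map]
      exact hz
    rw [Matrix.eval_charpoly] at h1
    obtain ⟨v, hv, hv0⟩ := Matrix.exists_mulVec_eq_zero_iff.2 h1
    have h2 : B.mulVec v = z • v := by
      rw [Matrix.sub_mulVec, sub_eq_zero] at hv0
      rw [← hv0]
      funext i
      simp [Matrix.mulVec_diagonal]
    have h3 : ∀ n : ℕ, (B ^ n).mulVec v = z ^ n • v := by
      intro n
      induction n with
      | zero => simp
      | succ n ih => rw [pow_succ', ← Matrix.mulVec_mulVec, ih, Matrix.mulVec_smul, h2, smul_smul, pow_succ]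
    have h4 : B ^ p ^ a = 1 := by
      rw [hB, ← RingHom.mapMatrix_apply, ← map_pow, hA, map_one]
    have h5 := h3 (p ^ a)
    rw [h4, Matrix.one_mulVec] at h5
    obtain ⟨i, hi⟩ := Function.ne_iff.1 hv
    have h6 := congrFun h5 i
    rw [Pi.smul_apply, smul_eq_mul] at h6
    have h7 : (z ^ p ^ a - 1) * v i = 0 := by
      rw [sub_mul, one_mul, ← h6, sub_self]
    exact sub_eq_zero.1 ((mul_eq_zero.1 h7).resolve_right hi)
  obtain ⟨n, hn⟩ := cyc_fac hp _ A.charpoly A.charpoly_monic rfl hroot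
  set c : ℤ[X] := ∏ i ∈ range a, cyclotomic (p ^ (i + 1)) ℤ ^ n (i + 1) with hc
  have hcm : c.Monic := monic_prod_of_monic _ _ fun i _ => (cyclotomic.monic _ ℤ).pow _
  have hfac : A.charpoly = (X - 1) ^ n 0 * c := by
    rw [hn, prod_range_succ', pow_zero, cyclotomic_one, mul_comm]
  have hX : (X - 1 : ℤ[X]).Monic := by
    have := monic_X_sub_C (1 : ℤ)
    simpa using this
  have hXn : (X - 1 : ℤ[X]).nextCoeff = -1 := by
    have := nextCoeff_X_pow_sub_one (n := 1) one_pos
    simpa using this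
  have hXd : (X - 1 : ℤ[X]).natDegree = 1 := by
    have := natDegree_X_sub_C (1 : ℤ)
    simpa using this
  have hcdeg : c.natDegree = ∑ i ∈ range a, n (i + 1) * (p ^ i * (p - 1)) := by
    rw [hc, natDegree_prod_of_monic _ _ fun i _ => (cyclotomic.monic _ ℤ).pow _]
    refine sum_congr rfl fun i _ => ?_
    rw [(cyclotomic.monic _ ℤ).natDegree_pow, natDegree_cyclotomic, Nat.totient_prime_pow_succ hp]
  have hd : n 0 + c.natDegree = d := by
    have h1 := A.charpoly_natDegree_eq_dim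
    rw [hfac, (hX.pow _).natDegree_mul hcm, hX.natDegree_pow, hXd, mul_one, Fintype.card_fin] at h1
    exact h1
  -- trace
  set n1 : ℕ := if a = 0 then 0 else n 1 with hn1
  have hcn : c.nextCoeff = n1 := by
    rw [hc, Monic.nextCoeff_prod _ _ fun i _ => (cyclotomic.monic _ ℤ).pow _]
    have h1 : ∀ i ∈ range a, (cyclotomic (p ^ (i + 1)) ℤ ^ n (i + 1)).nextCoeff =
        if i = 0 then (n 1 : ℤ) else 0 := by
      intro i _
      rw [(cyclotomic.monic _ ℤ).nextCoeff_pow, nextCoeff_cyc hp]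
      by_cases h : i = 0
      · subst h
        simp
      · simp [h]
    rw [sum_congr rfl h1, sum_ite_eq']
    simp only [mem_range, hn1]
    by_cases h : a = 0
    · simp [h]
    · simp [h, Nat.pos_of_ne_zero h]
  have htr : A.trace = (n 0 : ℤ) - n1 := by
    rw [Matrix.trace_eq_neg_charpoly_nextCoeff, hfac, (hX.pow _).nextCoeff_mul hcm, hX.nextCoeff_pow, hXn, hcn]
    simp
    ring
  have hp1 : 1 ≤ p := hp.one_lt.le
  have hN : (p - 1) * ∑ i ∈ range a, n (i + 1) ≤ c.natDegree := by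
    rw [hcdeg, mul_sum]
    refine sum_le_sum fun i _ => ?_
    have h1 : 1 ≤ p ^ i := Nat.one_le_pow _ _ hp.pos
    calc (p - 1) * n (i + 1) = n (i + 1) * (1 * (p - 1)) := by ring
      _ ≤ n (i + 1) * (p ^ i * (p - 1)) := by gcongr
  have hn1' : n1 ≤ ∑ i ∈ range a, n (i + 1) := by
    rw [hn1]
    by_cases h : a = 0
    · simp [h]
    · rw [if_neg h]
      exact single_le_sum (f := fun i => n (i + 1)) (fun _ _ => Nat.zero_le _) (mem_range.2 (Nat.pos_of_ne_zero h))
  refine ⟨n 0, ∑ i ∈ range a, n (i + 1), n1, c, hfac, ?_, by omega, by omega, ?_, htr, ?_⟩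
  · rw [hc, eval_prod, ← prod_pow_eq_pow_sum]
    refine prod_congr rfl fun i _ => ?_
    rw [eval_pow, eval_one_cyclotomic_prime_pow]
  · have := Nat.mul_le_mul_left (p - 1) hn1'
    omega
  · have h1 : (d : ℤ) - A.trace = c.natDegree + n1 := by
      rw [htr, ← hd]
      push_cast
      ring
    rw [h1]
    by_cases h : a = 0
    · subst h
      simp [hn1, hc]
    · obtain ⟨b, rfl⟩ : ∃ b, a = b + 1 := ⟨a - 1, by omega⟩
      have h2 : c.natDegree = (∑ i ∈ range b, n (i + 1 + 1) * (p ^ (i + 1) * (p - 1))) + n 1 * (p - 1) := by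
        rw [hcdeg, sum_range_succ']
        simp
      have h3 : p ∣ ∑ i ∈ range b, n (i + 1 + 1) * (p ^ (i + 1) * (p - 1)) := by
        refine dvd_sum fun i _ => ?_
        refine Dvd.dvd.mul_left (Dvd.dvd.mul_right ?_ _) _
        exact dvd_pow_self p (Nat.succ_ne_zero i)
      obtain ⟨q, hq⟩ := h3
      refine ⟨q + n 1, ?_⟩
      rw [h2, hq, hn1, if_neg h]
      push_cast [Nat.cast_sub hp1]
      ring

end CritL
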