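import Mathlib

/-!
# Lattices in Euclidean space
-/

set_option autoImplicit false

namespace CritL

/-- the Euclidean space of dimension `d` -/
abbrev E (d : ℕ) := EuclideanSpace ℝ (Fin d)

/-- the lattice of the integer combinations of the vectors `b i` -/
def lat {d : ℕ} (b : Fin d → E d) : Submodule ℤ (E d) := Submodule.span ℤ (Set.range b)

/-- its determinant -/
noncomputable def detL {d : ℕ} (b : Fin d → E d) : ℝ := |(Matrix.of fun i j => b i j).det|

/-- its minimum: the least length of a nonzero vector -/
noncomputable def minL {d : ℕ} (b : Fin d → E d) : ℝ := sInf {r : ℝ | ∃ v ∈ lat b, v ≠ 0 ∧ r = ‖v‖}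

/-- the ratio `R` of determinant and `d`-th power of the minimum -/
noncomputable def ratio {d : ℕ} (b : Fin d → E d) : ℝ := detL b / minL b ^ d

/-- `b` is a basis and its lattice is critical: no lattice in dimension `d` has a smaller ratio -/
def IsCritical {d : ℕ} (b : Fin d → E d) : Prop :=
  LinearIndependent ℝ b ∧ ∀ c : Fin d → E d, LinearIndependent ℝ c → ratio b ≤ ratio c

/-- the reflection of `x` in the hyperplane orthogonal to `v` -/
noncomputable def refl {d : ℕ} (v x : E d) : E d := x - (2 * inner ℝ v x / inner ℝ v v) • v

/-- the reflection in the hyperplane orthogonal to `v` preserves the lattice of `b` -/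
def Preserves {d : ℕ} (v : E d) (b : Fin d → E d) : Prop := ∀ x ∈ lat b, refl v x ∈ lat b

end CritL
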