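import Mathlib

/-!
# A density estimate

Sketch. Let `N` be large. `log (D 2) - log (D N)` is the sum over `n = 2, ..., N - 1` of `log (D n) - log (D (n + 1))` and is at
least `- log 120 + N log N - N log 25`. A term with `n + 1 ∈ B` is at most `log K` (by `hB`). Any term is, by `hM`
(`(n + 1) log D n ≤ (n - 1) log D (n + 1)`), at most `-(2 / (n - 1)) log (D n) ≤ (2 / (n - 1)) log (n + 3)!
≤ (2 (n + 3) / (n - 1)) log (n + 3) ≤ 2 log (N + 3) + 8 log 5` (as `log (n + 3) / (n - 1) ≤ log 5` for `n ≥ 2`). So with `g` the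
number of `n` in `2, ..., N - 1` with `n + 1 ∉ B`:
`N log N - N log 25 - log 120 ≤ N log K + g (2 log (N + 3) + 8 log 5)`, hence `g ≥ (1/2 - ε) N` for large `N`.
-/

set_option autoImplicit false

namespace CritL

namespace DensAux

theorem pow_five (n : ℕ) (hn : 2 ≤ n) : n + 3 ≤ 5 ^ (n - 1) := by
  induction n, hn using Nat.le_induction with
  | base => norm_num
  | succ m hm ih =>
    obtain ⟨k, rfl⟩ : ∃ k, m = k + 1 := ⟨m - 1, by omega⟩
    have h1 : k + 1 + 1 - 1 = (k + 1 - 1) + 1 := by omega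
    rw [h1, pow_succ]
    omega

theorem log_div (n : ℕ) (hn : 2 ≤ n) :
    Real.log ((n : ℝ) + 3) ≤ ((n : ℝ) - 1) * Real.log 5 := by
  have h1 := pow_five n hn
  have h2 : ((n : ℝ) + 3) ≤ (5 : ℝ) ^ (n - 1) := by exact_mod_cast h1
  have h3 : Real.log ((n : ℝ) + 3) ≤ Real.log ((5 : ℝ) ^ (n - 1)) :=
    Real.log_le_log (by positivity) h2
  rw [Real.log_pow] at h3
  have h4 : ((n - 1 : ℕ) : ℝ) = (n : ℝ) - 1 := by
    rw [Nat.cast_sub (by omega)]
    simp
  rwa [h4] at h3

theorem log_fact (n : ℕ) :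
    Real.log (((n + 3).factorial : ℕ) : ℝ) ≤ ((n : ℝ) + 3) * Real.log ((n : ℝ) + 3) := by
  have h1 : (n + 3).factorial ≤ (n + 3) ^ (n + 3) := Nat.factorial_le_pow _
  have h2 : (((n + 3).factorial : ℕ) : ℝ) ≤ ((n : ℝ) + 3) ^ (n + 3) := by exact_mod_cast h1
  have h3 : Real.log (((n + 3).factorial : ℕ) : ℝ) ≤ Real.log (((n : ℝ) + 3) ^ (n + 3)) :=
    Real.log_le_log (by positivity) h2
  rw [Real.log_pow] at h3
  push_cast at h3
  exact h3

/-- every term -/
theorem term_any (D : ℕ → ℝ) (hlow : ∀ n, 1 ≤ n → 1 / ((n + 3).factorial : ℝ) ≤ D n)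
    (hM : ∀ n, 2 ≤ n → D n ^ (n + 1) ≤ D (n + 1) ^ (n - 1)) (n N : ℕ) (hn : 2 ≤ n) (hN : n ≤ N) :
    Real.log (D n) - Real.log (D (n + 1)) ≤ 2 * Real.log ((N : ℝ) + 3) + 8 * Real.log 5 := by
  have hfp : (0 : ℝ) < ((n + 3).factorial : ℝ) := by positivity
  have hD : 0 < D n := lt_of_lt_of_le (by positivity) (hlow n (by omega))
  have hD' : 0 < D (n + 1) := lt_of_lt_of_le (by positivity) (hlow (n + 1) (by omega))
  have h1 : Real.log (D n ^ (n + 1)) ≤ Real.log (D (n + 1) ^ (n - 1)) :=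
    Real.log_le_log (by positivity) (hM n hn)
  rw [Real.log_pow, Real.log_pow] at h1
  have h4 : ((n - 1 : ℕ) : ℝ) = (n : ℝ) - 1 := by
    rw [Nat.cast_sub (by omega)]
    simp
  rw [h4] at h1
  push_cast at h1
  have h2 : -Real.log (((n + 3).factorial : ℕ) : ℝ) ≤ Real.log (D n) := by
    have := Real.log_le_log (by positivity) (hlow n (by omega))
    rwa [one_div, Real.log_inv] at this
  have h3 := log_fact n
  have h5 := log_div n hn
  have hn1 : (1 : ℝ) ≤ (n : ℝ) - 1 := by
    have : (2 : ℝ) ≤ n := by exact_mod_cast hn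
    linarith
  have h6 : Real.log ((n : ℝ) + 3) ≤ Real.log ((N : ℝ) + 3) :=
    Real.log_le_log (by positivity) (by
      have : (n : ℝ) ≤ N := by exact_mod_cast hN
      linarith)
  -- multiply by `n - 1`
  have h7 : ((n : ℝ) - 1) * (Real.log (D n) - Real.log (D (n + 1))) ≤
      ((n : ℝ) - 1) * (2 * Real.log ((n : ℝ) + 3) + 8 * Real.log 5) := by
    have e1 : ((n : ℝ) - 1) * (Real.log (D n) - Real.log (D (n + 1))) ≤ -2 * Real.log (D n) := by
      nlinarith
    have e2 : -2 * Real.log (D n) ≤ 2 * (((n : ℝ) + 3) * Real.log ((n : ℝ) + 3)) := by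
      linarith
    have e3 : 2 * (((n : ℝ) + 3) * Real.log ((n : ℝ) + 3)) =
        ((n : ℝ) - 1) * (2 * Real.log ((n : ℝ) + 3)) + 8 * Real.log ((n : ℝ) + 3) := by ring
    have e4 : 8 * Real.log ((n : ℝ) + 3) ≤ ((n : ℝ) - 1) * (8 * Real.log 5) := by linarith
    linarith
  have h8 : Real.log (D n) - Real.log (D (n + 1)) ≤
      2 * Real.log ((n : ℝ) + 3) + 8 * Real.log 5 :=
    le_of_mul_le_mul_left h7 (by linarith)
  linarith

theorem telescope (f : ℕ → ℝ) (N : ℕ) (hN : 2 ≤ N) :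
    ∑ n ∈ Finset.Ico 2 N, (f n - f (n + 1)) = f 2 - f N := by
  induction N, hN using Nat.le_induction with
  | base => simp
  | succ m hm ih =>
    rw [Finset.sum_Ico_succ_top hm, ih]
    ring

open scoped Classical in
theorem count (B : Set ℕ) (N : ℕ) :
    ((Finset.Icc 1 N).filter (· ∈ B)).card +
      ((Finset.Ico 2 N).filter (fun n => ¬ (n + 1 ∈ B))).card ≤ N := by
  have h1 : ((Finset.Ico 2 N).filter (fun n => ¬ (n + 1 ∈ B))).card ≤
      ((Finset.Icc 1 N).filter (fun n => ¬ (n ∈ B))).card := by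
    refine Finset.card_le_card_of_injOn (fun n => n + 1) ?_ ?_
    · intro n hn
      simp only [Finset.coe_filter, Finset.mem_Ico, Set.mem_ofPred_eq] at hn
      simp only [Finset.coe_filter, Finset.mem_Icc, Set.mem_ofPred_eq]
      exact ⟨⟨by omega, by omega⟩, hn.2⟩
    · intro a _ b _ h
      simpa using h
  have h2 := Finset.card_filter_add_card_filter_not (s := Finset.Icc 1 N) (fun n => n ∈ B)
  have h3 : (Finset.Icc 1 N).card = N := by simp
  omega

end DensAux

open DensAux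

open scoped Classical in
/-- the density estimate -/
theorem dens (D : ℕ → ℝ) (B : Set ℕ) (hlow : ∀ n, 1 ≤ n → 1 / ((n + 3).factorial : ℝ) ≤ D n)
    (hup : ∀ n, 1 ≤ n → D n ≤ (25 / (n : ℝ)) ^ n)
    (hM : ∀ n, 2 ≤ n → D n ^ (n + 1) ≤ D (n + 1) ^ (n - 1))
    (K : ℝ) (hK : 1 < K) (hB : ∀ n, 1 ≤ n → n + 1 ∈ B → D n ≤ K * D (n + 1)) (ε : ℝ) (hε : 0 < ε) :
    ∃ N₀ : ℕ, ∀ N ≥ N₀, (((Finset.Icc 1 N).filter (· ∈ B)).card : ℝ) ≤ (1 / 2 + ε) * N := by
  have hl2 : 0 < Real.log 2 := Real.log_pos (by norm_num)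
  have hl4 : 0 < Real.log K := Real.log_pos hK
  have hl5 : 0 < Real.log 5 := Real.log_pos (by norm_num)
  have hl25 : 0 < Real.log 25 := Real.log_pos (by norm_num)
  have hl120 : 0 < Real.log 120 := Real.log_pos (by norm_num)
  set C : ℝ := Real.log 25 + Real.log K + Real.log 2 + 4 * Real.log 5 + Real.log 120 with hC
  refine ⟨max 3 (⌈Real.exp (C / (2 * ε))⌉₊ + 1), fun N hN => ?_⟩
  have hN3 : 3 ≤ N := le_trans (le_max_left _ _) hN
  have hNe : ⌈Real.exp (C / (2 * ε))⌉₊ + 1 ≤ N := le_trans (le_max_right _ _) hN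
  have hN3' : (3 : ℝ) ≤ N := by exact_mod_cast hN3
  have hNpos : (0 : ℝ) < N := by linarith
  have hexp : Real.exp (C / (2 * ε)) < N := by
    have h1 : Real.exp (C / (2 * ε)) ≤ (⌈Real.exp (C / (2 * ε))⌉₊ : ℝ) := Nat.le_ceil _
    have h2 : (⌈Real.exp (C / (2 * ε))⌉₊ : ℝ) + 1 ≤ N := by exact_mod_cast hNe
    linarith
  have hlogN : C / (2 * ε) < Real.log N := by
    rw [Real.lt_log_iff_exp_lt hNpos]
    exact hexp
  have hCN : C < 2 * ε * Real.log N := by
    rw [div_lt_iff₀ (by positivity)] at hlogN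
    linarith
  set g : ℕ := ((Finset.Ico 2 N).filter (fun n => ¬ (n + 1 ∈ B))).card with hg
  have hcount := count B N
  have hcount' : (((Finset.Icc 1 N).filter (· ∈ B)).card : ℝ) + (g : ℝ) ≤ N := by
    exact_mod_cast hcount
  by_contra hcon
  push Not at hcon
  have hgl : (g : ℝ) < (1 / 2 - ε) * N := by linarith
  have hg0 : (0 : ℝ) ≤ (g : ℝ) := Nat.cast_nonneg _
  -- the telescoping sum
  set M : ℝ := 2 * Real.log ((N : ℝ) + 3) + 8 * Real.log 5 with hMdef
  have hlogN3 : 0 < Real.log ((N : ℝ) + 3) := Real.log_pos (by linarith)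
  have hM0 : 0 ≤ M := by positivity
  have htel := telescope (fun n => Real.log (D n)) N (by omega)
  have hsum : ∑ n ∈ Finset.Ico 2 N, (Real.log (D n) - Real.log (D (n + 1))) ≤
      ∑ n ∈ Finset.Ico 2 N, (if n + 1 ∈ B then Real.log K else M) := by
    refine Finset.sum_le_sum fun n hn => ?_
    rw [Finset.mem_Ico] at hn
    by_cases hnB : n + 1 ∈ B
    · rw [if_pos hnB]
      have hD : 0 < D n := lt_of_lt_of_le (by positivity) (hlow n (by omega))
      have hD' : 0 < D (n + 1) := lt_of_lt_of_le (by positivity) (hlow (n + 1) (by omega))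
      have h1 := Real.log_le_log hD (hB n (by omega) hnB)
      rw [Real.log_mul (by linarith) hD'.ne'] at h1
      linarith
    · rw [if_neg hnB]
      exact term_any D hlow hM n N hn.1 (by omega)
  have hite : ∑ n ∈ Finset.Ico 2 N, (if n + 1 ∈ B then Real.log K else M) =
      (((Finset.Ico 2 N).filter (fun n => n + 1 ∈ B)).card : ℝ) * Real.log K + (g : ℝ) * M := by
    rw [Finset.sum_ite, Finset.sum_const, Finset.sum_const, nsmul_eq_mul, nsmul_eq_mul]
  have hcB : (((Finset.Ico 2 N).filter (fun n => n + 1 ∈ B)).card : ℝ) ≤ N := by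
    have h1 : ((Finset.Ico 2 N).filter (fun n => n + 1 ∈ B)).card ≤ (Finset.Ico 2 N).card :=
      Finset.card_filter_le _ _
    rw [Nat.card_Ico] at h1
    have h2 : ((Finset.Ico 2 N).filter (fun n => n + 1 ∈ B)).card ≤ N := by omega
    exact_mod_cast h2
  have hupper : Real.log (D 2) - Real.log (D N) ≤ N * Real.log K + (g : ℝ) * M := by
    have h1 : Real.log (D 2) - Real.log (D N) ≤
        (((Finset.Ico 2 N).filter (fun n => n + 1 ∈ B)).card : ℝ) * Real.log K + (g : ℝ) * M := by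
      rw [← hite]
      exact htel ▸ hsum
    have h2 : (((Finset.Ico 2 N).filter (fun n => n + 1 ∈ B)).card : ℝ) * Real.log K ≤
        N * Real.log K := mul_le_mul_of_nonneg_right hcB hl4.le
    linarith
  have hlo2 : -Real.log 120 ≤ Real.log (D 2) := by
    have h1 := Real.log_le_log (by positivity) (hlow 2 (by norm_num))
    have h2 : ((2 + 3).factorial : ℝ) = 120 := by
      norm_num [Nat.factorial]
    rw [h2, one_div, Real.log_inv] at h1
    exact h1
  have hDN : 0 < D N := lt_of_lt_of_le (by positivity) (hlow N (by omega))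
  have hupN : Real.log (D N) ≤ N * Real.log 25 - N * Real.log N := by
    have h1 := Real.log_le_log hDN (hup N (by omega))
    rw [Real.log_pow, Real.log_div (by norm_num) hNpos.ne'] at h1
    linarith
  have hlogle : Real.log ((N : ℝ) + 3) ≤ Real.log 2 + Real.log N := by
    rw [← Real.log_mul (by norm_num) hNpos.ne']
    exact Real.log_le_log (by positivity) (by linarith)
  have hlogNpos : 0 < Real.log N := Real.log_pos (by linarith)
  have hgM : (g : ℝ) * M ≤ (1 / 2 - ε) * N * (2 * (Real.log 2 + Real.log N) + 8 * Real.log 5) := by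
    have h1 : (g : ℝ) * M ≤ (g : ℝ) * (2 * (Real.log 2 + Real.log N) + 8 * Real.log 5) := by
      apply mul_le_mul_of_nonneg_left _ hg0
      rw [hMdef]
      linarith
    have h2 : (g : ℝ) * (2 * (Real.log 2 + Real.log N) + 8 * Real.log 5) ≤
        (1 / 2 - ε) * N * (2 * (Real.log 2 + Real.log N) + 8 * Real.log 5) :=
      mul_le_mul_of_nonneg_right hgl.le (by positivity)
    linarith
  have hexpand : (1 / 2 - ε) * N * (2 * (Real.log 2 + Real.log N) + 8 * Real.log 5) =
      N * Real.log N - 2 * ε * Real.log N * N + N * (Real.log 2 + 4 * Real.log 5)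
        - ε * N * (2 * Real.log 2 + 8 * Real.log 5) := by ring
  have hneg : 0 ≤ ε * N * (2 * Real.log 2 + 8 * Real.log 5) := by positivity
  have h120 : Real.log 120 ≤ N * Real.log 120 := by nlinarith
  have hfin : 2 * ε * Real.log N * N ≤ C * N := by
    have : C * N = N * Real.log 25 + N * Real.log K + N * (Real.log 2 + 4 * Real.log 5) +
        N * Real.log 120 := by
      rw [hC]
      ring
    rw [this]
    linarith
  have := mul_lt_mul_of_pos_right hCN hNpos
  linarith

end CritL
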