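import Pool.Agent.Lib.CritL.Final
import Pool.Agent.Lib.CritL.Dens

/-!
# The density estimate with a growing bound
-/

set_option autoImplicit false

namespace CritL

open DensAux

open scoped Classical in
/-- the density estimate -/
theorem dens2 (D : ℕ → ℝ) (B : Set ℕ) (hlow : ∀ n, 1 ≤ n → 1 / ((n + 3).factorial : ℝ) ≤ D n)
    (hup : ∀ n, 1 ≤ n → D n ≤ (25 / (n : ℝ)) ^ n)
    (hM : ∀ n, 2 ≤ n → D n ^ (n + 1) ≤ D (n + 1) ^ (n - 1)) (K θ : ℝ) (hK : 1 < K) (hθ : 0 ≤ θ) (hθ1 : θ < 1)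
    (hB : ∀ n, 1 ≤ n → n + 1 ∈ B → D n ≤ K * ((n + 1 : ℕ) : ℝ) ^ (2 * θ) * D (n + 1)) (ε : ℝ) (hε : 0 < ε) :
    ∃ N₀ : ℕ, ∀ N ≥ N₀, (((Finset.Icc 1 N).filter (· ∈ B)).card : ℝ) ≤ (1 / (2 * (1 - θ)) + ε) * N := by
  have hl2 : 0 < Real.log 2 := Real.log_pos (by norm_num)
  have hlK : 0 < Real.log K := Real.log_pos hK
  have hl5 : 0 < Real.log 5 := Real.log_pos (by norm_num)
  have hl25 : 0 < Real.log 25 := Real.log_pos (by norm_num)
  have hl120 : 0 < Real.log 120 := Real.log_pos (by norm_num)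
  have hθ' : 0 < 1 - θ := by linarith
  set C : ℝ := Real.log 25 + Real.log K + 2 * Real.log 2 + 8 * Real.log 5 + Real.log 120 with hC
  have hC0 : 0 < C := by positivity
  refine ⟨max 3 (⌈Real.exp (C / (2 * (1 - θ) * ε))⌉₊ + 1), fun N hN => ?_⟩
  have hN3 : 3 ≤ N := le_trans (le_max_left _ _) hN
  have hNe : ⌈Real.exp (C / (2 * (1 - θ) * ε))⌉₊ + 1 ≤ N := le_trans (le_max_right _ _) hN
  have hN3' : (3 : ℝ) ≤ N := by exact_mod_cast hN3
  have hNpos : (0 : ℝ) < N := by linarith
  have hexp : Real.exp (C / (2 * (1 - θ) * ε)) < N := by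
    have h1 : Real.exp (C / (2 * (1 - θ) * ε)) ≤ (⌈Real.exp (C / (2 * (1 - θ) * ε))⌉₊ : ℝ) := Nat.le_ceil _
    have h2 : (⌈Real.exp (C / (2 * (1 - θ) * ε))⌉₊ : ℝ) + 1 ≤ N := by exact_mod_cast hNe
    linarith
  have hlogN : C / (2 * (1 - θ) * ε) < Real.log N := by
    rw [Real.lt_log_iff_exp_lt hNpos]
    exact hexp
  have hCN : C < 2 * (1 - θ) * ε * Real.log N := by
    rw [div_lt_iff₀ (by positivity)] at hlogN
    linarith
  set g : ℕ := ((Finset.Ico 2 N).filter (fun n => ¬ (n + 1 ∈ B))).card with hg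
  set c : ℕ := ((Finset.Icc 1 N).filter (· ∈ B)).card with hc
  have hcount := count B N
  have hcount' : (c : ℝ) + (g : ℝ) ≤ N := by exact_mod_cast hcount
  have hg0 : (0 : ℝ) ≤ (g : ℝ) := Nat.cast_nonneg _
  have hc0 : (0 : ℝ) ≤ (c : ℝ) := Nat.cast_nonneg _
  -- the telescoping sum
  set M : ℝ := 2 * Real.log ((N : ℝ) + 3) + 8 * Real.log 5 with hMdef
  have hlogN3 : 0 < Real.log ((N : ℝ) + 3) := Real.log_pos (by linarith)
  have hM0 : 0 ≤ M := by positivity
  have hlogNpos : 0 < Real.log N := Real.log_pos (by linarith)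
  set S : ℝ := Real.log K + 2 * θ * Real.log N with hS
  have hS0 : 0 ≤ S := by positivity
  have htel := telescope (fun n => Real.log (D n)) N (by omega)
  have hsum : ∑ n ∈ Finset.Ico 2 N, (Real.log (D n) - Real.log (D (n + 1))) ≤
      ∑ n ∈ Finset.Ico 2 N, (if n + 1 ∈ B then S else M) := by
    refine Finset.sum_le_sum fun n hn => ?_
    rw [Finset.mem_Ico] at hn
    by_cases hnB : n + 1 ∈ B
    · rw [if_pos hnB]
      have hD : 0 < D n := lt_of_lt_of_le (by positivity) (hlow n (by omega))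
      have hD' : 0 < D (n + 1) := lt_of_lt_of_le (by positivity) (hlow (n + 1) (by omega))
      have hn1 : (0 : ℝ) < ((n + 1 : ℕ) : ℝ) := by positivity
      have hpow : 0 < ((n + 1 : ℕ) : ℝ) ^ (2 * θ) := Real.rpow_pos_of_pos hn1 _
      have h1 := Real.log_le_log hD (hB n (by omega) hnB)
      rw [Real.log_mul (by positivity) hD'.ne', Real.log_mul (by linarith) hpow.ne', Real.log_rpow hn1] at h1
      have h2 : Real.log ((n + 1 : ℕ) : ℝ) ≤ Real.log N := by
        refine Real.log_le_log hn1 ?_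
        exact_mod_cast (show n + 1 ≤ N by omega)
      have h3 : 2 * θ * Real.log ((n + 1 : ℕ) : ℝ) ≤ 2 * θ * Real.log N :=
        mul_le_mul_of_nonneg_left h2 (by positivity)
      rw [hS]
      linarith
    · rw [if_neg hnB]
      exact term_any D hlow hM n N hn.1 (by omega)
  have hite : ∑ n ∈ Finset.Ico 2 N, (if n + 1 ∈ B then S else M) =
      (((Finset.Ico 2 N).filter (fun n => n + 1 ∈ B)).card : ℝ) * S + (g : ℝ) * M := by
    rw [Finset.sum_ite, Finset.sum_const, Finset.sum_const, nsmul_eq_mul, nsmul_eq_mul]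
  have hcB : (((Finset.Ico 2 N).filter (fun n => n + 1 ∈ B)).card : ℝ) ≤ c := by
    have h1 : ((Finset.Ico 2 N).filter (fun n => n + 1 ∈ B)).card ≤ c := by
      refine Finset.card_le_card_of_injOn (fun n => n + 1) ?_ ?_
      · intro n hn
        simp only [Finset.coe_filter, Finset.mem_Ico, Set.mem_ofPred_eq] at hn
        simp only [Finset.coe_filter, Finset.mem_Icc, Set.mem_ofPred_eq]
        exact ⟨⟨by omega, by omega⟩, hn.2⟩
      · intro a _ b _ h
        simpa using h
    exact_mod_cast h1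
  have hupper : Real.log (D 2) - Real.log (D N) ≤ c * S + (N - c) * M := by
    have h1 : Real.log (D 2) - Real.log (D N) ≤
        (((Finset.Ico 2 N).filter (fun n => n + 1 ∈ B)).card : ℝ) * S + (g : ℝ) * M := by
      rw [← hite]
      exact htel ▸ hsum
    have h2 : (((Finset.Ico 2 N).filter (fun n => n + 1 ∈ B)).card : ℝ) * S ≤ c * S :=
      mul_le_mul_of_nonneg_right hcB hS0
    have h3 : (g : ℝ) * M ≤ (N - c) * M := mul_le_mul_of_nonneg_right (by linarith) hM0
    linarith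
  have hlo2 : -Real.log 120 ≤ Real.log (D 2) := by
    have h1 := Real.log_le_log (by positivity) (hlow 2 (by norm_num))
    have h2 : ((2 + 3).factorial : ℝ) = 120 := by
      norm_num [Nat.factorial]
    rw [h2, one_div, Real.log_inv] at h1
    exact h1
  have hDN : 0 < D N := lt_of_lt_of_le (by positivity) (hlow N (by omega))
  have hupN : Real.log (D N) ≤ N * Real.log 25 - N * Real.log N := by
    have h1 := Real.log_le_log hDN (hup N (by omega))
    rw [Real.log_pow, Real.log_div (by norm_num) hNpos.ne'] at h1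
    linarith
  have hlogle : Real.log ((N : ℝ) + 3) ≤ Real.log 2 + Real.log N := by
    rw [← Real.log_mul (by norm_num) hNpos.ne']
    exact Real.log_le_log (by positivity) (by linarith)
  have hcN : (c : ℝ) ≤ N := by linarith
  have hgM : (N - c) * M ≤ (N - c) * (2 * (Real.log 2 + Real.log N) + 8 * Real.log 5) := by
    apply mul_le_mul_of_nonneg_left _ (by linarith)
    rw [hMdef]
    linarith
  have h120 : Real.log 120 ≤ N * Real.log 120 := by nlinarith
  have hcK : c * Real.log K ≤ N * Real.log K := mul_le_mul_of_nonneg_right hcN hlK.le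
  have hc25 : 0 ≤ c * (2 * Real.log 2 + 8 * Real.log 5) := by positivity
  have hmain : 2 * (1 - θ) * (c * Real.log N) ≤ N * Real.log N + C * N := by
    have e1 : c * S = c * Real.log K + 2 * θ * (c * Real.log N) := by rw [hS]; ring
    have e2 : (N - c) * (2 * (Real.log 2 + Real.log N) + 8 * Real.log 5) =
        2 * (N * Real.log N) - 2 * (c * Real.log N) + N * (2 * Real.log 2 + 8 * Real.log 5) -
          c * (2 * Real.log 2 + 8 * Real.log 5) := by ring
    have e3 : C * N = N * Real.log 25 + N * Real.log K + N * (2 * Real.log 2 + 8 * Real.log 5) +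
        N * Real.log 120 := by rw [hC]; ring
    rw [e3]
    rw [e1] at hupper
    rw [e2] at hgM
    linarith
  have hfin : 2 * (1 - θ) * (c * Real.log N) ≤ 2 * (1 - θ) * (((1 / (2 * (1 - θ)) + ε) * N) * Real.log N) := by
    have e4 : 2 * (1 - θ) * (((1 / (2 * (1 - θ)) + ε) * N) * Real.log N) =
        N * Real.log N + (2 * (1 - θ) * ε * Real.log N) * N := by
      field_simp
    rw [e4]
    have := mul_le_mul_of_nonneg_right hCN.le hNpos.le
    linarith
  have h5 := le_of_mul_le_mul_left hfin (by positivity)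
  exact le_of_mul_le_mul_right h5 hlogNpos

open scoped Classical in
/-- **density**, with growing bound -/
theorem part_density2 (T θ ε : ℝ) (hθ : 0 ≤ θ) (hθ1 : θ < 1) (hε : 0 < ε) :
    ∃ N₀ : ℕ, ∀ N ≥ N₀,
      (((Finset.Icc 1 N).filter (fun d => HasReflection d ∨ HasShortDual (T * (d : ℝ) ^ θ) d)).card : ℝ) ≤
        (1 / (2 * (1 - θ)) + ε) * N := by
  have key : ∀ d : ℕ, 0 < d → (HasReflection d ∨ HasShortDual (T * (d : ℝ) ^ θ) d) →
      ShortK (max 4 (T ^ 2) * (d : ℝ) ^ (2 * θ)) d := by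
    intro d hd h
    have hd1 : (1 : ℝ) ≤ d := by exact_mod_cast hd
    have hp : 1 ≤ (d : ℝ) ^ (2 * θ) := Real.one_le_rpow hd1 (by positivity)
    obtain ⟨P, hP, hcr, u, hu, h4⟩ := short_or hd h
    refine ⟨P, hP, hcr, u, hu, h4.trans (max_le ?_ ?_)⟩
    · calc (4 : ℝ) = 4 * 1 := by norm_num
        _ ≤ max 4 (T ^ 2) * (d : ℝ) ^ (2 * θ) :=
          mul_le_mul (le_max_left _ _) hp zero_le_one (le_trans (by norm_num) (le_max_left _ _))
    · rw [mul_pow, ← Real.rpow_natCast ((d : ℝ) ^ θ) 2, ← Real.rpow_mul (by positivity)]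
      have e : θ * ((2 : ℕ) : ℝ) = 2 * θ := by push_cast; ring
      rw [e]
      exact mul_le_mul_of_nonneg_right (le_max_right _ _) (by positivity)
  obtain ⟨N₀, h⟩ := dens2 Dn {d | ShortK (max 4 (T ^ 2) * (d : ℝ) ^ (2 * θ)) d} low up
    (fun n hn => mordell n (by omega)) (max 4 (T ^ 2)) θ (lt_of_lt_of_le (by norm_num) (le_max_left _ _)) hθ hθ1
    (fun n _ hn => ShortK.step hn) ε hε
  refine ⟨N₀, fun N hN => le_trans ?_ (h N hN)⟩
  have hsub : (Finset.Icc 1 N).filter (fun d => HasReflection d ∨ HasShortDual (T * (d : ℝ) ^ θ) d) ⊆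
      (Finset.Icc 1 N).filter (· ∈ {d : ℕ | ShortK (max 4 (T ^ 2) * (d : ℝ) ^ (2 * θ)) d}) := by
    intro d hd
    rw [Finset.mem_filter, Finset.mem_Icc] at hd ⊢
    exact ⟨hd.1, key d (by omega) hd.2⟩
  exact_mod_cast Finset.card_le_card hsub

end CritL
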