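import Pool.Agent.Lib.CritL.Basis

/-!
# Sublattices of the dual, in Euclidean terms
-/

set_option autoImplicit false

namespace CritL

open Matrix

theorem bm_det_ne {d : ℕ} {b : Fin d → E d} (hb : LinearIndependent ℝ b) : (bm b).det ≠ 0 := by
  have h := (gm_pd hb).det_pos
  intro h0
  unfold gm at h
  rw [det_mul, h0, zero_mul] at h
  exact lt_irrefl _ h

theorem nf_inv {d : ℕ} (hd : 0 < d) {b : Fin d → E d} (hb : LinearIndependent ℝ b) :
    (nf b)⁻¹ = (minL b ^ 2) • ((bm b)ᵀ⁻¹ * (bm b)⁻¹) := by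
  have hM : IsUnit (bm b).det := isUnit_iff_ne_zero.2 (bm_det_ne hb)
  have hMt : IsUnit (bm b)ᵀ.det := by rwa [det_transpose]
  have hl := minL_pos hd hb
  refine inv_eq_right_inv ?_
  unfold nf gm
  rw [Matrix.smul_mul, Matrix.mul_smul, smul_smul, inv_mul_cancel₀ (by positivity), one_smul]
  calc bm b * (bm b)ᵀ * ((bm b)ᵀ⁻¹ * (bm b)⁻¹) = bm b * ((bm b)ᵀ * (bm b)ᵀ⁻¹) * (bm b)⁻¹ := by
        simp only [Matrix.mul_assoc]
    _ = 1 := by rw [mul_nonsing_inv _ hMt, Matrix.mul_one, mul_nonsing_inv _ hM]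

/-- integral vectors of the dual: integer matrix, Gram matrix -/
theorem exists_int_matrix {n d : ℕ} (hd : 0 < d) {b : Fin d → E d} (hb : LinearIndependent ℝ b)
    {w : Fin n → E d} (hint : ∀ i, ∀ x ∈ lat b, ∃ k : ℤ, inner ℝ (w i) x = k) :
    ∃ W : Matrix (Fin n) (Fin d) ℤ, (LinearIndependent ℝ w → LinearIndependent ℤ W) ∧
      rw' W * (nf b)⁻¹ * (rw' W)ᵀ = (minL b ^ 2) • gm w := by
  have hM : IsUnit (bm b).det := isUnit_iff_ne_zero.2 (bm_det_ne hb)
  have hMt : IsUnit (bm b)ᵀ.det := by rwa [det_transpose]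
  choose W hW using fun i j => hint i (b j) (Submodule.subset_span (Set.mem_range_self j))
  have hWm : rw' (Matrix.of W) = bm w * (bm b)ᵀ := by
    funext i j
    simp only [rw', map_apply, of_apply, mul_apply, transpose_apply, bm]
    rw [← hW, inner_eq]
  refine ⟨Matrix.of W, fun hw => ?_, ?_⟩
  · rw [Fintype.linearIndependent_iff]
    intro a ha
    have h1 : (fun i => (a i : ℝ)) ᵥ* rw' (Matrix.of W) = 0 := by
      funext j
      have := congrFun ha j
      simp only [Finset.sum_apply, Pi.smul_apply, smul_eq_mul, Pi.zero_apply] at this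
      have h3 := congrArg (Int.cast : ℤ → ℝ) this
      push_cast at h3
      simpa [vecMul, dotProduct, rw'] using h3
    rw [hWm, ← vecMul_vecMul] at h1
    have h2 : (fun i => (a i : ℝ)) ᵥ* bm w = 0 :=
      eq_zero_of_vecMul_eq_zero hMt.ne_zero h1
    have h3 : rp w (fun i => (a i : ℝ)) = 0 := by
      ext j
      rw [rp_apply, h2]
      rfl
    intro i
    have h4 : (a i : ℝ) = 0 := congrFun (rp_inj hw h3) i
    exact_mod_cast h4
  · rw [hWm, nf_inv hd hb, transpose_mul, transpose_transpose, Matrix.mul_smul, Matrix.smul_mul]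
    congr 1
    calc bm w * (bm b)ᵀ * ((bm b)ᵀ⁻¹ * (bm b)⁻¹) * (bm b * (bm w)ᵀ)
        = bm w * ((bm b)ᵀ * (bm b)ᵀ⁻¹) * ((bm b)⁻¹ * bm b) * (bm w)ᵀ := by simp only [Matrix.mul_assoc]
      _ = gm w := by
        rw [mul_nonsing_inv _ hMt, nonsing_inv_mul _ hM, Matrix.mul_one, Matrix.mul_one]
        rfl

/-- **sublattices of the dual of a critical lattice are sparse** -/
theorem dual_vol {n m : ℕ} (hn : 0 < n) (hm : 0 < m) {b : Fin (n + m) → E (n + m)} (hb : IsCritical b)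
    {w : Fin n → E (n + m)} (hw : LinearIndependent ℝ w)
    (hint : ∀ i, ∀ x ∈ lat b, ∃ k : ℤ, inner ℝ (w i) x = k) {Q : Matrix (Fin n) (Fin n) ℝ} (hQ : Adm Q) :
    1 < (minL b ^ 2) ^ n * (gm w).det * Q.det := by
  have hd : 0 < n + m := by omega
  obtain ⟨W, hWi, hWg⟩ := exists_int_matrix hd hb.1 hint
  have h1 := dual_gt hn hm (nf_adm hd hb.1) (nf_crit hd hb) W (hWi hw) hQ
  rwa [hWg, det_smul, Fintype.card_fin] at h1

/-- a short dual vector gives `ShortK` -/
theorem shortK_of {d : ℕ} (hd : 0 < d) {b : Fin d → E d} (hb : IsCritical b) {w : E d} (hw : w ≠ 0)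
    (hint : ∀ x ∈ lat b, ∃ k : ℤ, inner ℝ w x = k) {T : ℝ} (hT : minL b * ‖w‖ ≤ T) : ShortK (T ^ 2) d := by
  obtain ⟨W, hWi, hWg⟩ := exists_int_matrix (w := fun _ : Fin 1 => w) hd hb.1 (fun _ => hint)
  have hli : LinearIndependent ℝ (fun _ : Fin 1 => w) := by
    rw [linearIndependent_unique_iff]
    exact hw
  have hW0 : W 0 ≠ 0 := by
    have := (hWi hli).ne_zero 0
    exact this
  refine ⟨nf b, nf_adm hd hb.1, nf_crit hd hb, W 0, hW0, ?_⟩
  have h1 := congrFun (congrFun hWg 0) 0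
  have h2 : (rw' W * (nf b)⁻¹ * (rw' W)ᵀ) 0 0 = qf (nf b)⁻¹ (ic (W 0)) := by
    unfold qf
    rw [Matrix.mul_assoc]
    simp only [mul_apply, dotProduct, mulVec, transpose_apply, rw', map_apply, ic]
  rw [← h2, h1, Matrix.smul_apply, gm_apply, real_inner_self_eq_norm_sq, smul_eq_mul, ← mul_pow]
  have := minL_pos hd hb.1
  exact pow_le_pow_left₀ (by positivity) hT 2

end CritL
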