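import Pool.Agent.Lib.CritL.Dual

/-!
# Endomorphisms of lattices
-/

set_option autoImplicit false

namespace CritL

open Matrix

theorem rw'_mul {n k l : ℕ} (X : Matrix (Fin n) (Fin k) ℤ) (Y : Matrix (Fin k) (Fin l) ℤ) :
    rw' (X * Y) = rw' X * rw' Y := by
  funext i j
  simp [rw', mul_apply]

theorem rw'_one {n : ℕ} : rw' (1 : Matrix (Fin n) (Fin n) ℤ) = 1 := by
  unfold rw'
  simp

theorem rw'_eq_rm {n : ℕ} (A : Matrix (Fin n) (Fin n) ℤ) : rw' A = rm A := rfl

/-- rank factorization of an integer matrix -/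
theorem exists_rank_factor {d : ℕ} (A : Matrix (Fin d) (Fin d) ℤ) :
    ∃ (k : ℕ) (N : Matrix (Fin d) (Fin k) ℤ) (C : Matrix (Fin k) (Fin d) ℤ) (V : Matrix (Fin d) (Fin k) ℤ)
      (M : Matrix (Fin k) (Fin d) ℤ) (H : Matrix (Fin k) (Fin k) ℤ),
      H.det ≠ 0 ∧ A = N * C ∧ C * V = 1 ∧ M * N = H := by
  classical
  set S := Submodule.span ℤ (Set.range A) with hS
  obtain ⟨k, bW⟩ := Submodule.basisOfPid (Pi.basisFun ℤ (Fin d)) S
  set W : Matrix (Fin k) (Fin d) ℤ := fun i => ((bW i : S) : Fin d → ℤ) with hWdef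
  have hW : LinearIndependent ℤ W := bW.linearIndependent.map' S.subtype (Submodule.ker_subtype S)
  have hspan : Submodule.span ℤ (Set.range W) = S := by
    have h1 := congrArg (Submodule.map S.subtype) bW.span_eq
    rw [Submodule.map_span, Submodule.map_top, Submodule.range_subtype, ← Set.range_comp] at h1
    exact h1
  have hA : ∀ i, A i ∈ Submodule.span ℤ (Set.range W) := by
    intro i
    rw [hspan]
    exact Submodule.subset_span (Set.mem_range_self i)
  choose N0 hN0 using fun i => (Submodule.mem_span_range_iff_exists_fun ℤ).1 (hA i)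
  have hWS : ∀ i, W i ∈ Submodule.span ℤ (Set.range A) := fun i => (bW i).2
  choose M hM using fun i => (Submodule.mem_span_range_iff_exists_fun ℤ).1 (hWS i)
  have e1 : A = Matrix.of N0 * W := by
    funext i j
    rw [mul_apply, ← hN0 i]
    simp
  have e2 : W = Matrix.of M * A := by
    funext i j
    rw [mul_apply, ← hM i]
    simp
  have e3 : Matrix.of M * Matrix.of N0 = 1 := by
    have h1 : (Matrix.of M * Matrix.of N0) * W = (1 : Matrix (Fin k) (Fin k) ℤ) * W := by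
      rw [Matrix.mul_assoc, ← e1, ← e2, Matrix.one_mul]
    funext i
    have h2 : ∑ j, ((Matrix.of M * Matrix.of N0) i j - (1 : Matrix (Fin k) (Fin k) ℤ) i j) • W j = 0 := by
      funext l
      have h3 := congrFun (congrFun h1 i) l
      rw [mul_apply, mul_apply] at h3
      simp only [sub_smul, Finset.sum_sub_distrib, Pi.sub_apply, Finset.sum_apply, Pi.smul_apply, smul_eq_mul,
        Pi.zero_apply]
      rw [h3, sub_self]
    funext j
    have := Fintype.linearIndependent_iff.1 hW _ h2 j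
    exact sub_eq_zero.1 this
  obtain ⟨R, U, f, H, hRU, hUR, hH, hWH⟩ := exists_rows W hW
  refine ⟨k, Matrix.of N0 * H, R.submatrix f id, U.submatrix id f, Matrix.of M, H, hH, ?_, ?_, ?_⟩
  · rw [Matrix.mul_assoc, ← hWH, ← e1]
  · have h1 : R.submatrix f id * U.submatrix id f = (R * U).submatrix f f := by
      rw [submatrix_mul _ _ f id f Function.bijective_id]
    rw [h1, hRU]
    funext i j
    simp [one_apply]
  · rw [← Matrix.mul_assoc, e3, Matrix.one_mul]

theorem cs {d : ℕ} {P : Matrix (Fin d) (Fin d) ℝ} (hP : P.PosDef) (z w : Fin d → ℝ) :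
    (z ⬝ᵥ P *ᵥ w) ^ 2 ≤ qf P z * qf P w := by
  by_cases hw : w = 0
  · subst hw
    simp [qf]
  have hc := qf_pos hP hw
  have h1 := qf_nonneg hP (qf P w • z - (z ⬝ᵥ P *ᵥ w) • w)
  have h2 : w ⬝ᵥ P *ᵥ z = z ⬝ᵥ P *ᵥ w := by
    rw [dot_symm hP, dotProduct_comm]
  have h3 : qf P (qf P w • z - (z ⬝ᵥ P *ᵥ w) • w) = qf P w * (qf P z * qf P w - (z ⬝ᵥ P *ᵥ w) ^ 2) := by
    have e : qf P w = w ⬝ᵥ P *ᵥ w := rfl
    have e' : qf P z = z ⬝ᵥ P *ᵥ z := rfl
    rw [e']
    conv_lhs => unfold qf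
    rw [mulVec_sub, mulVec_smul, mulVec_smul, sub_dotProduct, dotProduct_sub, dotProduct_sub, smul_dotProduct,
      smul_dotProduct, smul_dotProduct, smul_dotProduct, dotProduct_smul, dotProduct_smul, dotProduct_smul,
      dotProduct_smul, h2]
    simp only [smul_eq_mul]
    unfold qf
    ring
  rw [h3] at h1
  have := nonneg_of_mul_nonneg_right h1 hc
  linarith

/-- the adjoint has the same norm -/
theorem adj {d : ℕ} {P : Matrix (Fin d) (Fin d) ℝ} (hP : P.PosDef) (A : Matrix (Fin d) (Fin d) ℝ) {T : ℝ}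
    (h : ∀ z, qf P (A *ᵥ z) ≤ T ^ 2 * qf P z) (z : Fin d → ℝ) :
    qf P⁻¹ (Aᵀ *ᵥ (P *ᵥ z)) ≤ T ^ 2 * qf P z := by
  have hPu : IsUnit P.det := isUnit_iff_ne_zero.2 hP.det_pos.ne'
  set v := P⁻¹ *ᵥ (Aᵀ *ᵥ (P *ᵥ z)) with hv
  have hPv : P *ᵥ v = Aᵀ *ᵥ (P *ᵥ z) := by rw [hv, mulVec_mulVec, mul_nonsing_inv _ hPu, one_mulVec]
  have h1 : qf P⁻¹ (Aᵀ *ᵥ (P *ᵥ z)) = qf P v := by
    unfold qf
    rw [hPv, dotProduct_comm]
  have h2 : qf P v = z ⬝ᵥ P *ᵥ (A *ᵥ v) := by
    unfold qf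
    rw [hPv, mulVec_transpose, ← mulVec_transpose, dotProduct_mulVec, vecMul_transpose, dotProduct_comm,
      dot_symm hP]
  have h3 := cs hP z (A *ᵥ v)
  rw [← h2] at h3
  rw [h1]
  have hz := qf_nonneg hP z
  rcases (qf_nonneg hP v).eq_or_lt with h0 | h0
  · rw [← h0]
    positivity
  · have h4 : qf P v * qf P v ≤ (T ^ 2 * qf P z) * qf P v := by
      calc qf P v * qf P v = qf P v ^ 2 := (sq _).symm
        _ ≤ qf P z * qf P (A *ᵥ v) := h3
        _ ≤ qf P z * (T ^ 2 * qf P v) := mul_le_mul_of_nonneg_left (h v) hz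
        _ = _ := by ring
    exact le_of_mul_le_mul_right h4 h0

/-- **endomorphisms of small norm and rank** -/
theorem endo_bound {d : ℕ} {P : Matrix (Fin d) (Fin d) ℝ} (hP : Adm P) (A : Matrix (Fin d) (Fin d) ℤ) {T : ℝ}
    (h : ∀ z, qf P (rm A *ᵥ z) ≤ T ^ 2 * qf P z) :
    ∃ k m : ℕ, k + m = d ∧ Module.finrank ℝ (LinearMap.range (rm A).mulVecLin) = k ∧
      Dn k * Dn m ≤ (T ^ 2) ^ k * P.det := by
  obtain ⟨k, N, C, V, M, H, hH, hA, hCV, hMN⟩ := exists_rank_factor A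
  have hCV' : rw' C * rw' V = 1 := by rw [← rw'_mul, hCV, rw'_one]
  have hMN' : rw' M * rw' N = rw' H := by rw [← rw'_mul, hMN]
  have hH' : (rw' H).det ≠ 0 := by
    have : (rw' H).det = ((H.det : ℤ) : ℝ) := ((Int.castRingHom ℝ).map_det H).symm
    rw [this]
    exact_mod_cast hH
  have hA' : rm A = rw' N * rw' C := by rw [← rw'_mul, ← hA]; rfl
  have hNinj : Function.Injective (rw' N).mulVec := by
    intro x y hxy
    have h1 := congrArg (rw' M *ᵥ ·) hxy
    simp only [mulVec_mulVec, hMN'] at h1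
    exact mulVec_inj hH' h1
  have hC : LinearIndependent ℤ C := by
    rw [Fintype.linearIndependent_iff]
    intro c hc
    have h1 : c ᵥ* C = 0 := by
      funext j
      have := congrFun hc j
      simpa [vecMul, dotProduct] using this
    have h2 : c ᵥ* (C * V) = 0 := by rw [← vecMul_vecMul, h1, zero_vecMul]
    rw [hCV, vecMul_one] at h2
    intro i
    exact congrFun h2 i
  have hkd : k ≤ d := by
    have := hC.fintype_card_le_finrank
    simpa using this
  obtain ⟨m, rfl⟩ : ∃ m, d = k + m := ⟨d - k, by omega⟩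
  refine ⟨k, m, rfl, ?_, ?_⟩
  · have h1 : (rm A).mulVecLin = (rw' N).mulVecLin ∘ₗ (rw' C).mulVecLin := by
      rw [hA', mulVecLin_mul]
    have h2 : LinearMap.range (rw' C).mulVecLin = ⊤ := by
      rw [LinearMap.range_eq_top]
      intro y
      refine ⟨rw' V *ᵥ y, ?_⟩
      rw [mulVecLin_apply, mulVec_mulVec, hCV', one_mulVec]
    rw [h1, LinearMap.range_comp_of_range_eq_top _ h2, LinearMap.finrank_range_of_inj hNinj]
    simp
  -- the lattice of the image
  set Q := (rw' N)ᵀ * P * rw' N with hQ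
  have hQadm : Adm Q := by
    refine ⟨pd_conj hP.pd _ hNinj, fun x hx => ?_⟩
    rw [hQ, qf_conj]
    have e : rw' N *ᵥ ic x = ic (N *ᵥ x) := by
      funext i
      simp [rw', mulVec, dotProduct, ic]
    rw [e]
    refine hP.one_le _ fun h0 => hx ?_
    have h1 : rw' N *ᵥ ic x = rw' N *ᵥ 0 := by rw [e, h0, ic_zero, mulVec_zero]
    have h2 := hNinj h1
    exact ic_inj (by rw [h2, ic_zero])
  obtain ⟨P₁, hP₁, hle⟩ := section_multi hP C hC
  set X := rw' C * P⁻¹ * (rw' C)ᵀ with hX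
  obtain ⟨B, hB, hB0⟩ := exists_factor hQadm.pd
  have hBu : IsUnit B.det := isUnit_iff_ne_zero.2 hB0
  have hXps : X.PosSemidef := by
    have := hP.pd.inv.posSemidef.mul_mul_conjTranspose_same (rw' C)
    rwa [conjTranspose_eq_transpose_of_trivial] at this
  have hZps : (B * X * Bᵀ).PosSemidef := by
    have := hXps.mul_mul_conjTranspose_same B
    rwa [conjTranspose_eq_transpose_of_trivial] at this
  have hdiag : ∀ i, (B * X * Bᵀ) i i ≤ T ^ 2 := by
    intro i
    set v := B⁻¹ *ᵥ Pi.single i 1 with hv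
    have hBv : B *ᵥ v = Pi.single i 1 := by rw [hv, mulVec_mulVec, mul_nonsing_inv _ hBu, one_mulVec]
    have hu : Q *ᵥ v = Bᵀ *ᵥ Pi.single i 1 := by rw [hB, ← mulVec_mulVec, hBv]
    have hq1 : qf Q v = 1 := by
      unfold qf
      rw [hu, dotProduct_mulVec, vecMul_transpose, hBv]
      simp
    have h1 : (B * X * Bᵀ) i i = qf P⁻¹ ((rw' C)ᵀ *ᵥ (Q *ᵥ v)) := by
      have e : (B * X * Bᵀ) i i = qf X (Bᵀ *ᵥ Pi.single i 1) := by
        rw [← qf_conj, transpose_transpose]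
        unfold qf
        simp
      rw [e, ← hu, hX]
      have e2 : qf (rw' C * P⁻¹ * (rw' C)ᵀ) (Q *ᵥ v) = qf P⁻¹ ((rw' C)ᵀ *ᵥ (Q *ᵥ v)) := by
        have := qf_conj P⁻¹ (rw' C)ᵀ (Q *ᵥ v)
        rwa [transpose_transpose] at this
      exact e2
    have h2 : (rw' C)ᵀ *ᵥ (Q *ᵥ v) = (rm A)ᵀ *ᵥ (P *ᵥ (rw' N *ᵥ v)) := by
      rw [hQ, hA', transpose_mul]
      simp only [mulVec_mulVec, Matrix.mul_assoc]
    rw [h1, h2]
    refine (adj hP.pd (rm A) h _).trans ?_
    have h3 : qf P (rw' N *ᵥ v) = 1 := by rw [← qf_conj, ← hQ, hq1]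
    rw [h3, mul_one]
  have hdet := det_le_pow hZps hdiag
  have hdetZ : (B * X * Bᵀ).det = Q.det * X.det := by
    rw [det_mul, det_mul, det_transpose, hB, det_mul, det_transpose]
    ring
  rw [hdetZ] at hdet
  have hQd := hQadm.pd.det_pos
  have hPd := hP.pd.det_pos
  calc Dn k * Dn m ≤ Q.det * (P.det * X.det) :=
        mul_le_mul (Dn_le hQadm) ((Dn_le hP₁).trans hle) (Dn_pos m).le hQd.le
    _ = (Q.det * X.det) * P.det := by ring
    _ ≤ (T ^ 2) ^ k * P.det := mul_le_mul_of_nonneg_right hdet hPd.le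

end CritL
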