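import Mathlib

/-!
# Entropy inequalities

Sketch. `(k + m) log (k + m) - k log k - m log m = d H(k / d)`, `d = k + m`, `H` = `Real.binEntropy` (natural logarithms), for
`k, m ≥ 1` (`H(p) = p log (1/p) + (1 - p) log (1/(1-p))`).

`ent_half`. If `ε ≥ 1/2` there is nothing to prove except the choice of `s` (no `k ≥ 1` satisfies the hypothesis), so let
`a = 1/2 - ε`, `0 < a < 1/2`. Strict concavity (`Real.strictConcave_binEntropy` or similar, on `[0,1]`), `H(0) = 0`,
`H(1/2) = log 2` give `H(a) > 2 a log 2`, and for `0 < x ≤ a` concavity between `0` and `a` gives `H(x) / x ≥ H(a) / a`. So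
`s = 2 a log 2 / H(a)` satisfies `0 < s < 1` and `2 x log 2 ≤ s H(x)` for `0 < x ≤ a`; multiply by `d` with `x = k / d`
(`log 4 = 2 log 2`).

`log_choose_le`. `(k + m)^(k + m) ≥ choose (k + m) k * k^k * m^m` is one term of the binomial theorem (`add_pow`); take
logarithms (for `k = 0` or `m = 0` both sides are `0`, with `0 * log 0 = 0`).

`ent_nonneg` follows from `log_choose_le` (or from monotonicity of `log`).
-/

set_option autoImplicit false

namespace CritL

/-- logarithm of a binomial coefficient -/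
theorem log_choose_le (k m : ℕ) : Real.log ((k + m).choose k : ℝ) ≤
    ((k + m : ℕ) : ℝ) * Real.log ((k + m : ℕ) : ℝ) - (k : ℝ) * Real.log (k : ℝ) - (m : ℝ) * Real.log (m : ℝ) := by
  have hpos : ∀ j : ℕ, 0 < j ^ j := by
    intro j
    rcases Nat.eq_zero_or_pos j with h | h
    · rw [h]; norm_num
    · exact pow_pos h j
  have hc : 0 < (k + m).choose k := Nat.choose_pos (Nat.le_add_right k m)
  have h1 : k ^ k * m ^ m * (k + m).choose k ≤ (k + m) ^ (k + m) := by
    rw [add_pow k m (k + m)]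
    have h2 := Finset.single_le_sum (f := fun j => k ^ j * m ^ (k + m - j) * (k + m).choose j)
      (s := Finset.range (k + m + 1)) (fun _ _ => Nat.zero_le _)
      (Finset.mem_range.2 (by omega) : k ∈ Finset.range (k + m + 1))
    simp only [Nat.add_sub_cancel_left] at h2
    exact_mod_cast h2
  have h2 : Real.log (((k ^ k * m ^ m * (k + m).choose k : ℕ)) : ℝ) ≤
      Real.log (((k + m) ^ (k + m) : ℕ) : ℝ) := by
    refine Real.log_le_log ?_ (by exact_mod_cast h1)
    exact_mod_cast Nat.mul_pos (Nat.mul_pos (hpos k) (hpos m)) hc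
  have hk : ((k ^ k : ℕ) : ℝ) ≠ 0 := by exact_mod_cast (hpos k).ne'
  have hm : ((m ^ m : ℕ) : ℝ) ≠ 0 := by exact_mod_cast (hpos m).ne'
  have hc' : (((k + m).choose k : ℕ) : ℝ) ≠ 0 := by exact_mod_cast hc.ne'
  rw [Nat.cast_mul, Nat.cast_mul, Real.log_mul (mul_ne_zero hk hm) hc', Real.log_mul hk hm,
    Nat.cast_pow, Nat.cast_pow, Nat.cast_pow, Real.log_pow, Real.log_pow, Real.log_pow] at h2
  linarith

theorem ent_nonneg (k m : ℕ) : 0 ≤
    ((k + m : ℕ) : ℝ) * Real.log ((k + m : ℕ) : ℝ) - (k : ℝ) * Real.log (k : ℝ) - (m : ℝ) * Real.log (m : ℝ) :=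
  (Real.log_natCast_nonneg _).trans (log_choose_le k m)

namespace EntAux

theorem ent_eq {k m : ℕ} (hk : 1 ≤ k) (hm : 1 ≤ m) :
    ((k + m : ℕ) : ℝ) * Real.log ((k + m : ℕ) : ℝ) - (k : ℝ) * Real.log (k : ℝ) -
      (m : ℝ) * Real.log (m : ℝ) =
      ((k + m : ℕ) : ℝ) * Real.binEntropy ((k : ℝ) / ((k + m : ℕ) : ℝ)) := by
  have hk' : (0 : ℝ) < k := by exact_mod_cast hk
  have hm' : (0 : ℝ) < m := by exact_mod_cast hm
  have hd : (0 : ℝ) < (k : ℝ) + m := by linarith
  have e1 : 1 - (k : ℝ) / ((k : ℝ) + m) = (m : ℝ) / ((k : ℝ) + m) := by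
    field_simp
    ring
  rw [Real.binEntropy, Nat.cast_add, e1, inv_div, inv_div, Real.log_div hd.ne' hk'.ne',
    Real.log_div hd.ne' hm'.ne']
  field_simp
  ring

theorem chord {a x : ℝ} (ha : 0 < a) (ha' : a ≤ 1) (hx : 0 < x) (hxa : x ≤ a) :
    x / a * Real.binEntropy a ≤ Real.binEntropy x := by
  have m0 : (0 : ℝ) ∈ Set.Icc (0 : ℝ) 1 := Set.mem_Icc.2 ⟨le_rfl, zero_le_one⟩
  have m1 : a ∈ Set.Icc (0 : ℝ) 1 := Set.mem_Icc.2 ⟨ha.le, ha'⟩
  have c1 : 0 ≤ 1 - x / a := by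
    rw [sub_nonneg, div_le_one ha]
    exact hxa
  have c2 : 0 ≤ x / a := div_nonneg hx.le ha.le
  have c3 : 1 - x / a + x / a = 1 := by ring
  have h := Real.strictConcave_binEntropy.concaveOn.2 m0 m1 c1 c2 c3
  simp only [smul_eq_mul, Real.binEntropy_zero, mul_zero, zero_add] at h
  rw [div_mul_cancel₀ x ha.ne'] at h
  exact h

theorem half {a : ℝ} (ha : 0 < a) (ha' : a < 1 / 2) :
    2 * a * Real.log 2 < Real.binEntropy a := by
  have m0 : (0 : ℝ) ∈ Set.Icc (0 : ℝ) 1 := Set.mem_Icc.2 ⟨le_rfl, zero_le_one⟩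
  have m1 : (2⁻¹ : ℝ) ∈ Set.Icc (0 : ℝ) 1 := Set.mem_Icc.2 ⟨by norm_num, by norm_num⟩
  have c0 : (0 : ℝ) ≠ 2⁻¹ := by norm_num
  have c1 : 0 < 1 - 2 * a := by linarith
  have c2 : 0 < 2 * a := by linarith
  have c3 : 1 - 2 * a + 2 * a = 1 := by ring
  have h := Real.strictConcave_binEntropy.2 m0 m1 c0 c1 c2 c3
  simp only [smul_eq_mul, Real.binEntropy_zero, mul_zero, zero_add, Real.binEntropy_two_inv] at h
  rw [show 2 * a * (2 : ℝ)⁻¹ = a by ring] at h
  exact h

end EntAux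

/-- entropy against a linear function away from `1/2` -/
theorem ent_half (ε : ℝ) (hε : 0 < ε) : ∃ s : ℝ, 0 < s ∧ s < 1 ∧ ∀ k m : ℕ, 1 ≤ k → 1 ≤ m →
    (k : ℝ) ≤ (1 / 2 - ε) * ((k + m : ℕ) : ℝ) → (k : ℝ) * Real.log 4 ≤
      s * (((k + m : ℕ) : ℝ) * Real.log ((k + m : ℕ) : ℝ) - (k : ℝ) * Real.log (k : ℝ) -
        (m : ℝ) * Real.log (m : ℝ)) := by
  rcases le_or_gt (1 / 2) ε with h1 | h1
  · refine ⟨1 / 2, by norm_num, by norm_num, fun k m hk hm h => ?_⟩
    exfalso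
    have hk' : (0 : ℝ) < k := by exact_mod_cast hk
    have hd : (0 : ℝ) ≤ ((k + m : ℕ) : ℝ) := Nat.cast_nonneg _
    nlinarith [mul_nonneg (sub_nonneg.2 h1) hd]
  · set a : ℝ := 1 / 2 - ε with ha
    have ha0 : 0 < a := by linarith
    have ha1 : a < 1 / 2 := by linarith
    have hl2 : 0 < Real.log 2 := Real.log_pos (by norm_num)
    have hH := EntAux.half ha0 ha1
    have hH0 : 0 < Real.binEntropy a := lt_trans (by positivity) hH
    refine ⟨2 * a * Real.log 2 / Real.binEntropy a, by positivity, by rwa [div_lt_one hH0],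
      fun k m hk hm h => ?_⟩
    have hk' : (0 : ℝ) < k := by exact_mod_cast hk
    have hd : (0 : ℝ) < ((k + m : ℕ) : ℝ) := by
      have : 0 < k + m := by omega
      exact_mod_cast this
    rw [EntAux.ent_eq hk hm]
    set d : ℝ := ((k + m : ℕ) : ℝ) with hdd
    have hx0 : 0 < (k : ℝ) / d := div_pos hk' hd
    have hxa : (k : ℝ) / d ≤ a := by rwa [div_le_iff₀ hd]
    have h2 := EntAux.chord ha0 (by linarith) hx0 hxa
    have h4 : Real.log 4 = 2 * Real.log 2 := by
      rw [show (4 : ℝ) = 2 ^ 2 by norm_num, Real.log_pow]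
      norm_num
    rw [h4]
    have h5 : (k : ℝ) * (2 * Real.log 2) = 2 * a * Real.log 2 / Real.binEntropy a *
        (d * ((k : ℝ) / d / a * Real.binEntropy a)) := by
      field_simp
    rw [h5]
    exact mul_le_mul_of_nonneg_left (mul_le_mul_of_nonneg_left h2 hd.le) (by positivity)

end CritL
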