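import Pool.Agent.Lib.CritL.Struct

/-!
# Even permutations of orthonormal vectors
-/

set_option autoImplicit false

namespace CritL

open Matrix

/-- the isometry which permutes the orthonormal vectors `u i` and fixes all vectors orthogonal to them -/
noncomputable def permute {k d : ℕ} (u : Fin k → E d) (σ : Equiv.Perm (Fin k)) (x : E d) : E d :=
  x + ∑ i, (inner ℝ (u i) x : ℝ) • (u (σ i) - u i)

section

variable {d k : ℕ} {u : Fin k → E d}

theorem inner_permute (hu : Orthonormal ℝ u) (σ : Equiv.Perm (Fin k)) (x : E d) (a : Fin k) :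
    inner ℝ (u a) (permute u σ x) = (inner ℝ (u (σ.symm a)) x : ℝ) := by
  unfold permute
  rw [inner_add_right, inner_sum]
  have h1 : ∀ i, inner ℝ (u a) ((inner ℝ (u i) x : ℝ) • (u (σ i) - u i)) =
      (if i = σ.symm a then (inner ℝ (u i) x : ℝ) else 0) - (if i = a then (inner ℝ (u i) x : ℝ) else 0) := by
    intro i
    rw [inner_smul_right, inner_sub_right, inner_u hu, inner_u hu]
    have e1 : (a = σ i) ↔ (i = σ.symm a) := by
      rw [Equiv.eq_symm_apply]
      exact eq_comm
    have e2 : (a = i) ↔ (i = a) := eq_comm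
    simp only [e1, e2]
    split_ifs <;> simp
  simp only [h1, Finset.sum_sub_distrib, Finset.sum_ite_eq', Finset.mem_univ, if_true]
  ring

theorem permute_mul (hu : Orthonormal ℝ u) (σ τ : Equiv.Perm (Fin k)) (x : E d) :
    permute u (σ * τ) x = permute u σ (permute u τ x) := by
  have h1 : permute u σ (permute u τ x) = permute u τ x + ∑ i, (inner ℝ (u (τ.symm i)) x : ℝ) • (u (σ i) - u i) := by
    conv_lhs => unfold permute
    congr 1
    refine Finset.sum_congr rfl fun i _ => ?_
    have := inner_permute hu τ x i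
    unfold permute at this
    rw [this]
  rw [h1, ← Equiv.sum_comp τ]
  unfold permute
  rw [add_assoc, ← Finset.sum_add_distrib]
  congr 1
  refine Finset.sum_congr rfl fun i _ => ?_
  rw [Equiv.symm_apply_apply, Equiv.Perm.mul_apply]
  module

/-- a transposition -/
noncomputable def R (u : Fin k → E d) (i j : Fin k) (x : E d) : E d :=
  x - ((inner ℝ (u i) x : ℝ) - inner ℝ (u j) x) • (u i - u j)

theorem permute_swap {i j : Fin k} (hij : i ≠ j) (x : E d) : permute u (Equiv.swap i j) x = R u i j x := by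
  unfold permute R
  rw [sub_eq_add_neg]
  congr 1
  rw [Finset.sum_eq_add i j hij]
  · rw [Equiv.swap_apply_left, Equiv.swap_apply_right]
    module
  · intro c _ hc
    rw [Equiv.swap_apply_of_ne_of_ne hc.1 hc.2, sub_self, smul_zero]
  · intro h; exact absurd (Finset.mem_univ _) h
  · intro h; exact absurd (Finset.mem_univ _) h

theorem R_sub (i j : Fin k) (x y : E d) : R u i j (x - y) = R u i j x - R u i j y := by
  unfold R
  rw [inner_sub_right, inner_sub_right]
  module

theorem R_add (i j : Fin k) (x y : E d) : R u i j (x + y) = R u i j x + R u i j y := by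
  unfold R
  rw [inner_add_right, inner_add_right]
  module

theorem R_smul (i j : Fin k) (t : ℝ) (x : E d) : R u i j (t • x) = t • R u i j x := by
  unfold R
  rw [inner_smul_right, inner_smul_right]
  module

theorem R_left (hu : Orthonormal ℝ u) {i j : Fin k} (hij : i ≠ j) : R u i j (u i) = u j := by
  unfold R
  rw [inner_u hu, inner_u hu, if_pos rfl, if_neg hij.symm]
  module

theorem R_right (hu : Orthonormal ℝ u) {i j : Fin k} (hij : i ≠ j) : R u i j (u j) = u i := by
  unfold R
  rw [inner_u hu, inner_u hu, if_neg hij, if_pos rfl]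
  module

theorem R_ne (hu : Orthonormal ℝ u) {i j a : Fin k} (hi : i ≠ a) (hj : j ≠ a) : R u i j (u a) = u a := by
  unfold R
  rw [inner_u hu, inner_u hu, if_neg hi, if_neg hj]
  module

/-- the even permutations preserve `L` -/
def EInv (L : Submodule ℤ (E d)) (u : Fin k → E d) : Prop :=
  ∀ σ : Equiv.Perm (Fin k), Equiv.Perm.sign σ = 1 → ∀ x ∈ L, permute u σ x ∈ L

theorem exists_notMem (s : Finset (Fin k)) (hs : s.card < k) : ∃ a, a ∉ s := by
  by_contra hcon
  push Not at hcon
  have : s = Finset.univ := Finset.eq_univ_of_forall hcon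
  rw [this, Finset.card_univ, Fintype.card_fin] at hs
  exact lt_irrefl _ hs

theorem EInv.two {L : Submodule ℤ (E d)} (hu : Orthonormal ℝ u) (h : EInv L u) {a b c e : Fin k} (hab : a ≠ b)
    (hce : c ≠ e) {x : E d} (hx : x ∈ L) : R u a b (R u c e x) ∈ L := by
  have h1 := h (Equiv.swap a b * Equiv.swap c e) (by
    rw [map_mul, Equiv.Perm.sign_swap hab, Equiv.Perm.sign_swap hce]
    rfl) x hx
  rwa [permute_mul hu, permute_swap hab, permute_swap hce] at h1

/-- **invariance under even permutations gives invariance under transpositions** -/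
theorem EInv.tinv {L : Submodule ℤ (E d)} (hu : Orthonormal ℝ u) (hk : 6 ≤ k) (h : EInv L u) : TInv L u := by
  intro i j hij x hx
  obtain ⟨p, hp⟩ := exists_notMem ({i, j} : Finset (Fin k)) (lt_of_le_of_lt Finset.card_le_two (by omega))
  obtain ⟨q, hq⟩ := exists_notMem ({i, j, p} : Finset (Fin k)) (lt_of_le_of_lt Finset.card_le_three (by omega))
  obtain ⟨m, hm⟩ := exists_notMem ({i, j, p, q} : Finset (Fin k)) (lt_of_le_of_lt Finset.card_le_four (by omega))
  obtain ⟨l, hl⟩ := exists_notMem ({i, j, p, q, m} : Finset (Fin k)) (lt_of_le_of_lt Finset.card_le_five (by omega))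
  simp only [Finset.mem_insert, Finset.mem_singleton, not_or] at hp hq hm hl
  obtain ⟨hpi, hpj⟩ := hp
  obtain ⟨hqi, hqj, hqp⟩ := hq
  obtain ⟨hmi, hmj, hmp, hmq⟩ := hm
  obtain ⟨hli, hlj, hlp, hlq, hlm⟩ := hl
  set α : ℝ := (inner ℝ (u i) x : ℝ) - inner ℝ (u j) x with hα
  set β : ℝ := (inner ℝ (u p) x : ℝ) - inner ℝ (u q) x with hβ
  -- step 1
  have hy : α • (u i - u j) + β • (u p - u q) ∈ L := by
    have h1 := L.sub_mem hx (h.two hu hij (Ne.symm hqp) hx)
    have h2 : x - R u i j (R u p q x) = α • (u i - u j) + β • (u p - u q) := by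
      have h3 : R u p q x = x - β • (u p - u q) := rfl
      rw [h3, R_sub, R_smul, R_sub, R_ne hu (Ne.symm hpi) (Ne.symm hpj), R_ne hu (Ne.symm hqi) (Ne.symm hqj)]
      have h4 : R u i j x = x - α • (u i - u j) := rfl
      rw [h4]
      module
    rwa [h2] at h1
  -- step 2
  have hz : α • (u i - (2 : ℝ) • u j + u m) ∈ L := by
    have h1 := L.sub_mem hy (h.two hu hij (Ne.symm hmj) hy)
    have h2 : α • (u i - u j) + β • (u p - u q) - R u i j (R u j m (α • (u i - u j) + β • (u p - u q))) =
        α • (u i - (2 : ℝ) • u j + u m) := by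
      rw [R_add, R_smul, R_smul, R_sub, R_sub, R_ne hu (Ne.symm hij) hmi, R_left hu (Ne.symm hmj),
        R_ne hu (Ne.symm hpj) hmp, R_ne hu (Ne.symm hqj) hmq, R_add, R_smul, R_smul, R_sub, R_sub, R_left hu hij,
        R_ne hu (Ne.symm hmi) (Ne.symm hmj), R_ne hu (Ne.symm hpi) (Ne.symm hpj),
        R_ne hu (Ne.symm hqi) (Ne.symm hqj)]
      module
    rwa [h2] at h1
  -- step 3
  have hz' : α • (u i - u l) ∈ L := by
    have h1 := L.sub_mem hz (h.two hu (Ne.symm hli) (Ne.symm hqp) hz)
    have h2 : α • (u i - (2 : ℝ) • u j + u m) - R u i l (R u p q (α • (u i - (2 : ℝ) • u j + u m))) =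
        α • (u i - u l) := by
      simp only [R_smul, R_add, R_sub, R_ne hu hpi hqi, R_ne hu hpj hqj, R_ne hu (Ne.symm hmp) (Ne.symm hmq),
        R_left hu (Ne.symm hli), R_ne hu hij hlj, R_ne hu (Ne.symm hmi) hlm]
      module
    rwa [h2] at h1
  -- step 4
  have h1 := h.two hu hlj (Ne.symm hqp) hz'
  have h2 : R u l j (R u p q (α • (u i - u l))) = α • (u i - u j) := by
    rw [R_smul, R_sub, R_ne hu hpi hqi, R_ne hu (Ne.symm hlp) (Ne.symm hlq), R_smul, R_sub,
      R_ne hu hli (Ne.symm hij), R_left hu hlj]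
  rwa [h2] at h1

end

end CritL
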