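import Pool.Agent.Lib.CritL.Even

/-!
# Critical lattices are not permutation symmetric
-/

set_option autoImplicit false

namespace CritL

open Matrix

theorem gen_num (d : ℕ) (hd : 3 ≤ d) (X Y : ℝ) (hX : 0 < X) (hX2 : X ≤ 2) (g : ℕ) (hg : 1 ≤ g) (h0 : X ≤ d * Y)
    (h1 : g = 1 → ∃ j : ℤ, 2 * |j| ≤ d ∧ d * X ≤ (j : ℝ) ^ 2 * Y + (d - 1) ∧
      ∀ k : ℤ, d * X ≤ (2 * (j : ℝ) + k * d) ^ 2 * Y + 2 * (d - 2)) :
    4 * ((d : ℝ) + 1) / d ^ 2 ≤ (g : ℝ) ^ 2 * Y * (2 / X) ^ d := by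
  have hd3 : (3 : ℝ) ≤ d := by exact_mod_cast hd
  have hd0 : (0 : ℝ) < d := by linarith
  have hY : 0 < Y := by
    have : 0 < (d : ℝ) * Y := by linarith
    exact (pos_iff_pos_of_mul_pos this).1 hd0
  set v := 2 / X with hv
  have hXv : X * v = 2 := by rw [hv]; field_simp
  have hv1 : 1 ≤ v := by rw [hv, le_div_iff₀ hX]; linarith
  have hYv : (2 / d) * v ^ (d - 1) ≤ Y * v ^ d := by
    obtain ⟨e, he⟩ : ∃ e, d = e + 1 := ⟨d - 1, by omega⟩
    have h2 : X / d ≤ Y := by rw [div_le_iff₀ hd0]; linarith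
    have h3 : X / d * v ^ d ≤ Y * v ^ d := mul_le_mul_of_nonneg_right h2 (by positivity)
    have h4 : X / d * v ^ d = (2 / d) * v ^ (d - 1) := by
      have : v ^ d = v ^ (d - 1) * v := by rw [← pow_succ]; congr 1; omega
      rw [this]
      calc X / d * (v ^ (d - 1) * v) = (X * v) / d * v ^ (d - 1) := by ring
        _ = _ := by rw [hXv]
    linarith
  rcases Nat.lt_or_ge 1 g with hg2 | hg2
  · have hgR : (2 : ℝ) ≤ g := by exact_mod_cast hg2
    have h2 : (4 : ℝ) ≤ (g : ℝ) ^ 2 := by nlinarith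
    have h3 : (1 : ℝ) ≤ v ^ (d - 1) := one_le_pow₀ hv1
    have h4 : 2 / (d : ℝ) ≤ Y * v ^ d := by
      refine le_trans ?_ hYv
      have : (0 : ℝ) < 2 / d := by positivity
      nlinarith
    have h5 : 4 * (2 / (d : ℝ)) ≤ (g : ℝ) ^ 2 * (Y * v ^ d) :=
      mul_le_mul h2 h4 (by positivity) (by positivity)
    have h6 : 4 * ((d : ℝ) + 1) / d ^ 2 ≤ 4 * (2 / (d : ℝ)) := by
      rw [div_le_iff₀ (by positivity)]
      have : 4 * (2 / (d : ℝ)) * d ^ 2 = 8 * d := by field_simp; norm_num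
      rw [this]
      linarith
    calc 4 * ((d : ℝ) + 1) / d ^ 2 ≤ _ := h6
      _ ≤ _ := h5
      _ = _ := by ring
  · have hg1 : g = 1 := by omega
    obtain ⟨j, hj, hj1, -⟩ := h1 hg1
    rw [hg1, Nat.cast_one, one_pow, one_mul]
    have hjR : 2 * |(j : ℝ)| ≤ d := by exact_mod_cast hj
    have hj4 : (j : ℝ) ^ 2 ≤ d ^ 2 / 4 := by
      rw [← sq_abs]
      have := abs_nonneg (j : ℝ)
      nlinarith
    have hYlow : 4 * (d * X - d + 1) / d ^ 2 ≤ Y := by
      rw [div_le_iff₀ (by positivity)]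
      have := mul_le_mul_of_nonneg_right hj4 hY.le
      nlinarith
    rcases le_or_gt X 1 with hX1 | hX1
    · refine le_trans ?_ hYv
      have hv2 : 2 ≤ v := by rw [hv, le_div_iff₀ hX]; linarith
      have h2 : (2 : ℝ) ^ (d - 1) ≤ v ^ (d - 1) := pow_le_pow_left₀ (by norm_num) hv2 _
      have h3 : (4 : ℝ) ≤ 2 ^ (d - 1) := by
        calc (4 : ℝ) = 2 ^ 2 := by norm_num
          _ ≤ 2 ^ (d - 1) := pow_le_pow_right₀ (by norm_num) (by omega)
      have h4 : (2 / (d : ℝ)) * 4 ≤ (2 / d) * v ^ (d - 1) := mul_le_mul_of_nonneg_left (h3.trans h2) (by positivity)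
      refine le_trans ?_ h4
      rw [div_le_iff₀ (by positivity)]
      have : 2 / (d : ℝ) * 4 * d ^ 2 = 8 * d := by field_simp; norm_num
      rw [this]
      linarith
    · have hber : 1 + (d : ℝ) * (v - 1) ≤ v ^ d := by
        have := one_add_mul_le_pow (show (-2 : ℝ) ≤ v - 1 by linarith) d
        simpa using this
      have hXvs : X + v ≤ 3 := by
        have h2 : (X - 1) * (X - 2) ≤ 0 := mul_nonpos_of_nonneg_of_nonpos (by linarith) (by linarith)
        have h3 : X * (X + v) ≤ X * 3 := by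
          have : X * (X + v) = X ^ 2 + 2 := by rw [mul_add, hXv]; ring
          rw [this]
          nlinarith
        exact le_of_mul_le_mul_left h3 hX
      have hpos : 0 < d * X - d + 1 := by nlinarith
      have h2 : (d : ℝ) + 1 ≤ (d * X - d + 1) * (1 + (d : ℝ) * (v - 1)) := by
        have e : (d * X - d + 1) * (1 + (d : ℝ) * (v - 1)) = 2 * (d : ℝ) ^ 2 + (d - 1) ^ 2 - d * (d - 1) * (X + v) := by
          calc (d * X - d + 1) * (1 + (d : ℝ) * (v - 1))
              = d * X + d ^ 2 * (X * v) - d ^ 2 * X - (d - 1) - d * (d - 1) * v + d * (d - 1) := by ring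
            _ = _ := by rw [hXv]; ring
        rw [e]
        have h3 : (d : ℝ) * (d - 1) * (X + v) ≤ d * (d - 1) * 3 :=
          mul_le_mul_of_nonneg_left hXvs (mul_nonneg hd0.le (by linarith))
        nlinarith
      have h3 : (d : ℝ) + 1 ≤ (d * X - d + 1) * v ^ d :=
        h2.trans (mul_le_mul_of_nonneg_left hber hpos.le)
      calc 4 * ((d : ℝ) + 1) / d ^ 2 ≤ 4 * ((d * X - d + 1) * v ^ d) / d ^ 2 := by
            rw [div_le_div_iff_of_pos_right (by positivity)]
            linarith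
        _ = 4 * (d * X - d + 1) / d ^ 2 * v ^ d := by ring
        _ ≤ Y * v ^ d := mul_le_mul_of_nonneg_right hYlow (by positivity)

/-- **lower bound for the ratio of permutation symmetric lattices** -/
theorem ratio_perm {d : ℕ} (hd : 6 ≤ d) {b : Fin d → E d} (hb : LinearIndependent ℝ b) {u : Fin d → E d}
    (hu : Orthonormal ℝ u) (h : EInv (lat b) u) : 4 * ((d : ℝ) + 1) / (d ^ 2 * 2 ^ d) ≤ ratio b ^ 2 := by
  have hT := h.tinv hu hd
  obtain ⟨n, rfl⟩ : ∃ n, d = n + 3 := ⟨d - 3, by omega⟩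
  obtain ⟨X, Y, g, hX, hX2, hg, -, h0, h1, h2⟩ := perm_struct hb hu hT
  have h3 := gen_num (n + 3) (by omega) X Y hX hX2 g hg h0 h1
  have h4 := h3.trans h2
  rw [div_le_iff₀ (by positivity)] at h4 ⊢
  linarith

/-- dimensions 9 to 14 -/
theorem no_small {d : ℕ} (hd : 9 ≤ d) (hd' : d ≤ 14) {b : Fin d → E d} (hb : IsCritical b) {u : Fin d → E d}
    (hu : Orthonormal ℝ u) (hT : TInv (lat b) u) : False := by
  obtain ⟨Q, hQ, hQd⟩ : ∃ Q : Matrix (Fin d) (Fin d) ℝ, Adm Q ∧ Q.det ≤ Tn d / 2 ^ d := by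
    rcases Nat.lt_or_ge d 11 with h | h
    · rcases Nat.lt_or_ge d 10 with h' | h'
      · obtain rfl : d = 9 := by omega
        obtain ⟨Q, hQ, hQd⟩ := exists_lam9
        refine ⟨Q, hQ, hQd.trans ?_⟩
        unfold Tn
        norm_num
      · obtain rfl : d = 10 := by omega
        obtain ⟨Q, hQ, hQd⟩ := exists_lam10
        refine ⟨Q, hQ, hQd.trans ?_⟩
        unfold Tn
        norm_num
    · obtain ⟨Q, hQ, hQd⟩ := exists_consA d 4 (by omega)
      refine ⟨Q, hQ, hQd.trans ?_⟩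
      unfold Tn
      rw [if_neg (by omega), if_neg (by omega)]
      have : (4 : ℝ) ^ d = 2 ^ d * 2 ^ d := by rw [← mul_pow]; norm_num
      rw [this, div_div]
      norm_num
  obtain ⟨n, rfl⟩ : ∃ n, d = n + 3 := ⟨d - 3, by omega⟩
  obtain ⟨X, Y, g, hX, hX2, hg, hgd, h0, h1, h2⟩ := perm_struct hb.1 hu hT
  have h3 := perm_num (n + 3) hd hd' X Y hX hX2 g hg hgd h0 h1
  have h4 := nf_crit (by omega) hb Q hQ
  rw [nf_det] at h4
  have h5 := h4.trans hQd
  rw [le_div_iff₀ (by positivity)] at h5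
  linarith

/-- **no critical lattice in dimension at least 9 is permutation symmetric** -/
theorem no_perm {d : ℕ} (hd : 9 ≤ d) {b : Fin d → E d} (hb : IsCritical b) {u : Fin d → E d}
    (hu : Orthonormal ℝ u) (h : EInv (lat b) u) : False := by
  have hT := h.tinv hu (by omega)
  rcases Nat.lt_or_ge d 15 with hd' | hd'
  · exact no_small hd (by omega) hb hu hT
  · let ι : Fin 15 → Fin d := Fin.castLE hd'
    have hι : Function.Injective ι := Fin.castLE_injective _
    exact no_15 hb (u := fun i => u (ι i)) (hu.comp ι hι) fun i j hij x hx => hT _ _ (fun h => hij (hι h)) x hx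

/-- **no critical lattice is symmetric under the even permutations of 15 orthonormal vectors** -/
theorem no_even_15 {d : ℕ} {b : Fin d → E d} (hb : IsCritical b) {u : Fin 15 → E d}
    (hu : Orthonormal ℝ u) (h : EInv (lat b) u) : False := no_15 hb hu (h.tinv hu (by norm_num))

end CritL
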