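import Pool.Agent.Lib.CritL.Final
import Pool.Agent.Lib.CritL.PermFinal

/-!
# Combined statements
-/

set_option autoImplicit false

namespace CritL

open Matrix

/-- data of a short dual vector, in the form of `exists_dual` -/
theorem exists_dual' {d : ℕ} (hd : 0 < d) {b : Fin d → E d} (hb : LinearIndependent ℝ b) {w : E d}
    (hw : InDual w b) (h2 : minL b * ‖w‖ ≤ 2) : ∃ (W : Fin d → ℤ) (t : ℝ) (ν : Fin d → ℝ), t ≠ 0 ∧ rp b ν = w ∧
      ic W = t • (nf b *ᵥ ν) ∧ qf (nf b)⁻¹ (ic W) ≤ 4 := by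
  have hl := minL_pos hd hb
  obtain ⟨ν, hν⟩ : ∃ ν, rp b ν = w := by
    have hspan : Submodule.span ℝ (Set.range b) = ⊤ := hb.span_eq_top_of_card_eq_finrank' (by simp)
    have hmem : w ∈ Submodule.span ℝ (Set.range b) := by rw [hspan]; exact Submodule.mem_top
    obtain ⟨ν, hν⟩ := (Submodule.mem_span_range_iff_exists_fun ℝ).1 hmem
    exact ⟨ν, hν⟩
  choose W hW using fun j => hw (b j) (Submodule.subset_span (Set.mem_range_self j))
  have h1 : ic W = (minL b ^ 2) • (nf b *ᵥ ν) := by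
    funext j
    have h3 : (minL b ^ 2) • (nf b *ᵥ ν) = gm b *ᵥ ν := by
      unfold nf
      rw [smul_mulVec, smul_smul, mul_inv_cancel₀ (by positivity), one_smul]
    rw [h3]
    show ((W j : ℤ) : ℝ) = _
    rw [← hW, ← hν]
    have h4 : rp b (Pi.single j 1) = b j := by
      unfold rp
      rw [Finset.sum_eq_single j]
      · simp
      · intro k _ hk; simp [hk]
      · intro h; exact absurd (Finset.mem_univ _) h
    rw [← h4, inner_rp, dot_symm (gm_pd hb), dotProduct_single, mul_one]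
  refine ⟨W, minL b ^ 2, ν, by positivity, hν, h1, ?_⟩
  have hP := (nf_adm hd hb).pd
  have hPu : IsUnit (nf b).det := isUnit_iff_ne_zero.2 hP.det_pos.ne'
  rw [h1, qf_smul]
  have h5 : qf (nf b)⁻¹ (nf b *ᵥ ν) = qf (nf b) ν := by
    unfold qf
    rw [mulVec_mulVec, nonsing_inv_mul _ hPu, one_mulVec, dotProduct_comm]
  have h6 : qf (nf b) ν = (minL b ^ 2)⁻¹ * ‖w‖ ^ 2 := by
    unfold nf
    rw [qf_smul_mat, ← norm_rp, hν]
  rw [h5, h6]
  have h7 : (minL b ^ 2) ^ 2 * ((minL b ^ 2)⁻¹ * ‖w‖ ^ 2) = (minL b * ‖w‖) ^ 2 := by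
    field_simp
  rw [h7]
  have := pow_le_pow_left₀ (by positivity) h2 2
  linarith

/-- **at most 23 independent vectors** of reflections or short dual vectors -/
theorem vectors_le {d : ℕ} (hd : 0 < d) {b : Fin d → E d} (hb : IsCritical b) {n : ℕ} {v : Fin n → E d}
    (hv : LinearIndependent ℝ v) (h : ∀ i, Preserves (v i) b ∨ (InDual (v i) b ∧ minL b * ‖v i‖ ≤ 2)) : n ≤ 23 := by
  have hex : ∀ i, ∃ (W : Fin d → ℤ) (t : ℝ) (ν : Fin d → ℝ), t ≠ 0 ∧ rp b ν = v i ∧
      ic W = t • (nf b *ᵥ ν) ∧ qf (nf b)⁻¹ (ic W) ≤ 4 := by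
    intro i
    rcases h i with h1 | h1
    · exact exists_dual hd hb.1 (hv.ne_zero i) h1
    · exact exists_dual' hd hb.1 h1.1 h1.2
  choose W t ν ht hν hW h4 using hex
  refine lt_24 (nf_adm hd hb.1) (nf_crit hd hb) W ?_ h4
  rw [Fintype.linearIndependent_iff]
  intro a ha
  have hP := (nf_adm hd hb.1).pd
  have h1 : nf b *ᵥ (∑ i, ((a i : ℝ) * t i) • ν i) = 0 := by
    rw [mulVec_sum]
    have h2 : ∀ i, nf b *ᵥ (((a i : ℝ) * t i) • ν i) = (a i : ℝ) • ic (W i) := by
      intro i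
      rw [mulVec_smul, hW, smul_smul]
    simp only [h2]
    funext k
    have := congrFun ha k
    simp only [Finset.sum_apply, Pi.smul_apply, smul_eq_mul, Pi.zero_apply] at this
    simp only [Finset.sum_apply, Pi.smul_apply, smul_eq_mul, Pi.zero_apply]
    have h3 := congrArg (Int.cast : ℤ → ℝ) this
    push_cast at h3
    exact h3
  have h2 : ∑ i, ((a i : ℝ) * t i) • ν i = 0 := by
    have := mulVec_inj hP.det_pos.ne' (h1.trans (mulVec_zero (nf b)).symm)
    exact this
  have h3 : ∑ i, ((a i : ℝ) * t i) • v i = 0 := by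
    have h5 : rp b (∑ i, ((a i : ℝ) * t i) • ν i) = ∑ i, ((a i : ℝ) * t i) • v i := by
      simp only [← hν]
      unfold rp
      simp only [Finset.sum_apply, Pi.smul_apply, smul_eq_mul, Finset.sum_smul, Finset.smul_sum, mul_smul]
      rw [Finset.sum_comm]
    rw [← h5, h2]
    simp [rp]
  intro i
  have h6 := Fintype.linearIndependent_iff.1 hv _ h3 i
  have h7 : (a i : ℝ) = 0 := (mul_eq_zero.1 h6).resolve_right (ht i)
  exact_mod_cast h7

/-- **permutation symmetry**: `k < min (d, 15)` -/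
theorem sym_lt {d k : ℕ} (hd : 9 ≤ d) {b : Fin d → E d} (hb : IsCritical b) {u : Fin k → E d}
    (hu : Orthonormal ℝ u) (h : EInv (lat b) u) : k < d ∧ k < 15 := by
  have hkd : k ≤ d := by
    have := hu.linearIndependent.fintype_card_le_finrank
    simpa using this
  have h15 : k < 15 := by
    by_contra hcon
    push Not at hcon
    have hT := h.tinv hu (by omega)
    let ι : Fin 15 → Fin k := Fin.castLE hcon
    have hι : Function.Injective ι := Fin.castLE_injective _
    exact no_15 hb (u := fun i => u (ι i)) (hu.comp ι hι) fun i j hij x hx => hT _ _ (fun h => hij (hι h)) x hx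
  refine ⟨lt_of_le_of_ne hkd ?_, h15⟩
  rintro rfl
  exact no_perm hd hb hu h

end CritL
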