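import Pool.Agent.Lib.CritL.Final3

/-!
# Density of the dimensions without small endomorphisms of small rank
-/

set_option autoImplicit false

namespace CritL

open Matrix

/-- the property of the good dimensions -/
def Good' (T θ η : ℝ) (d : ℕ) : Prop := ∀ k m : ℕ, 1 ≤ k → 1 ≤ m → k + m = d → (k : ℝ) ≤ T * (d : ℝ) ^ θ →
  (k : ℝ) * (2 * Real.log (T * (d : ℝ) ^ η)) + Real.log (Dn d) < Real.log (Dn k) + Real.log (Dn m)

open scoped Classical in
theorem many_good' (T θ η ε : ℝ) (hT : 1 ≤ T) (hθ : 0 ≤ θ) (hη : 0 ≤ η) (h2 : 2 * η + θ < 2) (hε : 0 < ε) :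
    ∃ N₀ : ℕ, ∀ N ≥ N₀, (1 - 1 / (2 - 2 * η - θ) - ε) * N ≤
      (((Finset.Icc 1 N).filter (fun d => Good' T θ η d)).card : ℝ) := by
  obtain ⟨N₀, h⟩ := jump Dn {d | ¬ Good' T θ η d} low up (fun n hn => mordell n (by omega)) T θ η hT hθ hη h2 (by
    intro d hd _
    simp only [Set.mem_setOf_eq, Good'] at hd
    push Not at hd
    obtain ⟨k, m, hk, hm, hkm, hkT, hle⟩ := hd
    exact ⟨k, m, hk, hm, hkm, hkT, hle⟩) ε hε
  refine ⟨N₀, fun N hN => ?_⟩
  have h1 := h N hN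
  have h3 := Finset.card_filter_add_card_filter_not (s := Finset.Icc 1 N) (fun d => Good' T θ η d)
  rw [Nat.card_Icc] at h3
  have h4 : (((Finset.Icc 1 N).filter (fun d => Good' T θ η d)).card : ℝ) +
      (((Finset.Icc 1 N).filter (fun d => ¬ Good' T θ η d)).card : ℝ) = N := by
    have : ((Finset.Icc 1 N).filter (fun d => Good' T θ η d)).card +
      ((Finset.Icc 1 N).filter (fun d => ¬ Good' T θ η d)).card = N := by omega
    exact_mod_cast this
  simp only [Set.mem_setOf_eq] at h1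
  have h5 : (1 - 1 / (2 - 2 * η - θ) - ε) * (N : ℝ) = N - (1 / (2 - 2 * η - θ) + ε) * N := by ring
  rw [h5]
  linarith

/-- comparison in good dimensions -/
theorem Good'.key {T θ η : ℝ} {d : ℕ} (h : Good' T θ η d) {k m : ℕ} (hk : 1 ≤ k) (hm : 1 ≤ m) (hT : 0 < T)
    (hkm : k + m = d) (hkT : (k : ℝ) ≤ T * (d : ℝ) ^ θ) {x : ℝ} (hx : 0 ≤ x) (hD : Dn k * Dn m ≤ x ^ 2 * Dn d) :
    (T * (d : ℝ) ^ η) ^ k < x := by
  have hd0 : (0 : ℝ) < d := by
    have : 0 < d := by omega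
    exact_mod_cast this
  by_contra hcon
  push Not at hcon
  have hx0 : 0 < x := by
    refine lt_of_le_of_ne hx fun h0 => ?_
    rw [← h0] at hD
    have := mul_pos (Dn_pos k) (Dn_pos m)
    norm_num at hD
    linarith
  have h1 := Real.log_le_log (mul_pos (Dn_pos k) (Dn_pos m)) hD
  rw [Real.log_mul (Dn_pos k).ne' (Dn_pos m).ne', Real.log_mul (by positivity) (Dn_pos d).ne', Real.log_pow] at h1
  push_cast at h1
  have h2 := h k m hk hm hkm hkT
  have h3 := Real.log_le_log hx0 hcon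
  rw [Real.log_pow] at h3
  linarith

/-- lattices in dimension `d` with small endomorphisms of small rank are far from critical -/
def SparseDim (T θ η : ℝ) (d : ℕ) : Prop :=
  (∀ k, 0 < k → k < d → (k : ℝ) ≤ T * (d : ℝ) ^ θ → (T * (d : ℝ) ^ η) ^ k * delta d < delta k * delta (d - k)) ∧
  ∀ b : Fin d → E d, LinearIndependent ℝ b →
    (2 ≤ d → ∀ w : E d, w ≠ 0 → InDual w b → T * (d : ℝ) ^ η < exc b * (minL b * ‖w‖)) ∧
    (∀ F : E d →ₗ[ℝ] E d, (∀ x ∈ lat b, F x ∈ lat b) →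
      ∀ k, 0 < k → k < d → (k : ℝ) ≤ T * (d : ℝ) ^ θ → Module.finrank ℝ (LinearMap.range F) = k →
        ∀ u : Fin k → E d, Orthonormal ℝ u → (∀ i, ∀ x, F x = 0 → inner ℝ (u i) x = (0 : ℝ)) →
          (T * (d : ℝ) ^ η) ^ k / exc b < vol fun i => F (u i)) ∧
    ∀ σ : E d ≃ₗᵢ[ℝ] E d, (∀ x ∈ lat b, σ x ∈ lat b) → (∃ x, σ x ≠ x) → 0 < fixedDim σ →
      (d : ℝ) - fixedDim σ ≤ T * (d : ℝ) ^ θ → (T * (d : ℝ) ^ η) ^ (d - fixedDim σ) < exc b

open scoped Classical in
/-- **density of the dimensions without small endomorphisms of small rank** -/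
theorem part_sparse (T θ η ε : ℝ) (hT : 1 ≤ T) (hθ : 0 ≤ θ) (hη : 0 ≤ η) (h2 : 2 * η + θ < 2) (hε : 0 < ε) :
    ∃ N₀ : ℕ, ∀ N ≥ N₀, (1 - 1 / (2 - 2 * η - θ) - ε) * N ≤
      (((Finset.Icc 1 N).filter (fun d => SparseDim T θ η d)).card : ℝ) := by
  have hTT : T ≤ 2 * T := by linarith
  obtain ⟨N₀, h⟩ := many_good' (2 * T) θ η ε (by linarith) hθ hη h2 hε
  refine ⟨N₀, fun N hN => (h N hN).trans ?_⟩
  have hsub : (Finset.Icc 1 N).filter (fun d => Good' (2 * T) θ η d) ⊆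
      (Finset.Icc 1 N).filter (fun d => SparseDim T θ η d) := by
    intro d hd
    rw [Finset.mem_filter, Finset.mem_Icc] at hd ⊢
    obtain ⟨⟨hd1, hdN⟩, hg⟩ := hd
    have hd0 : 0 < d := hd1
    have hdR : (1 : ℝ) ≤ d := by exact_mod_cast hd1
    have hθ0 : 0 < (d : ℝ) ^ θ := Real.rpow_pos_of_pos (by linarith) _
    have hη1 : 1 ≤ (d : ℝ) ^ η := Real.one_le_rpow hdR hη
    have hT0 : 0 < 2 * T := by linarith
    have hmono : ∀ k : ℕ, (k : ℝ) ≤ T * (d : ℝ) ^ θ → (k : ℝ) ≤ 2 * T * (d : ℝ) ^ θ ∧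
        (T * (d : ℝ) ^ η) ^ k ≤ (2 * T * (d : ℝ) ^ η) ^ k := by
      intro k hkT
      exact ⟨hkT.trans (mul_le_mul_of_nonneg_right hTT hθ0.le),
        pow_le_pow_left₀ (by positivity) (mul_le_mul_of_nonneg_right hTT (by positivity)) _⟩
    refine ⟨⟨hd1, hdN⟩, fun k hk hkd hkT => ?_, fun b hb => ?_⟩
    · have hdk : 0 < d - k := by omega
      obtain ⟨h3, h4⟩ := hmono k hkT
      have h1 := hg.key (k := k) (m := d - k) hk hdk hT0 (by omega) h3 (x := delta k * delta (d - k) / delta d)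
        (div_nonneg (mul_nonneg (delta_pos hk).le (delta_pos hdk).le) (delta_pos hd0).le) (by
          rw [div_pow, mul_pow, delta_sq hk, delta_sq hdk, delta_sq hd0, div_mul_cancel₀ _ (Dn_pos d).ne'])
      have h5 := h4.trans_lt h1
      rwa [lt_div_iff₀ (delta_pos hd0)] at h5
    have he1 := one_le_exc hd0 hb
    have he0 : 0 < exc b := by linarith
    refine ⟨fun hd2 w hw0 hw => ?_, fun F hF k hk hkd hkT hrank u hu hker => ?_, fun σ hσ hne hpos hkT => ?_⟩
    · have hθ1 : 1 ≤ (d : ℝ) ^ θ := Real.one_le_rpow hdR hθ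
      have h1 := hg.key (k := 1) (m := d - 1) le_rfl (by omega) hT0 (by omega) (by
        rw [Nat.cast_one]
        nlinarith) (mul_nonneg he0.le (mul_nonneg (minL_pos hd0 hb).le (norm_nonneg w)))
        (exc_conv hd0 b (dualE hd2 hb hw0 hw))
      rw [pow_one] at h1
      exact lt_of_le_of_lt (mul_le_mul_of_nonneg_right hTT (by positivity)) h1
    · obtain ⟨m, hm, hle⟩ := volE hd0 hb F hF hrank hu hker
      obtain ⟨h3, h4⟩ := hmono k hkT
      rw [div_lt_iff₀' he0]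
      exact h4.trans_lt (hg.key hk (by omega) hT0 hm h3 (mul_nonneg he0.le (Real.sqrt_nonneg _))
        (exc_conv hd0 b (vol_sq hle)))
    · have hfx := fixed_pos hne
      obtain ⟨k, hkm, hD⟩ := isoE hd0 hb σ hσ
      have hk : k = d - fixedDim σ := by omega
      have hkm' : (k : ℝ) + (fixedDim σ : ℝ) = d := by exact_mod_cast hkm
      rw [← hk]
      obtain ⟨h3, -⟩ := hmono k (by linarith)
      have h4 := hg.key (k := k) (m := fixedDim σ) (by omega) hpos hT0 hkm h3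
        (mul_nonneg he0.le (by positivity)) (exc_conv hd0 b hD)
      have h5 : (2 * T * (d : ℝ) ^ η) ^ k = (T * (d : ℝ) ^ η) ^ k * 2 ^ k := by
        rw [← mul_pow]
        congr 1
        ring
      rw [h5] at h4
      exact lt_of_mul_lt_mul_right h4 (by positivity)
  exact_mod_cast Finset.card_le_card hsub

end CritL
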