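import Pool.Agent.Lib.CritL.Dens

/-!
# The density argument with jumps

Compare `dens2` in Lib/CritL/Dens2.lean (jumps of length 1), whose proof can be adapted.

Sketch. Put `r x = - log (D x)`; `0 ≤ r x` may be negative for small `x`, only the bounds below are used. Fix a large `N` and let
`M = 2 log (N + 3) + 8 log 5`, `S = (θ + 2 η) log N + C` with a constant `C = C(T, θ, η)` below, `S ≤ M` for large `N` because
`θ + 2 η < 2`.

(1) For `3 ≤ d ≤ N`: `r d ≤ r (d - 1) + M` (`DensAux.term_any` with `n = d - 1`).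
(2) For `d ∈ B`, `2 ≤ d ≤ N`: with the `k, m` of `hB`, `r d ≤ r m + r k + k * 2 log (T d^η)`, and
`r k ≤ log (k + 3)! ≤ (k + 3) log (k + 3) ≤ k log k + 20 k ≤ k (log (T N^θ) + 20)`, `2 log (T d^η) ≤ 2 log T + 2 η log N`; so
`r d ≤ r m + k S` with `C = 3 log T + 20`.
(3) Let `g d` = number of `x ∈ [1, d]`, `x ∉ B`. Claim: `r d ≤ log 120 + (d - g d) S + (g d) M` for `1 ≤ d ≤ N`, by strong
induction. `d = 1, 2`: `r d ≤ log (d + 3)! ≤ log 120`. `d ≥ 3`, `d ∉ B`: (1). `d ∈ B`, `d ≥ 2`: by (2) and induction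
`r d ≤ log 120 + (m - g m) S + (g m) M + k S`, which is at most the claim since `d = k + m`, `g d ≥ g m` and `S ≤ M`.
(4) `d = N` and `r N ≥ N log N - N log 25` (from `hup`): with `b = N - g N` = number of elements of `B` up to `N`,
`N log N - N log 25 ≤ log 120 + b S + (N - b) M`, so `b (M - S) ≤ N (M - log N) + O(N)`,
`b (2 - θ - 2 η) log N ≤ N log N + O(N)`.
-/

set_option autoImplicit false

namespace CritL

namespace JumpAux

open DensAux

/-- bound for `(k + 3) log (k + 3)` -/
theorem fact_bound (k : ℕ) (hk : 1 ≤ k) :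
    ((k : ℝ) + 3) * Real.log ((k : ℝ) + 3) ≤ (k : ℝ) * (Real.log k + 20) := by
  have hk1 : (1 : ℝ) ≤ k := by exact_mod_cast hk
  have hk0 : (0 : ℝ) < k := by linarith
  have h4 : Real.log 4 ≤ 3 := by
    have := Real.log_le_sub_one_of_pos (show (0 : ℝ) < 4 by norm_num)
    linarith
  have h4' : 0 ≤ Real.log 4 := Real.log_nonneg (by norm_num)
  have h1 : Real.log ((k : ℝ) + 3) ≤ Real.log k + Real.log 4 := by
    rw [← Real.log_mul hk0.ne' (by norm_num)]
    exact Real.log_le_log (by positivity) (by linarith)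
  have h2 : Real.log k ≤ k := by
    have := Real.log_le_sub_one_of_pos hk0
    linarith
  have h3 : ((k : ℝ) + 3) * Real.log ((k : ℝ) + 3) ≤ ((k : ℝ) + 3) * (Real.log k + Real.log 4) :=
    mul_le_mul_of_nonneg_left h1 (by linarith)
  have h5 : ((k : ℝ) + 3) * Real.log 4 ≤ (4 * (k : ℝ)) * 3 :=
    mul_le_mul (by linarith) h4 h4' (by linarith)
  have h6 : ((k : ℝ) + 3) * (Real.log k + Real.log 4) =
      (k : ℝ) * Real.log k + 3 * Real.log k + ((k : ℝ) + 3) * Real.log 4 := by ring
  have h7 : (k : ℝ) * (Real.log k + 20) = (k : ℝ) * Real.log k + 20 * k := by ring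
  rw [h7]
  linarith

/-- the strong induction -/
theorem induct (D : ℕ → ℝ) (w : ℕ → ℝ) (N : ℕ) (S : ℝ) (B : Set ℕ)
    (hr1 : -Real.log (D 1) ≤ Real.log 120) (hr2 : -Real.log (D 2) ≤ Real.log 120)
    (hS : 0 ≤ S) (hw : ∀ x, S ≤ w x)
    (hnB : ∀ d, 3 ≤ d → d ≤ N → d ∉ B → -Real.log (D d) ≤ -Real.log (D (d - 1)) + w d)
    (hB : ∀ d ∈ B, 2 ≤ d → d ≤ N → ∃ k m : ℕ, 1 ≤ k ∧ 1 ≤ m ∧ k + m = d ∧
      -Real.log (D d) ≤ -Real.log (D m) + (k : ℝ) * S) :
    ∀ d, 1 ≤ d → d ≤ N → -Real.log (D d) ≤ Real.log 120 + ∑ x ∈ Finset.Ioc 0 d, w x := by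
  intro d
  induction d using Nat.strong_induction_on with
  | _ d ih =>
    intro h1 hN
    have hnn : 0 ≤ ∑ x ∈ Finset.Ioc 0 d, w x := Finset.sum_nonneg fun x _ => hS.trans (hw x)
    rcases Nat.lt_or_ge d 3 with h3 | h3
    · have h4 : d = 1 ∨ d = 2 := by omega
      rcases h4 with rfl | rfl
      · linarith
      · linarith
    · by_cases hdB : d ∈ B
      · obtain ⟨k, m, hk, hm, hkm, hle⟩ := hB d hdB (by omega) hN
        have h5 := ih m (by omega) hm (by omega)
        have h6 := Finset.sum_Ioc_consecutive w (Nat.zero_le m) (show m ≤ d by omega)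
        have h7 : ((d - m : ℕ) : ℝ) * S ≤ ∑ x ∈ Finset.Ioc m d, w x := by
          have h8 := Finset.card_nsmul_le_sum (Finset.Ioc m d) w S (fun x _ => hw x)
          rwa [Nat.card_Ioc, nsmul_eq_mul] at h8
        have h9 : d - m = k := by omega
        rw [h9] at h7
        linarith
      · have h5 := ih (d - 1) (by omega) (by omega) (by omega)
        have h6 := Finset.sum_Ioc_consecutive w (Nat.zero_le (d - 1)) (show d - 1 ≤ d by omega)
        have h7 : Finset.Ioc (d - 1) d = {d} := by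
          ext x
          rw [Finset.mem_Ioc, Finset.mem_singleton]
          omega
        rw [h7, Finset.sum_singleton] at h6
        have h8 := hnB d h3 hN hdB
        linarith

end JumpAux

open scoped Classical in
/-- **the density argument with jumps** -/
theorem jump (D : ℕ → ℝ) (B : Set ℕ) (hlow : ∀ n, 1 ≤ n → 1 / ((n + 3).factorial : ℝ) ≤ D n)
    (hup : ∀ n, 1 ≤ n → D n ≤ (25 / (n : ℝ)) ^ n)
    (hM : ∀ n, 2 ≤ n → D n ^ (n + 1) ≤ D (n + 1) ^ (n - 1)) (T θ η : ℝ) (hT : 1 ≤ T) (hθ : 0 ≤ θ) (hη : 0 ≤ η)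
    (h2 : 2 * η + θ < 2)
    (hB : ∀ d ∈ B, 2 ≤ d → ∃ k m : ℕ, 1 ≤ k ∧ 1 ≤ m ∧ k + m = d ∧ (k : ℝ) ≤ T * (d : ℝ) ^ θ ∧
      Real.log (D k) + Real.log (D m) ≤ (k : ℝ) * (2 * Real.log (T * (d : ℝ) ^ η)) + Real.log (D d))
    (ε : ℝ) (hε : 0 < ε) :
    ∃ N₀ : ℕ, ∀ N ≥ N₀, (((Finset.Icc 1 N).filter (· ∈ B)).card : ℝ) ≤ (1 / (2 - 2 * η - θ) + ε) * N := by
  have hl2 : 0 < Real.log 2 := Real.log_pos (by norm_num)
  have hlT : 0 ≤ Real.log T := Real.log_nonneg hT
  have hl5 : 0 < Real.log 5 := Real.log_pos (by norm_num)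
  have hl25 : 0 < Real.log 25 := Real.log_pos (by norm_num)
  have hl120 : 0 < Real.log 120 := Real.log_pos (by norm_num)
  have hT0 : 0 < T := by linarith
  set α : ℝ := 2 - 2 * η - θ with hα
  have hα0 : 0 < α := by linarith
  set C₁ : ℝ := 3 * Real.log T + 20 with hC₁
  have hC₁0 : 0 < C₁ := by positivity
  set C : ℝ := C₁ + (2 * Real.log 2 + 8 * Real.log 5) + Real.log 120 + Real.log 25 with hC
  have hC0 : 0 < C := by positivity
  refine ⟨max 3 (max (⌈Real.exp (C / (ε * α))⌉₊ + 1) (⌈Real.exp (C₁ / α)⌉₊ + 1)), fun N hN => ?_⟩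
  have hN3 : 3 ≤ N := le_trans (le_max_left _ _) hN
  have hNe : ⌈Real.exp (C / (ε * α))⌉₊ + 1 ≤ N :=
    le_trans (le_trans (le_max_left _ _) (le_max_right _ _)) hN
  have hNe' : ⌈Real.exp (C₁ / α)⌉₊ + 1 ≤ N :=
    le_trans (le_trans (le_max_right _ _) (le_max_right _ _)) hN
  have hN3' : (3 : ℝ) ≤ N := by exact_mod_cast hN3
  have hNpos : (0 : ℝ) < N := by linarith
  have hlog : ∀ x : ℝ, ⌈Real.exp x⌉₊ + 1 ≤ N → x < Real.log N := by
    intro x hx
    have h1 : Real.exp x ≤ (⌈Real.exp x⌉₊ : ℝ) := Nat.le_ceil _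
    have h3 : (⌈Real.exp x⌉₊ : ℝ) + 1 ≤ N := by exact_mod_cast hx
    rw [Real.lt_log_iff_exp_lt hNpos]
    linarith
  have hCN : C < ε * α * Real.log N := by
    have h1 := hlog _ hNe
    rw [div_lt_iff₀ (by positivity)] at h1
    linarith
  have hCN' : C₁ < α * Real.log N := by
    have h1 := hlog _ hNe'
    rw [div_lt_iff₀ (by positivity)] at h1
    linarith
  have hlogNpos : 0 < Real.log N := Real.log_pos (by linarith)
  set M : ℝ := 2 * Real.log ((N : ℝ) + 3) + 8 * Real.log 5 with hMdef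
  set S : ℝ := (θ + 2 * η) * Real.log N + C₁ with hS
  have hS0 : 0 ≤ S := by positivity
  have hlog3 : Real.log N ≤ Real.log ((N : ℝ) + 3) := Real.log_le_log hNpos (by linarith)
  have hSM2 : S ≤ 2 * Real.log N := by
    have h1 : α * Real.log N = 2 * Real.log N - (θ + 2 * η) * Real.log N := by rw [hα]; ring
    rw [hS]
    linarith
  have hSM : S ≤ M := by
    rw [hMdef]
    linarith
  have hDpos : ∀ n, 1 ≤ n → 0 < D n := fun n hn => lt_of_lt_of_le (by positivity) (hlow n hn)
  have hr : ∀ n, 1 ≤ n → -Real.log (D n) ≤ Real.log (((n + 3).factorial : ℕ) : ℝ) := by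
    intro n hn
    have h1 := Real.log_le_log (by positivity) (hlow n hn)
    rw [one_div, Real.log_inv] at h1
    linarith
  have hr1 : -Real.log (D 1) ≤ Real.log 120 := by
    refine (hr 1 le_rfl).trans (Real.log_le_log (by positivity) ?_)
    norm_num [Nat.factorial]
  have hr2 : -Real.log (D 2) ≤ Real.log 120 := by
    refine (hr 2 (by norm_num)).trans (Real.log_le_log (by positivity) ?_)
    norm_num [Nat.factorial]
  have hind := JumpAux.induct D (fun x => if x ∈ B then S else M) N S B hr1 hr2 hS0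
    (fun x => by
      by_cases hx : x ∈ B
      · simp only [if_pos hx]; exact le_rfl
      · simp only [if_neg hx]; exact hSM)
    (fun d h3 hdN hdB => by
      simp only [if_neg hdB]
      have h4 := DensAux.term_any D hlow hM (d - 1) N (by omega) (by omega)
      have h5 : d - 1 + 1 = d := by omega
      rw [h5] at h4
      linarith)
    (fun d hdB h2d hdN => by
      obtain ⟨k, m, hk, hm, hkm, hkT, hle⟩ := hB d hdB h2d
      refine ⟨k, m, hk, hm, hkm, ?_⟩
      have hd1 : (1 : ℝ) ≤ d := by exact_mod_cast (show 1 ≤ d by omega)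
      have hd0 : (0 : ℝ) < d := by linarith
      have hk1 : (1 : ℝ) ≤ k := by exact_mod_cast hk
      have hk0 : (0 : ℝ) < k := by linarith
      have hdN' : Real.log d ≤ Real.log N := Real.log_le_log hd0 (by exact_mod_cast hdN)
      have hlk : Real.log k ≤ Real.log T + θ * Real.log N := by
        have h3 := Real.log_le_log hk0 hkT
        rw [Real.log_mul hT0.ne' (Real.rpow_pos_of_pos hd0 _).ne', Real.log_rpow hd0] at h3
        have h4 := mul_le_mul_of_nonneg_left hdN' hθ
        linarith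
      have hle2 : Real.log (T * (d : ℝ) ^ η) ≤ Real.log T + η * Real.log N := by
        rw [Real.log_mul hT0.ne' (Real.rpow_pos_of_pos hd0 _).ne', Real.log_rpow hd0]
        have h4 := mul_le_mul_of_nonneg_left hdN' hη
        linarith
      have hrk : -Real.log (D k) ≤ (k : ℝ) * (Real.log k + 20) :=
        ((hr k hk).trans (DensAux.log_fact k)).trans (JumpAux.fact_bound k hk)
      have h5 : (k : ℝ) * (Real.log k + 20) ≤ (k : ℝ) * (Real.log T + θ * Real.log N + 20) :=
        mul_le_mul_of_nonneg_left (by linarith) hk0.le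
      have h6 : (k : ℝ) * (2 * Real.log (T * (d : ℝ) ^ η)) ≤
          (k : ℝ) * (2 * (Real.log T + η * Real.log N)) :=
        mul_le_mul_of_nonneg_left (by linarith) hk0.le
      have h7 : (k : ℝ) * S = (k : ℝ) * (Real.log T + θ * Real.log N + 20) +
          (k : ℝ) * (2 * (Real.log T + η * Real.log N)) := by
        rw [hS, hC₁]
        ring
      linarith)
    N (by omega) le_rfl
  set c : ℕ := ((Finset.Icc 1 N).filter (· ∈ B)).card with hc
  have hIoc : Finset.Ioc 0 N = Finset.Icc 1 N := by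
    ext x
    rw [Finset.mem_Ioc, Finset.mem_Icc]
    omega
  have hsum : ∑ x ∈ Finset.Ioc 0 N, (if x ∈ B then S else M) = c * S + (N - c) * M := by
    have h1 := Finset.card_filter_add_card_filter_not (s := Finset.Icc 1 N) (fun n => n ∈ B)
    have h3 : (Finset.Icc 1 N).card = N := by simp
    rw [h3] at h1
    have h4 : (c : ℝ) + (((Finset.Icc 1 N).filter (fun n => ¬ (n ∈ B))).card : ℝ) = N := by
      exact_mod_cast h1
    rw [hIoc, Finset.sum_ite, Finset.sum_const, Finset.sum_const, nsmul_eq_mul, nsmul_eq_mul, ← h4]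
    ring
  have hcN : (c : ℝ) ≤ N := by
    have h1 : c ≤ (Finset.Icc 1 N).card := Finset.card_filter_le _ _
    rw [Nat.card_Icc] at h1
    exact_mod_cast (show c ≤ N by omega)
  have hc0 : (0 : ℝ) ≤ (c : ℝ) := Nat.cast_nonneg _
  rw [hsum] at hind
  have hupN : Real.log (D N) ≤ N * Real.log 25 - N * Real.log N := by
    have h1 := Real.log_le_log (hDpos N (by omega)) (hup N (by omega))
    rw [Real.log_pow, Real.log_div (by norm_num) hNpos.ne'] at h1
    linarith
  have hlogle : Real.log ((N : ℝ) + 3) ≤ Real.log 2 + Real.log N := by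
    rw [← Real.log_mul (by norm_num) hNpos.ne']
    exact Real.log_le_log (by positivity) (by linarith)
  have hgM : (N - c) * M ≤ (N - c) * (2 * (Real.log 2 + Real.log N) + 8 * Real.log 5) := by
    apply mul_le_mul_of_nonneg_left _ (by linarith)
    rw [hMdef]
    linarith
  have h120 : Real.log 120 ≤ N * Real.log 120 := by nlinarith
  have hcC : c * C₁ ≤ N * C₁ := mul_le_mul_of_nonneg_right hcN hC₁0.le
  have hc25 : 0 ≤ c * (2 * Real.log 2 + 8 * Real.log 5) := by positivity
  have hmain : α * (c * Real.log N) ≤ N * Real.log N + C * N := by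
    have e1 : c * S = c * C₁ + (θ + 2 * η) * (c * Real.log N) := by rw [hS]; ring
    have e2 : (N - c) * (2 * (Real.log 2 + Real.log N) + 8 * Real.log 5) =
        2 * (N * Real.log N) - 2 * (c * Real.log N) + N * (2 * Real.log 2 + 8 * Real.log 5) -
          c * (2 * Real.log 2 + 8 * Real.log 5) := by ring
    have e3 : C * N = N * C₁ + N * (2 * Real.log 2 + 8 * Real.log 5) +
        N * Real.log 120 + N * Real.log 25 := by rw [hC]; ring
    have e4 : α * (c * Real.log N) = 2 * (c * Real.log N) - (θ + 2 * η) * (c * Real.log N) := by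
      rw [hα]; ring
    rw [e3, e4]
    rw [e1] at hind
    rw [e2] at hgM
    linarith
  have hfin : α * (c * Real.log N) ≤ α * (((1 / α + ε) * N) * Real.log N) := by
    have e4 : α * (((1 / α + ε) * N) * Real.log N) =
        N * Real.log N + (ε * α * Real.log N) * N := by
      field_simp
    rw [e4]
    have := mul_le_mul_of_nonneg_right hCN.le hNpos.le
    linarith
  have h5 := le_of_mul_le_mul_left hfin hα0
  exact le_of_mul_le_mul_right h5 hlogNpos

end CritL
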