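import Pool.Agent.Lib.CritL.Dens

/-!
# The tree argument

Sketch. Put `r x = - log (D x)`, `ψ x = r x - s x log x`.

(1) Bounds. `r x ≤ log (x + 3)! ≤ (x + 3) log (x + 3) ≤ x log x + C₁ x` for `x ≥ 1` (`DensAux.log_fact`; e.g. `C₁ = 20`:
`(x+3) log (x+3) = x log x + x log (1 + 3/x) + 3 log (x + 3) ≤ x log x + 3 + 3 (x + 2)`), and `r x ≥ x log x - x log 25`.

(2) Steps. For `d ≥ 2`, `d ∈ B`: `hB` says exactly `ψ d ≤ ψ k + ψ m`. For `d ≥ 3`, `d ∉ B`: by `DensAux.term_any`
(with `n = d - 1`, `N = d`) `r d ≤ r (d - 1) + L d`, `L d = 2 log (d + 3) + 8 log 5`, and `x log x` is monotone for `x ≥ 1`,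
so `ψ d ≤ ψ (d - 1) + L d`.

(3) Induction. Let `M ≥ 2`, `a = (1 - s) log M + C₁` (`≥ 0`), `W d` = the sum of `L g / g` over the `g ∉ B` with
`M < g ≤ d`. Claim `ψ d ≤ (a + W d) d` for all `d ≥ 1`, by strong induction. `d ≤ M`: `ψ d ≤ (1 - s) d log d + C₁ d ≤ a d`.
`d > M`, `d ∈ B`: `ψ d ≤ (a + W k) k + (a + W m) m ≤ (a + W d) d` as `W` is monotone. `d > M`, `d ∉ B`:
`ψ d ≤ (a + W (d-1)) (d - 1) + L d ≤ (a + W (d - 1)) d + (L d / d) d = (a + W d) d`.

(4) `d = N`: `(1 - s) N log N - N log 25 ≤ ψ N ≤ (a + W N) N`, so `(1 - s) log (N / M) ≤ C₁ + log 25 + W N`. Choose a natural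
number `K ≥ 2` with `(1 - s) log K ≥ C₁ + log 25 + 1` and `M = N / K` (natural number division, so `N / M ≥ K` and, for
`N ≥ 2 K`, `M ≥ 2`, `M ≥ N / (2 K)`): `W N ≥ 1`. Each term of `W N` is at most `L N / M`, so the number of
`g ∉ B`, `g ≤ N` is at least `M / L N ≥ N / (2 K L N)`, and `L N ≤ 20 log N` (say) for `N` large.
-/

set_option autoImplicit false

namespace CritL

namespace TreeAux

open DensAux

theorem up_bound (x : ℕ) (hx : 1 ≤ x) :
    ((x : ℝ) + 3) * Real.log ((x : ℝ) + 3) ≤ (x : ℝ) * Real.log x + 12 * x := by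
  have hx1 : (1 : ℝ) ≤ x := by exact_mod_cast hx
  have hx0 : (0 : ℝ) < x := by linarith
  have h1 : Real.log ((x : ℝ) + 3) ≤ Real.log x + 3 / x := by
    have e : (x : ℝ) + 3 = x * (1 + 3 / x) := by field_simp
    rw [e, Real.log_mul (by positivity) (by positivity)]
    have := Real.log_le_sub_one_of_pos (show (0 : ℝ) < 1 + 3 / x by positivity)
    linarith
  have h2 : Real.log ((x : ℝ) + 3) ≤ (x : ℝ) + 2 := by
    have := Real.log_le_sub_one_of_pos (show (0 : ℝ) < (x : ℝ) + 3 by positivity)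
    linarith
  have h3 : (x : ℝ) * Real.log ((x : ℝ) + 3) ≤ x * Real.log x + 3 := by
    have := mul_le_mul_of_nonneg_left h1 hx0.le
    have e : (x : ℝ) * (Real.log x + 3 / x) = x * Real.log x + 3 := by
      field_simp
    linarith
  nlinarith

theorem r_up (D : ℕ → ℝ) (hlow : ∀ n, 1 ≤ n → 1 / ((n + 3).factorial : ℝ) ≤ D n)
    (x : ℕ) (hx : 1 ≤ x) : -Real.log (D x) ≤ (x : ℝ) * Real.log x + 12 * x := by
  have h2 : -Real.log (((x + 3).factorial : ℕ) : ℝ) ≤ Real.log (D x) := by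
    have := Real.log_le_log (by positivity) (hlow x hx)
    rwa [one_div, Real.log_inv] at this
  have h3 := log_fact x
  have h4 := up_bound x hx
  linarith

theorem r_low (D : ℕ → ℝ) (hlow : ∀ n, 1 ≤ n → 1 / ((n + 3).factorial : ℝ) ≤ D n)
    (hup : ∀ n, 1 ≤ n → D n ≤ (25 / (n : ℝ)) ^ n) (x : ℕ) (hx : 1 ≤ x) :
    (x : ℝ) * Real.log x - x * Real.log 25 ≤ -Real.log (D x) := by
  have hx1 : (1 : ℝ) ≤ x := by exact_mod_cast hx
  have hx0 : (0 : ℝ) < x := by linarith
  have hD : 0 < D x := lt_of_lt_of_le (by positivity) (hlow x hx)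
  have h1 := Real.log_le_log hD (hup x hx)
  rw [Real.log_pow, Real.log_div (by norm_num) hx0.ne'] at h1
  nlinarith

/-- the increment -/
noncomputable def L (d : ℕ) : ℝ := 2 * Real.log ((d : ℝ) + 3) + 8 * Real.log 5

theorem L_nonneg (d : ℕ) : 0 ≤ L d := by
  unfold L
  have h1 : 0 ≤ Real.log ((d : ℝ) + 3) := Real.log_nonneg (by
    have : (0 : ℝ) ≤ d := by positivity
    linarith)
  have h2 : 0 < Real.log 5 := Real.log_pos (by norm_num)
  linarith

theorem L_mono {d e : ℕ} (h : d ≤ e) : L d ≤ L e := by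
  unfold L
  have h1 : Real.log ((d : ℝ) + 3) ≤ Real.log ((e : ℝ) + 3) :=
    Real.log_le_log (by positivity) (by
      have : (d : ℝ) ≤ e := by exact_mod_cast h
      linarith)
  linarith

theorem L_le (N : ℕ) (hN : 3 ≤ N) : L N ≤ 20 * Real.log N := by
  unfold L
  have hN3 : (3 : ℝ) ≤ N := by exact_mod_cast hN
  have h1 : Real.log ((N : ℝ) + 3) ≤ 2 * Real.log N := by
    have h := Real.log_le_log (show (0 : ℝ) < (N : ℝ) + 3 by positivity)
      (show (N : ℝ) + 3 ≤ (N : ℝ) ^ 2 by nlinarith)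
    rw [Real.log_pow] at h
    exact_mod_cast h
  have h2 : Real.log 5 ≤ 2 * Real.log N := by
    have h := Real.log_le_log (show (0 : ℝ) < 5 by norm_num)
      (show (5 : ℝ) ≤ (N : ℝ) ^ 2 by nlinarith)
    rw [Real.log_pow] at h
    exact_mod_cast h
  linarith

open scoped Classical in
/-- the sum of the increments -/
noncomputable def W (B : Set ℕ) (M d : ℕ) : ℝ :=
  ∑ g ∈ (Finset.Ioc M d).filter (fun g => g ∉ B), L g / g

theorem W_nonneg (B : Set ℕ) (M d : ℕ) : 0 ≤ W B M d := by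
  classical
  unfold W
  exact Finset.sum_nonneg fun g _ => div_nonneg (L_nonneg g) (by positivity)

theorem W_mono (B : Set ℕ) (M : ℕ) {d e : ℕ} (h : d ≤ e) : W B M d ≤ W B M e := by
  classical
  unfold W
  refine Finset.sum_le_sum_of_subset_of_nonneg ?_ fun g _ _ =>
    div_nonneg (L_nonneg g) (by positivity)
  exact Finset.filter_subset_filter _ (Finset.Ioc_subset_Ioc_right h)

theorem W_succ (B : Set ℕ) (M d : ℕ) (hM : M ≤ d) (hd : d + 1 ∉ B) :
    W B M (d + 1) = W B M d + L (d + 1) / ((d + 1 : ℕ) : ℝ) := by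
  classical
  unfold W
  have h1 : Finset.Ioc M (d + 1) = insert (d + 1) (Finset.Ioc M d) := by
    ext x
    simp only [Finset.mem_Ioc, Finset.mem_insert]
    omega
  rw [h1, Finset.filter_insert, if_pos hd, Finset.sum_insert, add_comm]
  simp

/-- the induction -/
theorem ind (D : ℕ → ℝ) (B : Set ℕ) (hlow : ∀ n, 1 ≤ n → 1 / ((n + 3).factorial : ℝ) ≤ D n)
    (hM : ∀ n, 2 ≤ n → D n ^ (n + 1) ≤ D (n + 1) ^ (n - 1)) (s : ℝ) (hs : 0 < s) (hs1 : s < 1)
    (hB : ∀ d ∈ B, 2 ≤ d → ∃ k m : ℕ, 1 ≤ k ∧ 1 ≤ m ∧ k + m = d ∧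
      Real.log (D k) + Real.log (D m) ≤
      s * ((d : ℝ) * Real.log (d : ℝ) - (k : ℝ) * Real.log (k : ℝ)
        - (m : ℝ) * Real.log (m : ℝ)) + Real.log (D d)) (M : ℕ) (hM2 : 2 ≤ M) :
    ∀ d : ℕ, 1 ≤ d → -Real.log (D d) - s * ((d : ℝ) * Real.log d) ≤
      ((1 - s) * Real.log M + 12 + W B M d) * d := by
  have hMr : (2 : ℝ) ≤ M := by exact_mod_cast hM2
  have hlM : 0 ≤ Real.log M := Real.log_nonneg (by linarith)
  have ha : 0 ≤ (1 - s) * Real.log M + 12 := by
    have := mul_nonneg (show (0 : ℝ) ≤ 1 - s by linarith) hlM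
    linarith
  intro d
  induction d using Nat.strong_induction_on with
  | _ d ih =>
    intro hd
    have hd1 : (1 : ℝ) ≤ d := by exact_mod_cast hd
    have hd0 : (0 : ℝ) < d := by linarith
    by_cases hdM : d ≤ M
    · have h1 := r_up D hlow d hd
      have h2 : Real.log d ≤ Real.log M := Real.log_le_log hd0 (by exact_mod_cast hdM)
      have h3 := W_nonneg B M d
      have h4 : (1 - s) * ((d : ℝ) * Real.log d) ≤ (1 - s) * Real.log M * d := by
        have := mul_le_mul_of_nonneg_left h2 (show (0 : ℝ) ≤ (1 - s) * d by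
          exact mul_nonneg (by linarith) hd0.le)
        nlinarith
      have h5 : 0 ≤ W B M d * d := mul_nonneg h3 hd0.le
      nlinarith
    · push Not at hdM
      by_cases hdB : d ∈ B
      · obtain ⟨k, m, hk, hm, hkm, hle⟩ := hB d hdB (by omega)
        have ik := ih k (by omega) hk
        have im := ih m (by omega) hm
        have hk0 : (0 : ℝ) ≤ k := by positivity
        have hm0 : (0 : ℝ) ≤ m := by positivity
        have wk := mul_le_mul_of_nonneg_right (W_mono B M (show k ≤ d by omega)) hk0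
        have wm := mul_le_mul_of_nonneg_right (W_mono B M (show m ≤ d by omega)) hm0
        have hdk : (d : ℝ) = k + m := by exact_mod_cast hkm.symm
        have e : ((1 - s) * Real.log M + 12 + W B M d) * d =
            ((1 - s) * Real.log M + 12) * k + ((1 - s) * Real.log M + 12) * m
              + W B M d * k + W B M d * m := by
          rw [hdk]; ring
        rw [e]
        linarith
      · obtain ⟨n, rfl⟩ : ∃ n, d = n + 1 := ⟨d - 1, by omega⟩
        have hn2 : 2 ≤ n := by omega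
        have ih' := ih n (by omega) (by omega)
        have ht := term_any D hlow hM n (n + 1) hn2 (by omega)
        have hL : Real.log (D n) - Real.log (D (n + 1)) ≤ L (n + 1) := ht
        have hW := W_succ B M n (by omega) hdB
        have hn1 : (1 : ℝ) ≤ n := by
          have : (2 : ℝ) ≤ n := by exact_mod_cast hn2
          linarith
        have hmon : (n : ℝ) * Real.log n ≤ ((n + 1 : ℕ) : ℝ) * Real.log ((n + 1 : ℕ) : ℝ) := by
          have h1 : Real.log n ≤ Real.log ((n + 1 : ℕ) : ℝ) :=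
            Real.log_le_log (by linarith) (by push_cast; linarith)
          have h2 : 0 ≤ Real.log n := Real.log_nonneg hn1
          have h3 : (n : ℝ) ≤ ((n + 1 : ℕ) : ℝ) := by push_cast; linarith
          exact mul_le_mul h3 h1 h2 (by positivity)
        have hmon' := mul_le_mul_of_nonneg_left hmon hs.le
        have hW0 := W_nonneg B M n
        rw [hW]
        have e : ((1 - s) * Real.log M + 12 + (W B M n + L (n + 1) / ((n + 1 : ℕ) : ℝ)))
            * ((n + 1 : ℕ) : ℝ) =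
            ((1 - s) * Real.log M + 12 + W B M n) * n
              + ((1 - s) * Real.log M + 12 + W B M n) + L (n + 1) := by
          push_cast
          field_simp
          ring
        rw [e]
        linarith

end TreeAux

open TreeAux

open scoped Classical in
/-- **the tree argument, local form** -/
theorem tree_loc (D : ℕ → ℝ) (B : Set ℕ) (hlow : ∀ n, 1 ≤ n → 1 / ((n + 3).factorial : ℝ) ≤ D n)
    (hup : ∀ n, 1 ≤ n → D n ≤ (25 / (n : ℝ)) ^ n)
    (hM : ∀ n, 2 ≤ n → D n ^ (n + 1) ≤ D (n + 1) ^ (n - 1)) (s : ℝ) (hs : 0 < s) (hs1 : s < 1)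
    (hB : ∀ d ∈ B, 2 ≤ d → ∃ k m : ℕ, 1 ≤ k ∧ 1 ≤ m ∧ k + m = d ∧ Real.log (D k) + Real.log (D m) ≤
      s * ((d : ℝ) * Real.log (d : ℝ) - (k : ℝ) * Real.log (k : ℝ) - (m : ℝ) * Real.log (m : ℝ)) + Real.log (D d)) :
    ∃ c : ℝ, 0 < c ∧ ∃ K : ℕ, 0 < K ∧ ∃ N₀ : ℕ, ∀ N ≥ N₀,
      c * N / Real.log N ≤ (((Finset.Ioc (N / K) N).filter (fun d => d ∉ B)).card : ℝ) := by
  have hs' : 0 < 1 - s := by linarith
  obtain ⟨K₁, hK₁⟩ := exists_nat_ge (Real.exp ((12 + Real.log 25 + 1) / (1 - s)))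
  set K : ℕ := max 2 K₁ with hKd
  have hK2 : 2 ≤ K := le_max_left _ _
  have hK2r : (2 : ℝ) ≤ K := by exact_mod_cast hK2
  have hKr : (0 : ℝ) < K := by linarith
  have hKlog : 12 + Real.log 25 + 1 ≤ (1 - s) * Real.log K := by
    have h1 : Real.exp ((12 + Real.log 25 + 1) / (1 - s)) ≤ K :=
      hK₁.trans (by exact_mod_cast le_max_right 2 K₁)
    have h2 : (12 + Real.log 25 + 1) / (1 - s) ≤ Real.log K := by
      rw [Real.le_log_iff_exp_le hKr]
      exact h1
    rw [div_le_iff₀ hs'] at h2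
    linarith
  refine ⟨1 / (40 * K), by positivity, K, by omega, 2 * K, fun N hN => ?_⟩
  have hN0 : 0 < N := by omega
  have hNr : (0 : ℝ) < N := by exact_mod_cast hN0
  have hN3 : 3 ≤ N := by omega
  set M : ℕ := N / K with hMd
  have hM2 : 2 ≤ M := by
    rw [hMd, Nat.le_div_iff_mul_le (by omega)]
    exact hN
  have hMr : (2 : ℝ) ≤ M := by exact_mod_cast hM2
  have hM0 : (0 : ℝ) < M := by linarith
  have hMK : M * K ≤ N := Nat.div_mul_le_self N K
  have hMKr : (M : ℝ) * K ≤ N := by exact_mod_cast hMK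
  have hMN : M ≤ N := Nat.div_le_self N K
  have hMlow : (N : ℝ) / (2 * K) ≤ M := by
    have h1 : N < (M + 1) * K := by
      have := Nat.lt_div_mul_add (a := N) (b := K) (by omega)
      rw [← hMd] at this
      linarith [this]
    have h1r : (N : ℝ) < (M + 1) * K := by exact_mod_cast h1
    have h2 : (2 : ℝ) * K ≤ N := by exact_mod_cast hN
    rw [div_le_iff₀ (by positivity)]
    nlinarith
  have hind := ind D B hlow hM s hs hs1 hB M hM2 N (by omega)
  have hlow' := r_low D hlow hup N (by omega)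
  have hW1 : 1 ≤ W B M N := by
    have h1 : ((1 - s) * Real.log N - Real.log 25) * N ≤
        ((1 - s) * Real.log M + 12 + W B M N) * N := by
      linarith
    have h2 := le_of_mul_le_mul_right h1 hNr
    have h3 : Real.log M + Real.log K ≤ Real.log N := by
      rw [← Real.log_mul hM0.ne' hKr.ne']
      exact Real.log_le_log (by positivity) hMKr
    have h4 : (1 - s) * (Real.log M + Real.log K) ≤ (1 - s) * Real.log N :=
      mul_le_mul_of_nonneg_left h3 hs'.le
    linarith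
  have hlogN : 0 < Real.log N := Real.log_pos (by
    have : (3 : ℝ) ≤ N := by exact_mod_cast hN3
    linarith)
  have hLN := L_le N hN3
  have hcard : W B M N ≤ (((Finset.Ioc M N).filter (fun d => d ∉ B)).card : ℝ)
      * (20 * Real.log N / M) := by
    have h1 : W B M N ≤ ∑ g ∈ (Finset.Ioc M N).filter (fun g => g ∉ B),
        (20 * Real.log N / M) := by
      unfold W
      refine Finset.sum_le_sum fun g hg => ?_
      obtain ⟨hg1, -⟩ := Finset.mem_filter.1 hg
      obtain ⟨hg2, hg3⟩ := Finset.mem_Ioc.1 hg1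
      have hgr : (M : ℝ) ≤ g := by exact_mod_cast hg2.le
      have h2 : L g ≤ 20 * Real.log N := (L_mono hg3).trans hLN
      exact div_le_div₀ (by positivity) h2 hM0 hgr
    rw [Finset.sum_const, nsmul_eq_mul] at h1
    exact h1
  set X : ℝ := (((Finset.Ioc M N).filter (fun d => d ∉ B)).card : ℝ) with hX
  have h1 : 1 ≤ X * (20 * Real.log N / M) := hW1.trans hcard
  have h2 : (M : ℝ) ≤ X * (20 * Real.log N) := by
    have e : X * (20 * Real.log N / M) = X * (20 * Real.log N) / M := by ring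
    rw [e, le_div_iff₀ hM0] at h1
    linarith
  have h3 : (N : ℝ) / (2 * K) ≤ X * (20 * Real.log N) := hMlow.trans h2
  rw [div_le_iff₀ hlogN]
  have e : 1 / (40 * (K : ℝ)) * N = (N : ℝ) / (2 * K) / 20 := by
    field_simp
    norm_num
  rw [e]
  linarith

open scoped Classical in
/-- **the tree argument** -/
theorem tree (D : ℕ → ℝ) (B : Set ℕ) (hlow : ∀ n, 1 ≤ n → 1 / ((n + 3).factorial : ℝ) ≤ D n)
    (hup : ∀ n, 1 ≤ n → D n ≤ (25 / (n : ℝ)) ^ n)
    (hM : ∀ n, 2 ≤ n → D n ^ (n + 1) ≤ D (n + 1) ^ (n - 1)) (s : ℝ) (hs : 0 < s) (hs1 : s < 1)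
    (hB : ∀ d ∈ B, 2 ≤ d → ∃ k m : ℕ, 1 ≤ k ∧ 1 ≤ m ∧ k + m = d ∧ Real.log (D k) + Real.log (D m) ≤
      s * ((d : ℝ) * Real.log (d : ℝ) - (k : ℝ) * Real.log (k : ℝ) - (m : ℝ) * Real.log (m : ℝ)) + Real.log (D d)) :
    ∃ c : ℝ, 0 < c ∧ ∃ N₀ : ℕ, ∀ N ≥ N₀,
      c * N / Real.log N ≤ (((Finset.Icc 1 N).filter (fun d => d ∉ B)).card : ℝ) := by
  obtain ⟨c, hc, K, hK, N₀, h⟩ := tree_loc D B hlow hup hM s hs hs1 hB
  refine ⟨c, hc, N₀, fun N hN => (h N hN).trans ?_⟩
  have h3 : (Finset.Ioc (N / K) N).filter (fun d => d ∉ B) ⊆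
      (Finset.Icc 1 N).filter (fun d => d ∉ B) := by
    refine Finset.filter_subset_filter _ ?_
    intro x hx
    rw [Finset.mem_Ioc] at hx
    rw [Finset.mem_Icc]
    exact ⟨(Nat.zero_le _).trans_lt hx.1, hx.2⟩
  exact_mod_cast Finset.card_le_card h3

end CritL
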