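import Pool.Agent.Lib.CritL.Endo
import Pool.Agent.Lib.CritL.Tree
import Pool.Agent.Lib.CritL.Jump
import Pool.Agent.Lib.CritL.Ent

/-!
# Endomorphisms of critical lattices
-/

set_option autoImplicit false

namespace CritL

open Matrix

/-- the linear map of the coordinates -/
noncomputable def rpl {d : ℕ} (b : Fin d → E d) : (Fin d → ℝ) →ₗ[ℝ] E d where
  toFun := rp b
  map_add' x y := by simp [rp, add_smul, Finset.sum_add_distrib]
  map_smul' c x := by simp [rp, mul_smul, Finset.smul_sum]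

theorem rpl_bij {d : ℕ} {b : Fin d → E d} (hb : LinearIndependent ℝ b) : Function.Bijective (rpl b) := by
  have hinj : Function.Injective (rpl b) := by
    rw [← LinearMap.ker_eq_bot, LinearMap.ker_eq_bot']
    intro z hz
    exact rp_inj hb hz
  exact ⟨hinj, (LinearMap.injective_iff_surjective_of_finrank_eq_finrank (by simp)).1 hinj⟩

/-- the integer matrix of an endomorphism of the lattice -/
theorem exists_mat {d : ℕ} {b : Fin d → E d} (F : E d →ₗ[ℝ] E d) (h : ∀ x ∈ lat b, F x ∈ lat b) :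
    ∃ A : Matrix (Fin d) (Fin d) ℤ, ∀ z : Fin d → ℝ, F (rp b z) = rp b (rm A *ᵥ z) := by
  have h1 : ∀ j, ∃ x : Fin d → ℤ, rp b (ic x) = F (b j) := fun j =>
    (mem_lat b _).1 (h _ (Submodule.subset_span (Set.mem_range_self j)))
  choose a ha using h1
  refine ⟨Matrix.of fun i j => a j i, fun z => ?_⟩
  have h2 : F (rp b z) = ∑ j, z j • rp b (ic (a j)) := by
    unfold rp
    rw [map_sum]
    refine Finset.sum_congr rfl fun j _ => ?_
    rw [map_smul, ← ha]
    rfl
  rw [h2]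
  have h3 : rm (Matrix.of fun i j => a j i) *ᵥ z = ∑ j, z j • ic (a j) := by
    funext i
    simp [rm, mulVec, dotProduct, ic, mul_comm]
  rw [h3]
  have h4 : rp b (∑ j, z j • ic (a j)) = rpl b (∑ j, z j • ic (a j)) := rfl
  rw [h4, map_sum]
  refine Finset.sum_congr rfl fun j _ => ?_
  rw [map_smul]
  rfl

/-- **endomorphisms of lattices** -/
theorem endoE {d : ℕ} (hd : 0 < d) {b : Fin d → E d} (hb : LinearIndependent ℝ b) (F : E d →ₗ[ℝ] E d)
    (hF : ∀ x ∈ lat b, F x ∈ lat b) {T : ℝ} (hT : ∀ x, ‖F x‖ ≤ T * ‖x‖) :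
    ∃ k m : ℕ, k + m = d ∧ Module.finrank ℝ (LinearMap.range F) = k ∧
      Dn k * Dn m ≤ (T ^ 2) ^ k * ratio b ^ 2 := by
  obtain ⟨A, hA⟩ := exists_mat F hF
  have hadm := nf_adm hd hb
  obtain ⟨k, m, hkm, hk, hD⟩ := endo_bound hadm A (T := T) fun z => by
    unfold nf
    rw [qf_smul_mat, qf_smul_mat, ← norm_rp, ← norm_rp, ← hA]
    have h1 := pow_le_pow_left₀ (norm_nonneg _) (hT (rp b z)) 2
    have h2 : 0 < minL b := minL_pos hd hb
    calc (minL b ^ 2)⁻¹ * ‖F (rp b z)‖ ^ 2 ≤ (minL b ^ 2)⁻¹ * (T * ‖rp b z‖) ^ 2 :=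
          mul_le_mul_of_nonneg_left h1 (by positivity)
      _ = _ := by ring
  refine ⟨k, m, hkm, ?_, ?_⟩
  · have hbij := rpl_bij hb
    set e := LinearEquiv.ofBijective (rpl b) hbij with he
    have h1 : F ∘ₗ (e : (Fin d → ℝ) →ₗ[ℝ] E d) = (e : (Fin d → ℝ) →ₗ[ℝ] E d) ∘ₗ (rm A).mulVecLin := by
      refine LinearMap.ext fun z => ?_
      exact hA z
    have h2 : LinearMap.range (F ∘ₗ (e : (Fin d → ℝ) →ₗ[ℝ] E d)) = LinearMap.range F :=
      LinearMap.range_comp_of_range_eq_top _ (LinearEquiv.range e)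
    rw [← h2, h1, LinearMap.range_comp, ← hk]
    exact LinearEquiv.finrank_map_eq e _
  · rwa [nf_det] at hD

/-- the dimension of the space of the fixed vectors -/
noncomputable def fixedDim {d : ℕ} (σ : E d ≃ₗᵢ[ℝ] E d) : ℕ :=
  Module.finrank ℝ (LinearMap.ker ((σ.toLinearEquiv : E d →ₗ[ℝ] E d) - LinearMap.id))

end CritL
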