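import Pool.Agent.Lib.CritL.Sym15

/-!
# Lattices preserved by all permutations of an orthonormal basis
-/

set_option autoImplicit false

namespace CritL

open Matrix

section

variable {n : ℕ} {u : Fin (n + 3) → E (n + 3)}

theorem expand (hu : Orthonormal ℝ u) (x : E (n + 3)) : x = ∑ i, (inner ℝ (u i) x : ℝ) • u i := by
  have h1 : x - ∑ i, (inner ℝ (u i) x : ℝ) • u i = 0 := by
    have hspan : Submodule.span ℝ (Set.range u) = ⊤ := hu.linearIndependent.span_eq_top_of_card_eq_finrank' (by simp)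
    have hmem : (x - ∑ i, (inner ℝ (u i) x : ℝ) • u i) ∈ Submodule.span ℝ (Set.range u) := by
      rw [hspan]; exact Submodule.mem_top
    obtain ⟨z, hz⟩ := (Submodule.mem_span_range_iff_exists_fun ℝ).1 hmem
    have horth : ∀ j, inner ℝ (x - ∑ i, (inner ℝ (u i) x : ℝ) • u i) (u j) = (0 : ℝ) := by
      intro j
      rw [inner_sub_left, sum_inner]
      have : ∀ i, inner ℝ ((inner ℝ (u i) x : ℝ) • u i) (u j) = if i = j then (inner ℝ (u j) x : ℝ) else 0 := by
        intro i
        rw [inner_smul_left, inner_u hu]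
        by_cases hij : i = j
        · subst hij; simp
        · simp [hij]
      simp only [this, Finset.sum_ite_eq', Finset.mem_univ, if_true]
      rw [real_inner_comm, sub_self]
    have h0 : inner ℝ (x - ∑ i, (inner ℝ (u i) x : ℝ) • u i) (∑ i, z i • u i) = (0 : ℝ) := by
      rw [inner_sum]
      refine Finset.sum_eq_zero fun i _ => ?_
      rw [inner_smul_right, horth, mul_zero]
    rw [hz] at h0
    exact inner_self_eq_zero.1 h0
  exact sub_eq_zero.1 h1

/-- the sum of the basis -/
noncomputable def one (u : Fin (n + 3) → E (n + 3)) : E (n + 3) := ∑ i, u i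

theorem inner_one (hu : Orthonormal ℝ u) (i : Fin (n + 3)) : inner ℝ (u i) (one u) = (1 : ℝ) := by
  unfold one
  rw [inner_sum]
  simp only [inner_u hu, Finset.sum_ite_eq, Finset.mem_univ, if_true]

theorem one_inner_one (hu : Orthonormal ℝ u) : inner ℝ (one u) (one u) = ((n + 3 : ℕ) : ℝ) := by
  conv_lhs => arg 2; unfold one
  rw [sum_inner]
  simp only [inner_one hu, Finset.sum_const, Finset.card_univ, Fintype.card_fin, nsmul_eq_mul, mul_one]

theorem one_ne (hu : Orthonormal ℝ u) : one u ≠ 0 := by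
  intro h
  have := inner_one hu 0
  rw [h, inner_zero_right] at this
  norm_num at this

/-- the pairs `(m, t)` -/
def ZZ (L : Submodule ℤ (E (n + 3))) (u : Fin (n + 3) → E (n + 3)) (s : ℝ) (m : ℤ) (t : ℝ) : Prop :=
  ((m : ℝ) * s) • u 0 + t • one u ∈ L

variable {L : Submodule ℤ (E (n + 3))} {s : ℝ}

theorem ZZ.add {m m' : ℤ} {t t' : ℝ} (h : ZZ L u s m t) (h' : ZZ L u s m' t') : ZZ L u s (m + m') (t + t') := by
  unfold ZZ at *
  have := L.add_mem h h'
  convert this using 1
  push_cast
  module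

theorem ZZ.smul {m : ℤ} {t : ℝ} (h : ZZ L u s m t) (c : ℤ) : ZZ L u s (c * m) (c * t) := by
  unfold ZZ at *
  have := L.smul_mem c h
  convert this using 1
  rw [← Int.cast_smul_eq_zsmul ℝ]
  push_cast
  module

theorem ZZ.neg {m : ℤ} {t : ℝ} (h : ZZ L u s m t) : ZZ L u s (-m) (-t) := by
  have := h.smul (-1)
  simpa using this

theorem ZZ_d (hs : ∀ i j, i ≠ j → s • (u i - u j) ∈ L) : ZZ L u s ((n + 3 : ℕ) : ℤ) (-s) := by
  unfold ZZ
  have h1 : ∑ i, s • (u 0 - u i) ∈ L := by
    refine L.sum_mem fun i _ => ?_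
    by_cases hi : i = 0
    · subst hi; simp
    · exact hs 0 i (Ne.symm hi)
  have h2 : ∑ i, s • (u 0 - u i) = ((((n + 3 : ℕ) : ℤ) : ℝ) * s) • u 0 + (-s) • one u := by
    unfold one
    simp only [smul_sub, Finset.sum_sub_distrib, Finset.sum_const, Finset.card_univ, Fintype.card_fin]
    rw [← Finset.smul_sum, neg_smul, sub_eq_add_neg]
    congr 1
    rw [← Nat.cast_smul_eq_nsmul ℝ, smul_smul]
    push_cast
    rfl
  rwa [h2] at h1

/-- the sum of the coordinates -/
theorem ZZ_sum (hs : ∀ i j, i ≠ j → s • (u i - u j) ∈ L) {m : ℤ} {t : ℝ} (h : ZZ L u s m t) :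
    ((m : ℝ) * s + (n + 3 : ℕ) * t) • one u ∈ L := by
  unfold ZZ at h
  have h1 : ∀ i, ((m : ℝ) * s) • u i + t • one u ∈ L := by
    intro i
    by_cases hi : i = 0
    · rwa [hi]
    · have h2 := L.add_mem h (L.smul_mem m (hs i 0 hi))
      convert h2 using 1
      rw [← Int.cast_smul_eq_zsmul ℝ]
      module
  have h2 : ∑ i, (((m : ℝ) * s) • u i + t • one u) ∈ L := L.sum_mem fun i _ => h1 i
  have h3 : ∑ i, (((m : ℝ) * s) • u i + t • one u) = ((m : ℝ) * s + (n + 3 : ℕ) * t) • one u := by
    rw [Finset.sum_add_distrib, ← Finset.smul_sum, Finset.sum_const, Finset.card_univ, Fintype.card_fin,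
      ← Nat.cast_smul_eq_nsmul ℝ]
    unfold one
    module
  rwa [h3] at h2

/-- the canonical form of a vector of `L` -/
theorem canon (hu : Orthonormal ℝ u) (hs : ∀ i j, i ≠ j → s • (u i - u j) ∈ L) {x : E (n + 3)} (hx : x ∈ L)
    {N : Fin (n + 3) → ℤ} (hN : ∀ i, (inner ℝ (u i) x : ℝ) - inner ℝ (u 0) x = N i * s) :
    ZZ L u s (∑ i, N i) (inner ℝ (u 0) x) := by
  unfold ZZ
  have h1 : x - ∑ i, (N i : ℤ) • (s • (u i - u 0)) ∈ L := by
    refine L.sub_mem hx (L.sum_mem fun i _ => ?_)
    by_cases hi : i = 0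
    · subst hi; simp
    · exact L.smul_mem _ (hs i 0 hi)
  have h2 : ∀ i, (inner ℝ (u i) x : ℝ) = inner ℝ (u 0) x + N i * s := fun i => by rw [← hN i]; ring
  have e1 : x = ∑ i, (inner ℝ (u 0) x + (N i : ℝ) * s) • u i := by
    calc x = ∑ i, (inner ℝ (u i) x : ℝ) • u i := expand hu x
      _ = _ := Finset.sum_congr rfl fun i _ => by rw [h2 i]
  have e2 : ((((∑ i, N i : ℤ) : ℝ) * s) • u 0 + (inner ℝ (u 0) x : ℝ) • one u) =
      x - ∑ i, (N i : ℤ) • (s • (u i - u 0)) := by
    have e3 : ∀ i, (N i : ℤ) • (s • (u i - u 0)) = (N i : ℝ) • s • (u i - u 0) := fun i =>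
      (Int.cast_smul_eq_zsmul ℝ _ _).symm
    have e4 : x - ∑ i, (N i : ℤ) • (s • (u i - u 0)) =
        ∑ i, ((inner ℝ (u 0) x + (N i : ℝ) * s) • u i - (N i : ℝ) • s • (u i - u 0)) := by
      rw [Finset.sum_sub_distrib, ← e1]
      simp only [e3]
    have h3 : ∀ i, (inner ℝ (u 0) x + (N i : ℝ) * s) • u i - (N i : ℝ) • s • (u i - u 0) =
        (inner ℝ (u 0) x : ℝ) • u i + ((N i : ℝ) * s) • u 0 := by
      intro i
      module
    rw [e4, Finset.sum_congr rfl fun i _ => h3 i, Finset.sum_add_distrib, ← Finset.smul_sum, ← Finset.sum_smul,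
      ← Finset.sum_mul]
    push_cast
    unfold one
    exact add_comm _ _
  rw [e2]
  exact h1

end

/-- triangular matrix -/
noncomputable def TT' (n : ℕ) (a κ c e : ℝ) : Matrix (Fin (n + 3)) (Fin (n + 3)) ℝ := Matrix.of fun i j =>
  if i = 0 then (if j = 0 then a else κ) else if i = 1 then (if j = 0 then 0 else c) else (if j = i then e else 0)

theorem TT'_det (n : ℕ) (a κ c e : ℝ) : (TT' n a κ c e).det = a * c * e ^ (n + 1) := by
  rw [det_of_isUpperTriangular]
  · rw [Fin.prod_univ_succ, Fin.prod_univ_succ]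
    have h1 : ∀ i : Fin (n + 1), TT' n a κ c e i.succ.succ i.succ.succ = e := by
      intro i
      unfold TT'
      rw [of_apply, if_neg (Fin.succ_ne_zero _), if_neg, if_pos rfl]
      intro h
      have := congrArg Fin.val h
      simp at this
    have h2 : TT' n a κ c e (Fin.succ 0) (Fin.succ 0) = c := by
      unfold TT'
      rw [of_apply, if_neg (Fin.succ_ne_zero _), if_pos (by rfl), if_neg (Fin.succ_ne_zero _)]
    rw [Finset.prod_congr rfl fun i _ => h1 i, h2]
    simp [TT', mul_assoc]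
  · intro i j hij
    have hji : j < i := hij
    unfold TT'
    rw [of_apply]
    have hi : i ≠ 0 := by
      rintro rfl
      exact absurd hji (Fin.not_lt_zero j)
    rw [if_neg hi]
    split_ifs with h1 h2 h3
    · rfl
    · exfalso
      apply h2
      subst h1
      have h4 : j.val < 1 := by
        have := hji
        rw [Fin.lt_def] at this
        simpa using this
      exact Fin.ext (by simpa using h4)
    · exact absurd h3 hji.ne
    · rfl

/-- the basis `u_0, u_j - u_0` in coordinates -/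
noncomputable def UU (n : ℕ) : Matrix (Fin (n + 3)) (Fin (n + 3)) ℝ := Matrix.of fun i j =>
  (if i = j then 1 else 0) - (if i = 0 then 0 else if j = 0 then 1 else 0)

theorem UU_det (n : ℕ) : (UU n).det = 1 := by
  rw [det_of_isLowerTriangular]
  · refine Finset.prod_eq_one fun i _ => ?_
    unfold UU
    rw [of_apply, if_pos rfl]
    by_cases hi : i = 0
    · rw [if_pos hi, sub_zero]
    · rw [if_neg hi, if_neg hi, sub_zero]
  · intro i j hij
    have hji : i < j := hij
    unfold UU
    have hj : j ≠ 0 := by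
      rintro rfl
      exact absurd hji (Fin.not_lt_zero i)
    rw [of_apply, if_neg hji.ne, if_neg hj]
    simp


theorem sum_single {n : ℕ} (u : Fin (n + 3) → E (n + 3)) (i : Fin (n + 3)) :
    ∑ j, UU n i j • u j = u i - if i = 0 then 0 else u 0 := by
  unfold UU
  simp only [of_apply, sub_smul, Finset.sum_sub_distrib]
  congr 1
  · simp
  · by_cases hi : i = 0
    · simp [hi]
    · simp [hi]

/-- the Gram determinant of vectors given by coordinates -/
theorem gm_coord {n d k : ℕ} {u : Fin k → E d} (hu : Orthonormal ℝ u) (A : Matrix (Fin n) (Fin k) ℝ) :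
    gm (fun i => ∑ j, A i j • u j) = A * Aᵀ := by
  funext i j
  rw [gm_apply, sum_inner]
  simp only [inner_smul_left, inner_sum, inner_smul_right, inner_u hu, conj_trivial, mul_apply, transpose_apply]
  refine Finset.sum_congr rfl fun l _ => ?_
  simp [mul_comm]

/-- **lower bound for the ratio** from a full system of dual vectors -/
theorem ratio_ge {d : ℕ} (hd : 0 < d) {b : Fin d → E d} (hb : LinearIndependent ℝ b) {w : Fin d → E d}
    (hw : 0 < (gm w).det) (hint : ∀ i, ∀ x ∈ lat b, ∃ k : ℤ, inner ℝ (w i) x = (k : ℝ)) :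
    1 ≤ ratio b ^ 2 * ((minL b ^ 2) ^ d * (gm w).det) := by
  obtain ⟨W, -, hWg⟩ := exists_int_matrix hd hb hint
  have hl := minL_pos hd hb
  have hP := (nf_adm hd hb).pd
  have h1 := congrArg det hWg
  rw [det_mul, det_mul, det_transpose, det_smul, Fintype.card_fin, det_nonsing_inv, Ring.inverse_eq_inv'] at h1
  have hP0 := hP.det_pos
  have h2 : (rw' W).det * (rw' W).det = (nf b).det * ((minL b ^ 2) ^ d * (gm w).det) := by
    rw [← h1]
    field_simp
  have hcast : (rw' W).det = ((W.det : ℤ) : ℝ) := by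
    have := (Int.castRingHom ℝ).map_det W
    exact this.symm
  have h3 : 0 < (rw' W).det * (rw' W).det := by
    rw [h2]
    positivity
  have h4 : (1 : ℝ) ≤ (rw' W).det * (rw' W).det := by
    rw [hcast] at h3 ⊢
    have h5 : 0 < W.det * W.det := by exact_mod_cast h3
    have h6 : 1 ≤ W.det * W.det := by omega
    exact_mod_cast h6
  rw [h2, nf_det] at h4
  exact h4

end CritL
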