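import Mathlib

/-!
# Critical forms: overlattices of index 2

Forms are given by positive definite matrices `G`. `Adm G`: all values at nonzero integer vectors are at least 1.
`Far G z s`: all values at `z - x`, `x` integral, are at least `s`. A form is critical if it is `Adm` and its determinant is
minimal.
-/

set_option autoImplicit false

namespace CritL

open Matrix

section

variable {ι : Type*} [Fintype ι]

/-- the value of the quadratic form -/
def qf (G : Matrix ι ι ℝ) (v : ι → ℝ) : ℝ := v ⬝ᵥ (G *ᵥ v)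

/-- the real vector of an integer vector -/
def ic (x : ι → ℤ) : ι → ℝ := fun i => (x i : ℝ)

/-- positive definite with minimum at least 1 -/
structure Adm (G : Matrix ι ι ℝ) : Prop where
  pd : G.PosDef
  one_le : ∀ x : ι → ℤ, x ≠ 0 → 1 ≤ qf G (ic x)

/-- all values at `z - x`, `x` integral, are at least `s` -/
def Far (G : Matrix ι ι ℝ) (z : ι → ℝ) (s : ℝ) : Prop := ∀ x : ι → ℤ, s ≤ qf G (z - ic x)

omit [Fintype ι] in
theorem ic_add (x y : ι → ℤ) : ic (x + y) = ic x + ic y := by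
  funext i; simp [ic]

omit [Fintype ι] in
theorem ic_sub (x y : ι → ℤ) : ic (x - y) = ic x - ic y := by
  funext i; simp [ic]

omit [Fintype ι] in
theorem ic_neg (x : ι → ℤ) : ic (-x) = -ic x := by
  funext i; simp [ic]

omit [Fintype ι] in
theorem ic_smul (m : ℤ) (x : ι → ℤ) : ic (m • x) = (m : ℝ) • ic x := by
  funext i; simp [ic]

omit [Fintype ι] in
theorem ic_zero : ic (0 : ι → ℤ) = 0 := by
  funext i; simp [ic]

omit [Fintype ι] in
theorem ic_inj {x y : ι → ℤ} (h : ic x = ic y) : x = y := by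
  funext i
  have := congrFun h i
  simpa [ic] using this

theorem qf_smul (G : Matrix ι ι ℝ) (c : ℝ) (v : ι → ℝ) : qf G (c • v) = c ^ 2 * qf G v := by
  unfold qf
  rw [mulVec_smul, smul_dotProduct, dotProduct_smul, smul_eq_mul, smul_eq_mul]
  ring

theorem qf_smul_mat (G : Matrix ι ι ℝ) (c : ℝ) (v : ι → ℝ) : qf (c • G) v = c * qf G v := by
  unfold qf
  rw [smul_mulVec, dotProduct_smul, smul_eq_mul]

theorem qf_neg (G : Matrix ι ι ℝ) (v : ι → ℝ) : qf G (-v) = qf G v := by
  unfold qf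
  rw [mulVec_neg, neg_dotProduct_neg]

theorem qf_par (G : Matrix ι ι ℝ) (a b : ι → ℝ) :
    qf G (a + b) + qf G (a - b) = 2 * qf G a + 2 * qf G b := by
  unfold qf
  simp only [mulVec_add, mulVec_sub, add_dotProduct, dotProduct_add, sub_dotProduct, dotProduct_sub]
  ring

theorem qf_zero (G : Matrix ι ι ℝ) : qf G 0 = 0 := by
  unfold qf
  simp

theorem qf_conj {κ : Type*} [Fintype κ] (G : Matrix ι ι ℝ) (T : Matrix ι κ ℝ) (v : κ → ℝ) :
    qf (Tᵀ * G * T) v = qf G (T *ᵥ v) := by
  unfold qf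
  rw [← mulVec_mulVec, ← mulVec_mulVec, dotProduct_mulVec, vecMul_transpose]

theorem qf_pos {G : Matrix ι ι ℝ} (h : G.PosDef) {v : ι → ℝ} (hv : v ≠ 0) : 0 < qf G v := by
  have := h.dotProduct_mulVec_pos hv
  simpa [qf] using this

theorem qf_nonneg {G : Matrix ι ι ℝ} (h : G.PosDef) (v : ι → ℝ) : 0 ≤ qf G v := by
  by_cases hv : v = 0
  · rw [hv, qf_zero]
  · exact (qf_pos h hv).le

theorem pd_conj {κ : Type*} [Fintype κ] {G : Matrix ι ι ℝ} (h : G.PosDef) (T : Matrix ι κ ℝ)
    (hT : Function.Injective T.mulVec) : (Tᵀ * G * T).PosDef := by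
  have := h.conjTranspose_mul_mul_same (B := T) hT
  rwa [conjTranspose_eq_transpose_of_trivial] at this

theorem pd_smul {G : Matrix ι ι ℝ} (h : G.PosDef) {c : ℝ} (hc : 0 < c) : (c • G).PosDef := by
  refine posDef_iff_dotProduct_mulVec.2 ⟨?_, fun v hv => ?_⟩
  · have := h.isHermitian
    unfold IsHermitian at *
    rw [conjTranspose_smul, this]
    simp
  · have h1 := qf_smul_mat G c v
    unfold qf at h1
    rw [star_trivial, h1]
    exact mul_pos hc (qf_pos h hv)

/-- scaling -/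
theorem adm_of {G : Matrix ι ι ℝ} (h : G.PosDef) {b : ℝ} (hb : 0 < b)
    (hmin : ∀ x : ι → ℤ, x ≠ 0 → b ≤ qf G (ic x)) : Adm (b⁻¹ • G) := by
  refine ⟨pd_smul h (inv_pos.2 hb), fun x hx => ?_⟩
  rw [qf_smul_mat, ← div_eq_inv_mul, one_le_div hb]
  exact hmin x hx

theorem Far.mono {G : Matrix ι ι ℝ} {z : ι → ℝ} {s t : ℝ} (h : Far G z t) (hst : s ≤ t) : Far G z s :=
  fun x => hst.trans (h x)

theorem Far.add_ic {G : Matrix ι ι ℝ} {z : ι → ℝ} {s : ℝ} (h : Far G z s) (y : ι → ℤ) :
    Far G (z + ic y) s := by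
  intro x
  have := h (x - y)
  rw [ic_sub] at this
  have e : z + ic y - ic x = z - (ic x - ic y) := by abel
  rw [e]
  exact this

end

section

variable {ι : Type*} [Fintype ι] [DecidableEq ι]

/-- the basis in which the `i`-th vector is replaced by `w` -/
noncomputable def Tm (i : ι) (w : ι → ℝ) : Matrix ι ι ℝ :=
  1 + replicateCol Unit (w - Pi.single i (1 : ℝ)) * replicateRow Unit (Pi.single i (1 : ℝ))

theorem Tm_det (i : ι) (w : ι → ℝ) : (Tm i w).det = w i := by
  unfold Tm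
  rw [det_one_add_replicateCol_mul_replicateRow]
  simp

theorem Tm_mulVec (i : ι) (w y : ι → ℝ) : Tm i w *ᵥ y = y + y i • (w - Pi.single i 1) := by
  unfold Tm
  rw [add_mulVec, one_mulVec, ← mulVec_mulVec]
  congr 1
  funext k
  have h : ∑ x, (Pi.single i (1 : ℝ) : ι → ℝ) x * y x = y i := by
    simp [Pi.single_apply]
  simp only [mulVec, dotProduct, replicateCol, replicateRow, of_apply, Finset.univ_unique,
    Finset.sum_singleton, Pi.smul_apply, Pi.sub_apply, smul_eq_mul]
  rw [h]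
  ring

theorem mulVec_inj {T : Matrix ι ι ℝ} (h : T.det ≠ 0) : Function.Injective T.mulVec :=
  mulVec_injective_iff_isUnit.2 ((isUnit_iff_isUnit_det T).2 (isUnit_iff_ne_zero.2 h))

/-- the overlattice generated by `v / 2` for a vector with a coordinate 1 -/
theorem half_one {Q : Matrix ι ι ℝ} (hQ : Adm Q) (hcr : ∀ G : Matrix ι ι ℝ, Adm G → Q.det ≤ G.det)
    {b : ℝ} (hb : 0 < b) (hb1 : b ≤ 1) (i : ι) (v : ι → ℤ) (hv : v i = 1)
    (hf : Far Q ((1 / 2 : ℝ) • ic v) b) : 4 * b ^ Fintype.card ι ≤ 1 := by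
  set w : ι → ℝ := (1 / 2 : ℝ) • ic v with hw
  have hwi : w i = 1 / 2 := by simp [hw, ic, hv]
  have hdet : (Tm i w).det = 1 / 2 := by rw [Tm_det, hwi]
  have hinj : Function.Injective (Tm i w).mulVec := mulVec_inj (by rw [hdet]; norm_num)
  have hpd : ((Tm i w)ᵀ * Q * Tm i w).PosDef := pd_conj hQ.pd _ hinj
  have hmin : ∀ x : ι → ℤ, x ≠ 0 → b ≤ qf ((Tm i w)ᵀ * Q * Tm i w) (ic x) := by
    intro x hx
    rw [qf_conj, Tm_mulVec]
    have hxi : ic x i = (x i : ℝ) := rfl
    rcases Int.even_or_odd' (x i) with ⟨m, hm | hm⟩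
    · have e : ic x + ic x i • (w - Pi.single i 1) = ic (x + m • v - (2 * m) • Pi.single i 1) := by
        rw [hxi, hm, ic_sub, ic_add, ic_smul, ic_smul]
        funext k
        simp only [hw, Pi.add_apply, Pi.sub_apply, Pi.smul_apply, smul_eq_mul, ic]
        by_cases hk : k = i
        · subst hk; simp; ring
        · simp [Pi.single_eq_of_ne hk]; ring
      rw [e]
      refine hb1.trans (hQ.one_le _ fun h0 => hx ?_)
      rw [h0, ic_zero] at e
      have h1 : (Tm i w) *ᵥ (ic x) = (Tm i w) *ᵥ 0 := by rw [Tm_mulVec, e, mulVec_zero]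
      have h2 := hinj h1
      apply ic_inj
      rw [h2, ic_zero]
    · have e : ic x + ic x i • (w - Pi.single i 1) =
          w - ic (-(x + m • v - (2 * m + 1) • Pi.single i 1)) := by
        rw [hxi, hm, ic_neg, ic_sub, ic_add, ic_smul, ic_smul]
        funext k
        simp only [hw, Pi.add_apply, Pi.sub_apply, Pi.neg_apply, Pi.smul_apply, smul_eq_mul, ic]
        by_cases hk : k = i
        · subst hk; simp; ring
        · simp [Pi.single_eq_of_ne hk]; ring
      rw [e]
      exact hf _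
  have h1 := hcr _ (adm_of hpd hb hmin)
  rw [det_smul, det_mul, det_mul, det_transpose, hdet] at h1
  have hQd := hQ.pd.det_pos
  have h2 : (b⁻¹) ^ Fintype.card ι * (1 / 2 * Q.det * (1 / 2)) = Q.det * (1 / (4 * b ^ Fintype.card ι)) := by
    rw [inv_pow]
    field_simp
    ring
  rw [h2] at h1
  have h3 : (1 : ℝ) ≤ 1 / (4 * b ^ Fintype.card ι) := by
    by_contra hlt
    push Not at hlt
    have := mul_lt_mul_of_pos_left hlt hQd
    linarith
  rwa [le_div_iff₀ (by positivity), one_mul] at h3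

/-- **classes of order 2**: `a` is any number with `1 ≤ 4 a ^ n` -/
theorem half {Q : Matrix ι ι ℝ} (hQ : Adm Q) (hcr : ∀ G : Matrix ι ι ℝ, Adm G → Q.det ≤ G.det)
    {a : ℝ} (ha : 0 < a) (ha1 : a < 1) (han : 1 ≤ 4 * a ^ Fintype.card ι) {b : ℝ} (v : ι → ℤ)
    (hv : ∃ i, ¬ 2 ∣ v i) (hf : Far Q ((1 / 2 : ℝ) • ic v) b) : b ≤ a := by
  by_contra hlt
  push Not at hlt
  obtain ⟨i, hi⟩ := hv
  set b' := min b 1 with hb'
  have hab' : a < b' := lt_min hlt ha1
  have hb1 : b' ≤ 1 := min_le_right _ _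
  have hf' : Far Q ((1 / 2 : ℝ) • ic v) b' := hf.mono (min_le_left _ _)
  have hf2 : Far Q ((1 / 2 : ℝ) • ic fun k => v k % 2) b' := by
    have e : (1 / 2 : ℝ) • ic (fun k => v k % 2) = (1 / 2 : ℝ) • ic v + ic (fun k => -(v k / 2)) := by
      funext k
      have h1 : (v k : ℝ) = ((v k % 2 : ℤ) : ℝ) + 2 * ((v k / 2 : ℤ) : ℝ) := by
        have := Int.emod_add_mul_ediv (v k) 2
        exact_mod_cast this.symm
      simp only [Pi.smul_apply, Pi.add_apply, smul_eq_mul, ic]
      push_cast at h1 ⊢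
      rw [h1]
      ring
    rw [e]
    exact hf'.add_ic _
  have h1 := half_one hQ hcr (ha.trans hab') hb1 i (fun k => v k % 2) (by show v i % 2 = 1; omega) hf2
  have hne : Fintype.card ι ≠ 0 := by
    have : Nonempty ι := ⟨i⟩
    exact Fintype.card_ne_zero
  have h2 : a ^ Fintype.card ι < b' ^ Fintype.card ι := pow_lt_pow_left₀ hab' ha.le hne
  linarith

/-- **doubling**: if `z` is far from the lattice, then so is `2 z` -/
theorem double {Q : Matrix ι ι ℝ} (hQ : Adm Q) (hcr : ∀ G : Matrix ι ι ℝ, Adm G → Q.det ≤ G.det)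
    {a : ℝ} (ha : 0 < a) (ha1 : a < 1) (han : 1 ≤ 4 * a ^ Fintype.card ι) {z : ι → ℝ} {M : ℝ} 
    (hz : Far Q z M) : Far Q ((2 : ℝ) • z) (4 * (M - a)) := by
  intro v
  by_cases hv : ∃ i, ¬ 2 ∣ v i
  · have hf : Far Q ((1 / 2 : ℝ) • ic v) (M - qf Q ((2 : ℝ) • z - ic v) / 4) := by
      intro w
      have h1 := hz w
      have h2 := hz (v - w)
      have e1 : z - ic w = (z - (1 / 2 : ℝ) • ic v) + ((1 / 2 : ℝ) • ic v - ic w) := by abel
      have e2 : z - ic (v - w) = (z - (1 / 2 : ℝ) • ic v) - ((1 / 2 : ℝ) • ic v - ic w) := by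
        rw [ic_sub]
        funext k
        simp only [Pi.sub_apply, Pi.smul_apply, smul_eq_mul]
        ring
      have e3 : z - (1 / 2 : ℝ) • ic v = (1 / 2 : ℝ) • ((2 : ℝ) • z - ic v) := by
        funext k
        simp only [Pi.sub_apply, Pi.smul_apply, smul_eq_mul]
        ring
      rw [e1] at h1
      rw [e2] at h2
      have h3 := qf_par Q (z - (1 / 2 : ℝ) • ic v) ((1 / 2 : ℝ) • ic v - ic w)
      have h4 : qf Q (z - (1 / 2 : ℝ) • ic v) = qf Q ((2 : ℝ) • z - ic v) / 4 := by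
        rw [e3, qf_smul]
        ring
      linarith
    have := half hQ hcr ha ha1 han v hv hf
    linarith
  · push Not at hv
    choose u hu using hv
    have e : (2 : ℝ) • z - ic v = (2 : ℝ) • (z - ic u) := by
      funext k
      simp only [Pi.sub_apply, Pi.smul_apply, smul_eq_mul, ic]
      rw [hu k]
      push_cast
      ring
    rw [e, qf_smul]
    have := hz u
    linarith

end

end CritL
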