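import Pool.Agent.Lib.CritL.Gram

/-!
# Lattices given by congruences

`qf G v = v ⬝ᵥ (G *ᵥ v)`, `ic x` = the integer vector `x` as a real vector, `Adm G` = positive definite with
`1 ≤ qf G (ic x)` for all nonzero integer vectors `x` (file `Gram.lean`, see also `adm_of`, `qf_conj`, `pd_conj`).

The kernel of `φ` is a subgroup of `Fin n → ℤ` whose index is the cardinality of the range of `φ`, at most
`Nat.card A`, in particular finite, so the kernel has rank `n`. Let `T` be the integer matrix whose columns are a basis of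
the kernel; `|det T|` is the index. Take `Q = (1 / μ) Tᵀ G₀ T`.
-/

set_option autoImplicit false

namespace CritL

open Matrix

namespace HomAux

/-- the real matrix of an integer matrix -/
noncomputable def re {n : ℕ} (U : Matrix (Fin n) (Fin n) ℤ) : Matrix (Fin n) (Fin n) ℝ := U.map (Int.cast : ℤ → ℝ)

theorem re_mulVec {n : ℕ} (U : Matrix (Fin n) (Fin n) ℤ) (x : Fin n → ℤ) : re U *ᵥ ic x = ic (U *ᵥ x) := by
  funext k
  simp [re, mulVec, dotProduct, ic]

theorem re_det {n : ℕ} (U : Matrix (Fin n) (Fin n) ℤ) : (re U).det = (U.det : ℝ) :=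
  (Int.cast_det U).symm

/-- a matrix whose columns are a basis of the kernel -/
theorem exists_T {n : ℕ} {A : Type} [AddCommGroup A] [Finite A] (φ : (Fin n → ℤ) →+ A) :
    ∃ T : Matrix (Fin n) (Fin n) ℤ, T.det ≠ 0 ∧ T.det.natAbs ≤ Nat.card A ∧ ∀ x : Fin n → ℤ, φ (T *ᵥ x) = 0 := by
  classical
  have hidx : φ.ker.index = Nat.card φ.range := AddSubgroup.index_ker φ
  have hpos : Nat.card φ.range ≠ 0 := Nat.card_pos.ne'
  have : φ.ker.FiniteIndex := ⟨by rw [hidx]; exact hpos⟩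
  have hfr : Module.finrank ℤ φ.ker = n := by
    rw [AddSubgroup.finrank_eq_of_finiteIndex φ.ker, Module.finrank_fin_fun]
  have hfr' : Module.finrank ℤ (AddSubgroup.toIntSubmodule φ.ker) = n := hfr
  let b : Module.Basis (Fin n) ℤ (AddSubgroup.toIntSubmodule φ.ker) := Module.finBasisOfFinrankEq ℤ _ hfr'
  have hdet := Submodule.natAbs_det_basis_change (Pi.basisFun ℤ (Fin n)) (AddSubgroup.toIntSubmodule φ.ker) b
  have hcard : Nat.card ((Fin n → ℤ) ⧸ (AddSubgroup.toIntSubmodule φ.ker)) = φ.ker.index := rfl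
  rw [hcard, hidx, Module.Basis.det_apply] at hdet
  refine ⟨(Pi.basisFun ℤ (Fin n)).toMatrix ((↑) ∘ b), ?_, ?_, fun x => ?_⟩
  · intro h0
    rw [h0] at hdet
    exact hpos hdet.symm
  · rw [hdet]
    exact Nat.card_le_card_of_injective _ Subtype.val_injective
  · have hx : ((Pi.basisFun ℤ (Fin n)).toMatrix ((↑) ∘ b)) *ᵥ x =
        ((∑ j, x j • b j : AddSubgroup.toIntSubmodule φ.ker) : Fin n → ℤ) := by
      funext k
      rw [Submodule.coe_sum, Finset.sum_apply]
      simp only [mulVec, dotProduct, Module.Basis.toMatrix_apply, Pi.basisFun_repr, Function.comp_apply,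
        Submodule.coe_smul, Pi.smul_apply, smul_eq_mul]
      exact Finset.sum_congr rfl fun j _ => mul_comm _ _
    rw [hx]
    exact (∑ j, x j • b j : AddSubgroup.toIntSubmodule φ.ker).2

end HomAux

/-- the lattice of the integer vectors in the kernel of a homomorphism to a finite group -/
theorem exists_of_hom {n : ℕ} {A : Type} [AddCommGroup A] [Finite A] (φ : (Fin n → ℤ) →+ A)
    (G₀ : Matrix (Fin n) (Fin n) ℝ) (hG₀ : G₀.PosDef) (μ : ℝ) (hμ : 0 < μ)
    (h : ∀ x : Fin n → ℤ, φ x = 0 → x ≠ 0 → μ ≤ qf G₀ (ic x)) :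
    ∃ Q : Matrix (Fin n) (Fin n) ℝ, Adm Q ∧ Q.det ≤ (Nat.card A : ℝ) ^ 2 * G₀.det / μ ^ n := by
  classical
  obtain ⟨T, hT0, hT1, hT2⟩ := HomAux.exists_T φ
  have hTr : (HomAux.re T).det ≠ 0 := by
    rw [HomAux.re_det]
    exact_mod_cast hT0
  have hinj : Function.Injective (HomAux.re T).mulVec := mulVec_inj hTr
  have hinjZ : ∀ x : Fin n → ℤ, x ≠ 0 → T *ᵥ x ≠ 0 := by
    intro x hx h0
    apply hx
    apply ic_inj
    apply hinj
    rw [HomAux.re_mulVec, HomAux.re_mulVec, h0, mulVec_zero]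
  have hpd : ((HomAux.re T)ᵀ * G₀ * HomAux.re T).PosDef := pd_conj hG₀ _ hinj
  refine ⟨μ⁻¹ • ((HomAux.re T)ᵀ * G₀ * HomAux.re T), adm_of hpd hμ fun x hx => ?_, ?_⟩
  · rw [qf_conj, HomAux.re_mulVec]
    exact h _ (hT2 x) (hinjZ x hx)
  · rw [det_smul, det_mul, det_mul, det_transpose, HomAux.re_det, Fintype.card_fin, inv_pow, div_eq_inv_mul]
    refine mul_le_mul_of_nonneg_left ?_ (inv_nonneg.2 (pow_pos hμ n).le)
    have hG : 0 < G₀.det := hG₀.det_pos
    have h1 : (T.det : ℝ) ^ 2 ≤ (Nat.card A : ℝ) ^ 2 := by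
      rw [← sq_abs]
      have h2 : |(T.det : ℝ)| = (T.det.natAbs : ℝ) := by
        rw [Nat.cast_natAbs, Int.cast_abs]
      rw [h2]
      exact pow_le_pow_left₀ (Nat.cast_nonneg _) (by exact_mod_cast hT1) 2
    calc (T.det : ℝ) * G₀.det * (T.det : ℝ) = (T.det : ℝ) ^ 2 * G₀.det := by ring
      _ ≤ (Nat.card A : ℝ) ^ 2 * G₀.det := mul_le_mul_of_nonneg_right h1 hG.le

end CritL
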