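import Pool.Agent.Lib.CritL.Gram

/-!
# The Leech lattice as a Gram matrix

`qf G v = v ⬝ᵥ (G *ᵥ v)`, `ic x` = the integer vector `x` as a real vector, `Adm G` = positive definite with
`1 ≤ qf G (ic x)` for all nonzero integer vectors `x` (file `Gram.lean`, see also `adm_of`, `qf_conj`, `pd_conj` there).

Generator matrix `B` (lower triangular): rows `8 e_0`, `4 e_0 + 4 e_k` (k = 1..11), `2 r_j` (j = 0..10, `r_j` the rows of a
generator matrix `[A | I]` of the Golay code), `(-3, 1, ..., 1)`; `det B = 2^36`, `Q = (1/32) B Bᵀ`.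
Minimum: `y = x B = m 1 + 2 c`, `m = x_23`, `c` is congruent to a Golay codeword, `sum y` is `4 m` mod 8. With
`m = 2 m' + δ` and `z = m' + c` one has `y = δ + 2 z`, `z` is congruent to a codeword.
-/

set_option autoImplicit false

namespace CritL

open Matrix

namespace LeechAux

/-- rows of the generator matrix of the Golay code as bit masks -/
def row : ℕ → ℕ
  | 0 => 6715
  | 1 => 11549
  | 2 => 20110
  | 3 => 35655
  | 4 => 69027
  | 5 => 134865
  | 6 => 266088
  | 7 => 527284
  | 8 => 1051098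
  | 9 => 2099437
  | 10 => 4197494
  | 11 => 8390655
  | _ => 0

/-- a multiple of a mask -/
def bm (b : Bool) (r : ℕ) : ℕ := bif b then r else 0

/-- codeword -/
def word (b : ℕ → Bool) : ℕ → ℕ
  | 0 => 0
  | k + 1 => Nat.xor (word b k) (bm (b k) (row k))

/-- weight -/
def wt (w : ℕ) : ℕ → ℕ
  | 0 => 0
  | k + 1 => wt w k + (w.testBit k).toNat

/-- the check for one codeword -/
def chk (w : ℕ) : Bool := (wt w 24 % 4 == 0) && ((wt w 24 == 0) || Nat.ble 8 (wt w 24))

/-- all codewords -/
def all : ℕ → ℕ → Bool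
  | 0, w => chk w
  | k + 1, w => all k w && all k (Nat.xor w (row k))

theorem all_true : all 12 0 = true := by decide +kernel

theorem xor_assoc' (a b c : ℕ) : Nat.xor (Nat.xor a b) c = Nat.xor a (Nat.xor b c) :=
  Nat.xor_assoc a b c

theorem xor_comm' (a b : ℕ) : Nat.xor a b = Nat.xor b a := Nat.xor_comm a b

theorem xor_zero' (a : ℕ) : Nat.xor a 0 = a := Nat.xor_zero a

theorem all_spec (b : ℕ → Bool) : ∀ (k w : ℕ), all k w = true → chk (Nat.xor w (word b k)) = true := by
  intro k
  induction k with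
  | zero =>
    intro w h
    simpa [word, xor_zero', all] using h
  | succ k ih =>
    intro w h
    rw [all, Bool.and_eq_true] at h
    rw [word]
    cases hb : b k with
    | false =>
      have := ih w h.1
      simpa [bm, xor_zero'] using this
    | true =>
      have := ih _ h.2
      rw [xor_assoc', xor_comm' (row k)] at this
      simpa [bm] using this

/-- Boolean to `ZMod 2` -/
def tz (b : Bool) : ZMod 2 := bif b then 1 else 0

theorem tz_xor (a b : Bool) : tz (a ^^ b) = tz a + tz b := by cases a <;> cases b <;> decide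

theorem tz_bm (b : Bool) (r i : ℕ) : tz ((bm b r).testBit i) = tz b * tz (r.testBit i) := by
  cases b <;> simp [bm, tz]

theorem tz_word (b : ℕ → Bool) (i : ℕ) : ∀ k, tz ((word b k).testBit i) =
    ∑ j ∈ Finset.range k, tz (b j) * tz ((row j).testBit i) := by
  intro k
  induction k with
  | zero => simp [word, tz]
  | succ k ih =>
    rw [word, Finset.sum_range_succ, ← ih, ← tz_bm, ← tz_xor]
    congr 1
    exact Nat.testBit_xor _ _ _

theorem wt_sum (w : ℕ) : ∀ k, wt w k = ∑ i ∈ Finset.range k, (w.testBit i).toNat := by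
  intro k
  induction k with
  | zero => simp [wt]
  | succ k ih => rw [wt, Finset.sum_range_succ, ih]

/-- **the facts on the Golay code** -/
theorem golay (v : ℕ → ZMod 2) (z : Fin 24 → ℤ)
    (hz : ∀ i : Fin 24, (z i : ZMod 2) = ∑ j ∈ Finset.range 12, v j * tz ((row j).testBit i)) :
    ∃ N : ℕ, N = ∑ i, (z i % 2).toNat ∧ N % 4 = 0 ∧ (N = 0 ∨ 8 ≤ N) := by
  set b : ℕ → Bool := fun j => decide (v j = 1) with hb
  have hv : ∀ j, tz (b j) = v j := by
    intro j
    have : ∀ a : ZMod 2, tz (decide (a = 1)) = a := by decide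
    exact this _
  have h1 := all_spec b 12 0 all_true
  have h2 : Nat.xor 0 (word b 12) = word b 12 := Nat.zero_xor _
  rw [h2] at h1
  have hi : ∀ i : Fin 24, ((word b 12).testBit i).toNat = (z i % 2).toNat := by
    intro i
    have h3 := tz_word b i 12
    simp only [hv] at h3
    rw [← hz] at h3
    have h4 : (z i : ZMod 2) = ((z i % 2 : ℤ) : ZMod 2) := by
      rw [ZMod.intCast_eq_intCast_iff]
      exact (Int.mod_modEq _ _).symm
    rw [h4] at h3
    rcases Int.emod_two_eq_zero_or_one (z i) with h | h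
    · rw [h] at h3 ⊢
      cases hw : (word b 12).testBit i
      · rfl
      · rw [hw] at h3
        exact absurd h3 (by decide)
    · rw [h] at h3 ⊢
      cases hw : (word b 12).testBit i
      · rw [hw] at h3
        exact absurd h3 (by decide)
      · rfl
  have h5 : wt (word b 12) 24 = ∑ i : Fin 24, (z i % 2).toNat := by
    rw [wt_sum, ← Fin.sum_univ_eq_sum_range]
    exact Finset.sum_congr rfl fun i _ => hi i
  refine ⟨_, rfl, ?_⟩
  rw [← h5]
  simp only [chk, Bool.and_eq_true, Bool.or_eq_true, beq_iff_eq, Nat.ble_eq] at h1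
  exact h1

/-- half of the generator matrix -/
def C (k i : Fin 24) : ℤ :=
  if k.1 = 23 then (if i.1 = 0 then -2 else 0)
  else if 12 ≤ k.1 then (if (row (k.1 - 12)).testBit i.1 then 1 else 0)
  else if k.1 = 0 then (if i.1 = 0 then 4 else 0)
  else if i.1 = 0 ∨ i = k then 2 else 0

/-- the generator matrix -/
def B : Matrix (Fin 24) (Fin 24) ℤ := fun k i => (if k = 23 then 1 else 0) + 2 * C k i

theorem B_tri : ∀ k i : Fin 24, k < i → B k i = 0 := by decide +kernel

theorem B_diag : ∏ k : Fin 24, B k k = 2 ^ 36 := by decide +kernel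

theorem B_row : ∀ k : Fin 24, (∑ i, B k i) % 8 = if k = 23 then 4 else 0 := by decide +kernel

theorem B_det : B.det = 2 ^ 36 := by
  rw [det_of_isLowerTriangular, B_diag]
  intro i j h
  exact B_tri _ _ h

/-- the word of all ones -/
theorem ones : ∀ i : Fin 24, ∑ j ∈ Finset.range 12, tz ((row j).testBit i) = 1 := by decide +kernel

theorem C_mod : ∀ k i : Fin 24, (C k i : ZMod 2) =
    if 12 ≤ k.1 ∧ k.1 < 23 then tz ((row (k.1 - 12)).testBit i) else 0 := by decide +kernel

theorem sum_aux (x : Fin 24 → ℤ) (i : Fin 24) : ((∑ k, x k * C k i : ℤ) : ZMod 2) =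
    ∑ j ∈ Finset.range 12, (if h : j < 11 then (x ⟨12 + j, by omega⟩ : ZMod 2) else 0) *
      tz ((row j).testBit i) := by
  set X : ℕ → ZMod 2 := fun k => if h : k < 24 then (x ⟨k, h⟩ : ZMod 2) else 0 with hX
  have h1 : ((∑ k, x k * C k i : ℤ) : ZMod 2) =
      ∑ k ∈ Finset.range (12 + 12), X k *
        (if 12 ≤ k ∧ k < 23 then tz ((row (k - 12)).testBit i) else 0) := by
    rw [← Fin.sum_univ_eq_sum_range (fun k => X k *
        (if 12 ≤ k ∧ k < 23 then tz ((row (k - 12)).testBit i) else 0))]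
    push_cast
    refine Finset.sum_congr rfl fun k _ => ?_
    rw [C_mod, hX]
    simp only [Fin.is_lt, dif_pos, Fin.eta]
  rw [h1, Finset.sum_range_add]
  have h2 : ∑ k ∈ Finset.range 12, X k *
        (if 12 ≤ k ∧ k < 23 then tz ((row (k - 12)).testBit i) else 0) = 0 := by
    refine Finset.sum_eq_zero fun k hk => ?_
    have := Finset.mem_range.1 hk
    rw [if_neg (by omega), mul_zero]
  rw [h2, zero_add]
  refine Finset.sum_congr rfl fun j hj => ?_
  have hj' := Finset.mem_range.1 hj
  rw [hX]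
  by_cases h : j < 11
  · have h3 : 12 ≤ 12 + j ∧ 12 + j < 23 := by omega
    have h4 : 12 + j < 24 := by omega
    have h5 : 12 + j - 12 = j := by omega
    simp only [h3, h4, h, h5, dif_pos, and_self, if_true]
  · have h3 : ¬ (12 ≤ 12 + j ∧ 12 + j < 23) := by omega
    simp only [h, dif_neg, h3, if_false, mul_zero, zero_mul, not_false_eq_true]

/-- the minimum -/
theorem main (x : Fin 24 → ℤ) (hx : x ≠ 0) : 32 ≤ ∑ i, (∑ k, x k * B k i) ^ 2 := by
  obtain ⟨y, hy⟩ : ∃ y : Fin 24 → ℤ, ∀ i, y i = ∑ k, x k * B k i := ⟨_, fun _ => rfl⟩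
  obtain ⟨c, hc⟩ : ∃ c : Fin 24 → ℤ, ∀ i, c i = ∑ k, x k * C k i := ⟨_, fun _ => rfl⟩
  simp only [← hy]
  have hy0 : ∃ i, y i ≠ 0 := by
    by_contra h
    push Not at h
    have h1 : x ᵥ* B = 0 := by
      funext i
      rw [Pi.zero_apply, ← h i, hy]
      rfl
    exact hx (eq_zero_of_vecMul_eq_zero (by rw [B_det]; norm_num) h1)
  have hyc : ∀ i, y i = x 23 + 2 * c i := by
    intro i
    rw [hy, hc]
    simp only [B, mul_add, Finset.sum_add_distrib, mul_ite, mul_one, mul_zero, Finset.sum_ite_eq',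
      Finset.mem_univ, if_true, Finset.mul_sum]
    congr 1
    exact Finset.sum_congr rfl fun k _ => by ring
  obtain ⟨m', δ, hm, hδ⟩ : ∃ m' δ : ℤ, x 23 = 2 * m' + δ ∧ (δ = 0 ∨ δ = 1) :=
    ⟨x 23 / 2, x 23 % 2, by omega, by omega⟩
  obtain ⟨z, hz⟩ : ∃ z : Fin 24 → ℤ, ∀ i, z i = m' + c i := ⟨_, fun _ => rfl⟩
  have hyz : ∀ i, y i = δ + 2 * z i := by
    intro i
    rw [hyc, hz, hm]
    ring
  obtain ⟨S, hS⟩ : ∃ S : ℤ, ∑ i, y i = 8 * S + 4 * x 23 := by
    refine ⟨∑ k, x k * ((∑ i, B k i) / 8), ?_⟩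
    have h1 : ∑ i, y i = ∑ k, x k * ∑ i, B k i := by
      simp only [hy, Finset.mul_sum]
      exact Finset.sum_comm
    have h2 : ∀ k, x k * ∑ i, B k i = 8 * (x k * ((∑ i, B k i) / 8)) +
        (if k = 23 then 4 * x 23 else 0) := by
      intro k
      have h3 := B_row k
      have h4 := Int.emod_add_mul_ediv (∑ i, B k i) 8
      split_ifs with h5
      · rw [if_pos h5] at h3
        rw [h3] at h4
        conv_lhs => rw [← h4]
        rw [h5]
        ring
      · rw [if_neg h5] at h3
        rw [h3] at h4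
        conv_lhs => rw [← h4]
        ring
    rw [h1, Finset.sum_congr rfl fun k _ => h2 k, Finset.sum_add_distrib, Finset.mul_sum]
    simp
  obtain ⟨N, hN, hN4, hN8⟩ := golay
    (fun j => (if h : j < 11 then (x ⟨12 + j, by omega⟩ : ZMod 2) else 0) + (m' : ZMod 2)) z (by
      intro i
      rw [hz, Int.cast_add, hc, sum_aux]
      simp only [add_mul, Finset.sum_add_distrib]
      rw [← Finset.mul_sum, ones, mul_one, add_comm])
  rcases hδ with rfl | rfl
  · have hy2 : ∀ i, y i = 2 * z i := fun i => by rw [hyz, zero_add]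
    rcases hN8 with h0 | h8
    · rw [h0] at hN
      have h1 : ∀ i, (z i % 2).toNat = 0 := by
        intro i
        exact (Finset.sum_eq_zero_iff.1 hN.symm) i (Finset.mem_univ _)
      have h2 : ∀ i, ∃ t : ℤ, y i = 4 * t := by
        intro i
        have h3 := h1 i
        have h4 := hy2 i
        exact ⟨z i / 2, by omega⟩
      choose t ht using h2
      have h3 : ∑ i, t i = 2 * (S + m') := by
        have h4 : ∑ i, y i = 4 * ∑ i, t i := by
          rw [Finset.mul_sum]
          exact Finset.sum_congr rfl fun i _ => ht i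
        rw [hS, hm] at h4
        linarith
      have h5 : ∀ i, ∃ k : ℤ, t i ^ 2 = t i + 2 * k := by
        intro i
        obtain ⟨k, hk⟩ := Int.even_mul_pred_self (t i)
        exact ⟨k, by linarith [hk, sq (t i)]⟩
      choose k hk using h5
      have h6 : ∑ i, t i ^ 2 = 2 * (S + m' + ∑ i, k i) := by
        rw [Finset.sum_congr rfl fun i _ => hk i, Finset.sum_add_distrib, h3, ← Finset.mul_sum]
        ring
      have h7 : 0 < ∑ i, t i ^ 2 := by
        obtain ⟨i, hi⟩ := hy0
        have h8 : t i ≠ 0 := by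
          intro h
          rw [ht, h] at hi
          exact hi (by norm_num)
        exact Finset.sum_pos' (fun i _ => sq_nonneg _) ⟨i, Finset.mem_univ _, by positivity⟩
      have h9 : ∑ i, y i ^ 2 = 16 * ∑ i, t i ^ 2 := by
        rw [Finset.mul_sum]
        exact Finset.sum_congr rfl fun i _ => by rw [ht]; ring
      rw [h9, h6]
      rw [h6] at h7
      omega
    · have h1 : ∀ i, ((z i % 2).toNat : ℤ) ≤ z i ^ 2 := by
        intro i
        by_cases h : z i = 0
        · rw [h]
          simp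
        · have h2 : 0 < z i ^ 2 := by positivity
          omega
      have h2 : (N : ℤ) ≤ ∑ i, z i ^ 2 := by
        rw [hN]
        push_cast
        exact Finset.sum_le_sum fun i _ => by
          have := h1 i
          simpa using this
      have h3 : ∑ i, y i ^ 2 = 4 * ∑ i, z i ^ 2 := by
        rw [Finset.mul_sum]
        exact Finset.sum_congr rfl fun i _ => by rw [hy2]; ring
      rw [h3]
      have h4 : (8 : ℤ) ≤ N := by exact_mod_cast h8
      linarith
  · by_cases hall : ∀ i, z i = 0 ∨ z i = -1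
    · exfalso
      have h1 : ∀ i, z i = -((z i % 2).toNat : ℤ) := by
        intro i
        rcases hall i with h | h <;> rw [h] <;> rfl
      have h2 : ∑ i, z i = -(N : ℤ) := by
        rw [hN]
        push_cast
        rw [← Finset.sum_neg_distrib]
        exact Finset.sum_congr rfl fun i _ => by
          have := h1 i
          simpa using this
      have h3 : ∑ i, y i = 24 + 2 * ∑ i, z i := by
        rw [Finset.sum_congr rfl fun i _ => hyz i, Finset.sum_add_distrib, ← Finset.mul_sum]
        simp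
      rw [hS, h2, hm] at h3
      omega
    · push Not at hall
      obtain ⟨i, hi⟩ := hall
      have h1 : ∀ k, 0 ≤ y k ^ 2 - 1 := by
        intro k
        have h2 : y k ≠ 0 := by
          rw [hyz]
          omega
        have : 0 < y k ^ 2 := by positivity
        omega
      have h2 : 8 ≤ y i ^ 2 - 1 := by
        rw [hyz]
        have h3 : 1 ≤ z i ∨ z i ≤ -2 := by omega
        rcases h3 with h3 | h3
        · nlinarith
        · nlinarith
      have h3 : 8 ≤ ∑ k, (y k ^ 2 - 1) :=
        h2.trans (Finset.single_le_sum (f := fun k => y k ^ 2 - 1) (fun k _ => h1 k) (Finset.mem_univ i))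
      rw [Finset.sum_sub_distrib] at h3
      simp at h3
      linarith

end LeechAux

open LeechAux

/-- the Leech lattice -/
theorem exists_leech : ∃ Q : Matrix (Fin 24) (Fin 24) ℝ, Adm Q ∧ Q.det ≤ (1 / 2 : ℝ) ^ 48 := by
  set T : Matrix (Fin 24) (Fin 24) ℝ := (B.map (Int.cast : ℤ → ℝ))ᵀ with hT
  have hdet : T.det = 2 ^ 36 := by
    have h1 : (B.map (Int.cast : ℤ → ℝ)).det = ((B.det : ℤ) : ℝ) :=
      (RingHom.map_det (Int.castRingHom ℝ) B).symm
    rw [hT, det_transpose, h1, B_det]
    norm_num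
  have h1 : ((1 / 32 : ℝ) • (1 : Matrix (Fin 24) (Fin 24) ℝ)).PosDef :=
    pd_smul PosDef.one (by norm_num)
  refine ⟨Tᵀ * ((1 / 32 : ℝ) • (1 : Matrix (Fin 24) (Fin 24) ℝ)) * T, ⟨?_, ?_⟩, ?_⟩
  · exact pd_conj h1 T (mulVec_inj (by rw [hdet]; norm_num))
  · intro x hx
    rw [qf_conj, qf_smul_mat]
    have h2 : qf (1 : Matrix (Fin 24) (Fin 24) ℝ) (T *ᵥ ic x) =
        ((∑ i, (∑ k, x k * B k i) ^ 2 : ℤ) : ℝ) := by
      unfold qf
      rw [one_mulVec]
      push_cast
      unfold dotProduct
      refine Finset.sum_congr rfl fun i _ => ?_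
      rw [sq]
      have h3 : (T *ᵥ ic x) i = ∑ k, (x k : ℝ) * (B k i : ℝ) := by
        unfold mulVec dotProduct
        refine Finset.sum_congr rfl fun k _ => ?_
        rw [hT, mul_comm]
        rfl
      rw [h3]
    rw [h2]
    have h4 : (32 : ℝ) ≤ ((∑ i, (∑ k, x k * B k i) ^ 2 : ℤ) : ℝ) := by
      exact_mod_cast main x hx
    linarith
  · rw [det_mul, det_mul, det_transpose, hdet, det_smul, det_one, Fintype.card_fin]
    norm_num

end CritL
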