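import Pool.Agent.Lib.CritL.Gram

/-!
# Dense lattices in all dimensions (Minkowski-Hlawka, weak form)

`qf G v = v ⬝ᵥ (G *ᵥ v)`, `ic x` = the integer vector `x` as a real vector, `Adm G` = positive definite with
`1 ≤ qf G (ic x)` for all nonzero integer vectors `x` (file `Gram.lean`, see also `adm_of`, `qf_conj`, `pd_conj`, and
`Tm i w` = identity matrix with column `i` replaced by `w`, with `Tm_det`, `Tm_mulVec`, there).

Sketch. `n = 1`: the matrix 1. Let `n ≥ 2`, `p` a large prime (`p ≥ 100`, `p ≥ n ^ n`), `R = sqrt n * p ^ (1 - 1/n) / 5`, so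
`2 sqrt n ≤ R < p` and `(5 R / sqrt n) ^ n = p ^ (n - 1)`.
* Counting: the number of integer vectors `x` with `|x|^2 ≤ R^2` is, for every `s > 0`, at most
  `exp (s R^2) * (sum over k in ℤ of exp (-s k^2)) ^ n` (product of sums over a finite box), and the sum is at most
  `1 + sqrt (pi / s)` (integral test / Gaussian integral). With `s = n / (2 R^2)`:
  at most `(exp (1/2) * (1 + sqrt (2 pi) * R / sqrt n)) ^ n ≤ (5 R / sqrt n) ^ n = p ^ (n - 1)` as `R ≥ 2 sqrt n`. (Any other
  counting with the same final constant, or a weaker absolute constant, is fine: then tell helper5 the constant.)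
* For `a : Fin n → ZMod p` with `a 0 = 1` (there are `p ^ (n - 1)` of these) let `L_a` be the lattice of the integer vectors
  `x` with `x = x_0 a` mod `p`. A vector `x` that is not 0 mod `p` is in at most one `L_a`. So some `L_a` contains no nonzero
  integer vector with `|x| ≤ R` (vectors that are 0 mod `p` have `|x| ≥ p > R`); here the zero vector is counted above
  but excluded here, which gives the strict inequality needed for the pigeonhole.
* `L_a` has the basis `a` (lifted, with first coordinate 1), `p e_i` (`i ≠ 0`): the matrix `T` with these columns has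
  determinant `p ^ (n - 1)`; take `Q = (1 / R^2) Tᵀ T`; `det Q = p ^ (2 (n - 1)) / R ^ (2 n) = (25 / n) ^ n`.
-/

set_option autoImplicit false

namespace CritL

open Matrix

namespace MinkHlAux

open Real

theorem theta_nat {s : ℝ} (hs : 0 < s) (N : ℕ) :
    ∑ i ∈ Finset.range N, Real.exp (-s * ((i : ℝ) + 1) ^ 2) ≤ √(π / s) / 2 := by
  have hanti : AntitoneOn (fun x : ℝ => Real.exp (-s * x ^ 2)) (Set.Icc 0 (0 + (N : ℝ))) := by
    intro x hx y hy hxy
    apply Real.exp_le_exp.2
    have h : x ^ 2 ≤ y ^ 2 := pow_le_pow_left₀ hx.1 hxy 2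
    nlinarith
  have h1 := hanti.sum_le_integral
  have h2 : ∫ x in (0 : ℝ)..(0 + N), Real.exp (-s * x ^ 2) ≤
      ∫ x in Set.Ioi (0 : ℝ), Real.exp (-s * x ^ 2) := by
    rw [intervalIntegral.integral_of_le (by simp)]
    refine MeasureTheory.setIntegral_mono_set ((integrable_exp_neg_mul_sq hs).integrableOn) ?_ ?_
    · exact Filter.Eventually.of_forall fun x => (Real.exp_pos _).le
    · exact Filter.Eventually.of_forall fun x hx => hx.1
  rw [integral_gaussian_Ioi] at h2
  refine le_trans (le_of_eq ?_) (h1.trans h2)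
  refine Finset.sum_congr rfl fun i _ => ?_
  simp

theorem theta {s : ℝ} (hs : 0 < s) (N : ℕ) :
    ∑ k ∈ Finset.Icc (-(N : ℤ)) N, Real.exp (-s * (k : ℝ) ^ 2) ≤ 1 + √(π / s) := by
  have h : ∀ N : ℕ, ∑ k ∈ Finset.Icc (-(N : ℤ)) N, Real.exp (-s * (k : ℝ) ^ 2) =
      1 + 2 * ∑ i ∈ Finset.range N, Real.exp (-s * ((i : ℝ) + 1) ^ 2) := by
    intro N
    induction N with
    | zero => simp
    | succ N ih =>
      have e : Finset.Icc (-((N + 1 : ℕ) : ℤ)) ((N + 1 : ℕ) : ℤ) =
          insert (-((N : ℤ) + 1)) (insert ((N : ℤ) + 1) (Finset.Icc (-(N : ℤ)) N)) := by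
        ext k
        simp only [Finset.mem_Icc, Finset.mem_insert]
        push_cast
        omega
      rw [e, Finset.sum_insert, Finset.sum_insert, ih, Finset.sum_range_succ]
      · have e1 : Real.exp (-s * ((-((N : ℤ) + 1) : ℤ) : ℝ) ^ 2) =
            Real.exp (-s * ((N : ℝ) + 1) ^ 2) := by
          congr 1
          push_cast
          ring
        have e2 : Real.exp (-s * ((((N : ℤ) + 1) : ℤ) : ℝ) ^ 2) =
            Real.exp (-s * ((N : ℝ) + 1) ^ 2) := by
          congr 1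
          push_cast
          ring
        rw [e1, e2]
        ring
      · simp
      · simp only [Finset.mem_insert, Finset.mem_Icc]
        omega
  rw [h]
  have := theta_nat hs N
  linarith

/-- the integer vectors in the ball, inside the box -/
noncomputable def Ball (n N : ℕ) (r : ℝ) : Finset (Fin n → ℤ) :=
  (Fintype.piFinset (fun _ : Fin n => Finset.Icc (-(N : ℤ)) N)).filter
    (fun x => ∑ i, (x i : ℝ) ^ 2 ≤ r)

theorem count {n N : ℕ} {s r : ℝ} (hs : 0 < s) :
    ((Ball n N r).card : ℝ) ≤ Real.exp (s * r) * (1 + √(π / s)) ^ n := by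
  calc ((Ball n N r).card : ℝ) = ∑ x ∈ Ball n N r, (1 : ℝ) := by simp
    _ ≤ ∑ x ∈ Ball n N r, Real.exp (s * r) * ∏ i, Real.exp (-s * (x i : ℝ) ^ 2) := by
        refine Finset.sum_le_sum fun x hx => ?_
        rw [← Real.exp_sum, ← Real.exp_add]
        apply Real.one_le_exp
        rw [← Finset.mul_sum]
        have h1 := (Finset.mem_filter.1 hx).2
        nlinarith
    _ ≤ ∑ x ∈ Fintype.piFinset (fun _ : Fin n => Finset.Icc (-(N : ℤ)) N),
          Real.exp (s * r) * ∏ i, Real.exp (-s * (x i : ℝ) ^ 2) :=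
        Finset.sum_le_sum_of_subset_of_nonneg (Finset.filter_subset _ _)
          (fun _ _ _ => by positivity)
    _ = Real.exp (s * r) *
          (∑ k ∈ Finset.Icc (-(N : ℤ)) N, Real.exp (-s * (k : ℝ) ^ 2)) ^ n := by
        rw [← Finset.mul_sum]
        congr 1
        have h2 := Finset.prod_univ_sum (fun _ : Fin n => Finset.Icc (-(N : ℤ)) N)
          (fun (_ : Fin n) (k : ℤ) => Real.exp (-s * (k : ℝ) ^ 2))
        rw [← h2, Finset.prod_const, Finset.card_univ, Fintype.card_fin]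
    _ ≤ Real.exp (s * r) * (1 + √(π / s)) ^ n := by
        gcongr
        exact theta hs N

theorem abs_lt_p {n p : ℕ} {r : ℝ} (hr : r < (p : ℝ) ^ 2) {x : Fin n → ℤ}
    (hx : ∑ i, (x i : ℝ) ^ 2 ≤ r) (i : Fin n) : |x i| < (p : ℤ) := by
  have h1 : (x i : ℝ) ^ 2 ≤ ∑ i, (x i : ℝ) ^ 2 :=
    Finset.single_le_sum (f := fun i => (x i : ℝ) ^ 2) (fun _ _ => sq_nonneg _) (Finset.mem_univ i)
  have h2 : (x i : ℝ) ^ 2 < (p : ℝ) ^ 2 := by linarith
  have h3 : (x i) ^ 2 < (p : ℤ) ^ 2 := by exact_mod_cast h2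
  have h4 := sq_lt_sq.1 h3
  rwa [abs_of_nonneg (Int.natCast_nonneg p)] at h4

theorem good {m p : ℕ} (hp : p.Prime) {r : ℝ} (hr0 : 0 ≤ r) (hr : r < (p : ℝ) ^ 2)
    (hcard : ((Ball (m + 1) p r).card : ℝ) ≤ (p : ℝ) ^ m) :
    ∃ a : Fin m → ZMod p, ∀ x : Fin (m + 1) → ℤ, x ≠ 0 →
      (∀ i : Fin m, (x i.succ : ZMod p) = (x 0 : ZMod p) * a i) → r < ∑ i, (x i : ℝ) ^ 2 := by
  haveI := Fact.mk hp
  by_contra hcon
  push Not at hcon
  choose f hf0 hf1 hf2 using hcon
  have hfB : ∀ a, f a ∈ (Ball (m + 1) p r).erase 0 := by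
    intro a
    rw [Finset.mem_erase]
    refine ⟨hf0 a, ?_⟩
    rw [Ball, Finset.mem_filter, Fintype.mem_piFinset]
    refine ⟨fun i => ?_, hf2 a⟩
    have h := abs_lt.1 (abs_lt_p hr (hf2 a) i)
    exact Finset.mem_Icc.2 ⟨h.1.le, h.2.le⟩
  have hinj : Function.Injective f := by
    intro a b hab
    have hx0 : ((f a 0 : ℤ) : ZMod p) ≠ 0 := by
      intro h0
      apply hf0 a
      funext i
      have hdiv : (p : ℤ) ∣ f a i := by
        rw [← ZMod.intCast_zmod_eq_zero_iff_dvd]
        refine Fin.cases h0 (fun j => ?_) i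
        rw [hf1 a j, h0, zero_mul]
      exact Int.eq_zero_of_abs_lt_dvd hdiv (abs_lt_p hr (hf2 a) i)
    funext i
    have h1 := hf1 a i
    have h2 := hf1 b i
    rw [← hab] at h2
    exact mul_left_cancel₀ hx0 (h1.symm.trans h2)
  have hc : Fintype.card (Fin m → ZMod p) ≤ ((Ball (m + 1) p r).erase 0).card := by
    rw [← Finset.card_univ]
    exact Finset.card_le_card_of_injOn f (fun a _ => hfB a) hinj.injOn
  rw [Fintype.card_fun, ZMod.card, Fintype.card_fin] at hc
  have h0B : (0 : Fin (m + 1) → ℤ) ∈ Ball (m + 1) p r := by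
    rw [Ball, Finset.mem_filter, Fintype.mem_piFinset]
    refine ⟨fun i => ?_, ?_⟩
    · simp
    · simpa using hr0
  have h2 := Finset.card_erase_lt_of_mem h0B
  have h3 : p ^ m < (Ball (m + 1) p r).card := lt_of_le_of_lt hc h2
  exact absurd hcard (not_le.2 (by exact_mod_cast h3))

/-- the basis of the lattice -/
noncomputable def TT {m p : ℕ} (a : Fin m → ZMod p) : Matrix (Fin (m + 1)) (Fin (m + 1)) ℝ :=
  Matrix.of fun i j => Fin.cases (if j = 0 then 1 else 0)
    (fun i' => if j = 0 then (((a i').val : ℕ) : ℝ) else if j = i'.succ then (p : ℝ) else 0) i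

/-- the vector of the lattice with given coordinates -/
def lv {m p : ℕ} (a : Fin m → ZMod p) (y : Fin (m + 1) → ℤ) : Fin (m + 1) → ℤ :=
  Fin.cons (y 0) (fun i => (((a i).val : ℕ) : ℤ) * y 0 + p * y i.succ)

theorem TT_mulVec {m p : ℕ} (a : Fin m → ZMod p) (y : Fin (m + 1) → ℤ) :
    TT a *ᵥ ic y = ic (lv a y) := by
  funext i
  refine Fin.cases ?_ (fun i => ?_) i
  · simp [TT, lv, ic, mulVec, dotProduct, Fin.sum_univ_succ]
  · simp [TT, lv, ic, mulVec, dotProduct, Fin.sum_univ_succ, Fin.succ_ne_zero]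

theorem TT_det {m p : ℕ} (a : Fin m → ZMod p) : (TT a).det = (p : ℝ) ^ m := by
  rw [Matrix.det_of_isLowerTriangular]
  · rw [Fin.prod_univ_succ]
    simp [TT, Fin.succ_ne_zero]
  · intro i j hij
    have hij' : i < j := hij
    revert hij'
    refine Fin.cases (fun h => ?_) (fun i h => ?_) i
    · have : j ≠ 0 := by
        rintro rfl
        exact lt_irrefl _ h
      simp [TT, this]
    · have h0 : j ≠ 0 := by
        rintro rfl
        exact absurd h (Fin.not_lt_zero _)
      have h1 : j ≠ i.succ := h.ne'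
      simp [TT, h0, h1]

theorem qf_one {n : ℕ} (v : Fin n → ℝ) : qf (1 : Matrix (Fin n) (Fin n) ℝ) v = ∑ i, v i ^ 2 := by
  unfold qf
  rw [one_mulVec, dotProduct]
  exact Finset.sum_congr rfl fun i _ => (sq _).symm

theorem exists_Q {m p : ℕ} (hp : p.Prime) {r : ℝ} (hr : 0 < r) (a : Fin m → ZMod p)
    (ha : ∀ x : Fin (m + 1) → ℤ, x ≠ 0 →
      (∀ i : Fin m, (x i.succ : ZMod p) = (x 0 : ZMod p) * a i) → r < ∑ i, (x i : ℝ) ^ 2) :
    ∃ Q : Matrix (Fin (m + 1)) (Fin (m + 1)) ℝ, Adm Q ∧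
      Q.det = (r⁻¹) ^ (m + 1) * ((p : ℝ) ^ m) ^ 2 := by
  haveI : NeZero p := ⟨hp.ne_zero⟩
  have hp0 : (p : ℝ) ≠ 0 := by exact_mod_cast hp.ne_zero
  have hdet : (TT a).det ≠ 0 := by
    rw [TT_det]
    exact pow_ne_zero _ hp0
  refine ⟨r⁻¹ • ((TT a)ᵀ * 1 * TT a), adm_of (pd_conj PosDef.one _ (mulVec_inj hdet)) hr ?_, ?_⟩
  · intro y hy
    rw [qf_conj, TT_mulVec, qf_one]
    refine (ha (lv a y) ?_ ?_).le
    · intro h0
      apply hy
      have h1 : y 0 = 0 := by
        have := congrFun h0 0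
        simpa [lv] using this
      funext i
      refine Fin.cases h1 (fun i => ?_) i
      have h2 := congrFun h0 i.succ
      have h3 : ((p : ℤ) = 0 ∨ y i.succ = 0) := by
        simpa [lv, h1] using h2
      rcases h3 with h3 | h3
      · exact absurd (by exact_mod_cast h3) hp.ne_zero
      · exact h3
    · intro i
      simp [lv, mul_comm]
  · rw [det_smul, det_mul, det_mul, det_transpose, det_one, TT_det, Fintype.card_fin]
    ring

end MinkHlAux

open MinkHlAux in
/-- dense lattices exist in all dimensions -/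
theorem exists_dense (n : ℕ) (hn : 0 < n) :
    ∃ Q : Matrix (Fin n) (Fin n) ℝ, Adm Q ∧ Q.det ≤ (25 / (n : ℝ)) ^ n := by
  obtain ⟨m, rfl⟩ : ∃ m, n = m + 1 := ⟨n - 1, by omega⟩
  rcases Nat.eq_zero_or_pos m with rfl | hm
  · refine ⟨1, ⟨PosDef.one, fun x hx => ?_⟩, ?_⟩
    · rw [qf_one]
      have h0 : x 0 ≠ 0 := by
        intro h
        apply hx
        funext i
        have hi : i = 0 := Fin.ext (by omega)
        rw [hi, h]
        rfl
      have h1 : (1 : ℤ) ≤ x 0 ^ 2 := by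
        have := sq_pos_of_ne_zero h0
        omega
      have h2 : (1 : ℝ) ≤ (x 0 : ℝ) ^ 2 := by exact_mod_cast h1
      simpa [ic] using h2
    · rw [det_one]
      norm_num
  · obtain ⟨p, hpb, hp⟩ := Nat.exists_infinite_primes (100 + (m + 1) ^ (m + 1))
    have hp100 : (100 : ℝ) ≤ p := by exact_mod_cast (Nat.le_add_right _ _).trans hpb
    have hpn : ((m : ℝ) + 1) ^ (m + 1) ≤ p := by exact_mod_cast (Nat.le_add_left _ _).trans hpb
    have hp0 : (0 : ℝ) < p := by linarith
    obtain ⟨w, hw0, hw⟩ : ∃ w : ℝ, 0 ≤ w ∧ w ^ (m + 1) = (p : ℝ) ^ m := by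
      refine ⟨((p : ℝ) ^ m) ^ ((((m + 1 : ℕ) : ℝ))⁻¹), by positivity, ?_⟩
      exact Real.rpow_inv_natCast_pow (by positivity) (Nat.succ_ne_zero m)
    have hw10 : 10 ≤ w := by
      by_contra hlt
      push Not at hlt
      have h1 : w ^ (m + 1) < 10 ^ (m + 1) := pow_lt_pow_left₀ hlt hw0 (Nat.succ_ne_zero m)
      have h2 : (10 : ℝ) ^ (m + 1) ≤ 10 ^ (2 * m) := pow_le_pow_right₀ (by norm_num) (by omega)
      have h3 : (10 : ℝ) ^ (2 * m) = 100 ^ m := by rw [pow_mul]; norm_num
      have h4 : (100 : ℝ) ^ m ≤ (p : ℝ) ^ m := pow_le_pow_left₀ (by norm_num) hp100 m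
      rw [hw] at h1
      linarith
    have hwp : 0 < w := by linarith
    have hwn : ((m : ℝ) + 1) * w ^ 2 ≤ (p : ℝ) ^ 2 := by
      by_contra hlt
      push Not at hlt
      have h1 : ((p : ℝ) ^ 2) ^ (m + 1) < (((m : ℝ) + 1) * w ^ 2) ^ (m + 1) :=
        pow_lt_pow_left₀ hlt (by positivity) (Nat.succ_ne_zero m)
      have h2 : (((m : ℝ) + 1) * w ^ 2) ^ (m + 1) = ((m : ℝ) + 1) ^ (m + 1) * ((p : ℝ) ^ m) ^ 2 := by
        rw [mul_pow, ← hw]
        ring
      have h3 : ((m : ℝ) + 1) ^ (m + 1) * ((p : ℝ) ^ m) ^ 2 ≤ p * ((p : ℝ) ^ m) ^ 2 :=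
        mul_le_mul_of_nonneg_right hpn (by positivity)
      have h4 : ((p : ℝ) ^ 2) ^ (m + 1) = p ^ 2 * ((p : ℝ) ^ m) ^ 2 := by ring
      have h5 : (p : ℝ) * ((p : ℝ) ^ m) ^ 2 ≤ p ^ 2 * ((p : ℝ) ^ m) ^ 2 :=
        mul_le_mul_of_nonneg_right (by nlinarith) (by positivity)
      rw [h2, h4] at h1
      linarith
    set r : ℝ := ((m : ℝ) + 1) * w ^ 2 / 25 with hrdef
    have hr0 : 0 < r := by positivity
    have hr : r < (p : ℝ) ^ 2 := by
      rw [hrdef, div_lt_iff₀ (by norm_num)]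
      nlinarith
    have hcard : ((Ball (m + 1) p r).card : ℝ) ≤ (p : ℝ) ^ m := by
      have hs : (0 : ℝ) < 25 / (2 * w ^ 2) := by positivity
      refine (count hs).trans ?_
      have e1 : 25 / (2 * w ^ 2) * r = ((m + 1 : ℕ) : ℝ) * (1 / 2) := by
        rw [hrdef]
        push_cast
        field_simp
      have e2 : √(Real.pi / (25 / (2 * w ^ 2))) = √(2 * Real.pi) * (w / 5) := by
        have e3 : Real.pi / (25 / (2 * w ^ 2)) = 2 * Real.pi * (w / 5) ^ 2 := by
          field_simp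
          ring
        rw [e3, Real.sqrt_mul (by positivity), Real.sqrt_sq (by positivity)]
      rw [e1, e2, Real.exp_nat_mul, ← mul_pow, ← hw]
      refine pow_le_pow_left₀ (by positivity) ?_ _
      have hexp : Real.exp (1 / 2) ≤ 1.65 := by
        have h1 : Real.exp (1 / 2) ^ 2 = Real.exp 1 := by
          rw [← Real.exp_nat_mul]
          norm_num
        have h2 := Real.exp_one_lt_d9
        have h3 := Real.exp_pos (1 / 2)
        by_contra hlt
        push Not at hlt
        nlinarith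
      have hsq : √(2 * Real.pi) ≤ 2.51 := by
        rw [Real.sqrt_le_left (by norm_num)]
        have := Real.pi_lt_d2
        norm_num at this ⊢
        linarith
      have h1 : 1 + √(2 * Real.pi) * (w / 5) ≤ 1 + 2.51 * (w / 5) := by
        have := mul_le_mul_of_nonneg_right hsq (show 0 ≤ w / 5 by positivity)
        linarith
      calc Real.exp (1 / 2) * (1 + √(2 * Real.pi) * (w / 5))
          ≤ 1.65 * (1 + 2.51 * (w / 5)) := by
            refine mul_le_mul hexp h1 (by positivity) (by norm_num)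
        _ ≤ w := by
            norm_num
            linarith
    obtain ⟨a, ha⟩ := good hp hr0.le hr hcard
    obtain ⟨Q, hQ, hdet⟩ := exists_Q hp hr0 a ha
    refine ⟨Q, hQ, le_of_eq ?_⟩
    rw [hdet, ← hw, hrdef]
    have hm1 : (m : ℝ) + 1 ≠ 0 := by positivity
    push_cast
    rw [inv_div, ← pow_mul, mul_comm (m + 1) 2, pow_mul, ← mul_pow]
    congr 1
    field_simp

end CritL
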