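import Pool.Agent.Lib.CritL.Sec
import Pool.Agent.Lib.CritL.Blich
import Pool.Agent.Lib.CritL.Leech
import Pool.Agent.Lib.CritL.MinkHl
import Pool.Agent.Lib.CritL.Dens

/-!
# The infimum of the determinants
-/

set_option autoImplicit false

namespace CritL

open Matrix

/-- the infimum of the determinants of the forms with minimum at least 1 in dimension `n` -/
noncomputable def Dn (n : ℕ) : ℝ := sInf {t : ℝ | ∃ G : Matrix (Fin n) (Fin n) ℝ, Adm G ∧ t = G.det}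

theorem bdd (n : ℕ) : BddBelow {t : ℝ | ∃ G : Matrix (Fin n) (Fin n) ℝ, Adm G ∧ t = G.det} := by
  refine ⟨0, ?_⟩
  rintro t ⟨G, hG, rfl⟩
  exact hG.pd.det_pos.le

theorem Dn_le {n : ℕ} {G : Matrix (Fin n) (Fin n) ℝ} (hG : Adm G) : Dn n ≤ G.det := csInf_le (bdd n) ⟨G, hG, rfl⟩

/-- the unit form -/
theorem adm_one (n : ℕ) : Adm (1 : Matrix (Fin n) (Fin n) ℝ) := by
  refine ⟨PosDef.one, fun x hx => ?_⟩
  obtain ⟨i, hi⟩ := Function.ne_iff.1 hx
  have h1 : (1 : ℝ) ≤ (x i : ℝ) ^ 2 := by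
    have : 1 ≤ (x i) ^ 2 := by
      have := sq_pos_of_ne_zero hi
      omega
    exact_mod_cast this
  unfold qf
  rw [one_mulVec]
  calc (1 : ℝ) ≤ (x i : ℝ) ^ 2 := h1
    _ = ic x i * ic x i := by simp [ic, sq]
    _ ≤ ic x ⬝ᵥ ic x := Finset.single_le_sum (f := fun i => ic x i * ic x i) (fun i _ => mul_self_nonneg _)
      (Finset.mem_univ i)

theorem nonempty (n : ℕ) : {t : ℝ | ∃ G : Matrix (Fin n) (Fin n) ℝ, Adm G ∧ t = G.det}.Nonempty :=
  ⟨_, 1, adm_one n, rfl⟩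

theorem le_Dn {n : ℕ} {c : ℝ} (h : ∀ G : Matrix (Fin n) (Fin n) ℝ, Adm G → c ≤ G.det) : c ≤ Dn n := by
  refine le_csInf (nonempty n) ?_
  rintro t ⟨G, hG, rfl⟩
  exact h G hG

theorem Dn_eq {n : ℕ} {P : Matrix (Fin n) (Fin n) ℝ} (hP : Adm P)
    (hcr : ∀ G : Matrix (Fin n) (Fin n) ℝ, Adm G → P.det ≤ G.det) : P.det = Dn n :=
  le_antisymm (le_Dn hcr) (Dn_le hP)

/-- lower bound from Blichfeldt's bound -/
theorem low (n : ℕ) (hn : 1 ≤ n) : 1 / ((n + 3).factorial : ℝ) ≤ Dn n := by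
  refine le_Dn fun G hG => le_trans ?_ (blichfeldt hn hG)
  have hs : (2 : ℝ) ≤ (n : ℝ) / 2 + 2 := by
    have : (0 : ℝ) ≤ n := Nat.cast_nonneg n
    linarith
  have hg : 0 < Real.Gamma ((n : ℝ) / 2 + 2) := Real.Gamma_pos_of_pos (by linarith)
  have h1 : Real.Gamma ((n : ℝ) / 2 + 2) ≤ Real.Gamma ((n : ℝ) / 2 + 2 + 1 / 2) :=
    (Real.Gamma_strictMonoOn_Ici.monotoneOn (Set.mem_Ici.2 hs) (Set.mem_Ici.2 (by linarith)) (by linarith))
  have h2 := Real.Gamma_mul_Gamma_add_half ((n : ℝ) / 2 + 2)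
  have h3 : Real.Gamma (2 * ((n : ℝ) / 2 + 2)) = ((n + 3).factorial : ℝ) := by
    have : 2 * ((n : ℝ) / 2 + 2) = ((n + 3 : ℕ) : ℝ) + 1 := by push_cast; ring
    rw [this, Real.Gamma_nat_eq_factorial]
  have h4 : (2 : ℝ) ^ (1 - 2 * ((n : ℝ) / 2 + 2)) = 1 / 2 ^ (n + 3) := by
    have : 1 - 2 * ((n : ℝ) / 2 + 2) = -((n + 3 : ℕ) : ℝ) := by push_cast; ring
    rw [this, Real.rpow_neg (by norm_num), Real.rpow_natCast, one_div]
  have h5 : Real.Gamma ((n : ℝ) / 2 + 2) ^ 2 ≤ ((n + 3).factorial : ℝ) * (1 / 2 ^ (n + 3)) * Real.sqrt Real.pi := by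
    calc Real.Gamma ((n : ℝ) / 2 + 2) ^ 2 = Real.Gamma ((n : ℝ) / 2 + 2) * Real.Gamma ((n : ℝ) / 2 + 2) := sq _
      _ ≤ Real.Gamma ((n : ℝ) / 2 + 2) * Real.Gamma ((n : ℝ) / 2 + 2 + 1 / 2) := mul_le_mul_of_nonneg_left h1 hg.le
      _ = _ := by rw [h2, h3, h4]
  have hf : (0 : ℝ) < (n + 3).factorial := by exact_mod_cast Nat.factorial_pos _
  rw [div_le_div_iff₀ hf (by positivity), one_mul]
  refine h5.trans ?_
  have hpi : (1 : ℝ) ≤ Real.pi := by linarith [Real.pi_gt_three]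
  have h6 : Real.sqrt Real.pi ≤ 2 := by
    rw [Real.sqrt_le_left (by norm_num)]
    linarith [Real.pi_lt_four]
  have h7 : (1 : ℝ) / 2 ^ (n + 3) * Real.sqrt Real.pi ≤ (Real.pi / 2) ^ n := by
    have h8 : (1 : ℝ) / 2 ^ (n + 3) * Real.sqrt Real.pi ≤ 1 / 2 ^ (n + 3) * 2 :=
      mul_le_mul_of_nonneg_left h6 (by positivity)
    have h9 : (1 : ℝ) / 2 ^ (n + 3) * 2 ≤ (1 / 2) ^ n := by
      rw [pow_add, one_div, one_div, inv_pow]
      have : (0 : ℝ) < (2 ^ n)⁻¹ := by positivity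
      rw [mul_inv]
      nlinarith
    have h10 : ((1 : ℝ) / 2) ^ n ≤ (Real.pi / 2) ^ n := pow_le_pow_left₀ (by norm_num) (by linarith) n
    linarith
  calc ((n + 3).factorial : ℝ) * (1 / 2 ^ (n + 3)) * Real.sqrt Real.pi
      = (1 / 2 ^ (n + 3) * Real.sqrt Real.pi) * ((n + 3).factorial : ℝ) := by ring
    _ ≤ (Real.pi / 2) ^ n * ((n + 3).factorial : ℝ) := mul_le_mul_of_nonneg_right h7 hf.le

theorem Dn_pos (n : ℕ) : 0 < Dn n := by
  rcases Nat.eq_zero_or_pos n with rfl | hn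
  · have : (1 : ℝ) ≤ Dn 0 := le_Dn fun G _ => by simp
    linarith
  · exact lt_of_lt_of_le (by positivity) (low n hn)

/-- **Mordell's inequality** -/
theorem mordell (n : ℕ) (hn : 1 ≤ n) : Dn n ^ (n + 1) ≤ Dn (n + 1) ^ (n - 1) := by
  have hx := Dn_pos (n + 1)
  have hy := Dn_pos n
  set x := Dn (n + 1) with hxd
  set c := x * Dn n ^ (n + 1) with hc
  have h1 : c ≤ x ^ n := by
    by_contra hlt
    push Not at hlt
    have h2 : ∀ᶠ t in nhds x, t ^ n < c := (continuous_pow n).continuousAt.eventually_lt continuousAt_const hlt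
    obtain ⟨δ, hδ, h3⟩ := Metric.eventually_nhds_iff.1 h2
    obtain ⟨t, ⟨G, hG, rfl⟩, ht⟩ := exists_lt_of_csInf_lt (nonempty (n + 1)) (show sInf _ < x + δ by
      show Dn (n + 1) < x + δ
      linarith)
    have h4 : x ≤ G.det := Dn_le hG
    have h5 : G.det ^ n < c := h3 (by
      rw [Real.dist_eq, abs_of_nonneg (by linarith)]
      linarith)
    have h6 := dual_ge hy (fun G hG => Dn_le hG) (fun G hG => Dn_le hG) hG
    exact absurd h6 (not_le.2 h5)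
  obtain ⟨k, rfl⟩ : ∃ k, n = k + 1 := ⟨n - 1, by omega⟩
  rw [hc, pow_succ' x k] at h1
  have h2 := le_of_mul_le_mul_left h1 hx
  simpa using h2

theorem up (n : ℕ) (hn : 1 ≤ n) : Dn n ≤ (25 / (n : ℝ)) ^ n := by
  obtain ⟨Q, hQ, hle⟩ := exists_dense n hn
  exact (Dn_le hQ).trans hle

/-- a dual vector of norm at most 4 -/
theorem Dn_step {n : ℕ} {P : Matrix (Fin (n + 1)) (Fin (n + 1)) ℝ} (hP : Adm P) (u : Fin (n + 1) → ℤ) (hu : u ≠ 0)
    (h4 : qf P⁻¹ (ic u) ≤ 4) : Dn n ≤ 4 * P.det := by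
  have h1 := section_ge (fun G hG => Dn_le hG) hP u hu
  have h2 := mul_le_mul_of_nonneg_left h4 hP.pd.det_pos.le
  linarith

theorem one_le_Dn_one : 1 ≤ Dn 1 := by
  refine le_Dn fun G hG => ?_
  have h := hG.one_le (fun _ => 1) (by
    intro h0
    have := congrFun h0 0
    simp at this)
  rw [det_fin_one]
  simpa [qf, dotProduct, mulVec, ic] using h

end CritL
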