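import Pool.Agent.Lib.CritL.Gram

/-!
# An orthogonal sum of two lattices can be improved

`qf G v = v ⬝ᵥ (G *ᵥ v)`, `ic x` = the integer vector `x` as a real vector, `Adm G` = positive definite with
`1 ≤ qf G (ic x)` for all nonzero integer vectors `x` (file `Gram.lean`).

Sketch. On `Fin n ⊕ Fin m` (transport to `Fin (n + m)` by `finSumFinEquiv`; see the proof of `layer` in `Layer.lean` for such a
transport) let `G t = fromBlocks Q (t • X) (t • Xᵀ) P` with `X` the matrix with a single entry 1 (at `(⟨0, hn⟩, ⟨0, hm⟩)`) and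
`t > 0` small. Value at `(a, b)`: `qf Q a + qf P b + 2 t a_0 b_0`. By positive definiteness there are constants with
`a_0 ^ 2 ≤ c qf Q a` and `b_0 ^ 2 ≤ c qf P b` for all real `a`, `b` (Cauchy-Schwarz, `c` = the entries of the inverse matrices;
e.g. from `Q⁻¹` positive definite), so `|2 t a_0 b_0| ≤ t c (qf Q a + qf P b) ≤ (1/2) (qf Q a + qf P b)` for `t c ≤ 1/2`. This gives
positive definiteness, and the value at an integer vector with `a ≠ 0`, `b ≠ 0` is at least `(1/2) (1 + 1) = 1`; with `a = 0` or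
`b = 0` the mixed term is 0. Determinant: `det_fromBlocks₁₁`: `det (G t) = det Q * det (P - t^2 Xᵀ Q⁻¹ X)`, and
`Xᵀ Q⁻¹ X = (Q⁻¹)_{00} e_0 e_0ᵀ`, so `det (G t) = det Q * det P * (1 - t^2 (Q⁻¹)_{00} (P⁻¹)_{00}) < det Q * det P`
(matrix determinant lemma).
-/

set_option autoImplicit false

namespace CritL

open Matrix

namespace JoinAux

section

variable {ι : Type*} [Fintype ι] [DecidableEq ι]

omit [Fintype ι] [DecidableEq ι] in
theorem symm_of {Q : Matrix ι ι ℝ} (hQ : Q.PosDef) : Qᵀ = Q := by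
  have := hQ.isHermitian
  rwa [IsHermitian, conjTranspose_eq_transpose_of_trivial] at this

/-- Cauchy-Schwarz for one coordinate -/
theorem coord {Q : Matrix ι ι ℝ} (hQ : Q.PosDef) (i : ι) (a : ι → ℝ) :
    a i ^ 2 ≤ Q⁻¹ i i * qf Q a := by
  have hq : 0 < Q⁻¹ i i := hQ.inv.diag_pos
  have hu : IsUnit Q.det := isUnit_iff_ne_zero.2 hQ.det_pos.ne'
  have hkey : ∀ s : ℝ, 0 ≤ qf Q a - 2 * s * a i + s ^ 2 * Q⁻¹ i i := by
    intro s
    have h := qf_nonneg hQ (a - s • (Q⁻¹ *ᵥ Pi.single i 1))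
    have h1 : Q *ᵥ (Q⁻¹ *ᵥ Pi.single i 1) = Pi.single i 1 := by
      rw [mulVec_mulVec, mul_nonsing_inv Q hu, one_mulVec]
    have h2 : (Q⁻¹ *ᵥ Pi.single i 1) ⬝ᵥ (Q *ᵥ a) = a i := by
      rw [dotProduct_mulVec, ← mulVec_transpose, symm_of hQ, h1, single_dotProduct, one_mul]
    have h3 : (Q⁻¹ *ᵥ Pi.single i 1) ⬝ᵥ Pi.single i 1 = Q⁻¹ i i := by
      rw [dotProduct_single, mul_one, mulVec_single_one]
      rfl
    have h4 : qf Q (a - s • (Q⁻¹ *ᵥ Pi.single i 1)) =
        qf Q a - 2 * s * a i + s ^ 2 * Q⁻¹ i i := by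
      unfold qf
      rw [mulVec_sub, mulVec_smul, h1, sub_dotProduct, dotProduct_sub, dotProduct_sub,
        smul_dotProduct, smul_dotProduct, dotProduct_smul, dotProduct_smul, h2, h3,
        dotProduct_single, mul_one]
      simp only [smul_eq_mul]
      ring
    rw [h4] at h
    exact h
  have h := hkey (a i / Q⁻¹ i i)
  have h5 : qf Q a - 2 * (a i / Q⁻¹ i i) * a i + (a i / Q⁻¹ i i) ^ 2 * Q⁻¹ i i =
      qf Q a - a i ^ 2 / Q⁻¹ i i := by
    field_simp
    ring
  rw [h5, sub_nonneg, div_le_iff₀ hq] at h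
  linarith

end

section

variable {n m : ℕ}

/-- the perturbed form -/
noncomputable def Gt (Q : Matrix (Fin n) (Fin n) ℝ) (P : Matrix (Fin m) (Fin m) ℝ) (i : Fin n)
    (j : Fin m) (t : ℝ) : Matrix (Fin n ⊕ Fin m) (Fin n ⊕ Fin m) ℝ :=
  fromBlocks Q (single i j t) (single j i t) P

theorem Gt_qf (Q : Matrix (Fin n) (Fin n) ℝ) (P : Matrix (Fin m) (Fin m) ℝ) (i : Fin n)
    (j : Fin m) (t : ℝ) (v : Fin n ⊕ Fin m → ℝ) :
    qf (Gt Q P i j t) v = qf Q (v ∘ Sum.inl) + qf P (v ∘ Sum.inr) +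
      2 * t * (v (Sum.inl i) * v (Sum.inr j)) := by
  unfold Gt qf
  rw [fromBlocks_mulVec, dotProduct_block, single_mulVec, single_mulVec]
  have h1 : ∀ (x : Fin n → ℝ) (c : ℝ), x ⬝ᵥ Function.update (0 : Fin n → ℝ) i c = x i * c := by
    intro x c
    exact dotProduct_single x c i
  have h2 : ∀ (x : Fin m → ℝ) (c : ℝ), x ⬝ᵥ Function.update (0 : Fin m → ℝ) j c = x j * c := by
    intro x c
    exact dotProduct_single x c j
  rw [Sum.elim_comp_inl, Sum.elim_comp_inr, dotProduct_add, dotProduct_add, h1, h2]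
  simp only [Function.comp_apply]
  ring

theorem Gt_symm {Q : Matrix (Fin n) (Fin n) ℝ} {P : Matrix (Fin m) (Fin m) ℝ} (hQ : Q.PosDef)
    (hP : P.PosDef) (i : Fin n) (j : Fin m) (t : ℝ) : (Gt Q P i j t)ᵀ = Gt Q P i j t := by
  unfold Gt
  rw [fromBlocks_transpose, symm_of hQ, symm_of hP, transpose_single, transpose_single]

theorem Gt_det {Q : Matrix (Fin n) (Fin n) ℝ} {P : Matrix (Fin m) (Fin m) ℝ} (hQ : Q.PosDef)
    (hP : P.PosDef) (i : Fin n) (j : Fin m) (t : ℝ) :
    (Gt Q P i j t).det = Q.det * P.det * (1 - t ^ 2 * Q⁻¹ i i * P⁻¹ j j) := by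
  have hu : IsUnit Q.det := isUnit_iff_ne_zero.2 hQ.det_pos.ne'
  have hv : IsUnit P.det := isUnit_iff_ne_zero.2 hP.det_pos.ne'
  have inv1 : Invertible Q := invertibleOfIsUnitDet Q hu
  unfold Gt
  rw [det_fromBlocks₁₁, invOf_eq_nonsing_inv, single_mul_mul_single]
  have h1 : P - single j j (t * Q⁻¹ i i * t) =
      P + replicateCol Unit (Pi.single j (-(t * Q⁻¹ i i * t)) : Fin m → ℝ) *
        replicateRow Unit (Pi.single j 1 : Fin m → ℝ) := by
    rw [sub_eq_add_neg]
    congr 1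
    ext a b
    rw [mul_apply]
    simp only [neg_apply, single, of_apply, Finset.univ_unique, Finset.sum_singleton,
      replicateCol_apply, replicateRow_apply, Pi.single_apply]
    by_cases ha : j = a
    · by_cases hb : j = b
      · subst ha; subst hb; simp
      · have hb' : ¬ b = j := fun h => hb h.symm
        simp [hb, hb']
    · have ha' : ¬ a = j := fun h => ha h.symm
      simp [ha, ha']
  rw [h1, det_add_replicateCol_mul_replicateRow hv]
  have h2 : (1 + replicateRow Unit (Pi.single j 1 : Fin m → ℝ) * P⁻¹ *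
      replicateCol Unit (Pi.single j (-(t * Q⁻¹ i i * t)) : Fin m → ℝ)).det =
      1 - t ^ 2 * Q⁻¹ i i * P⁻¹ j j := by
    rw [det_unique, Matrix.add_apply, one_apply_eq, mul_apply]
    simp only [mul_apply, replicateCol_apply, replicateRow_apply, Pi.single_apply]
    simp
    ring
  rw [h2]
  ring

end

end JoinAux

open JoinAux in
/-- an orthogonal sum can be improved -/
theorem join {n m : ℕ} (hn : 0 < n) (hm : 0 < m) {Q : Matrix (Fin n) (Fin n) ℝ} {P : Matrix (Fin m) (Fin m) ℝ}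
    (hQ : Adm Q) (hP : Adm P) : ∃ G : Matrix (Fin (n + m)) (Fin (n + m)) ℝ, Adm G ∧ G.det < Q.det * P.det := by
  set i : Fin n := ⟨0, hn⟩
  set j : Fin m := ⟨0, hm⟩
  have hq : 0 < Q⁻¹ i i := hQ.pd.inv.diag_pos
  have hr : 0 < P⁻¹ j j := hP.pd.inv.diag_pos
  obtain ⟨t, ht⟩ : ∃ t : ℝ, t = 1 / (2 * (Q⁻¹ i i + P⁻¹ j j)) := ⟨_, rfl⟩
  have ht0 : 0 < t := by
    rw [ht]
    positivity
  have htc : t * (Q⁻¹ i i + P⁻¹ j j) = 1 / 2 := by
    rw [ht]
    field_simp
  have hlow : ∀ v : Fin n ⊕ Fin m → ℝ, (qf Q (v ∘ Sum.inl) + qf P (v ∘ Sum.inr)) / 2 ≤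
      qf (Gt Q P i j t) v := by
    intro v
    rw [Gt_qf]
    have h1 := coord hQ.pd i (v ∘ Sum.inl)
    have h2 := coord hP.pd j (v ∘ Sum.inr)
    have h3 := qf_nonneg hQ.pd (v ∘ Sum.inl)
    have h4 := qf_nonneg hP.pd (v ∘ Sum.inr)
    have h5 : (v ∘ Sum.inl) i = v (Sum.inl i) := rfl
    have h6 : (v ∘ Sum.inr) j = v (Sum.inr j) := rfl
    rw [h5] at h1
    rw [h6] at h2
    have h7 : t * (v (Sum.inl i) ^ 2 + v (Sum.inr j) ^ 2) ≤
        (qf Q (v ∘ Sum.inl) + qf P (v ∘ Sum.inr)) / 2 := by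
      have h8 : v (Sum.inl i) ^ 2 + v (Sum.inr j) ^ 2 ≤
          (Q⁻¹ i i + P⁻¹ j j) * (qf Q (v ∘ Sum.inl) + qf P (v ∘ Sum.inr)) := by
        have h9 := mul_nonneg hq.le h4
        have h10 := mul_nonneg hr.le h3
        nlinarith
      have h11 := mul_le_mul_of_nonneg_left h8 ht0.le
      rw [← mul_assoc, htc] at h11
      linarith
    have h12 : 0 ≤ t * (v (Sum.inl i) + v (Sum.inr j)) ^ 2 := by positivity
    nlinarith
  have hpd : (Gt Q P i j t).PosDef := by
    refine posDef_iff_dotProduct_mulVec.2 ⟨?_, fun v hv => ?_⟩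
    · rw [IsHermitian, conjTranspose_eq_transpose_of_trivial]
      exact Gt_symm hQ.pd hP.pd i j t
    · rw [star_trivial]
      have h1 := hlow v
      have h2 : 0 < (qf Q (v ∘ Sum.inl) + qf P (v ∘ Sum.inr)) / 2 := by
        have h3 := qf_nonneg hQ.pd (v ∘ Sum.inl)
        have h4 := qf_nonneg hP.pd (v ∘ Sum.inr)
        by_cases hl : v ∘ Sum.inl = 0
        · have hr' : v ∘ Sum.inr ≠ 0 := by
            intro hr'
            apply hv
            funext k
            rcases k with k | k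
            · exact congrFun hl k
            · exact congrFun hr' k
          have := qf_pos hP.pd hr'
          linarith
        · have := qf_pos hQ.pd hl
          linarith
      exact lt_of_lt_of_le h2 h1
  have hdet : (Gt Q P i j t).det < Q.det * P.det := by
    rw [Gt_det hQ.pd hP.pd]
    have h1 : 0 < Q.det * P.det := mul_pos hQ.pd.det_pos hP.pd.det_pos
    have h2 : 0 < t ^ 2 * Q⁻¹ i i * P⁻¹ j j := by positivity
    nlinarith
  -- transport
  let e : Fin n ⊕ Fin m ≃ Fin (n + m) := finSumFinEquiv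
  refine ⟨(Gt Q P i j t).submatrix e.symm e.symm, ⟨hpd.submatrix e.symm.injective, ?_⟩, ?_⟩
  · intro x hx
    have h1 : qf ((Gt Q P i j t).submatrix e.symm e.symm) (ic x) =
        qf (Gt Q P i j t) (ic x ∘ e) := by
      unfold qf
      rw [submatrix_mulVec_equiv]
      simp only [dotProduct, Function.comp_apply, Equiv.symm_symm]
      rw [← e.sum_comp]
      simp
    rw [h1]
    have hint1 : (ic x ∘ e) ∘ Sum.inl = ic (fun k => x (e (Sum.inl k))) := rfl
    have hint2 : (ic x ∘ e) ∘ Sum.inr = ic (fun k => x (e (Sum.inr k))) := rfl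
    by_cases hl : (fun k => x (e (Sum.inl k))) = 0
    · have hr' : (fun k => x (e (Sum.inr k))) ≠ 0 := by
        intro hr'
        apply hx
        funext k
        obtain ⟨k, rfl⟩ := e.surjective k
        rcases k with k | k
        · exact congrFun hl k
        · exact congrFun hr' k
      rw [Gt_qf, hint1, hint2, hl]
      have h2 : (ic x ∘ e) (Sum.inl i) = 0 := by
        have h3 : x (e (Sum.inl i)) = 0 := congrFun hl i
        show ((x (e (Sum.inl i)) : ℤ) : ℝ) = 0
        rw [h3, Int.cast_zero]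
      rw [h2, ic_zero, qf_zero]
      have := hP.one_le _ hr'
      linarith
    · by_cases hr' : (fun k => x (e (Sum.inr k))) = 0
      · rw [Gt_qf, hint1, hint2, hr']
        have h2 : (ic x ∘ e) (Sum.inr j) = 0 := by
          have h3 : x (e (Sum.inr j)) = 0 := congrFun hr' j
          show ((x (e (Sum.inr j)) : ℤ) : ℝ) = 0
          rw [h3, Int.cast_zero]
        rw [h2, ic_zero, qf_zero]
        have := hQ.one_le _ hl
        linarith
      · have h2 := hlow (ic x ∘ e)
        rw [hint1, hint2] at h2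
        have h3 := hQ.one_le _ hl
        have h4 := hP.one_le _ hr'
        linarith
  · rw [det_submatrix_equiv_self]
    exact hdet

end CritL
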