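import Pool.Agent.Lib.CritL.Hom

/-!
# The laminated lattices in dimensions 9 and 10

Sketch. Apply `exists_of_hom` with `μ = 8`.
* Dimension 10: integer vectors `(t, x, y_1, ..., y_4, z_1, ..., z_4)` with the form `3 t^2 + x^2 + sum y_i^2 + sum z_i^2`
  (diagonal matrix, determinant 3) and the conditions `t = x`, `y_2 = y_1`, `y_3 = y_1`, `z_2 = z_1`, `z_3 = z_1`, `z_4 = z_1`,
  `t + y_1 + z_1 = 0` modulo 2 and `3 t + x + sum y_i + sum z_i = 0` modulo 4: a homomorphism to a group of order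
  `2^7 * 4 = 512`. The last condition mod 2 and the others give also `y_4 = y_1` mod 2. Let the vector be nonzero. If all
  coordinates are even, write it as `2 (t', x', y', z')`; then `3 t' + x' + sum y' + sum z'` is even, and
  `3 t'^2 + x'^2 + ... ≥ 2` (parity: `a^2 = a` mod 2, and it is positive), so the form is at least 8. Otherwise exactly two of
  the three blocks `(t, x)`, `(y_i)`, `(z_i)` are odd, and the form is at least `4 + 4`.
  `det ≤ 512^2 * 3 / 8^10 = (3/4) (1/2)^10`.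
* Dimension 9: `(t, y_1, ..., y_4, z_1, ..., z_4)` with the form `4 t^2 + sum y_i^2 + sum z_i^2` and the conditions `y_2 = y_1`,
  `y_3 = y_1`, `z_2 = z_1`, `z_3 = z_1`, `z_4 = z_1`, `t + y_1 + z_1 = 0` modulo 2 and `sum y_i + sum z_i = 0` modulo 4: order
  `2^6 * 4 = 256`, `det ≤ 256^2 * 4 / 8^9 = (1/2)^9`. Minimum 8 in the same way (all even: `4 t'^2 + ...` with `sum y' + sum z'`
  even).
-/

set_option autoImplicit false

namespace CritL

open Matrix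

namespace LamAux

/-- the homomorphism of the congruences -/
def hom {n k : ℕ} (L : Fin k → Fin n → ℤ) (M : Fin n → ℤ) :
    (Fin n → ℤ) →+ (Fin k → ZMod 2) × ZMod 4 :=
  AddMonoidHom.mk' (fun x => (fun j => ((∑ i, L j i * x i : ℤ) : ZMod 2),
    ((∑ i, M i * x i : ℤ) : ZMod 4))) (by
    intro a b
    refine Prod.ext (funext fun j => ?_) ?_
    · simp only [Pi.add_apply, mul_add, Finset.sum_add_distrib, Prod.fst_add]
      push_cast
      rfl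
    · simp only [Pi.add_apply, mul_add, Finset.sum_add_distrib, Prod.snd_add]
      push_cast
      rfl)

theorem hom_two {n k : ℕ} {L : Fin k → Fin n → ℤ} {M : Fin n → ℤ} {x : Fin n → ℤ}
    (h : hom L M x = 0) (j : Fin k) : (2 : ℤ) ∣ ∑ i, L j i * x i := by
  have h1 := congrFun (congrArg Prod.fst h) j
  have h2 : ((∑ i, L j i * x i : ℤ) : ZMod 2) = 0 := h1
  exact (ZMod.intCast_zmod_eq_zero_iff_dvd _ 2).1 h2

theorem hom_four {n k : ℕ} {L : Fin k → Fin n → ℤ} {M : Fin n → ℤ} {x : Fin n → ℤ}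
    (h : hom L M x = 0) : (4 : ℤ) ∣ ∑ i, M i * x i := by
  have h2 : ((∑ i, M i * x i : ℤ) : ZMod 4) = 0 := congrArg Prod.snd h
  exact (ZMod.intCast_zmod_eq_zero_iff_dvd _ 4).1 h2

theorem card_A (k : ℕ) : Nat.card ((Fin k → ZMod 2) × ZMod 4) = 2 ^ k * 4 := by
  rw [Nat.card_prod, Nat.card_fun, Nat.card_zmod, Nat.card_zmod]
  simp

theorem qf_diag {n : ℕ} (d : Fin n → ℝ) (v : Fin n → ℝ) :
    qf (diagonal d) v = ∑ i, d i * v i ^ 2 := by
  unfold qf dotProduct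
  refine Finset.sum_congr rfl fun i _ => ?_
  rw [mulVec_diagonal]
  ring

theorem odd_sq {a : ℤ} (h : a % 2 = 1) : 1 ≤ a ^ 2 := by
  have : a ≠ 0 := by
    rintro rfl
    norm_num at h
  have : 0 < a ^ 2 := by positivity
  omega

theorem sq_mod (a : ℤ) : ∃ k : ℤ, a ^ 2 = a + 2 * k := by
  obtain ⟨k, hk⟩ := Int.even_mul_pred_self a
  exact ⟨k, by linarith [hk, sq a]⟩

theorem min10 {t x a b c d e f g h : ℤ} (h1 : 2 ∣ t - x) (h2 : 2 ∣ b - a) (h3 : 2 ∣ c - a)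
    (h4 : 2 ∣ f - e) (h5 : 2 ∣ g - e) (h6 : 2 ∣ h - e) (h7 : 2 ∣ t + a + e)
    (h8 : 4 ∣ 3 * t + x + a + b + c + d + e + f + g + h)
    (hne : ¬ (t = 0 ∧ x = 0 ∧ a = 0 ∧ b = 0 ∧ c = 0 ∧ d = 0 ∧ e = 0 ∧ f = 0 ∧ g = 0 ∧ h = 0)) :
    8 ≤ 3 * t ^ 2 + x ^ 2 + a ^ 2 + b ^ 2 + c ^ 2 + d ^ 2 + e ^ 2 + f ^ 2 + g ^ 2 + h ^ 2 := by
  have n1 := sq_nonneg t
  have n2 := sq_nonneg x
  have n3 := sq_nonneg a
  have n4 := sq_nonneg b
  have n5 := sq_nonneg c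
  have n6 := sq_nonneg d
  have n7 := sq_nonneg e
  have n8 := sq_nonneg f
  have n9 := sq_nonneg g
  have n10 := sq_nonneg h
  rcases Int.emod_two_eq_zero_or_one t with ht | ht <;>
    rcases Int.emod_two_eq_zero_or_one a with ha | ha
  · obtain ⟨t', rfl⟩ : ∃ t', t = 2 * t' := ⟨t / 2, by omega⟩
    obtain ⟨x', rfl⟩ : ∃ t', x = 2 * t' := ⟨x / 2, by omega⟩
    obtain ⟨a', rfl⟩ : ∃ t', a = 2 * t' := ⟨a / 2, by omega⟩
    obtain ⟨b', rfl⟩ : ∃ t', b = 2 * t' := ⟨b / 2, by omega⟩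
    obtain ⟨c', rfl⟩ : ∃ t', c = 2 * t' := ⟨c / 2, by omega⟩
    obtain ⟨d', rfl⟩ : ∃ t', d = 2 * t' := ⟨d / 2, by omega⟩
    obtain ⟨e', rfl⟩ : ∃ t', e = 2 * t' := ⟨e / 2, by omega⟩
    obtain ⟨f', rfl⟩ : ∃ t', f = 2 * t' := ⟨f / 2, by omega⟩
    obtain ⟨g', rfl⟩ : ∃ t', g = 2 * t' := ⟨g / 2, by omega⟩
    obtain ⟨h', rfl⟩ : ∃ t', h = 2 * t' := ⟨h / 2, by omega⟩
    obtain ⟨k1, e1⟩ := sq_mod t'
    obtain ⟨k2, e2⟩ := sq_mod x'
    obtain ⟨k3, e3⟩ := sq_mod a'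
    obtain ⟨k4, e4⟩ := sq_mod b'
    obtain ⟨k5, e5⟩ := sq_mod c'
    obtain ⟨k6, e6⟩ := sq_mod d'
    obtain ⟨k7, e7⟩ := sq_mod e'
    obtain ⟨k8, e8⟩ := sq_mod f'
    obtain ⟨k9, e9⟩ := sq_mod g'
    obtain ⟨k10, e10⟩ := sq_mod h'
    have hpos : 0 < 3 * t' ^ 2 + x' ^ 2 + a' ^ 2 + b' ^ 2 + c' ^ 2 + d' ^ 2 + e' ^ 2 + f' ^ 2 +
        g' ^ 2 + h' ^ 2 := by
      by_contra hcon
      apply hne
      have m1 := sq_nonneg t'
      have m2 := sq_nonneg x'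
      have m3 := sq_nonneg a'
      have m4 := sq_nonneg b'
      have m5 := sq_nonneg c'
      have m6 := sq_nonneg d'
      have m7 := sq_nonneg e'
      have m8 := sq_nonneg f'
      have m9 := sq_nonneg g'
      have m10 := sq_nonneg h'
      have z : ∀ q : ℤ, q ^ 2 = 0 → 2 * q = 0 := by
        intro q hq
        rw [pow_eq_zero_iff two_ne_zero] at hq
        rw [hq]
        norm_num
      exact ⟨z _ (by omega), z _ (by omega), z _ (by omega), z _ (by omega), z _ (by omega),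
        z _ (by omega), z _ (by omega), z _ (by omega), z _ (by omega), z _ (by omega)⟩
    have hs : 3 * (2 * t') ^ 2 + (2 * x') ^ 2 + (2 * a') ^ 2 + (2 * b') ^ 2 + (2 * c') ^ 2 +
        (2 * d') ^ 2 + (2 * e') ^ 2 + (2 * f') ^ 2 + (2 * g') ^ 2 + (2 * h') ^ 2 =
        4 * (3 * t' ^ 2 + x' ^ 2 + a' ^ 2 + b' ^ 2 + c' ^ 2 + d' ^ 2 + e' ^ 2 + f' ^ 2 +
        g' ^ 2 + h' ^ 2) := by ring
    rw [hs]
    rw [e1, e2, e3, e4, e5, e6, e7, e8, e9, e10] at hpos ⊢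
    omega
  · have q1 := odd_sq ha
    have q2 := odd_sq (a := b) (by omega)
    have q3 := odd_sq (a := c) (by omega)
    have q4 := odd_sq (a := d) (by omega)
    have q5 := odd_sq (a := e) (by omega)
    have q6 := odd_sq (a := f) (by omega)
    have q7 := odd_sq (a := g) (by omega)
    have q8 := odd_sq (a := h) (by omega)
    omega
  · have q1 := odd_sq ht
    have q2 := odd_sq (a := x) (by omega)
    have q5 := odd_sq (a := e) (by omega)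
    have q6 := odd_sq (a := f) (by omega)
    have q7 := odd_sq (a := g) (by omega)
    have q8 := odd_sq (a := h) (by omega)
    omega
  · have q1 := odd_sq ha
    have q2 := odd_sq (a := b) (by omega)
    have q3 := odd_sq (a := c) (by omega)
    have q4 := odd_sq (a := d) (by omega)
    have q5 := odd_sq ht
    have q6 := odd_sq (a := x) (by omega)
    omega

theorem min9 {t a b c d e f g h : ℤ} (h2 : 2 ∣ b - a) (h3 : 2 ∣ c - a)
    (h4 : 2 ∣ f - e) (h5 : 2 ∣ g - e) (h6 : 2 ∣ h - e) (h7 : 2 ∣ t + a + e)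
    (h8 : 4 ∣ a + b + c + d + e + f + g + h)
    (hne : ¬ (t = 0 ∧ a = 0 ∧ b = 0 ∧ c = 0 ∧ d = 0 ∧ e = 0 ∧ f = 0 ∧ g = 0 ∧ h = 0)) :
    8 ≤ 4 * t ^ 2 + a ^ 2 + b ^ 2 + c ^ 2 + d ^ 2 + e ^ 2 + f ^ 2 + g ^ 2 + h ^ 2 := by
  have n1 := sq_nonneg t
  have n3 := sq_nonneg a
  have n4 := sq_nonneg b
  have n5 := sq_nonneg c
  have n6 := sq_nonneg d
  have n7 := sq_nonneg e
  have n8 := sq_nonneg f
  have n9 := sq_nonneg g
  have n10 := sq_nonneg h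
  rcases Int.emod_two_eq_zero_or_one t with ht | ht <;>
    rcases Int.emod_two_eq_zero_or_one a with ha | ha
  · obtain ⟨t', rfl⟩ : ∃ t', t = 2 * t' := ⟨t / 2, by omega⟩
    obtain ⟨a', rfl⟩ : ∃ t', a = 2 * t' := ⟨a / 2, by omega⟩
    obtain ⟨b', rfl⟩ : ∃ t', b = 2 * t' := ⟨b / 2, by omega⟩
    obtain ⟨c', rfl⟩ : ∃ t', c = 2 * t' := ⟨c / 2, by omega⟩
    obtain ⟨d', rfl⟩ : ∃ t', d = 2 * t' := ⟨d / 2, by omega⟩
    obtain ⟨e', rfl⟩ : ∃ t', e = 2 * t' := ⟨e / 2, by omega⟩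
    obtain ⟨f', rfl⟩ : ∃ t', f = 2 * t' := ⟨f / 2, by omega⟩
    obtain ⟨g', rfl⟩ : ∃ t', g = 2 * t' := ⟨g / 2, by omega⟩
    obtain ⟨h', rfl⟩ : ∃ t', h = 2 * t' := ⟨h / 2, by omega⟩
    obtain ⟨k3, e3⟩ := sq_mod a'
    obtain ⟨k4, e4⟩ := sq_mod b'
    obtain ⟨k5, e5⟩ := sq_mod c'
    obtain ⟨k6, e6⟩ := sq_mod d'
    obtain ⟨k7, e7⟩ := sq_mod e'
    obtain ⟨k8, e8⟩ := sq_mod f'
    obtain ⟨k9, e9⟩ := sq_mod g'
    obtain ⟨k10, e10⟩ := sq_mod h'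
    have hpos : 0 < 4 * t' ^ 2 + a' ^ 2 + b' ^ 2 + c' ^ 2 + d' ^ 2 + e' ^ 2 + f' ^ 2 +
        g' ^ 2 + h' ^ 2 := by
      by_contra hcon
      apply hne
      have m1 := sq_nonneg t'
      have m3 := sq_nonneg a'
      have m4 := sq_nonneg b'
      have m5 := sq_nonneg c'
      have m6 := sq_nonneg d'
      have m7 := sq_nonneg e'
      have m8 := sq_nonneg f'
      have m9 := sq_nonneg g'
      have m10 := sq_nonneg h'
      have z : ∀ q : ℤ, q ^ 2 = 0 → 2 * q = 0 := by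
        intro q hq
        rw [pow_eq_zero_iff two_ne_zero] at hq
        rw [hq]
        norm_num
      exact ⟨z _ (by omega), z _ (by omega), z _ (by omega), z _ (by omega), z _ (by omega),
        z _ (by omega), z _ (by omega), z _ (by omega), z _ (by omega)⟩
    have hs : 4 * (2 * t') ^ 2 + (2 * a') ^ 2 + (2 * b') ^ 2 + (2 * c') ^ 2 +
        (2 * d') ^ 2 + (2 * e') ^ 2 + (2 * f') ^ 2 + (2 * g') ^ 2 + (2 * h') ^ 2 =
        4 * (4 * t' ^ 2 + a' ^ 2 + b' ^ 2 + c' ^ 2 + d' ^ 2 + e' ^ 2 + f' ^ 2 +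
        g' ^ 2 + h' ^ 2) := by ring
    rw [hs]
    rw [e3, e4, e5, e6, e7, e8, e9, e10] at hpos ⊢
    omega
  · have q1 := odd_sq ha
    have q2 := odd_sq (a := b) (by omega)
    have q3 := odd_sq (a := c) (by omega)
    have q4 := odd_sq (a := d) (by omega)
    have q5 := odd_sq (a := e) (by omega)
    have q6 := odd_sq (a := f) (by omega)
    have q7 := odd_sq (a := g) (by omega)
    have q8 := odd_sq (a := h) (by omega)
    omega
  · have q1 := odd_sq ht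
    have q5 := odd_sq (a := e) (by omega)
    have q6 := odd_sq (a := f) (by omega)
    have q7 := odd_sq (a := g) (by omega)
    have q8 := odd_sq (a := h) (by omega)
    omega
  · have q1 := odd_sq ha
    have q2 := odd_sq (a := b) (by omega)
    have q3 := odd_sq (a := c) (by omega)
    have q4 := odd_sq (a := d) (by omega)
    have q5 := odd_sq ht
    omega

/-- congruences modulo 2, dimension 10 -/
def L10 : Fin 7 → Fin 10 → ℤ := ![![1, -1, 0, 0, 0, 0, 0, 0, 0, 0], ![0, 0, -1, 1, 0, 0, 0, 0, 0, 0],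
  ![0, 0, -1, 0, 1, 0, 0, 0, 0, 0], ![0, 0, 0, 0, 0, 0, -1, 1, 0, 0],
  ![0, 0, 0, 0, 0, 0, -1, 0, 1, 0], ![0, 0, 0, 0, 0, 0, -1, 0, 0, 1],
  ![1, 0, 1, 0, 0, 0, 1, 0, 0, 0]]

/-- the congruence modulo 4, dimension 10 -/
def M10 : Fin 10 → ℤ := ![3, 1, 1, 1, 1, 1, 1, 1, 1, 1]

/-- congruences modulo 2, dimension 9 -/
def L9 : Fin 6 → Fin 9 → ℤ := ![![0, -1, 1, 0, 0, 0, 0, 0, 0],
  ![0, -1, 0, 1, 0, 0, 0, 0, 0], ![0, 0, 0, 0, 0, -1, 1, 0, 0],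
  ![0, 0, 0, 0, 0, -1, 0, 1, 0], ![0, 0, 0, 0, 0, -1, 0, 0, 1],
  ![1, 1, 0, 0, 0, 1, 0, 0, 0]]

/-- the congruence modulo 4, dimension 9 -/
def M9 : Fin 9 → ℤ := ![0, 1, 1, 1, 1, 1, 1, 1, 1]

end LamAux

open LamAux

/-- dimension 9 -/
theorem exists_lam9 : ∃ Q : Matrix (Fin 9) (Fin 9) ℝ, Adm Q ∧ Q.det ≤ (1 / 2 : ℝ) ^ 9 := by
  have hpd : (diagonal (![4, 1, 1, 1, 1, 1, 1, 1, 1] : Fin 9 → ℝ)).PosDef := by
    refine PosDef.diagonal fun i => ?_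
    fin_cases i <;> simp
  obtain ⟨Q, hQ, hd⟩ := exists_of_hom (hom L9 M9) _ hpd 8 (by norm_num) (by
    intro v hv hv0
    rw [qf_diag]
    have a1 := hom_two hv 0
    have a2 := hom_two hv 1
    have a3 := hom_two hv 2
    have a4 := hom_two hv 3
    have a5 := hom_two hv 4
    have a6 := hom_two hv 5
    have a7 := hom_four hv
    simp [L9, Fin.sum_univ_succ] at a1 a2 a3 a4 a5 a6
    simp [M9, Fin.sum_univ_succ] at a7
    have key : (8 : ℤ) ≤ 4 * v 0 ^ 2 + v 1 ^ 2 + v 2 ^ 2 + v 3 ^ 2 + v 4 ^ 2 + v 5 ^ 2 + v 6 ^ 2 +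
        v 7 ^ 2 + v 8 ^ 2 := by
      refine min9 ?_ ?_ ?_ ?_ ?_ ?_ ?_ ?_
      · convert a1 using 1; ring
      · convert a2 using 1; ring
      · convert a3 using 1; ring
      · convert a4 using 1; ring
      · convert a5 using 1; ring
      · convert a6 using 1; ring
      · convert a7 using 1; ring
      · rintro ⟨h0, h1, h2, h3, h4, h5, h6, h7, h8⟩
        apply hv0
        funext i
        fin_cases i <;> assumption
    have key2 : (8 : ℝ) ≤ 4 * (v 0 : ℝ) ^ 2 + (v 1 : ℝ) ^ 2 + (v 2 : ℝ) ^ 2 + (v 3 : ℝ) ^ 2 +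
        (v 4 : ℝ) ^ 2 + (v 5 : ℝ) ^ 2 + (v 6 : ℝ) ^ 2 + (v 7 : ℝ) ^ 2 + (v 8 : ℝ) ^ 2 := by
      exact_mod_cast key
    simp [Fin.sum_univ_succ, ic]
    linarith)
  refine ⟨Q, hQ, hd.trans ?_⟩
  rw [card_A, det_diagonal]
  simp [Fin.prod_univ_succ]
  norm_num

/-- dimension 10 -/
theorem exists_lam10 : ∃ Q : Matrix (Fin 10) (Fin 10) ℝ, Adm Q ∧ Q.det ≤ 3 / 4 * (1 / 2 : ℝ) ^ 10 := by
  have hpd : (diagonal (![3, 1, 1, 1, 1, 1, 1, 1, 1, 1] : Fin 10 → ℝ)).PosDef := by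
    refine PosDef.diagonal fun i => ?_
    fin_cases i <;> simp
  obtain ⟨Q, hQ, hd⟩ := exists_of_hom (hom L10 M10) _ hpd 8 (by norm_num) (by
    intro v hv hv0
    rw [qf_diag]
    have a0 := hom_two hv 0
    have a1 := hom_two hv 1
    have a2 := hom_two hv 2
    have a3 := hom_two hv 3
    have a4 := hom_two hv 4
    have a5 := hom_two hv 5
    have a6 := hom_two hv 6
    have a7 := hom_four hv
    simp [L10, Fin.sum_univ_succ] at a0 a1 a2 a3 a4 a5 a6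
    simp [M10, Fin.sum_univ_succ] at a7
    have key : (8 : ℤ) ≤ 3 * v 0 ^ 2 + v 1 ^ 2 + v 2 ^ 2 + v 3 ^ 2 + v 4 ^ 2 + v 5 ^ 2 + v 6 ^ 2 +
        v 7 ^ 2 + v 8 ^ 2 + v 9 ^ 2 := by
      refine min10 ?_ ?_ ?_ ?_ ?_ ?_ ?_ ?_ ?_
      · convert a0 using 1; ring
      · convert a1 using 1; ring
      · convert a2 using 1; ring
      · convert a3 using 1; ring
      · convert a4 using 1; ring
      · convert a5 using 1; ring
      · convert a6 using 1; ring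
      · convert a7 using 1; ring
      · rintro ⟨h0, h1, h2, h3, h4, h5, h6, h7, h8, h9⟩
        apply hv0
        funext i
        fin_cases i <;> assumption
    have key2 : (8 : ℝ) ≤ 3 * (v 0 : ℝ) ^ 2 + (v 1 : ℝ) ^ 2 + (v 2 : ℝ) ^ 2 + (v 3 : ℝ) ^ 2 +
        (v 4 : ℝ) ^ 2 + (v 5 : ℝ) ^ 2 + (v 6 : ℝ) ^ 2 + (v 7 : ℝ) ^ 2 + (v 8 : ℝ) ^ 2 +
        (v 9 : ℝ) ^ 2 := by
      exact_mod_cast key
    simp [Fin.sum_univ_succ, ic]
    linarith)
  refine ⟨Q, hQ, hd.trans ?_⟩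
  rw [card_A, det_diagonal]
  simp [Fin.prod_univ_succ]
  norm_num

end CritL
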