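import Pool.Agent.Lib.CritL.Gram

/-!
# Sections orthogonal to a dual vector, and layers
-/

set_option autoImplicit false

namespace CritL

open Matrix

/-- a nonzero integer vector is a multiple of a row of a unimodular matrix -/
theorem exists_row {n : ℕ} (u : Fin n → ℤ) (hu : u ≠ 0) :
    ∃ (R U : Matrix (Fin n) (Fin n) ℤ) (j : Fin n) (c : ℤ), R * U = 1 ∧ U * R = 1 ∧ c ≠ 0 ∧ u = c • R j := by
  classical
  obtain ⟨m, snf⟩ := Submodule.smithNormalForm (Pi.basisFun ℤ (Fin n)) (Submodule.span ℤ {u})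
  have hm : m = 1 := by
    have b1 : Module.Basis (Fin 1) ℤ (Submodule.span ℤ {u}) :=
      (Module.Basis.singleton (Fin 1) ℤ).map (LinearEquiv.toSpanNonzeroSingleton ℤ (Fin n → ℤ) u hu)
    have h1 := Module.finrank_eq_card_basis b1
    have h2 := Module.finrank_eq_card_basis snf.bN
    rw [h1, Fintype.card_fin, Fintype.card_fin] at h2
    exact h2.symm
  subst hm
  have hmem : u ∈ Submodule.span ℤ {u} := Submodule.mem_span_singleton_self u
  have hrep := snf.bN.sum_repr ⟨u, hmem⟩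
  rw [Finset.univ_unique, Finset.sum_singleton] at hrep
  have h3 : u = (snf.bN.repr ⟨u, hmem⟩ default) • ((snf.bN default : Submodule.span ℤ {u}) : Fin n → ℤ) := by
    have := congrArg Subtype.val hrep
    exact this.symm
  rw [snf.snf, smul_smul] at h3
  let e := Pi.basisFun ℤ (Fin n)
  refine ⟨(e.toMatrix snf.bM)ᵀ, (snf.bM.toMatrix e)ᵀ, snf.f default,
    snf.bN.repr ⟨u, hmem⟩ default * snf.a default, ?_, ?_, ?_, ?_⟩
  · rw [← transpose_mul, Module.Basis.toMatrix_mul_toMatrix_flip, transpose_one]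
  · rw [← transpose_mul, Module.Basis.toMatrix_mul_toMatrix_flip, transpose_one]
  · intro h0
    rw [h0, zero_smul] at h3
    exact hu h3
  · have h4 : (e.toMatrix snf.bM)ᵀ (snf.f default) = snf.bM (snf.f default) := by
      funext k
      rw [transpose_apply, Module.Basis.toMatrix_apply, Pi.basisFun_repr]
    rw [h4]
    exact h3

/-- extension by a zero coordinate -/
theorem qf_minor {n : ℕ} (P : Matrix (Fin (n + 1)) (Fin (n + 1)) ℝ) (j : Fin (n + 1)) (y : Fin n → ℝ) :
    qf (P.submatrix j.succAbove j.succAbove) y = qf P (j.insertNth 0 y : Fin (n + 1) → ℝ) := by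
  unfold qf
  simp only [dotProduct, mulVec]
  rw [Fin.sum_univ_succAbove _ j]
  simp only [Fin.insertNth_apply_same, zero_mul, zero_add, Fin.insertNth_apply_succAbove]
  refine Finset.sum_congr rfl fun i _ => ?_
  rw [Fin.sum_univ_succAbove _ j]
  simp only [Fin.insertNth_apply_same, mul_zero, zero_add, Fin.insertNth_apply_succAbove, submatrix_apply]

/-- the real matrix of an integer matrix -/
noncomputable def rm {n : ℕ} (U : Matrix (Fin n) (Fin n) ℤ) : Matrix (Fin n) (Fin n) ℝ := U.map (Int.cast : ℤ → ℝ)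

theorem rm_mul {n : ℕ} (U R : Matrix (Fin n) (Fin n) ℤ) : rm (U * R) = rm U * rm R := by
  unfold rm
  exact Matrix.map_mul_intCast U R

theorem rm_one {n : ℕ} : rm (1 : Matrix (Fin n) (Fin n) ℤ) = 1 := by
  unfold rm
  simp

theorem rm_mulVec {n : ℕ} (U : Matrix (Fin n) (Fin n) ℤ) (x : Fin n → ℤ) : rm U *ᵥ ic x = ic (U *ᵥ x) := by
  funext k
  simp [rm, mulVec, dotProduct, ic]

/-- **sections**: `D` is a lower bound for the determinants in dimension `n` -/
theorem section_ge {n : ℕ} {D : ℝ} (hD : ∀ G : Matrix (Fin n) (Fin n) ℝ, Adm G → D ≤ G.det)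
    {P : Matrix (Fin (n + 1)) (Fin (n + 1)) ℝ} (hP : Adm P) (u : Fin (n + 1) → ℤ) (hu : u ≠ 0) :
    D ≤ P.det * qf P⁻¹ (ic u) := by
  obtain ⟨R, U, j, c, hRU, hUR, hc, huc⟩ := exists_row u hu
  have hRU' : rm R * rm U = 1 := by rw [← rm_mul, hRU, rm_one]
  have hUR' : rm U * rm R = 1 := by rw [← rm_mul, hUR, rm_one]
  have hPdet := hP.pd.det_pos
  have hPu : IsUnit P.det := isUnit_iff_ne_zero.2 hPdet.ne'
  set P' := (rm U)ᵀ * P * rm U with hP'
  have hinv : P' * (rm R * P⁻¹ * (rm R)ᵀ) = 1 := by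
    have e : P' * (rm R * P⁻¹ * (rm R)ᵀ) = (rm U)ᵀ * (P * (rm U * rm R) * P⁻¹) * (rm R)ᵀ := by
      rw [hP']
      simp only [Matrix.mul_assoc]
    rw [e, hUR', Matrix.mul_one, mul_nonsing_inv P hPu, Matrix.mul_one, ← transpose_mul, hRU', transpose_one]
  have hdetU : (rm U).det * (rm U).det = 1 := by
    have hcast : (rm U).det = ((U.det : ℤ) : ℝ) := by
      have := (Int.castRingHom ℝ).map_det U
      exact this.symm
    have h1 : U.det * R.det = 1 := by rw [← det_mul, hUR, det_one]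
    rcases Int.eq_one_or_neg_one_of_mul_eq_one h1 with h2 | h2
    · rw [hcast, h2]; norm_num
    · rw [hcast, h2]; norm_num
  have hdet' : P'.det = P.det := by
    rw [hP', det_mul, det_mul, det_transpose]
    calc (rm U).det * P.det * (rm U).det = P.det * ((rm U).det * (rm U).det) := by ring
      _ = P.det := by rw [hdetU, mul_one]
  have hinj : Function.Injective (rm U).mulVec := by
    intro x y hxy
    have := congrArg (rm R *ᵥ ·) hxy
    simpa [mulVec_mulVec, hRU'] using this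
  have hP'pd : P'.PosDef := pd_conj hP.pd _ hinj
  -- the minor
  have hadm : Adm (P'.submatrix j.succAbove j.succAbove) := by
    refine ⟨hP'pd.submatrix (Fin.succAbove_right_injective), fun y hy => ?_⟩
    rw [qf_minor]
    have e : (j.insertNth 0 (ic y) : Fin (n + 1) → ℝ) = ic (j.insertNth 0 y : Fin (n + 1) → ℤ) := by
      funext k
      refine Fin.succAboveCases j ?_ (fun i => ?_) k
      · simp [ic]
      · simp [ic]
    rw [e, hP', qf_conj, rm_mulVec]
    refine hP.one_le _ fun h0 => hy ?_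
    have h1 : R *ᵥ (U *ᵥ (j.insertNth 0 y : Fin (n + 1) → ℤ)) = 0 := by rw [h0, mulVec_zero]
    rw [mulVec_mulVec, hRU, one_mulVec] at h1
    funext i
    have := congrFun h1 (j.succAbove i)
    simpa using this
  have h1 := hD _ hadm
  have h2 : (P'.submatrix j.succAbove j.succAbove).det = P'.adjugate j j := by
    rw [adjugate_fin_succ_eq_det_submatrix]
    rw [← two_mul, pow_mul]
    simp
  have h3 : P'.adjugate = P'.det • (rm R * P⁻¹ * (rm R)ᵀ) := by
    have : P'.adjugate = P'.adjugate * (P' * (rm R * P⁻¹ * (rm R)ᵀ)) := by rw [hinv, Matrix.mul_one]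
    rw [this, ← Matrix.mul_assoc, adjugate_mul, Matrix.smul_mul, Matrix.one_mul]
  have h4 : (rm R * P⁻¹ * (rm R)ᵀ) j j = qf P⁻¹ (ic (R j)) := by
    unfold qf
    rw [Matrix.mul_assoc]
    simp only [mul_apply, dotProduct, mulVec, transpose_apply, rm, map_apply, ic]
  rw [h2, h3, hdet', Matrix.smul_apply, h4, smul_eq_mul] at h1
  refine h1.trans (mul_le_mul_of_nonneg_left ?_ hPdet.le)
  rw [huc, ic_smul, qf_smul]
  have h5 : (1 : ℝ) ≤ (c : ℝ) ^ 2 := by
    have : 1 ≤ c ^ 2 := by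
      have := sq_pos_of_ne_zero hc
      omega
    exact_mod_cast this
  have h6 : 0 ≤ qf P⁻¹ (ic (R j)) := qf_nonneg hP.pd.inv _
  nlinarith

/-- **duality** -/
theorem dual_ge {n : ℕ} {D D' : ℝ} (hD0 : 0 < D) (hD : ∀ G : Matrix (Fin n) (Fin n) ℝ, Adm G → D ≤ G.det)
    (hD' : ∀ G : Matrix (Fin (n + 1)) (Fin (n + 1)) ℝ, Adm G → D' ≤ G.det)
    {P : Matrix (Fin (n + 1)) (Fin (n + 1)) ℝ} (hP : Adm P) : D' * D ^ (n + 1) ≤ P.det ^ n := by
  have hPdet := hP.pd.det_pos
  have hadm : Adm ((D / P.det)⁻¹ • P⁻¹) := by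
    refine adm_of hP.pd.inv (div_pos hD0 hPdet) fun u hu => ?_
    rw [div_le_iff₀ hPdet, mul_comm]
    exact section_ge hD hP u hu
  have h := hD' _ hadm
  rw [det_smul, Fintype.card_fin, det_nonsing_inv, Ring.inverse_eq_inv', inv_div, div_pow] at h
  have e : P.det ^ (n + 1) / D ^ (n + 1) * P.det⁻¹ = P.det ^ n / D ^ (n + 1) := by
    rw [pow_succ P.det]
    field_simp
  rw [e, le_div_iff₀ (by positivity)] at h
  exact h

/-- the form of the layers -/
noncomputable def Lf {n : ℕ} (Q : Matrix (Fin n) (Fin n) ℝ) (z : Fin n → ℝ) (h : ℝ) :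
    Matrix (Fin n ⊕ Unit) (Fin n ⊕ Unit) ℝ :=
  (fromBlocks 1 (replicateCol Unit z) 0 1)ᵀ * fromBlocks Q 0 0 (Matrix.of fun _ _ => h ^ 2) *
    fromBlocks 1 (replicateCol Unit z) 0 1

theorem Lf_det {n : ℕ} (Q : Matrix (Fin n) (Fin n) ℝ) (z : Fin n → ℝ) (h : ℝ) : (Lf Q z h).det = Q.det * h ^ 2 := by
  unfold Lf
  rw [det_mul, det_mul, det_transpose, det_fromBlocks_zero₂₁, det_fromBlocks_zero₂₁]
  simp

theorem Lf_qf {n : ℕ} (Q : Matrix (Fin n) (Fin n) ℝ) (z : Fin n → ℝ) (h : ℝ) (v : Fin n ⊕ Unit → ℝ) :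
    qf (Lf Q z h) v = qf Q ((v ∘ Sum.inl) + v (Sum.inr ()) • z) + v (Sum.inr ()) ^ 2 * h ^ 2 := by
  unfold Lf
  rw [qf_conj]
  have e : (fromBlocks 1 (replicateCol Unit z) 0 1 : Matrix (Fin n ⊕ Unit) (Fin n ⊕ Unit) ℝ) *ᵥ v =
      Sum.elim ((v ∘ Sum.inl) + v (Sum.inr ()) • z) (v ∘ Sum.inr) := by
    rw [fromBlocks_mulVec]
    congr 1
    · rw [one_mulVec]
      congr 1
      funext k
      simp [mulVec, dotProduct, mul_comm]
    · rw [zero_mulVec, one_mulVec, zero_add]
  rw [e]
  unfold qf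
  rw [fromBlocks_mulVec, dotProduct_block]
  simp [mulVec, dotProduct]
  ring

theorem Lf_pd {n : ℕ} {Q : Matrix (Fin n) (Fin n) ℝ} (hQ : Q.PosDef) (z : Fin n → ℝ) {h : ℝ} (hh : 0 < h) :
    (Lf Q z h).PosDef := by
  refine posDef_iff_dotProduct_mulVec.2 ⟨?_, fun v hv => ?_⟩
  · have hs : Qᵀ = Q := by
      have := hQ.isHermitian
      rwa [IsHermitian, conjTranspose_eq_transpose_of_trivial] at this
    rw [IsHermitian, conjTranspose_eq_transpose_of_trivial]
    unfold Lf
    rw [transpose_mul, transpose_mul, transpose_transpose, fromBlocks_transpose (A := Q), hs, Matrix.mul_assoc]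
    simp only [transpose_zero]
    congr 2
  · have h1 := Lf_qf Q z h v
    unfold qf at h1
    rw [star_trivial, h1]
    by_cases hr : v (Sum.inr ()) = 0
    · have hl : v ∘ Sum.inl ≠ 0 := by
        intro h0
        apply hv
        funext k
        rcases k with k | k
        · exact congrFun h0 k
        · exact hr
      rw [hr, zero_smul, add_zero]
      have := qf_pos hQ hl
      unfold qf at this
      simpa using this
    · have h2 : 0 < v (Sum.inr ()) ^ 2 * h ^ 2 := by positivity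
      have h3 := qf_nonneg hQ ((v ∘ Sum.inl) + v (Sum.inr ()) • z)
      unfold qf at h3
      linarith

/-- **layers**: if the layers `k z` are far from the lattice then `h` is not small -/
theorem layer {n : ℕ} {Q : Matrix (Fin n) (Fin n) ℝ} (hQ : Adm Q)
    (hcr : ∀ G : Matrix (Fin n) (Fin n) ℝ, Adm G → Q.det ≤ G.det) {D' : ℝ}
    (hD' : ∀ G : Matrix (Fin (n + 1)) (Fin (n + 1)) ℝ, Adm G → D' ≤ G.det) (z : Fin n → ℝ) {h : ℝ} (hh : 0 < h)
    (hfar : ∀ k : ℕ, 1 ≤ k → Far Q ((k : ℝ) • z) (1 - k ^ 2 * h ^ 2)) : D' * Q.det ≤ (h ^ 2) ^ n := by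
  have hQd := hQ.pd.det_pos
  -- the form on `Fin (n + 1)`
  let e : Fin n ⊕ Unit ≃ Fin (n + 1) := Fintype.equivOfCardEq (by simp)
  set P := (Lf Q z h).submatrix e.symm e.symm with hP
  have hPdet : P.det = Q.det * h ^ 2 := by rw [hP, det_submatrix_equiv_self, Lf_det]
  have hadm : Adm P := by
    refine ⟨(Lf_pd hQ.pd z hh).submatrix e.symm.injective, fun x hx => ?_⟩
    have h1 : qf P (ic x) = qf (Lf Q z h) (ic x ∘ e) := by
      unfold qf
      rw [hP, submatrix_mulVec_equiv]
      simp only [dotProduct, Function.comp_apply, Equiv.symm_symm]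
      rw [← e.sum_comp]
      simp
    rw [h1, Lf_qf]
    have hint : (ic x ∘ e) ∘ Sum.inl = ic (fun i => x (e (Sum.inl i))) := rfl
    have hint2 : (ic x ∘ e) (Sum.inr ()) = ((x (e (Sum.inr ())) : ℤ) : ℝ) := rfl
    rw [hint, hint2]
    generalize hk : x (e (Sum.inr ())) = k
    rcases lt_trichotomy k 0 with h0 | h0 | h0
    · -- negative layers
      obtain ⟨m, rfl⟩ : ∃ m : ℕ, k = -(m : ℤ) := ⟨k.natAbs, by omega⟩
      have hm : 1 ≤ m := by omega
      have h2 := hfar m hm (fun i => x (e (Sum.inl i)))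
      have e1 : ic (fun i => x (e (Sum.inl i))) + ((-(m : ℤ) : ℤ) : ℝ) • z =
          -((m : ℝ) • z - ic (fun i => x (e (Sum.inl i)))) := by
        push_cast
        rw [neg_smul]
        abel
      rw [e1, qf_neg]
      push_cast
      linarith
    · subst h0
      rw [Int.cast_zero, zero_smul, add_zero]
      have hne : (fun i => x (e (Sum.inl i))) ≠ 0 := by
        intro h3
        apply hx
        funext i
        obtain ⟨i, rfl⟩ := e.surjective i
        rcases i with i | i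
        · exact congrFun h3 i
        · exact hk
      have := hQ.one_le _ hne
      simpa using this
    · obtain ⟨m, rfl⟩ : ∃ m : ℕ, k = (m : ℤ) := ⟨k.natAbs, by omega⟩
      have hm : 1 ≤ m := by omega
      have h2 := hfar m hm (fun i => -x (e (Sum.inl i)))
      have e1 : ic (fun i => x (e (Sum.inl i))) + (((m : ℤ) : ℤ) : ℝ) • z =
          (m : ℝ) • z - ic (fun i => -x (e (Sum.inl i))) := by
        funext i
        simp [ic]
        ring
      rw [e1]
      push_cast
      linarith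
  have h2 := dual_ge hQd hcr hD' hadm
  rw [hPdet, mul_pow, pow_succ, ← mul_assoc] at h2
  have h3 : 0 < Q.det ^ n := pow_pos hQd n
  have h4 : Q.det ^ n * (D' * Q.det) ≤ Q.det ^ n * (h ^ 2) ^ n := by
    calc Q.det ^ n * (D' * Q.det) = D' * Q.det ^ n * Q.det := by ring
      _ ≤ _ := h2
  exact le_of_mul_le_mul_left h4 h3

end CritL
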