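import Pool.Agent.Lib.CritL.Prime

/-!
# Automorphisms of finite order: the norm
-/

set_option autoImplicit false

namespace CritL

open Matrix

theorem inner_iter {d : ℕ} (σ : E d ≃ₗᵢ[ℝ] E d) (i : ℕ) (x y : E d) :
    (inner ℝ ((⇑σ)^[i] x) ((⇑σ)^[i] y) : ℝ) = inner ℝ x y := by
  induction i with
  | zero => rfl
  | succ i ih => rw [Function.iterate_succ_apply', Function.iterate_succ_apply', σ.inner_map_map, ih]

/-- **automorphisms of finite order** -/
theorem normE {d : ℕ} (hd : 0 < d) {b : Fin d → E d} (hb : LinearIndependent ℝ b) (σ : E d ≃ₗᵢ[ℝ] E d)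
    (hσ : ∀ x ∈ lat b, σ x ∈ lat b) {n : ℕ} (hn : 0 < n) (hpow : ∀ x, (⇑σ)^[n] x = x) :
    ∃ k, fixedDim σ + k = d ∧ Dn (fixedDim σ) * Dn k ≤ ((n : ℝ) ^ fixedDim σ) ^ 2 * ratio b ^ 2 := by
  have hn' : (0 : ℝ) < n := by exact_mod_cast hn
  set G : Module.End ℝ (E d) := (σ.toLinearEquiv : E d →ₗ[ℝ] E d) with hG
  have hGx : ∀ x, G x = σ x := fun x => rfl
  have hGp : ∀ n x, (G ^ n) x = (⇑σ)^[n] x := by
    intro n x
    rw [Module.End.coe_pow]
    rfl
  set V := LinearMap.ker (G - LinearMap.id) with hV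
  have hVx : ∀ x, x ∈ V ↔ σ x = x := by
    intro x
    rw [hV, LinearMap.mem_ker, LinearMap.sub_apply, LinearMap.id_apply, hGx, sub_eq_zero]
  have hfd : Module.finrank ℝ V = fixedDim σ := rfl
  set F : E d →ₗ[ℝ] E d := ∑ i ∈ Finset.range n, G ^ i with hF
  have hFx : ∀ x, F x = ∑ i ∈ Finset.range n, (⇑σ)^[i] x := by
    intro x
    rw [hF, LinearMap.sum_apply]
    exact Finset.sum_congr rfl fun i _ => hGp i x
  have hlat : ∀ x ∈ lat b, F x ∈ lat b := by
    intro x hx
    rw [hFx]
    refine (lat b).sum_mem fun i _ => ?_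
    induction i with
    | zero => exact hx
    | succ i ih =>
      rw [Function.iterate_succ_apply']
      exact hσ _ (ih (Finset.mem_range.2 (by
        have := Finset.mem_range.1 ‹i + 1 ∈ Finset.range n›
        omega)))
  have hσF : ∀ x, F x ∈ V := by
    intro x
    rw [hVx, hFx, map_sum]
    have h2 : ∀ i, σ ((⇑σ)^[i] x) = (⇑σ)^[i + 1] x := fun i => (Function.iterate_succ_apply' _ _ _).symm
    simp only [h2]
    have h3 := Finset.sum_range_succ (fun i => (⇑σ)^[i] x) n
    have h4 := Finset.sum_range_succ' (fun i => (⇑σ)^[i] x) n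
    rw [h3] at h4
    rw [hpow] at h4
    simpa using h4.symm
  have hfix : ∀ v ∈ V, F v = (n : ℝ) • v := by
    intro v hv
    rw [hFx]
    have h1 : ∀ i, (⇑σ)^[i] v = v := fun i => Function.iterate_fixed ((hVx v).1 hv) i
    simp only [h1]
    rw [Finset.sum_const, Finset.card_range, Nat.cast_smul_eq_nsmul]
  have hrange : LinearMap.range F = V := by
    apply le_antisymm
    · rintro _ ⟨x, rfl⟩
      exact hσF x
    · intro v hv
      refine ⟨(n : ℝ)⁻¹ • v, ?_⟩
      rw [map_smul, hfix v hv, smul_smul, inv_mul_cancel₀ hn'.ne', one_smul]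
  let ob := stdOrthonormalBasis ℝ V
  set u : Fin (Module.finrank ℝ V) → E d := fun i => (ob i : E d) with hu
  have huo : Orthonormal ℝ u := by
    have := ob.orthonormal.comp_linearIsometry V.subtypeₗᵢ
    exact this
  obtain ⟨k, hk, hle⟩ := volE hd hb F hlat (by rw [hrange]) huo fun i x hx => by
    have h1 : ∀ j, (inner ℝ (u i) ((⇑σ)^[j] x) : ℝ) = inner ℝ (u i) x := by
      intro j
      have h2 : (⇑σ)^[j] (u i) = u i := Function.iterate_fixed ((hVx _).1 (ob i).2) j
      conv_lhs => rw [← h2]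
      exact inner_iter σ j _ _
    have h2 : (inner ℝ (u i) (F x) : ℝ) = n * inner ℝ (u i) x := by
      rw [hFx, inner_sum]
      simp only [h1]
      rw [Finset.sum_const, Finset.card_range, nsmul_eq_mul]
    rw [hx, inner_zero_right] at h2
    exact (mul_eq_zero.1 h2.symm).resolve_left hn'.ne'
  refine ⟨k, hk, ?_⟩
  have h3 : (gm fun i => F (u i)).det = ((n : ℝ) ^ fixedDim σ) ^ 2 := by
    have h4 : (gm fun i => F (u i)) = ((n : ℝ) ^ 2) • (1 : Matrix _ _ ℝ) := by
      funext i j
      rw [gm_apply, hfix _ (ob i).2, hfix _ (ob j).2, inner_smul_left, inner_smul_right,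
        orthonormal_iff_ite.1 huo, Matrix.smul_apply, one_apply]
      simp only [conj_trivial, smul_eq_mul]
      ring
    rw [h4, det_smul, det_one, mul_one, Fintype.card_fin, hfd, ← pow_mul, ← pow_mul, mul_comm]
  rw [h3] at hle
  exact hle

end CritL
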