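import Pool.Agent.Lib.CritL.Norm
import Pool.Agent.Lib.CritL.CycFac

/-!
# Automorphisms of prime power order
-/

set_option autoImplicit false

namespace CritL

open Matrix

section poly

open Polynomial

theorem fac_le {P Q : ℝ[X]} {m n : ℕ} (hmn : m ≤ n) (h : (X - 1) ^ m * P = (X - 1) ^ n * Q) (hP : P.eval 1 ≠ 0) :
    m = n ∧ P = Q := by
  obtain ⟨j, rfl⟩ := Nat.exists_eq_add_of_le hmn
  have hX : (X - 1 : ℝ[X]) ^ m ≠ 0 := by
    have := (monic_X_sub_C (1 : ℝ)).pow m
    rw [C_1] at this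
    exact this.ne_zero
  rw [pow_add, mul_assoc] at h
  have h1 := mul_left_cancel₀ hX h
  have hj : j = 0 := by
    by_contra hj
    apply hP
    rw [h1]
    simp [hj]
  subst hj
  exact ⟨rfl, by simpa using h1⟩

theorem fac_unique {P Q : ℝ[X]} {m n : ℕ} (h : (X - 1) ^ m * P = (X - 1) ^ n * Q) (hP : P.eval 1 ≠ 0)
    (hQ : Q.eval 1 ≠ 0) : m = n ∧ P = Q := by
  rcases le_total m n with hmn | hmn
  · exact fac_le hmn h hP
  · have := fac_le hmn h.symm hQ
    exact ⟨this.1.symm, this.2.symm⟩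

/-- the characteristic polynomial of a map with an invariant complement of the fixed space -/
theorem charpoly_fix {U : Type*} [NormedAddCommGroup U] [InnerProductSpace ℝ U] [FiniteDimensional ℝ U]
    (G : Module.End ℝ U) (V : Submodule ℝ U) (hV : ∀ v ∈ V, G v = v) (hW : ∀ x ∈ Vᗮ, G x ∈ Vᗮ) :
    G.charpoly = (X - 1) ^ Module.finrank ℝ V * (G.restrict hW).charpoly := by
  set S : Module.End ℝ Vᗮ := G.restrict hW with hS
  set e := Submodule.prodEquivOfIsCompl V Vᗮ (Submodule.isCompl_orthogonal V) with he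
  have h1 : G = e.conj (LinearMap.prodMap (1 : Module.End ℝ V) S) := by
    refine LinearMap.ext fun x => ?_
    obtain ⟨⟨v, w⟩, rfl⟩ := e.surjective x
    rw [LinearEquiv.conj_apply_apply, LinearEquiv.symm_apply_apply]
    simp only [LinearMap.prodMap_apply, he, Submodule.coe_prodEquivOfIsCompl', Module.End.one_apply, map_add]
    rw [hV v v.2]
    rfl
  rw [h1, LinearEquiv.charpoly_conj, LinearMap.charpoly_prodMap, LinearMap.charpoly_one]

end poly

/-- the characteristic polynomial of an endomorphism of the lattice -/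
theorem charpoly_mat {d : ℕ} {b : Fin d → E d} (hb : LinearIndependent ℝ b) (F : E d →ₗ[ℝ] E d)
    {A : Matrix (Fin d) (Fin d) ℤ} (hA : ∀ z : Fin d → ℝ, F (rp b z) = rp b (rm A *ᵥ z)) :
    F.charpoly = A.charpoly.map (Int.castRingHom ℝ) := by
  set e := LinearEquiv.ofBijective (rpl b) (rpl_bij hb) with he
  have h1 : F = e.conj (rm A).mulVecLin := by
    refine LinearMap.ext fun x => ?_
    obtain ⟨z, rfl⟩ := e.surjective x
    rw [LinearEquiv.conj_apply_apply, LinearEquiv.symm_apply_apply]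
    exact hA z
  rw [h1, LinearEquiv.charpoly_conj, charpoly_mulVecLin]
  exact charpoly_map A (Int.castRingHom ℝ)

open Polynomial in
/-- **automorphisms of prime power order** -/
theorem ppowE {d : ℕ} (hd : 0 < d) {b : Fin d → E d} (hb : LinearIndependent ℝ b) (σ : E d ≃ₗᵢ[ℝ] E d)
    (hσ : ∀ x ∈ lat b, σ x ∈ lat b) {A : Matrix (Fin d) (Fin d) ℤ}
    (hA : ∀ z : Fin d → ℝ, σ (rp b z) = rp b (rm A *ᵥ z)) {p a : ℕ} (hp : p.Prime) (hAp : A ^ p ^ a = 1) :
    ∃ k N n1 : ℕ, k + fixedDim σ = d ∧ (p - 1) * N ≤ k ∧ (p - 1) * n1 ≤ k ∧ A.trace = (fixedDim σ : ℤ) - n1 ∧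
      (p : ℤ) ∣ d - A.trace ∧ Dn k * Dn (fixedDim σ) ≤ ((p : ℝ) ^ N) ^ 2 * ratio b ^ 2 := by
  set G : Module.End ℝ (E d) := (σ.toLinearEquiv : E d →ₗ[ℝ] E d) with hG
  have hGx : ∀ x, G x = σ x := fun x => rfl
  set V := LinearMap.ker (G - LinearMap.id) with hV
  have hVx : ∀ x, x ∈ V ↔ σ x = x := by
    intro x
    rw [hV, LinearMap.mem_ker, LinearMap.sub_apply, LinearMap.id_apply, hGx, sub_eq_zero]
  have hfd : Module.finrank ℝ V = fixedDim σ := rfl
  set W := Vᗮ with hW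
  have hWG : ∀ x ∈ W, G x ∈ W := by
    intro x hx
    rw [hW, Submodule.mem_orthogonal] at hx ⊢
    intro v hv
    have h1 : σ v = v := (hVx v).1 hv
    rw [hGx, ← h1, σ.inner_map_map]
    exact hx v hv
  set k := Module.finrank ℝ W with hk
  have hkd : k + fixedDim σ = d := by
    have h1 := V.finrank_add_finrank_orthogonal
    rw [hfd] at h1
    have h2 : fixedDim σ + k = d := by simpa using h1
    omega
  set S : Module.End ℝ W := G.restrict hWG with hS
  have hSx : ∀ x : W, ((S x : W) : E d) = σ x := fun x => rfl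
  obtain ⟨m, N, n1, c, hc, hc1, hmd, hN, hn1, htr, hdvd⟩ := cyc_summary hp A hAp
  -- the two factorisations of the characteristic polynomial
  have hchar : (X - 1 : ℝ[X]) ^ fixedDim σ * S.charpoly = (X - 1) ^ m * c.map (Int.castRingHom ℝ) := by
    rw [← hfd, ← charpoly_fix G V (fun v hv => by rw [hGx]; exact (hVx v).1 hv) hWG, charpoly_mat hb G hA, hc]
    simp
  have hdet : S.charpoly.eval 1 = LinearMap.det (1 - S) := by
    rw [LinearMap.eval_charpoly, map_one]
  have hdet0 : LinearMap.det (1 - S) ≠ 0 := by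
    intro h0
    obtain ⟨x, hx, hx0⟩ := (Submodule.ne_bot_iff _).1 (LinearMap.det_eq_zero_iff_ker_ne_bot.1 h0)
    apply hx0
    rw [LinearMap.mem_ker, LinearMap.sub_apply, Module.End.one_apply, sub_eq_zero] at hx
    have h1 : (x : E d) ∈ V := by
      rw [hVx, ← hSx, ← hx]
    have h2 : (x : E d) ∈ V ⊓ Vᗮ := ⟨h1, x.2⟩
    rw [V.inf_orthogonal_eq_bot] at h2
    have h3 : (x : E d) = 0 := (Submodule.mem_bot ℝ).1 h2
    exact_mod_cast h3
  have hc1' : (c.map (Int.castRingHom ℝ)).eval 1 = (p : ℝ) ^ N := by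
    have h1 : (c.map (Int.castRingHom ℝ)).eval ((Int.castRingHom ℝ) 1) = (Int.castRingHom ℝ) (c.eval 1) :=
      eval_map_apply _ _
    rw [hc1] at h1
    simpa using h1
  have hp0 : (0 : ℝ) < p := by exact_mod_cast hp.pos
  obtain ⟨hm, hSc⟩ := fac_unique hchar (by rw [hdet]; exact hdet0) (by rw [hc1']; positivity)
  subst hm
  have hdetS : LinearMap.det (1 - S) = (p : ℝ) ^ N := by rw [← hdet, hSc, hc1']
  refine ⟨k, N, n1, hkd, by omega, by omega, htr, hdvd, ?_⟩
  let ob := stdOrthonormalBasis ℝ W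
  set u : Fin k → E d := fun i => (ob i : E d) with hu
  have huo : Orthonormal ℝ u := by
    have := ob.orthonormal.comp_linearIsometry W.subtypeₗᵢ
    exact this
  set F : E d →ₗ[ℝ] E d := 1 - G with hF
  have hFx : ∀ x, F x = x - σ x := fun x => rfl
  have hlat : ∀ x ∈ lat b, F x ∈ lat b := by
    intro x hx
    rw [hFx]
    exact (lat b).sub_mem hx (hσ x hx)
  have hker : LinearMap.ker F = V := by
    ext x
    rw [LinearMap.mem_ker, hFx, hVx, sub_eq_zero, eq_comm]
  have hrank : Module.finrank ℝ (LinearMap.range F) = k := by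
    have h1 := LinearMap.finrank_range_add_finrank_ker F
    rw [hker, hfd] at h1
    have h2 : Module.finrank ℝ (LinearMap.range F) + fixedDim σ = d := by simpa using h1
    omega
  obtain ⟨m, hm, hle⟩ := volE hd hb F hlat hrank huo fun i x hx => by
    have h1 : x ∈ V := by rw [← hker]; exact hx
    exact (Submodule.mem_orthogonal' V _).1 (ob i).2 x h1
  obtain rfl : m = fixedDim σ := by omega
  refine hle.trans_eq ?_
  congr 1
  rw [← hdetS, ← gram_det ob (1 - S)]
  congr 1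
  funext i l
  rw [gm_apply, of_apply]
  have h1 : ∀ i, F (u i) = (((1 - S) (ob i) : W) : E d) := fun i => rfl
  rw [h1, h1]
  rfl

theorem rm_col {d : ℕ} (A : Matrix (Fin d) (Fin d) ℤ) (j : Fin d) :
    rm A *ᵥ Pi.single j 1 = fun i => (A i j : ℝ) := by
  funext i
  rw [mulVec_single_one]
  rfl

/-- the matrix is determined -/
theorem mat_unique {d : ℕ} {b : Fin d → E d} (hb : LinearIndependent ℝ b) {A B : Matrix (Fin d) (Fin d) ℤ}
    (h : ∀ z : Fin d → ℝ, rp b (rm A *ᵥ z) = rp b (rm B *ᵥ z)) : A = B := by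
  funext i j
  have h1 : rm A *ᵥ Pi.single j 1 = rm B *ᵥ Pi.single j 1 := (rpl_bij hb).1 (h _)
  rw [rm_col, rm_col] at h1
  exact_mod_cast congrFun h1 i

/-- automorphisms of prime power order, in the form of `primeE` -/
theorem primePowE {d : ℕ} (hd : 0 < d) {b : Fin d → E d} (hb : LinearIndependent ℝ b) (σ : E d ≃ₗᵢ[ℝ] E d)
    (hσ : ∀ x ∈ lat b, σ x ∈ lat b) {p a : ℕ} (hp : p.Prime) (hpow : ∀ x, (⇑σ)^[p ^ a] x = x) :
    ∃ k, k + fixedDim σ = d ∧ (Dn k * Dn (fixedDim σ)) ^ (p - 1) ≤ ((p : ℝ) ^ k) ^ 2 * (ratio b ^ 2) ^ (p - 1) := by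
  obtain ⟨A, hA⟩ := exists_mat (σ.toLinearEquiv : E d →ₗ[ℝ] E d) hσ
  have hA' : ∀ z : Fin d → ℝ, σ (rp b z) = rp b (rm A *ᵥ z) := hA
  have hrm : ∀ B C : Matrix (Fin d) (Fin d) ℤ, rm (B * C) = rm B * rm C := fun B C =>
    Matrix.map_mul (f := Int.castRingHom ℝ)
  have hit : ∀ n, ∀ z : Fin d → ℝ, (⇑σ)^[n] (rp b z) = rp b (rm (A ^ n) *ᵥ z) := by
    intro n
    induction n with
    | zero =>
      intro z
      have h1 : rm (1 : Matrix (Fin d) (Fin d) ℤ) = 1 := Matrix.map_one _ Int.cast_zero Int.cast_one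
      rw [pow_zero, h1, one_mulVec]
      rfl
    | succ n ih =>
      intro z
      rw [Function.iterate_succ_apply', ih, hA', pow_succ', hrm, ← mulVec_mulVec]
  have hAp : A ^ p ^ a = 1 := by
    refine mat_unique hb fun z => ?_
    have h1 : rm (1 : Matrix (Fin d) (Fin d) ℤ) = 1 := Matrix.map_one _ Int.cast_zero Int.cast_one
    rw [← hit, hpow, h1, one_mulVec]
  obtain ⟨k, N, n1, hk, hN, -, -, -, hle⟩ := ppowE hd hb σ hσ hA' hp hAp
  refine ⟨k, hk, ?_⟩
  have hp1 : (1 : ℝ) ≤ p := by exact_mod_cast hp.one_lt.le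
  have h1 := pow_le_pow_left₀ (mul_pos (Dn_pos k) (Dn_pos (fixedDim σ))).le hle (p - 1)
  refine h1.trans ?_
  rw [mul_pow]
  refine mul_le_mul_of_nonneg_right ?_ (by positivity)
  have h2 : (((p : ℝ) ^ N) ^ 2) ^ (p - 1) = ((p : ℝ) ^ ((p - 1) * N)) ^ 2 := by
    rw [← pow_mul, ← pow_mul, ← pow_mul]
    congr 1
    ring
  rw [h2]
  exact pow_le_pow_left₀ (by positivity) (pow_le_pow_right₀ hp1 hN) 2

end CritL
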