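import Mathlib

/-!
# Numerical estimates

Sketch. Put `v = 2 / X ≥ 1`. All cases with `X ≤ 1`: `h0` gives `g^2 Y v^d ≥ (X / d) v^d = (2 / d) v^(d-1) ≥ (2 / d) 2^(d-1)`.
Cases with `g ≥ 2`: `g^2 Y v^d ≥ (2 g^2 / d) v^(d-1) ≥ 2 g^2 / d`, which is at least 2 for `d = 9` (`g ∣ 9`, so `g ≥ 3`), and at
least `8 / d` for `d = 10, ..., 14`, more than `Tn d`. Let `g = 1`, `1 ≤ X ≤ 2`, `v` in `[1, 2]`; note `v + 2 / v ≤ 3`.
* Bernoulli: `v^d ≥ 1 + d (v - 1)` (`one_add_mul_le_pow`). If `j^2 ≤ c` then `Y ≥ (d X - d + 1) / c`, so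
  `Y v^d ≥ (2 d / v - (d - 1)) (d v - (d - 1)) / c = (2 d^2 + (d-1)^2 - d (d-1) (v + 2 / v)) / c ≥ (d + 1) / c`.
  Use this for `d = 9`, `|j| ≤ 3`, `c = 9`: `10/9 > 1`; `d = 10`, `|j| ≤ 3`, `c = 9`: `11/9 > 3/4`; `d = 11`, `|j| ≤ 4`,
  `c = 16`: `3/4 > 1/2`; `d = 12, 13, 14` with `c = d^2 / 4`: `4 (d + 1) / d^2 > 1/4`.
* `d = 9`, `|j| = 4`: `Y ≥ 9 X - 14` (`k = ∓1`) and `Y ≥ (9 X - 8) / 16`. If `X ≥ 5/3`: `Y ≥ 1` and `v^9 ≥ 1`, one of them strict. If
  `X ≤ 5/3`: `Y v^9 ≥ ((18 - 8 v) / 16) v^8`, more than 1 for `v` in `[6/5, 3/2]` and for `v` in `[3/2, 2]`.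
* `d = 10`, `|j| = 5`: `k = ∓1` gives `10 X ≤ 16`; `Y ≥ (10 X - 9) / 25`, `Y v^10 ≥ ((20 - 9 v) / 25) v^9` with `v ≥ 5/4`: split at
  `v = 8/5`. `|j| = 4`: `Y ≥ (10 X - 16) / 4` and `Y ≥ (10 X - 9) / 16`: `X ≥ 19/10` from the first one (one strict inequality),
  else `Y v^10 ≥ ((20 - 9 v) / 16) v^9` with `v ≥ 20/19`: split at `v = 13/10`.
* `d = 11`, `|j| = 5`: `Y ≥ 11 X - 18` and `Y ≥ (11 X - 10) / 25`: `X ≥ 17/10` from the first one, else
  `Y v^11 ≥ ((22 - 10 v) / 25) v^10` with `v ≥ 20/17`: split at `v = 8/5`.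
-/

set_option autoImplicit false

namespace CritL

/-- the threshold -/
noncomputable def Tn (d : ℕ) : ℝ := if d = 9 then 1 else if d = 10 then 3 / 4 else 1024 / 2 ^ d

namespace PermNumAux

theorem sqj (j : ℤ) (m : ℕ) (h : |j| ≤ m) : (j : ℝ) ^ 2 ≤ (m : ℝ) ^ 2 := by
  have h1 : |(j : ℝ)| ≤ m := by exact_mod_cast h
  exact sq_le_sq' (abs_le.mp h1).1 (abs_le.mp h1).2

theorem bern (d : ℕ) {X v Y c : ℝ} (hX1 : 1 ≤ X) (hX2 : X ≤ 2) (hv : X * v = 2) (hv1 : 1 ≤ v)
    (hY : d * X ≤ c * Y + (d - 1)) : (d : ℝ) + 1 ≤ c * (Y * v ^ d) := by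
  have hb : (d : ℝ) * v - (d - 1) ≤ v ^ d := by
    have := one_add_mul_le_pow (show (-2 : ℝ) ≤ v - 1 by linarith) d
    have e : 1 + (v - 1) = v := by ring
    rw [e] at this
    linarith
  have hvp : 0 ≤ v ^ d := by positivity
  have hd0 : (0 : ℝ) ≤ d := Nat.cast_nonneg d
  have h1 : ((d : ℝ) * X - (d - 1)) * v ^ d ≤ c * Y * v ^ d :=
    mul_le_mul_of_nonneg_right (by linarith) hvp
  have h2 : ((d : ℝ) * X - (d - 1)) * (d * v - (d - 1)) ≤ ((d : ℝ) * X - (d - 1)) * v ^ d := by
    apply mul_le_mul_of_nonneg_left hb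
    nlinarith
  have h3 : X + v ≤ 3 := by nlinarith [mul_nonneg (sub_nonneg.mpr hX1) (sub_nonneg.mpr hX2)]
  have h4 : ((d : ℝ) * X - (d - 1)) * (d * v - (d - 1)) =
      2 * (d : ℝ) ^ 2 + (d - 1) ^ 2 - d * (d - 1) * (X + v) + d ^ 2 * (X * v - 2) := by ring
  rw [hv, sub_self, mul_zero, add_zero] at h4
  have h5 : (d : ℝ) * (d - 1) * (X + v) ≤ d * (d - 1) * 3 := by
    rcases Nat.eq_zero_or_pos d with h | h
    · subst h
      simp
    · have : (1 : ℝ) ≤ d := by exact_mod_cast h
      exact mul_le_mul_of_nonneg_left h3 (mul_nonneg hd0 (by linarith))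
  have h6 : c * (Y * v ^ d) = c * Y * v ^ d := by ring
  rw [h6]
  nlinarith

theorem low (n : ℕ) {X v Y c a b : ℝ} (hv : X * v = 2) (ha : 0 ≤ a) (hav : a ≤ v) (hvb : v ≤ b)
    (hb : 0 ≤ 2 * ((n : ℝ) + 1) - n * b) (hY : ((n : ℝ) + 1) * X ≤ c * Y + n) :
    (2 * ((n : ℝ) + 1) - n * b) * a ^ n ≤ c * (Y * v ^ (n + 1)) := by
  have hv0 : 0 ≤ v := ha.trans hav
  have hvp : 0 ≤ v ^ (n + 1) := by positivity
  have h1 : (((n : ℝ) + 1) * X - n) * v ^ (n + 1) ≤ c * Y * v ^ (n + 1) :=
    mul_le_mul_of_nonneg_right (by linarith) hvp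
  have h2 : (((n : ℝ) + 1) * X - n) * v ^ (n + 1) =
      (2 * ((n : ℝ) + 1) - n * v) * v ^ n + ((n : ℝ) + 1) * v ^ n * (X * v - 2) := by ring
  rw [hv, sub_self, mul_zero, add_zero] at h2
  have h3 : (2 * ((n : ℝ) + 1) - n * b) * a ^ n ≤ (2 * ((n : ℝ) + 1) - n * v) * v ^ n := by
    have hn0 : (0 : ℝ) ≤ n := Nat.cast_nonneg n
    have e1 : 2 * ((n : ℝ) + 1) - n * b ≤ 2 * ((n : ℝ) + 1) - n * v := by
      have := mul_le_mul_of_nonneg_left hvb hn0
      linarith
    have e2 : a ^ n ≤ v ^ n := pow_le_pow_left₀ ha hav n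
    exact mul_le_mul e1 e2 (by positivity) (hb.trans e1)
  have h6 : c * (Y * v ^ (n + 1)) = c * Y * v ^ (n + 1) := by ring
  rw [h6]
  linarith

theorem base (n : ℕ) {X v Y : ℝ} (hv : X * v = 2) (hv0 : 0 ≤ v) (h0 : X ≤ ((n : ℝ) + 1) * Y) :
    2 * v ^ n ≤ ((n : ℝ) + 1) * (Y * v ^ (n + 1)) := by
  have hvp : 0 ≤ v ^ (n + 1) := by positivity
  have h1 := mul_le_mul_of_nonneg_right h0 hvp
  have h2 : X * v ^ (n + 1) = (X * v) * v ^ n := by ring
  rw [h2, hv] at h1
  linarith

/-- the case `g = 1`, `d = 9` -/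
theorem nine {X v Y : ℝ} (hX1 : 1 ≤ X) (hX2 : X ≤ 2) (hv : X * v = 2) (hv1 : 1 ≤ v) (hv2 : v ≤ 2)
    (hY : 0 < Y) (j : ℤ) (hj : 2 * |j| ≤ 9) (hA : 9 * X ≤ (j : ℝ) ^ 2 * Y + (9 - 1))
    (hB : ∀ k : ℤ, 9 * X ≤ (2 * (j : ℝ) + k * 9) ^ 2 * Y + 2 * (9 - 2)) : 1 < Y * v ^ 9 := by
  by_cases h3 : |j| ≤ 3
  · have h4 := sqj j 3 (by exact_mod_cast h3)
    have h5 := mul_le_mul_of_nonneg_right h4 hY.le
    have h6 := bern 9 (c := 9) (Y := Y) hX1 hX2 hv hv1 (by push_cast; norm_num at h5; linarith)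
    norm_num at h6
    linarith
  · have h4 : |j| = 4 := by omega
    have hB1 : 9 * X ≤ Y + 14 := by
      rcases (abs_eq (by norm_num)).mp h4 with h | h
      · have := hB (-1)
        rw [h] at this
        norm_num at this
        linarith
      · have := hB 1
        rw [h] at this
        norm_num at this
        linarith
    have hA1 : 9 * X ≤ 16 * Y + 8 := by
      rcases (abs_eq (by norm_num)).mp h4 with h | h
      · rw [h] at hA
        norm_num at hA
        linarith
      · rw [h] at hA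
        norm_num at hA
        linarith
    rcases lt_trichotomy X (5 / 3) with hx | hx | hx
    · have hva : 6 / 5 ≤ v := by nlinarith
      rcases le_total v (3 / 2) with hvb | hvb
      · have := low 8 (c := 16) (Y := Y) (a := 6 / 5) (b := 3 / 2) hv (by norm_num) hva hvb
          (by norm_num) (by push_cast; linarith)
        norm_num at this
        linarith
      · have := low 8 (c := 16) (Y := Y) (a := 3 / 2) (b := 2) hv (by norm_num) hvb hv2
          (by norm_num) (by push_cast; linarith)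
        norm_num at this
        linarith
    · have hva : v = 6 / 5 := by
        rw [hx] at hv
        linarith
      have hY1 : 1 ≤ Y := by linarith
      rw [hva]
      norm_num
      linarith
    · have hY1 : 1 < Y := by linarith
      have : 1 ≤ v ^ 9 := one_le_pow₀ hv1
      nlinarith

/-- the case `g = 1`, `d = 10` -/
theorem ten {X v Y : ℝ} (hX1 : 1 ≤ X) (hX2 : X ≤ 2) (hv : X * v = 2) (hv1 : 1 ≤ v) (hv2 : v ≤ 2)
    (hY : 0 < Y) (j : ℤ) (hj : 2 * |j| ≤ 10) (hA : 10 * X ≤ (j : ℝ) ^ 2 * Y + (10 - 1))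
    (hB : ∀ k : ℤ, 10 * X ≤ (2 * (j : ℝ) + k * 10) ^ 2 * Y + 2 * (10 - 2)) :
    3 / 4 < Y * v ^ 10 := by
  by_cases h3 : |j| ≤ 3
  · have h4 := sqj j 3 (by exact_mod_cast h3)
    have h5 := mul_le_mul_of_nonneg_right h4 hY.le
    have h6 := bern 10 (c := 9) (Y := Y) hX1 hX2 hv hv1 (by push_cast; norm_num at h5; linarith)
    norm_num at h6
    linarith
  · have h4 : |j| = 4 ∨ |j| = 5 := by omega
    rcases h4 with h4 | h4
    · have hB1 : 10 * X ≤ 4 * Y + 16 := by
        rcases (abs_eq (by norm_num)).mp h4 with h | h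
        · have := hB (-1)
          rw [h] at this
          norm_num at this
          linarith
        · have := hB 1
          rw [h] at this
          norm_num at this
          linarith
      have hA1 : 10 * X ≤ 16 * Y + 9 := by
        rcases (abs_eq (by norm_num)).mp h4 with h | h
        · rw [h] at hA
          norm_num at hA
          linarith
        · rw [h] at hA
          norm_num at hA
          linarith
      rcases lt_trichotomy X (19 / 10) with hx | hx | hx
      · have hva : 20 / 19 ≤ v := by nlinarith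
        rcases le_total v (13 / 10) with hvb | hvb
        · have := low 9 (c := 16) (Y := Y) (a := 20 / 19) (b := 13 / 10) hv (by norm_num) hva hvb
            (by norm_num) (by push_cast; linarith)
          norm_num at this
          linarith
        · have := low 9 (c := 16) (Y := Y) (a := 13 / 10) (b := 2) hv (by norm_num) hvb hv2
            (by norm_num) (by push_cast; linarith)
          norm_num at this
          linarith
      · have hva : v = 20 / 19 := by
          rw [hx] at hv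
          linarith
        have hY1 : 3 / 4 ≤ Y := by linarith
        rw [hva]
        norm_num
        linarith
      · have hY1 : 3 / 4 < Y := by linarith
        have : 1 ≤ v ^ 10 := one_le_pow₀ hv1
        nlinarith
    · have hB1 : 10 * X ≤ 16 := by
        rcases (abs_eq (by norm_num)).mp h4 with h | h
        · have := hB (-1)
          rw [h] at this
          norm_num at this
          linarith
        · have := hB 1
          rw [h] at this
          norm_num at this
          linarith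
      have hA1 : 10 * X ≤ 25 * Y + 9 := by
        rcases (abs_eq (by norm_num)).mp h4 with h | h
        · rw [h] at hA
          norm_num at hA
          linarith
        · rw [h] at hA
          norm_num at hA
          linarith
      have hva : 5 / 4 ≤ v := by nlinarith
      rcases le_total v (8 / 5) with hvb | hvb
      · have := low 9 (c := 25) (Y := Y) (a := 5 / 4) (b := 8 / 5) hv (by norm_num) hva hvb
          (by norm_num) (by push_cast; linarith)
        norm_num at this
        linarith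
      · have := low 9 (c := 25) (Y := Y) (a := 8 / 5) (b := 2) hv (by norm_num) hvb hv2
          (by norm_num) (by push_cast; linarith)
        norm_num at this
        linarith

/-- the case `g = 1`, `d = 11` -/
theorem eleven {X v Y : ℝ} (hX1 : 1 ≤ X) (hX2 : X ≤ 2) (hv : X * v = 2) (hv1 : 1 ≤ v) (hv2 : v ≤ 2)
    (hY : 0 < Y) (j : ℤ) (hj : 2 * |j| ≤ 11) (hA : 11 * X ≤ (j : ℝ) ^ 2 * Y + (11 - 1))
    (hB : ∀ k : ℤ, 11 * X ≤ (2 * (j : ℝ) + k * 11) ^ 2 * Y + 2 * (11 - 2)) :
    1 / 2 < Y * v ^ 11 := by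
  by_cases h3 : |j| ≤ 4
  · have h4 := sqj j 4 (by exact_mod_cast h3)
    have h5 := mul_le_mul_of_nonneg_right h4 hY.le
    have h6 := bern 11 (c := 16) (Y := Y) hX1 hX2 hv hv1 (by push_cast; norm_num at h5; linarith)
    norm_num at h6
    linarith
  · have h4 : |j| = 5 := by omega
    have hB1 : 11 * X ≤ Y + 18 := by
      rcases (abs_eq (by norm_num)).mp h4 with h | h
      · have := hB (-1)
        rw [h] at this
        norm_num at this
        linarith
      · have := hB 1
        rw [h] at this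
        norm_num at this
        linarith
    have hA1 : 11 * X ≤ 25 * Y + 10 := by
      rcases (abs_eq (by norm_num)).mp h4 with h | h
      · rw [h] at hA
        norm_num at hA
        linarith
      · rw [h] at hA
        norm_num at hA
        linarith
    rcases le_total X (17 / 10) with hx | hx
    · have hva : 20 / 17 ≤ v := by nlinarith
      rcases le_total v (8 / 5) with hvb | hvb
      · have := low 10 (c := 25) (Y := Y) (a := 20 / 17) (b := 8 / 5) hv (by norm_num) hva hvb
          (by norm_num) (by push_cast; linarith)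
        norm_num at this
        linarith
      · have := low 10 (c := 25) (Y := Y) (a := 8 / 5) (b := 2) hv (by norm_num) hvb hv2
          (by norm_num) (by push_cast; linarith)
        norm_num at this
        linarith
    · have hY1 : 7 / 10 ≤ Y := by linarith
      have : 1 ≤ v ^ 11 := one_le_pow₀ hv1
      nlinarith

/-- the case `g = 1`, `d ≥ 12` -/
theorem large (d : ℕ) (hd : 12 ≤ d) (hd' : d ≤ 14) {X v Y : ℝ} (hX1 : 1 ≤ X) (hX2 : X ≤ 2)
    (hv : X * v = 2) (hv1 : 1 ≤ v) (hY : 0 < Y) (j : ℤ) (hj : 2 * |j| ≤ d)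
    (hA : d * X ≤ (j : ℝ) ^ 2 * Y + (d - 1)) : 1 / 4 < Y * v ^ d := by
  have h3 : |j| ≤ 7 := by omega
  interval_cases d
  · have h4 := sqj j 6 (by push_cast; push_cast at hj; omega)
    have h5 := mul_le_mul_of_nonneg_right h4 hY.le
    have h6 := bern 12 (c := 36) (Y := Y) hX1 hX2 hv hv1
      (by push_cast; push_cast at hA; norm_num at h5; linarith)
    norm_num at h6
    linarith
  · have h4 := sqj j 6 (by push_cast; push_cast at hj; omega)
    have h5 := mul_le_mul_of_nonneg_right h4 hY.le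
    have h6 := bern 13 (c := 36) (Y := Y) hX1 hX2 hv hv1
      (by push_cast; push_cast at hA; norm_num at h5; linarith)
    norm_num at h6
    linarith
  · have h4 := sqj j 7 (by push_cast; push_cast at hj; omega)
    have h5 := mul_le_mul_of_nonneg_right h4 hY.le
    have h6 := bern 14 (c := 49) (Y := Y) hX1 hX2 hv hv1
      (by push_cast; push_cast at hA; norm_num at h5; linarith)
    norm_num at h6
    linarith

end PermNumAux

open PermNumAux

/-- the estimates -/
theorem perm_num (d : ℕ) (hd : 9 ≤ d) (hd' : d ≤ 14) (X Y : ℝ) (hX : 0 < X) (hX2 : X ≤ 2) (g : ℕ) (hg : 1 ≤ g)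
    (hgd : g ∣ d) (h0 : X ≤ d * Y)
    (h1 : g = 1 → ∃ j : ℤ, 2 * |j| ≤ d ∧ d * X ≤ (j : ℝ) ^ 2 * Y + (d - 1) ∧
      ∀ k : ℤ, d * X ≤ (2 * (j : ℝ) + k * d) ^ 2 * Y + 2 * (d - 2)) :
    Tn d < (g : ℝ) ^ 2 * Y * (2 / X) ^ d := by
  have hd0 : (0 : ℝ) < d := by
    have : 0 < d := by omega
    exact_mod_cast this
  have hYpos : 0 < Y := by
    by_contra hneg
    push Not at hneg
    have : (d : ℝ) * Y ≤ 0 := mul_nonpos_of_nonneg_of_nonpos hd0.le hneg
    linarith
  set v : ℝ := 2 / X with hvdef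
  have hv : X * v = 2 := by
    rw [hvdef]
    field_simp
  have hv1 : 1 ≤ v := by
    rw [hvdef, le_div_iff₀ hX]
    linarith
  have hv0 : 0 ≤ v := by linarith
  obtain ⟨n, rfl⟩ : ∃ n, d = n + 1 := ⟨d - 1, by omega⟩
  have hbase := base n hv hv0 (by push_cast at h0; exact h0)
  have hZ0 : 0 < Y * v ^ (n + 1) := by positivity
  have hgR : (1 : ℝ) ≤ g := by exact_mod_cast hg
  have hgg : (g : ℝ) ^ 2 * Y * v ^ (n + 1) = (g : ℝ) ^ 2 * (Y * v ^ (n + 1)) := by ring
  rw [hgg]
  have hg2 : (1 : ℝ) ≤ (g : ℝ) ^ 2 := one_le_pow₀ hgR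
  have hTle : Tn (n + 1) ≤ 1 := by
    have h8 : 8 ≤ n := by omega
    have h13 : n ≤ 13 := by omega
    unfold Tn
    interval_cases n <;> norm_num
  rcases le_total X 1 with hX1 | hX1
  · -- `X ≤ 1`
    have hv2 : 2 ≤ v := by nlinarith
    have h1 : (2 : ℝ) ^ 8 ≤ v ^ n := by
      calc (2 : ℝ) ^ 8 ≤ 2 ^ n := pow_le_pow_right₀ (by norm_num) (by omega)
        _ ≤ v ^ n := pow_le_pow_left₀ (by norm_num) hv2 n
    have h2 : (n : ℝ) + 1 ≤ 14 := by exact_mod_cast hd'
    have h3 : 1 < Y * v ^ (n + 1) := by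
      by_contra hneg
      push Not at hneg
      have : ((n : ℝ) + 1) * (Y * v ^ (n + 1)) ≤ 14 * 1 := by
        apply mul_le_mul h2 hneg hZ0.le (by norm_num)
      norm_num at h1
      linarith
    have h4 : Y * v ^ (n + 1) ≤ (g : ℝ) ^ 2 * (Y * v ^ (n + 1)) := le_mul_of_one_le_left hZ0.le hg2
    linarith
  · rcases Nat.lt_or_ge 1 g with hg1 | hg1
    · -- `g ≥ 2`
      have h1 : 1 ≤ v ^ n := one_le_pow₀ hv1
      have h2 : 2 ≤ ((n : ℝ) + 1) * (Y * v ^ (n + 1)) := by linarith
      have h8 : 8 ≤ n := by omega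
      have h13 : n ≤ 13 := by omega
      have hg2' : (4 : ℝ) ≤ (g : ℝ) ^ 2 := by
        have : (2 : ℝ) ≤ g := by exact_mod_cast hg1
        nlinarith
      have h5 : 4 * (Y * v ^ (n + 1)) ≤ (g : ℝ) ^ 2 * (Y * v ^ (n + 1)) :=
        mul_le_mul_of_nonneg_right hg2' hZ0.le
      by_cases hn8 : n = 8
      · subst hn8
        have hg3 : 3 ≤ g := by
          by_contra hlt
          have : g = 2 := by omega
          rw [this] at hgd
          revert hgd
          decide
        have hg9 : (9 : ℝ) ≤ (g : ℝ) ^ 2 := by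
          have : (3 : ℝ) ≤ g := by exact_mod_cast hg3
          nlinarith
        have h6 : 9 * (Y * v ^ (8 + 1)) ≤ (g : ℝ) ^ 2 * (Y * v ^ (8 + 1)) :=
          mul_le_mul_of_nonneg_right hg9 hZ0.le
        have hc : ((8 : ℕ) : ℝ) = 8 := by norm_num
        rw [hc] at h2
        linarith
      · have hT : Tn (n + 1) ≤ 3 / 4 ∧ (n = 9 ∨ Tn (n + 1) ≤ 1 / 2) := by
          unfold Tn
          interval_cases n <;> first | exact absurd rfl hn8 | norm_num
        rcases hT with ⟨hT1, hT2⟩
        by_cases hn9 : n = 9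
        · subst hn9
          have hc : ((9 : ℕ) : ℝ) = 9 := by norm_num
          rw [hc] at h2
          linarith
        · have hT3 : Tn (n + 1) ≤ 1 / 2 := by
            rcases hT2 with h | h
            · exact absurd h hn9
            · exact h
          have h2' : (n : ℝ) + 1 ≤ 14 := by exact_mod_cast hd'
          have h7 : 1 / 7 ≤ Y * v ^ (n + 1) := by
            by_contra hneg
            push Not at hneg
            have : ((n : ℝ) + 1) * (Y * v ^ (n + 1)) < 14 * (1 / 7) := by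
              apply mul_lt_mul' h2' hneg hZ0.le (by norm_num)
            linarith
          linarith
    · -- `g = 1`
      have hg1' : g = 1 := by omega
      obtain ⟨j, hj, hA, hB⟩ := h1 hg1'
      have hv2 : v ≤ 2 := by nlinarith
      have hgone : (g : ℝ) ^ 2 = 1 := by
        rw [hg1']
        norm_num
      rw [hgone, one_mul]
      have h8 : 8 ≤ n := by omega
      have h13 : n ≤ 13 := by omega
      by_cases hn8 : n = 8
      · subst hn8
        have hT : Tn (8 + 1) = 1 := by unfold Tn; norm_num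
        rw [hT]
        push_cast at hj hA hB
        norm_num at hj hA hB
        exact nine hX1 hX2 hv hv1 hv2 hYpos j hj (by norm_num; linarith)
          (fun k => by have := hB k; norm_num; linarith)
      by_cases hn9 : n = 9
      · subst hn9
        have hT : Tn (9 + 1) = 3 / 4 := by unfold Tn; norm_num
        rw [hT]
        push_cast at hj hA hB
        norm_num at hj hA hB
        exact ten hX1 hX2 hv hv1 hv2 hYpos j hj (by norm_num; linarith)
          (fun k => by have := hB k; norm_num; linarith)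
      by_cases hn10 : n = 10
      · subst hn10
        have hT : Tn (10 + 1) = 1 / 2 := by unfold Tn; norm_num
        rw [hT]
        push_cast at hj hA hB
        norm_num at hj hA hB
        exact eleven hX1 hX2 hv hv1 hv2 hYpos j hj (by norm_num; linarith)
          (fun k => by have := hB k; norm_num; linarith)
      · have hT : Tn (n + 1) ≤ 1 / 4 := by
          unfold Tn
          interval_cases n <;>
            first
            | exact absurd rfl hn8
            | exact absurd rfl hn9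
            | exact absurd rfl hn10
            | norm_num
        have := large (n + 1) (by omega) hd' hX1 hX2 hv hv1 hYpos j hj hA
        linarith

end CritL
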