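import Pool.Agent.Lib.CritL.Dual
import Pool.Agent.Lib.CritL.ConsA
import Pool.Agent.Lib.CritL.Lam
import Pool.Agent.Lib.CritL.PermNum

/-!
# Lattices preserved by permutations of orthonormal vectors
-/

set_option autoImplicit false

namespace CritL

open Matrix

section

variable {d k : ℕ} {u : Fin k → E d}

theorem inner_u (hu : Orthonormal ℝ u) (i j : Fin k) : inner ℝ (u i) (u j) = if i = j then (1 : ℝ) else 0 :=
  orthonormal_iff_ite.1 hu i j

theorem sub_ne {u : Fin k → E d} (hu : Orthonormal ℝ u) {i j : Fin k} (hij : i ≠ j) : u i - u j ≠ 0 := by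
  intro h
  have h1 : inner ℝ (u i) (u i - u j) = (1 : ℝ) := by
    rw [inner_sub_right, inner_u hu, inner_u hu, if_pos rfl, if_neg hij, sub_zero]
  rw [h, inner_zero_right] at h1
  norm_num at h1

theorem norm_sub_sq' (hu : Orthonormal ℝ u) {i j : Fin k} (hij : i ≠ j) : inner ℝ (u i - u j) (u i - u j) = (2 : ℝ) := by
  rw [inner_sub_left, inner_sub_right, inner_sub_right, inner_u hu, inner_u hu, inner_u hu, inner_u hu, if_pos rfl,
    if_neg hij, if_neg hij.symm, if_pos rfl]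
  norm_num

theorem refl_sub (hu : Orthonormal ℝ u) {i j : Fin k} (hij : i ≠ j) (x : E d) :
    refl (u i - u j) x = x - (inner ℝ (u i) x - inner ℝ (u j) x) • (u i - u j) := by
  unfold refl
  rw [norm_sub_sq' hu hij, inner_sub_left]
  congr 2
  ring

/-- the transpositions preserve `L` -/
def TInv (L : Submodule ℤ (E d)) (u : Fin k → E d) : Prop :=
  ∀ i j, i ≠ j → ∀ x ∈ L, ((inner ℝ (u i) x : ℝ) - inner ℝ (u j) x) • (u i - u j) ∈ L

theorem tinv_of (hu : Orthonormal ℝ u) {b : Fin d → E d} (h : ∀ i j, i ≠ j → Preserves (u i - u j) b) :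
    TInv (lat b) u := by
  intro i j hij x hx
  have h1 := (lat b).sub_mem hx (h i j hij x hx)
  rw [refl_sub hu hij] at h1
  simpa using h1

variable {L : Submodule ℤ (E d)}

theorem TInv.move (hu : Orthonormal ℝ u) (h : TInv L u) {t : ℝ} {i j l : Fin k} (hij : i ≠ j) (hil : i ≠ l)
    (ht : t • (u i - u j) ∈ L) : t • (u i - u l) ∈ L := by
  by_cases hjl : j = l
  · rwa [← hjl]
  have h1 := h j l hjl _ ht
  rw [inner_smul_right, inner_smul_right, inner_sub_right, inner_sub_right, inner_u hu, inner_u hu, inner_u hu,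
    inner_u hu, if_neg hij.symm, if_pos rfl, if_neg hil.symm, if_neg (Ne.symm hjl)] at h1
  have h2 := L.sub_mem ht h1
  have e : t • (u i - u j) - (t * (0 - 1) - t * (0 - 0)) • (u j - u l) = t • (u i - u l) := by
    module
  rwa [e] at h2

theorem neg_move {t : ℝ} {v w : E d} (h : t • (v - w) ∈ L) : t • (w - v) ∈ L := by
  have := L.neg_mem h
  rwa [← smul_neg, neg_sub] at this

theorem TInv.all (hu : Orthonormal ℝ u) (h : TInv L u) {t : ℝ} {i j i' j' : Fin k} (hij : i ≠ j) (hij' : i' ≠ j')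
    (ht : t • (u i - u j) ∈ L) : t • (u i' - u j') ∈ L := by
  by_cases h1 : j' = i
  · subst h1
    exact neg_move (h.move hu hij (Ne.symm hij') ht)
  · have h2 := h.move hu hij (Ne.symm h1) ht
    exact neg_move (h.move hu h1 (Ne.symm hij') (neg_move h2))

/-- the group of the multiples of a vector in a lattice -/
def Mul (L : Submodule ℤ (E d)) (v : E d) : AddSubgroup ℝ where
  carrier := {t | t • v ∈ L}
  zero_mem' := by simp
  add_mem' := by
    intro a c ha hc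
    show (a + c) • v ∈ L
    rw [add_smul]
    exact L.add_mem ha hc
  neg_mem' := by
    intro a ha
    show (-a) • v ∈ L
    rw [neg_smul]
    exact L.neg_mem ha

theorem mem_Mul {L : Submodule ℤ (E d)} {v : E d} {t : ℝ} : t ∈ Mul L v ↔ t • v ∈ L := Iff.rfl

/-- it is cyclic -/
theorem exists_gen {l : ℝ} (hl : 0 < l) (hmin : ∀ v ∈ L, v ≠ 0 → l ≤ ‖v‖) {v : E d} (hv : v ≠ 0) {t : ℝ} (ht : t ≠ 0)
    (htv : t • v ∈ L) : ∃ s : ℝ, 0 < s ∧ s • v ∈ L ∧ l ≤ s * ‖v‖ ∧ ∀ r : ℝ, r • v ∈ L → ∃ n : ℤ, r = n * s := by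
  have hv0 : 0 < ‖v‖ := norm_pos_iff.2 hv
  have hdis : Disjoint (Mul L v : Set ℝ) (Set.Ioo 0 (l / ‖v‖)) := by
    rw [Set.disjoint_left]
    intro r hr hr2
    have h1 := hmin (r • v) hr (smul_ne_zero hr2.1.ne' hv)
    rw [norm_smul, Real.norm_eq_abs, abs_of_pos hr2.1] at h1
    have h2 := hr2.2
    rw [lt_div_iff₀ hv0] at h2
    linarith
  obtain ⟨s, hs⟩ := AddSubgroup.cyclic_of_isolated_zero (div_pos hl hv0) hdis
  have hmem : ∀ r : ℝ, r • v ∈ L ↔ ∃ n : ℤ, n • s = r := by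
    intro r
    rw [← mem_Mul, hs]
    exact AddSubgroup.mem_closure_singleton
  have hs0 : s ≠ 0 := by
    rintro rfl
    obtain ⟨n, hn⟩ := (hmem t).1 htv
    simp at hn
    exact ht hn.symm
  have hsmem : s • v ∈ L := (hmem s).2 ⟨1, by simp⟩
  have habs : |s| • v ∈ L := by
    rcases abs_choice s with h | h
    · rwa [h]
    · rw [h, neg_smul]
      exact L.neg_mem hsmem
  refine ⟨|s|, abs_pos.2 hs0, habs, ?_, fun r hr => ?_⟩
  · have h1 := hmin _ habs (smul_ne_zero (abs_pos.2 hs0).ne' hv)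
    rwa [norm_smul, Real.norm_eq_abs, abs_abs] at h1
  · obtain ⟨n, hn⟩ := (hmem r).1 hr
    rcases abs_choice s with h | h
    · exact ⟨n, by rw [h, ← hn]; simp⟩
    · exact ⟨-n, by rw [h, ← hn]; push_cast; simp⟩

/-- **the root system**: `s` -/
theorem exists_s (hu : Orthonormal ℝ u) (h : TInv L u) {l : ℝ} (hl : 0 < l) (hmin : ∀ v ∈ L, v ≠ 0 → l ≤ ‖v‖)
    (hspan : ∀ w : E d, (∀ x ∈ L, inner ℝ w x = (0 : ℝ)) → w = 0) (hk : 2 ≤ k) :
    ∃ s : ℝ, 0 < s ∧ l ^ 2 ≤ 2 * s ^ 2 ∧ (∀ i j, i ≠ j → s • (u i - u j) ∈ L) ∧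
      ∀ x ∈ L, ∀ i j, ∃ n : ℤ, (inner ℝ (u i) x : ℝ) - inner ℝ (u j) x = n * s := by
  let i₀ : Fin k := ⟨0, by omega⟩
  let i₁ : Fin k := ⟨1, by omega⟩
  have h01 : i₀ ≠ i₁ := by
    intro h
    have := congrArg Fin.val h
    simp [i₀, i₁] at this
  have hv := sub_ne hu h01
  obtain ⟨x, hx, hx0⟩ : ∃ x ∈ L, (inner ℝ (u i₀ - u i₁) x : ℝ) ≠ 0 := by
    by_contra hcon
    push Not at hcon
    exact hv (hspan _ hcon)
  rw [inner_sub_left] at hx0
  obtain ⟨s, hs, hsL, hsl, hgen⟩ := exists_gen hl hmin hv hx0 (h i₀ i₁ h01 x hx)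
  refine ⟨s, hs, ?_, fun i j hij => h.all hu h01 hij hsL, fun x hx i j => ?_⟩
  · have h1 : ‖u i₀ - u i₁‖ ^ 2 = 2 := by rw [← real_inner_self_eq_norm_sq, norm_sub_sq' hu h01]
    have h2 := pow_le_pow_left₀ hl.le hsl 2
    rw [mul_pow, h1] at h2
    linarith
  · by_cases hij : i = j
    · exact ⟨0, by rw [hij]; simp⟩
    · exact hgen _ (h.all hu hij h01 (h i j hij x hx))

end

end CritL
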