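import Pool.Agent.Lib.CritL.Vol

/-!
# Automorphisms of prime order
-/

set_option autoImplicit false

namespace CritL

open Matrix

/-- the product of the `1 - X^j` -/
noncomputable def pj (p : ℕ) : Polynomial ℤ := ∏ j ∈ Finset.range (p - 1), (1 - Polynomial.X ^ (j + 1))

theorem cyc_dvd {p : ℕ} (hp : p.Prime) : Polynomial.cyclotomic p ℤ ∣ pj p - Polynomial.C (p : ℤ) := by
  have hp0 : p ≠ 0 := hp.ne_zero
  have hζ := Complex.isPrimitiveRoot_exp p hp0
  set ζ := Complex.exp (2 * Real.pi * Complex.I / p) with hζd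
  rw [Polynomial.cyclotomic_eq_minpoly hζ hp.pos]
  refine minpoly.isIntegrallyClosed_dvd (hζ.isIntegral hp.pos) ?_
  obtain ⟨n, rfl⟩ : ∃ n, p = n + 1 := ⟨p - 1, by omega⟩
  unfold pj
  rw [map_sub, map_prod]
  have h1 := hζ.prod_one_sub_pow_eq_order
  simp only [map_sub, map_one, map_pow, Polynomial.aeval_X, Nat.add_sub_cancel, Polynomial.aeval_C]
  rw [h1]
  simp

/-- determinants of the `1 - S^j` -/
theorem prod_det {W : Type*} [AddCommGroup W] [Module ℝ W] [FiniteDimensional ℝ W] (S : Module.End ℝ W) {p : ℕ}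
    (hp : p.Prime) (hS : ∑ i ∈ Finset.range p, S ^ i = 0) :
    ∏ j ∈ Finset.range (p - 1), LinearMap.det (1 - S ^ (j + 1)) = (p : ℝ) ^ Module.finrank ℝ W := by
  haveI := Fact.mk hp
  have h1 : Polynomial.aeval S (Polynomial.cyclotomic p ℤ) = 0 := by
    rw [Polynomial.cyclotomic_prime, map_sum]
    simpa using hS
  have h2 : Polynomial.aeval S (pj p) = Polynomial.aeval S (Polynomial.C (p : ℤ)) := by
    obtain ⟨q, hq⟩ := cyc_dvd hp
    have h3 := congrArg (Polynomial.aeval S) hq
    rw [map_mul, h1, zero_mul, map_sub] at h3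
    exact sub_eq_zero.1 h3
  let φ : Polynomial ℤ →* ℝ := (LinearMap.det : (W →ₗ[ℝ] W) →* ℝ).comp
    ((Polynomial.aeval S : Polynomial ℤ →ₐ[ℤ] Module.End ℝ W) : Polynomial ℤ →* Module.End ℝ W)
  have h3 : φ (pj p) = ∏ j ∈ Finset.range (p - 1), LinearMap.det (1 - S ^ (j + 1)) := by
    unfold pj
    rw [map_prod]
    refine Finset.prod_congr rfl fun j _ => ?_
    show LinearMap.det (Polynomial.aeval S (1 - Polynomial.X ^ (j + 1) : Polynomial ℤ)) = _
    rw [map_sub, map_one, map_pow, Polynomial.aeval_X]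
  rw [← h3]
  show LinearMap.det (Polynomial.aeval S (pj p)) = _
  rw [h2, Polynomial.aeval_C]
  have h4 : (algebraMap ℤ (Module.End ℝ W)) (p : ℤ) = (p : ℝ) • (1 : Module.End ℝ W) := by
    ext x
    simp [Nat.cast_smul_eq_nsmul]
  rw [h4, LinearMap.det_smul, map_one, mul_one]

/-- the Gram determinant of the images of an orthonormal basis -/
theorem gram_det {W : Type*} [NormedAddCommGroup W] [InnerProductSpace ℝ W] [FiniteDimensional ℝ W] {k : ℕ}
    (ob : OrthonormalBasis (Fin k) ℝ W) (f : W →ₗ[ℝ] W) :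
    (Matrix.of fun i j => (inner ℝ (f (ob i)) (f (ob j)) : ℝ)).det = LinearMap.det f ^ 2 := by
  set M := LinearMap.toMatrix ob.toBasis ob.toBasis f with hM
  have h1 : (Matrix.of fun i j => (inner ℝ (f (ob i)) (f (ob j)) : ℝ)) = Mᵀ * M := by
    funext i j
    rw [of_apply, mul_apply, ← OrthonormalBasis.sum_inner_mul_inner ob]
    refine Finset.sum_congr rfl fun l _ => ?_
    rw [transpose_apply, hM, LinearMap.toMatrix_apply, LinearMap.toMatrix_apply]
    simp only [OrthonormalBasis.coe_toBasis, OrthonormalBasis.coe_toBasis_repr_apply,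
      OrthonormalBasis.repr_apply_apply]
    rw [real_inner_comm]
  rw [h1, det_mul, det_transpose, hM, LinearMap.det_toMatrix, sq]

/-- **automorphisms of prime order** -/
theorem primeE {d : ℕ} (hd : 0 < d) {b : Fin d → E d} (hb : LinearIndependent ℝ b) (σ : E d ≃ₗᵢ[ℝ] E d)
    (hσ : ∀ x ∈ lat b, σ x ∈ lat b) {p : ℕ} (hp : p.Prime) (hpow : ∀ x, (⇑σ)^[p] x = x) :
    ∃ k, k + fixedDim σ = d ∧ (Dn k * Dn (fixedDim σ)) ^ (p - 1) ≤ ((p : ℝ) ^ k) ^ 2 * (ratio b ^ 2) ^ (p - 1) := by
  set G : Module.End ℝ (E d) := (σ.toLinearEquiv : E d →ₗ[ℝ] E d) with hG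
  have hGx : ∀ x, G x = σ x := fun x => rfl
  have hGp : ∀ n x, (G ^ n) x = (⇑σ)^[n] x := by
    intro n x
    rw [Module.End.coe_pow]
    rfl
  set V := LinearMap.ker (G - LinearMap.id) with hV
  have hVx : ∀ x, x ∈ V ↔ σ x = x := by
    intro x
    rw [hV, LinearMap.mem_ker, LinearMap.sub_apply, LinearMap.id_apply, hGx, sub_eq_zero]
  have hfd : Module.finrank ℝ V = fixedDim σ := rfl
  set W := Vᗮ with hW
  have hWG : ∀ x ∈ W, G x ∈ W := by
    intro x hx
    rw [hW, Submodule.mem_orthogonal] at hx ⊢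
    intro v hv
    have h1 : σ v = v := (hVx v).1 hv
    rw [hGx, ← h1, σ.inner_map_map]
    exact hx v hv
  set k := Module.finrank ℝ W with hk
  have hkd : k + fixedDim σ = d := by
    have h1 := V.finrank_add_finrank_orthogonal
    rw [hfd] at h1
    have h2 : fixedDim σ + k = d := by simpa using h1
    omega
  refine ⟨k, hkd, ?_⟩
  set S : Module.End ℝ W := G.restrict hWG with hS
  have hSx : ∀ x : W, ((S x : W) : E d) = σ x := fun x => rfl
  have hSp : ∀ n, ∀ x : W, (((S ^ n) x : W) : E d) = (⇑σ)^[n] (x : E d) := by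
    intro n
    induction n with
    | zero => intro x; rfl
    | succ n ih =>
      intro x
      rw [pow_succ, Module.End.mul_apply, ih, hSx, Function.iterate_succ_apply]
  -- the sum of the powers vanishes
  have hsum : ∑ i ∈ Finset.range p, S ^ i = 0 := by
    refine LinearMap.ext fun x => ?_
    set y := (∑ i ∈ Finset.range p, S ^ i) x with hy
    have hy' : ((y : W) : E d) = ∑ i ∈ Finset.range p, (⇑σ)^[i] (x : E d) := by
      rw [hy, LinearMap.sum_apply, Submodule.coe_sum]
      exact Finset.sum_congr rfl fun i _ => hSp i x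
    have h1 : (y : E d) ∈ V := by
      rw [hVx, hy', map_sum]
      have h2 : ∀ i, σ ((⇑σ)^[i] (x : E d)) = (⇑σ)^[i + 1] (x : E d) := fun i =>
        (Function.iterate_succ_apply' _ _ _).symm
      simp only [h2]
      have h3 := Finset.sum_range_succ (fun i => (⇑σ)^[i] (x : E d)) p
      have h4 := Finset.sum_range_succ' (fun i => (⇑σ)^[i] (x : E d)) p
      rw [h3] at h4
      rw [hpow] at h4
      simpa using h4.symm
    have h2 : (y : E d) = 0 := by
      have h3 : (y : E d) ∈ V ⊓ Vᗮ := ⟨h1, y.2⟩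
      rw [V.inf_orthogonal_eq_bot] at h3
      exact (Submodule.mem_bot ℝ).1 h3
    show y = 0
    exact_mod_cast h2
  have hprod := prod_det S hp hsum
  let ob := stdOrthonormalBasis ℝ W
  set u : Fin k → E d := fun i => (ob i : E d) with hu
  have huo : Orthonormal ℝ u := by
    have := ob.orthonormal.comp_linearIsometry W.subtypeₗᵢ
    exact this
  -- the single inequalities
  have hj : ∀ j ∈ Finset.range (p - 1), Dn k * Dn (fixedDim σ) ≤
      LinearMap.det (1 - S ^ (j + 1)) ^ 2 * ratio b ^ 2 := by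
    intro j hj
    rw [Finset.mem_range] at hj
    set F : E d →ₗ[ℝ] E d := 1 - G ^ (j + 1) with hF
    have hFx : ∀ x, F x = x - (⇑σ)^[j + 1] x := by
      intro x
      rw [hF, LinearMap.sub_apply, Module.End.one_apply, hGp]
    have hlat : ∀ x ∈ lat b, F x ∈ lat b := by
      intro x hx
      rw [hFx]
      refine (lat b).sub_mem hx ?_
      have : ∀ n, (⇑σ)^[n] x ∈ lat b := by
        intro n
        induction n with
        | zero => exact hx
        | succ n ih =>
          rw [Function.iterate_succ_apply']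
          exact hσ _ ih
      exact this _
    have hker : LinearMap.ker F = V := by
      ext x
      rw [LinearMap.mem_ker, hFx, hVx, sub_eq_zero]
      constructor
      · intro h
        have h1 : Function.IsPeriodicPt (⇑σ) (j + 1) x := h.symm
        have h2 : Function.IsPeriodicPt (⇑σ) p x := hpow x
        have h3 := h1.gcd h2
        have h4 : Nat.gcd (j + 1) p = 1 := by
          refine (Nat.Coprime.symm ?_)
          exact (Nat.Prime.coprime_iff_not_dvd hp).2 fun hdvd => by
            have := Nat.le_of_dvd (by omega) hdvd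
            omega
        rw [h4] at h3
        exact h3
      · intro h
        exact (Function.iterate_fixed h _).symm
    have hrank : Module.finrank ℝ (LinearMap.range F) = k := by
      have h1 := LinearMap.finrank_range_add_finrank_ker F
      rw [hker, hfd] at h1
      have h2 : Module.finrank ℝ (LinearMap.range F) + fixedDim σ = d := by simpa using h1
      omega
    obtain ⟨m, hm, hle⟩ := volE hd hb F hlat hrank huo fun i x hx => by
      have h1 : x ∈ V := by rw [← hker]; exact hx
      exact (Submodule.mem_orthogonal' V _).1 (ob i).2 x h1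
    obtain rfl : m = fixedDim σ := by omega
    refine hle.trans_eq ?_
    congr 1
    rw [← gram_det ob (1 - S ^ (j + 1))]
    congr 1
    funext i l
    rw [gm_apply, of_apply]
    have h1 : ∀ i, F (u i) = (((1 - S ^ (j + 1)) (ob i) : W) : E d) := by
      intro i
      rw [hFx, LinearMap.sub_apply, Module.End.one_apply, Submodule.coe_sub, hSp]
    rw [h1, h1]
    rfl
  have h1 := Finset.prod_le_prod (s := Finset.range (p - 1))
    (f := fun _ => Dn k * Dn (fixedDim σ)) (fun i _ => (mul_pos (Dn_pos _) (Dn_pos _)).le) hj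
  rw [Finset.prod_const, Finset.card_range, Finset.prod_mul_distrib, Finset.prod_const, Finset.card_range,
    Finset.prod_pow, hprod] at h1
  exact h1

end CritL
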