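import Pool.Agent.Lib.CritL.Inf

/-!
# Reflections
-/

set_option autoImplicit false

namespace CritL

open Matrix

theorem symm_of {d : ℕ} {P : Matrix (Fin d) (Fin d) ℝ} (hP : P.PosDef) : Pᵀ = P := by
  have := hP.isHermitian
  rwa [IsHermitian, conjTranspose_eq_transpose_of_trivial] at this

theorem dot_symm {d : ℕ} {P : Matrix (Fin d) (Fin d) ℝ} (hP : P.PosDef) (x y : Fin d → ℝ) :
    x ⬝ᵥ (P *ᵥ y) = (P *ᵥ x) ⬝ᵥ y := by
  rw [dotProduct_mulVec, ← mulVec_transpose, symm_of hP]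

/-- **a reflection gives an integral functional** -/
theorem refl_functional {d : ℕ} {P : Matrix (Fin d) (Fin d) ℝ} (hP : Adm P) (ν : Fin d → ℝ) (hν : ν ≠ 0)
    (h : ∀ x : Fin d → ℤ, ∃ y : Fin d → ℤ, ic x - (2 * (ν ⬝ᵥ P *ᵥ ic x) / qf P ν) • ν = ic y) :
    ∃ (w : Fin d → ℤ) (t : ℝ), t ≠ 0 ∧ ic w = t • (P *ᵥ ν) ∧ qf P⁻¹ (ic w) ≤ 4 := by
  classical
  have hq := qf_pos hP.pd hν
  have hPν : P *ᵥ ν ≠ 0 := by
    intro h0
    unfold qf at hq
    rw [h0, dotProduct_zero] at hq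
    exact lt_irrefl _ hq
  obtain ⟨i₀, hi₀⟩ := Function.ne_iff.1 hPν
  have hsingle : ∀ i : Fin d, ic (Pi.single i (1 : ℤ)) = Pi.single i (1 : ℝ) := by
    intro i
    funext k
    by_cases hk : k = i
    · subst hk; simp [ic]
    · simp [ic, hk]
  have hval : ∀ (μ : Fin d → ℝ) (i : Fin d), μ ⬝ᵥ P *ᵥ ic (Pi.single i (1 : ℤ)) = (P *ᵥ μ) i := by
    intro μ i
    rw [dot_symm hP.pd, hsingle, dotProduct_single, mul_one]
  obtain ⟨y, hy⟩ := h (Pi.single i₀ 1)
  rw [hval] at hy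
  set c := 2 * (P *ᵥ ν) i₀ / qf P ν with hc
  have hc0 : c ≠ 0 := by
    rw [hc]
    have : (P *ᵥ ν) i₀ ≠ 0 := hi₀
    positivity
  have hu : ic (Pi.single i₀ (1 : ℤ) - y) = c • ν := by
    rw [ic_sub, ← hy]
    abel
  have hu0 : (Pi.single i₀ (1 : ℤ) - y) ≠ 0 := by
    intro h0
    rw [h0, ic_zero] at hu
    exact (smul_ne_zero hc0 hν) hu.symm
  obtain ⟨R, U, j, k, hRU, -, hk, hukR⟩ := exists_row _ hu0
  have hkR : (k : ℝ) ≠ 0 := by exact_mod_cast hk
  rw [hukR, ic_smul] at hu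
  set s := c / k with hs
  have hs0 : s ≠ 0 := div_ne_zero hc0 hkR
  have hR : ic (R j) = s • ν := by
    have : (k : ℝ)⁻¹ • ((k : ℝ) • ic (R j)) = (k : ℝ)⁻¹ • (c • ν) := by rw [hu]
    rw [smul_smul, inv_mul_cancel₀ hkR, one_smul, smul_smul] at this
    rw [this, hs, div_eq_inv_mul]
  have hbez : ∑ l, R j l * U l j = 1 := by
    have := congrFun (congrFun hRU j) j
    simpa [mul_apply] using this
  have hint : ∀ (r : ℝ) (z : Fin d → ℤ), r • ic (R j) = ic z → ∃ a : ℤ, r = a := by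
    intro r z hz
    refine ⟨∑ l, z l * U l j, ?_⟩
    have h1 : r = ∑ l, (r • ic (R j)) l * (U l j : ℝ) := by
      have h2 : ((∑ l, R j l * U l j : ℤ) : ℝ) = 1 := by rw [hbez]; norm_num
      push_cast at h2
      calc r = r * ∑ l, (R j l : ℝ) * (U l j : ℝ) := by rw [h2, mul_one]
        _ = _ := by
          rw [Finset.mul_sum]
          refine Finset.sum_congr rfl fun l _ => ?_
          simp only [Pi.smul_apply, smul_eq_mul, ic]
          ring
    rw [h1, hz]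
    push_cast
    rfl
  set q := qf P (ic (R j)) with hqd
  have hq2 : q = s ^ 2 * qf P ν := by rw [hqd, hR, qf_smul]
  have hRj0 : R j ≠ 0 := by
    intro h0
    rw [h0] at hbez
    simp at hbez
  have hq1 : 1 ≤ q := hP.one_le _ hRj0
  have hq0 : q ≠ 0 := by linarith
  have hcoef : ∀ i, ∃ a : ℤ, 2 * (P *ᵥ ic (R j)) i / q = a := by
    intro i
    obtain ⟨z, hz⟩ := h (Pi.single i 1)
    rw [hval] at hz
    refine hint _ (Pi.single i (1 : ℤ) - z) ?_
    rw [ic_sub, ← hz, hR, mulVec_smul, hq2]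
    funext l
    simp only [Pi.smul_apply, Pi.sub_apply, smul_eq_mul]
    have := hq.ne'
    field_simp
    ring
  choose w hw using hcoef
  have hwv : ic w = (2 / q) • (P *ᵥ ic (R j)) := by
    funext i
    show (w i : ℝ) = 2 / q * (P *ᵥ ic (R j)) i
    rw [← hw i]
    ring
  refine ⟨w, 2 / q * s, mul_ne_zero (div_ne_zero two_ne_zero hq0) hs0, ?_, ?_⟩
  · rw [hwv, hR, mulVec_smul, smul_smul]
  · have hPu : IsUnit P.det := isUnit_iff_ne_zero.2 hP.pd.det_pos.ne'
    rw [hwv, qf_smul]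
    have h3 : qf P⁻¹ (P *ᵥ ic (R j)) = q := by
      unfold qf
      rw [mulVec_mulVec, nonsing_inv_mul P hPu, one_mulVec, dotProduct_comm]
      rfl
    rw [h3]
    have : (2 / q) ^ 2 * q = 4 / q := by
      field_simp
      norm_num
    rw [this, div_le_iff₀ (by linarith)]
    linarith

/-- the Gram matrix of dual vectors of norm at most 4 -/
theorem det_gram_le {n d : ℕ} {P : Matrix (Fin d) (Fin d) ℝ} (hP : Adm P) (W : Matrix (Fin n) (Fin d) ℤ)
    (h4 : ∀ i, qf P⁻¹ (ic (W i)) ≤ 4) : (rw' W * P⁻¹ * (rw' W)ᵀ).det ≤ 4 ^ n := by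
  refine det_le_pow ?_ fun i => ?_
  · have := hP.pd.inv.posSemidef.mul_mul_conjTranspose_same (rw' W)
    rwa [conjTranspose_eq_transpose_of_trivial] at this
  · refine le_trans (le_of_eq ?_) (h4 i)
    unfold qf
    rw [Matrix.mul_assoc]
    simp only [mul_apply, dotProduct, mulVec, transpose_apply, rw', map_apply, ic]

/-- **at most 23 independent dual vectors of norm at most 4** -/
theorem lt_24 {d : ℕ} {P : Matrix (Fin d) (Fin d) ℝ} (hP : Adm P)
    (hcr : ∀ G : Matrix (Fin d) (Fin d) ℝ, Adm G → P.det ≤ G.det) {n : ℕ} (W : Matrix (Fin n) (Fin d) ℤ)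
    (hW : LinearIndependent ℤ W) (h4 : ∀ i, qf P⁻¹ (ic (W i)) ≤ 4) : n ≤ 23 := by
  by_contra hlt
  push Not at hlt
  obtain ⟨Q, hQ, hQd⟩ := exists_leech
  have hnd : n ≤ d := by
    have := hW.fintype_card_le_finrank
    simpa using this
  have hP0 := hP.pd.det_pos
  rcases Nat.lt_or_ge 24 d with hd | hd
  · obtain ⟨m, rfl⟩ : ∃ m, d = 24 + m := ⟨d - 24, by omega⟩
    let ι : Fin 24 → Fin n := Fin.castLE (by omega)
    have hι : Function.Injective ι := Fin.castLE_injective _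
    have h1 := dual_gt (n := 24) (by norm_num) (by omega) hP hcr (fun i => W (ι i)) (hW.comp ι hι) hQ
    have h2 := det_gram_le hP (fun i : Fin 24 => W (ι i)) fun i => h4 (ι i)
    have hQ0 := hQ.pd.det_pos
    have h3 : (rw' (fun i : Fin 24 => W (ι i)) * P⁻¹ * (rw' (fun i : Fin 24 => W (ι i)))ᵀ).det * Q.det ≤
        4 ^ 24 * (1 / 2) ^ 48 :=
      (mul_le_mul_of_nonneg_right h2 hQ0.le).trans (mul_le_mul_of_nonneg_left hQd (by positivity))
    norm_num at h3
    linarith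
  · obtain rfl : d = 24 := by omega
    let ι : Fin 23 → Fin n := Fin.castLE (by omega)
    have hι : Function.Injective ι := Fin.castLE_injective _
    obtain ⟨P₁, hP₁, h1⟩ := section_multi (n := 23) (m := 1) hP (fun i => W (ι i)) (hW.comp ι hι)
    have h2 := det_gram_le hP (fun i : Fin 23 => W (ι i)) fun i => h4 (ι i)
    have h3 := one_le_Dn_one.trans (Dn_le hP₁)
    have h5 := hcr Q hQ
    have h6 : P.det * (rw' (fun i : Fin 23 => W (ι i)) * P⁻¹ * (rw' (fun i : Fin 23 => W (ι i)))ᵀ).det ≤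
        (1 / 2) ^ 48 * 4 ^ 23 :=
      (mul_le_mul_of_nonneg_left h2 hP0.le).trans (mul_le_mul_of_nonneg_right (h5.trans hQd) (by positivity))
    norm_num at h6
    linarith

end CritL
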