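import Pool.Agent.Lib.CritL.Layer
import Pool.Agent.Lib.CritL.Join

/-!
# Sections orthogonal to a sublattice of the dual
-/

set_option autoImplicit false

namespace CritL

open Matrix

/-- a rectangular integer matrix with independent rows, in terms of rows of a unimodular matrix -/
theorem exists_rows {n d : ℕ} (W : Matrix (Fin n) (Fin d) ℤ) (hW : LinearIndependent ℤ W) :
    ∃ (R U : Matrix (Fin d) (Fin d) ℤ) (f : Fin n ↪ Fin d) (H : Matrix (Fin n) (Fin n) ℤ),
      R * U = 1 ∧ U * R = 1 ∧ H.det ≠ 0 ∧ W = H * R.submatrix f id := by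
  classical
  set S := Submodule.span ℤ (Set.range W) with hS
  let bW : Module.Basis (Fin n) ℤ S := Module.Basis.span hW
  obtain ⟨k, snf⟩ := Submodule.smithNormalForm (Pi.basisFun ℤ (Fin d)) S
  have hk : k = n := by
    have h1 := Module.finrank_eq_card_basis bW
    have h2 := Module.finrank_eq_card_basis snf.bN
    rw [h1, Fintype.card_fin, Fintype.card_fin] at h2
    exact h2.symm
  subst hk
  let e := Pi.basisFun ℤ (Fin d)
  set R : Matrix (Fin d) (Fin d) ℤ := (e.toMatrix snf.bM)ᵀ with hR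
  have hRrow : ∀ j, R j = snf.bM j := by
    intro j
    funext i
    rw [hR, transpose_apply, Module.Basis.toMatrix_apply, Pi.basisFun_repr]
  set H : Matrix (Fin k) (Fin k) ℤ := Matrix.of fun i j => snf.bN.repr (bW i) j * snf.a j with hH
  have hWH : W = H * R.submatrix snf.f id := by
    funext i
    have h1 := snf.bN.sum_repr (bW i)
    have h2 : ((bW i : S) : Fin d → ℤ) = W i := congrArg Subtype.val (Module.Basis.span_apply hW i)
    have h3 : W i = ∑ j, (snf.bN.repr (bW i) j * snf.a j) • R (snf.f j) := by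
      rw [← h2]
      conv_lhs => rw [← h1]
      rw [Submodule.coe_sum]
      refine Finset.sum_congr rfl fun j _ => ?_
      rw [Submodule.coe_smul, snf.snf, smul_smul, hRrow]
    funext l
    rw [h3, Finset.sum_apply, mul_apply]
    rfl
  refine ⟨R, (snf.bM.toMatrix e)ᵀ, snf.f, H, ?_, ?_, ?_, hWH⟩
  · rw [hR, ← transpose_mul, Module.Basis.toMatrix_mul_toMatrix_flip, transpose_one]
  · rw [hR, ← transpose_mul, Module.Basis.toMatrix_mul_toMatrix_flip, transpose_one]
  · intro h0
    obtain ⟨v, hv, hv0⟩ := exists_vecMul_eq_zero_iff.2 h0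
    apply hv
    have h1 : v ᵥ* W = 0 := by
      rw [hWH, ← vecMul_vecMul, hv0, zero_vecMul]
    have h2 : ∑ i, v i • W i = 0 := by
      funext l
      have := congrFun h1 l
      simpa [vecMul, dotProduct, Finset.sum_apply] using this
    have h3 := Fintype.linearIndependent_iff.1 hW v h2
    funext i
    exact h3 i

/-- the real matrix of a rectangular integer matrix -/
noncomputable def rw' {n d : ℕ} (W : Matrix (Fin n) (Fin d) ℤ) : Matrix (Fin n) (Fin d) ℝ := W.map (Int.cast : ℤ → ℝ)

/-- an equivalence extending an embedding -/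
theorem exists_ext {n m : ℕ} (f : Fin n ↪ Fin (n + m)) :
    ∃ e : Fin n ⊕ Fin m ≃ Fin (n + m), ∀ i, e (Sum.inl i) = f i := by
  classical
  have hc : Fintype.card ((Set.range f)ᶜ : Set (Fin (n + m))) = m := by
    rw [Fintype.card_compl_set, Fintype.card_fin, Set.card_range_of_injective f.injective, Fintype.card_fin]
    omega
  let g : Fin m ≃ ((Set.range f)ᶜ : Set (Fin (n + m))) := (Fintype.equivFinOfCardEq hc).symm
  refine ⟨((Equiv.ofInjective f f.injective).sumCongr g).trans (Equiv.Set.sumCompl (Set.range f)), fun i => ?_⟩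
  simp

/-- **sections**: orthogonal to `n` independent dual vectors -/
theorem section_multi {n m : ℕ} {P : Matrix (Fin (n + m)) (Fin (n + m)) ℝ} (hP : Adm P)
    (W : Matrix (Fin n) (Fin (n + m)) ℤ) (hW : LinearIndependent ℤ W) :
    ∃ P₁ : Matrix (Fin m) (Fin m) ℝ, Adm P₁ ∧ P₁.det ≤ P.det * (rw' W * P⁻¹ * (rw' W)ᵀ).det := by
  classical
  obtain ⟨R, U, f, H, hRU, hUR, hH, hWH⟩ := exists_rows W hW
  obtain ⟨e, he⟩ := exists_ext f
  have hRU' : rm R * rm U = 1 := by rw [← rm_mul, hRU, rm_one]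
  have hUR' : rm U * rm R = 1 := by rw [← rm_mul, hUR, rm_one]
  have hPdet := hP.pd.det_pos
  have hPu : IsUnit P.det := isUnit_iff_ne_zero.2 hPdet.ne'
  set P' := (rm U)ᵀ * P * rm U with hP'
  have hinv : P' * (rm R * P⁻¹ * (rm R)ᵀ) = 1 := by
    have e : P' * (rm R * P⁻¹ * (rm R)ᵀ) = (rm U)ᵀ * (P * (rm U * rm R) * P⁻¹) * (rm R)ᵀ := by
      rw [hP']
      simp only [Matrix.mul_assoc]
    rw [e, hUR', Matrix.mul_one, mul_nonsing_inv P hPu, Matrix.mul_one, ← transpose_mul, hRU', transpose_one]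
  have hdetU : (rm U).det * (rm U).det = 1 := by
    have hcast : (rm U).det = ((U.det : ℤ) : ℝ) := by
      have := (Int.castRingHom ℝ).map_det U
      exact this.symm
    have h1 : U.det * R.det = 1 := by rw [← det_mul, hUR, det_one]
    rcases Int.eq_one_or_neg_one_of_mul_eq_one h1 with h2 | h2
    · rw [hcast, h2]; norm_num
    · rw [hcast, h2]; norm_num
  have hdet' : P'.det = P.det := by
    rw [hP', det_mul, det_mul, det_transpose]
    calc (rm U).det * P.det * (rm U).det = P.det * ((rm U).det * (rm U).det) := by ring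
      _ = P.det := by rw [hdetU, mul_one]
  have hinj : Function.Injective (rm U).mulVec := by
    intro x y hxy
    have := congrArg (rm R *ᵥ ·) hxy
    simpa [mulVec_mulVec, hRU'] using this
  have hP'pd : P'.PosDef := pd_conj hP.pd _ hinj
  -- block form
  set Y := P'.submatrix e e with hY
  set X := (rm R * P⁻¹ * (rm R)ᵀ).submatrix e e with hX
  have hYX : Y * X = 1 := by
    rw [hY, hX, submatrix_mul_equiv, hinv, submatrix_one_equiv]
  have hYpd : Y.PosDef := hP'pd.submatrix e.injective
  have hYdet : Y.det = P.det := by rw [hY, det_submatrix_equiv_self, hdet']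
  -- the complementary minor
  have hjac : Y.det * X.toBlocks₁₁.det = Y.toBlocks₂₂.det := by
    have h1 : Y * fromBlocks X.toBlocks₁₁ 0 X.toBlocks₂₁ 1 = fromBlocks 1 Y.toBlocks₁₂ 0 Y.toBlocks₂₂ := by
      have hb : fromBlocks Y.toBlocks₁₁ Y.toBlocks₁₂ Y.toBlocks₂₁ Y.toBlocks₂₂ *
          fromBlocks X.toBlocks₁₁ X.toBlocks₁₂ X.toBlocks₂₁ X.toBlocks₂₂ = fromBlocks 1 0 0 1 := by
        rw [fromBlocks_toBlocks, fromBlocks_toBlocks, hYX, fromBlocks_one]
      rw [fromBlocks_multiply] at hb
      have hb' := fromBlocks_inj.1 hb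
      conv_lhs => rw [← fromBlocks_toBlocks Y]
      rw [fromBlocks_multiply, hb'.1, hb'.2.2.1]
      simp
    have h2 := congrArg det h1
    rw [det_mul, det_fromBlocks_zero₁₂, det_fromBlocks_zero₂₁, det_one, det_one, mul_one, one_mul] at h2
    exact h2
  refine ⟨Y.toBlocks₂₂, ⟨?_, fun y hy => ?_⟩, ?_⟩
  · have : Y.toBlocks₂₂ = Y.submatrix Sum.inr Sum.inr := rfl
    rw [this]
    exact hYpd.submatrix Sum.inr_injective
  · have h1 : qf Y.toBlocks₂₂ (ic y) = qf P' (ic ((Sum.elim (0 : Fin n → ℤ) y) ∘ e.symm)) := by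
      have h2 : qf Y (Sum.elim (0 : Fin n → ℝ) (ic y)) = qf Y.toBlocks₂₂ (ic y) := by
        unfold qf
        conv_lhs => rw [← fromBlocks_toBlocks Y]
        rw [fromBlocks_mulVec, dotProduct_block]
        simp
      rw [← h2]
      unfold qf
      rw [hY, submatrix_mulVec_equiv]
      simp only [dotProduct, Function.comp_apply]
      rw [← e.sum_comp]
      refine Finset.sum_congr rfl fun i _ => ?_
      have h3 : ic ((Sum.elim (0 : Fin n → ℤ) y) ∘ e.symm) = (Sum.elim (0 : Fin n → ℝ) (ic y)) ∘ e.symm := by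
        funext k
        simp only [ic, Function.comp_apply]
        rcases e.symm k with j | j <;> simp [ic]
      rw [h3]
      simp
    rw [h1, hP', qf_conj, rm_mulVec]
    refine hP.one_le _ fun h0 => hy ?_
    have h2 : R *ᵥ (U *ᵥ ((Sum.elim (0 : Fin n → ℤ) y) ∘ e.symm)) = 0 := by rw [h0, mulVec_zero]
    rw [mulVec_mulVec, hRU, one_mulVec] at h2
    funext i
    have := congrFun h2 (e (Sum.inr i))
    simpa using this
  · rw [← hjac, hYdet]
    refine mul_le_mul_of_nonneg_left ?_ hPdet.le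
    -- the Gram matrix of the dual vectors
    have hR1 : rw' W = rm H * (rm R).submatrix f id := by
      rw [hWH]
      funext i j
      simp only [rw', rm, map_apply, mul_apply, submatrix_apply, id]
      push_cast
      rfl
    have hX1 : X.toBlocks₁₁ = (rm R).submatrix f id * P⁻¹ * ((rm R).submatrix f id)ᵀ := by
      funext i j
      show (rm R * P⁻¹ * (rm R)ᵀ) (e (Sum.inl i)) (e (Sum.inl j)) = _
      rw [he, he]
      simp only [mul_apply, transpose_apply, submatrix_apply, id]
    have h3 : rw' W * P⁻¹ * (rw' W)ᵀ = rm H * X.toBlocks₁₁ * (rm H)ᵀ := by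
      rw [hX1, hR1, transpose_mul]
      simp only [Matrix.mul_assoc]
    rw [h3, det_mul, det_mul, det_transpose]
    have hXpos : 0 < X.toBlocks₁₁.det := by
      have h4 : 0 < Y.toBlocks₂₂.det := by
        have : Y.toBlocks₂₂ = Y.submatrix Sum.inr Sum.inr := rfl
        rw [this]
        exact (hYpd.submatrix Sum.inr_injective).det_pos
      rw [← hjac] at h4
      exact (pos_iff_pos_of_mul_pos h4).1 hYpd.det_pos
    have hcast : (rm H).det = ((H.det : ℤ) : ℝ) := by
      have := (Int.castRingHom ℝ).map_det H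
      exact this.symm
    have h5 : (1 : ℝ) ≤ (rm H).det * (rm H).det := by
      rw [hcast]
      have : 1 ≤ H.det * H.det := by
        have := mul_self_pos.2 hH
        omega
      exact_mod_cast this
    nlinarith

/-- **sublattices of the dual of a critical lattice** -/
theorem dual_gt {n m : ℕ} (hn : 0 < n) (hm : 0 < m) {P : Matrix (Fin (n + m)) (Fin (n + m)) ℝ} (hP : Adm P)
    (hcr : ∀ G : Matrix (Fin (n + m)) (Fin (n + m)) ℝ, Adm G → P.det ≤ G.det)
    (W : Matrix (Fin n) (Fin (n + m)) ℤ) (hW : LinearIndependent ℤ W) {Q : Matrix (Fin n) (Fin n) ℝ} (hQ : Adm Q) :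
    1 < (rw' W * P⁻¹ * (rw' W)ᵀ).det * Q.det := by
  obtain ⟨P₁, hP₁, hle⟩ := section_multi hP W hW
  obtain ⟨G, hG, hlt⟩ := join hn hm hQ hP₁
  have h1 := hcr G hG
  have hQd := hQ.pd.det_pos
  have hPd := hP.pd.det_pos
  have h2 : Q.det * P₁.det ≤ Q.det * (P.det * (rw' W * P⁻¹ * (rw' W)ᵀ).det) := mul_le_mul_of_nonneg_left hle hQd.le
  have h3 : P.det * 1 < P.det * ((rw' W * P⁻¹ * (rw' W)ᵀ).det * Q.det) := by
    calc P.det * 1 = P.det := mul_one _
      _ < Q.det * (P.det * (rw' W * P⁻¹ * (rw' W)ᵀ).det) := by linarith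
      _ = _ := by ring
  exact lt_of_mul_lt_mul_left h3 hPd.le

/-- a determinant is at most the power of a bound for the diagonal -/
theorem det_le_pow {n : ℕ} {A : Matrix (Fin n) (Fin n) ℝ} (hA : A.PosSemidef) {c : ℝ} (hc : ∀ i, A i i ≤ c) :
    A.det ≤ c ^ n := by
  rcases Nat.eq_zero_or_pos n with rfl | hn
  · simp
  have hn' : (0 : ℝ) < n := by exact_mod_cast hn
  have h1 : A.det = ∏ i, hA.isHermitian.eigenvalues i := by
    have := hA.isHermitian.det_eq_prod_eigenvalues
    simpa using this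
  have h2 : A.trace = ∑ i, hA.isHermitian.eigenvalues i := by
    have := hA.isHermitian.trace_eq_sum_eigenvalues
    simpa using this
  have h3 : ∀ i, 0 ≤ hA.isHermitian.eigenvalues i := hA.eigenvalues_nonneg
  have h4 := Real.geom_mean_le_arith_mean_weighted Finset.univ (fun _ : Fin n => (1 : ℝ) / n)
    hA.isHermitian.eigenvalues (fun _ _ => by positivity) (by simp [hn'.ne']) (fun i _ => h3 i)
  have h5 : ∑ i, (1 : ℝ) / n * hA.isHermitian.eigenvalues i ≤ c := by
    rw [← Finset.mul_sum, ← h2]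
    have h6 : A.trace ≤ n * c := by
      unfold trace
      calc ∑ i, diag A i ≤ ∑ _i : Fin n, c := Finset.sum_le_sum fun i _ => hc i
        _ = n * c := by simp
    calc (1 : ℝ) / n * A.trace ≤ 1 / n * (n * c) := mul_le_mul_of_nonneg_left h6 (by positivity)
      _ = c := by field_simp
  have h7 : (∏ i, hA.isHermitian.eigenvalues i ^ ((1 : ℝ) / n)) ^ n = A.det := by
    rw [h1, ← Finset.prod_pow]
    refine Finset.prod_congr rfl fun i _ => ?_
    rw [← Real.rpow_natCast, ← Real.rpow_mul (h3 i)]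
    field_simp
    simp
  rw [← h7]
  exact pow_le_pow_left₀ (Finset.prod_nonneg fun i _ => Real.rpow_nonneg (h3 i) _) (h4.trans h5) n

end CritL
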