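import Pool.Agent.Lib.CritL.Full

/-!
# The structure of the lattices preserved by all permutations of an orthonormal basis
-/

set_option autoImplicit false

namespace CritL

open Matrix

/-- **structure** -/
theorem perm_struct {n : ℕ} {b : Fin (n + 3) → E (n + 3)} (hb : LinearIndependent ℝ b)
    {u : Fin (n + 3) → E (n + 3)} (hu : Orthonormal ℝ u) (h : TInv (lat b) u) :
    ∃ (X Y : ℝ) (g : ℕ), 0 < X ∧ X ≤ 2 ∧ 1 ≤ g ∧ g ∣ (n + 3) ∧ X ≤ ((n + 3 : ℕ) : ℝ) * Y ∧
      (g = 1 → ∃ j : ℤ, 2 * |j| ≤ ((n + 3 : ℕ) : ℤ) ∧ ((n + 3 : ℕ) : ℝ) * X ≤ (j : ℝ) ^ 2 * Y + (((n + 3 : ℕ) : ℝ) - 1) ∧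
        ∀ k : ℤ, ((n + 3 : ℕ) : ℝ) * X ≤ (2 * (j : ℝ) + k * ((n + 3 : ℕ) : ℝ)) ^ 2 * Y + 2 * (((n + 3 : ℕ) : ℝ) - 2)) ∧
      (g : ℝ) ^ 2 * Y * (2 / X) ^ (n + 3) ≤ 2 ^ (n + 3) * ratio b ^ 2 := by
  classical
  have hd : 0 < n + 3 := by omega
  set l := minL b with hldef
  have hl : 0 < l := minL_pos hd hb
  have hmin : ∀ v ∈ lat b, v ≠ 0 → l ≤ ‖v‖ := fun v hv h0 => minL_le b hv h0
  obtain ⟨s, hs, hls, hsL, hint⟩ := exists_s hu h hl hmin (lat_span hb) (by omega)
  set D : ℝ := ((n + 3 : ℕ) : ℝ) with hD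
  have hD3 : 3 ≤ D := by rw [hD]; push_cast; linarith [Nat.cast_nonneg (α := ℝ) n]
  have hone := one_inner_one hu
  have hone_norm : ‖one u‖ ^ 2 = D := by rw [← real_inner_self_eq_norm_sq, hone]
  -- the multiples of `one`
  obtain ⟨t₀, ht₀, ht₀L, ht₀l, hgen⟩ : ∃ t : ℝ, 0 < t ∧ t • one u ∈ lat b ∧ l ≤ t * ‖one u‖ ∧
      ∀ r : ℝ, r • one u ∈ lat b → ∃ m : ℤ, r = m * t := by
    obtain ⟨x, hx, hx0⟩ : ∃ x ∈ lat b, (inner ℝ (one u) x : ℝ) ≠ 0 := by
      by_contra hcon
      push Not at hcon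
      exact one_ne hu (lat_span hb _ hcon)
    choose N hN using fun i => hint x hx i 0
    have h1 := ZZ_sum hsL (canon hu hsL hx hN)
    have h2 : (((∑ i, N i : ℤ) : ℝ) * s + ((n + 3 : ℕ) : ℝ) * inner ℝ (u 0) x) = inner ℝ (one u) x := by
      have h3 : inner ℝ (one u) x = ∑ i, (inner ℝ (u i) x : ℝ) := by
        unfold one
        rw [sum_inner]
      rw [h3]
      have h4 : ∀ i, (inner ℝ (u i) x : ℝ) = inner ℝ (u 0) x + N i * s := fun i => by rw [← hN i]; ring
      rw [Finset.sum_congr rfl fun i _ => h4 i, Finset.sum_add_distrib, ← Finset.sum_mul, Finset.sum_const,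
        Finset.card_univ, Fintype.card_fin, nsmul_eq_mul]
      push_cast
      ring
    rw [h2] at h1
    exact exists_gen hl hmin (one_ne hu) hx0 h1
  have ht₀D : l ^ 2 ≤ t₀ ^ 2 * D := by
    have h2 := pow_le_pow_left₀ hl.le ht₀l 2
    rwa [mul_pow, hone_norm] at h2
  -- the group of the `m`
  let H : AddSubgroup ℤ :=
    { carrier := {m | ∃ t, ZZ (lat b) u s m t}
      zero_mem' := ⟨0, by unfold ZZ; simp⟩
      add_mem' := by
        rintro a c ⟨t, ht⟩ ⟨t', ht'⟩
        exact ⟨t + t', ht.add ht'⟩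
      neg_mem' := by
        rintro a ⟨t, ht⟩
        exact ⟨-t, ht.neg⟩ }
  obtain ⟨g₀, hg₀⟩ := Int.subgroup_cyclic H
  have hmemH : ∀ m : ℤ, (∃ t, ZZ (lat b) u s m t) ↔ ∃ c : ℤ, c * g₀ = m := by
    intro m
    have h1 : m ∈ H ↔ ∃ c : ℤ, c • g₀ = m := by rw [hg₀]; exact AddSubgroup.mem_closure_singleton
    have h2 : m ∈ H ↔ ∃ t, ZZ (lat b) u s m t := Iff.rfl
    rw [← h2, h1]
    simp only [smul_eq_mul]
  have hZd := ZZ_d hsL
  obtain ⟨c₀, hc₀⟩ := (hmemH _).1 ⟨_, hZd⟩
  set g : ℕ := g₀.natAbs with hg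
  have hgd : g ∣ n + 3 := by
    have : g₀ ∣ ((n + 3 : ℕ) : ℤ) := ⟨c₀, by rw [← hc₀]; ring⟩
    exact Int.natAbs_dvd_natAbs.2 this
  have hg1 : 1 ≤ g := Nat.pos_of_dvd_of_pos hgd (by omega)
  obtain ⟨t₁, ht₁⟩ : ∃ t, ZZ (lat b) u s (g : ℤ) t := by
    rw [hmemH]
    rcases Int.natAbs_eq g₀ with h1 | h1
    · exact ⟨1, by rw [one_mul]; exact h1⟩
    · exact ⟨-1, by rw [neg_one_mul]; omega⟩
  have hdiv : ∀ (m : ℤ) (t : ℝ), ZZ (lat b) u s m t → ∃ c q : ℤ, m = c * g ∧ t = c * t₁ + q * t₀ := by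
    intro m t hmt
    obtain ⟨c, hc⟩ := (hmemH m).1 ⟨t, hmt⟩
    obtain ⟨c', hc'⟩ : ∃ c' : ℤ, m = c' * g := by
      rcases Int.natAbs_eq g₀ with h1 | h1
      · exact ⟨c, by rw [← hc, h1]⟩
      · exact ⟨-c, by rw [← hc]; rw [h1]; simp [hg]⟩
    have h2 := hmt.add (ht₁.smul c').neg
    have h3 : m + -(c' * (g : ℤ)) = 0 := by rw [hc']; ring
    rw [h3] at h2
    unfold ZZ at h2
    rw [Int.cast_zero, zero_mul, zero_smul, zero_add] at h2
    obtain ⟨q, hq⟩ := hgen _ h2
    exact ⟨c', q, hc', by linarith⟩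
  have hgR : (0 : ℝ) < g := by exact_mod_cast hg1
  -- the dual vectors
  set κ : ℝ := -(t₁ / (g * s * t₀)) with hκ
  set A : Matrix (Fin (n + 3)) (Fin (n + 3)) ℝ := TT' n (1 / t₀) κ (1 / (g * s)) (1 / s) * UU n with hA
  have hw : ∀ (i : Fin (n + 3)), (∑ j, A i j • u j) =
      ∑ k, TT' n (1 / t₀) κ (1 / (g * s)) (1 / s) i k • (u k - if k = 0 then 0 else u 0) := by
    intro i
    rw [hA]
    simp only [mul_apply, Finset.sum_smul, ← sum_single, Finset.smul_sum, smul_smul]
    rw [Finset.sum_comm]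
  have hwdual : ∀ i, ∀ x ∈ lat b, ∃ k : ℤ, inner ℝ (∑ j, A i j • u j) x = (k : ℝ) := by
    intro i x hx
    choose N hN using fun i => hint x hx i 0
    obtain ⟨c, q, hcg, htq⟩ := hdiv _ _ (canon hu hsL hx hN)
    have hN0 : N 0 = 0 := by
      have := hN 0
      rw [sub_self] at this
      have h2 : (N 0 : ℝ) = 0 := (mul_eq_zero.1 this.symm).resolve_right hs.ne'
      exact_mod_cast h2
    have hval : ∀ k : Fin (n + 3), inner ℝ (u k - if k = 0 then 0 else u 0) x =
        if k = 0 then (inner ℝ (u 0) x : ℝ) else N k * s := by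
      intro k
      by_cases hk : k = 0
      · rw [if_pos hk, if_pos hk, hk, sub_zero]
      · rw [if_neg hk, if_neg hk, inner_sub_left, hN k]
    rw [hw, sum_inner]
    simp only [inner_smul_left, conj_trivial, hval]
    rw [Fin.sum_univ_succ]
    simp only [if_true, Fin.succ_ne_zero, if_false]
    have hsumN : ((∑ k : Fin (n + 2), N k.succ : ℤ) : ℝ) = c * g := by
      have : (∑ i, N i) = ∑ k : Fin (n + 2), N k.succ := by rw [Fin.sum_univ_succ, hN0, zero_add]
      rw [← this, hcg]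
      push_cast
      ring
    push_cast at hsumN
    by_cases hi0 : i = 0
    · subst hi0
      refine ⟨q, ?_⟩
      simp only [TT', of_apply, if_true, Fin.succ_ne_zero, if_false]
      rw [← Finset.mul_sum, ← Finset.sum_mul, hsumN, htq, hκ]
      field_simp
      ring
    · by_cases hi1 : i = 1
      · subst hi1
        refine ⟨c, ?_⟩
        simp only [TT', of_apply, one_ne_zero, if_true, Fin.succ_ne_zero, if_false]
        rw [← Finset.mul_sum, ← Finset.sum_mul, hsumN]
        field_simp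
        ring
      · refine ⟨N i, ?_⟩
        simp only [TT', of_apply, if_neg hi0, if_neg hi1]
        rw [if_neg (Ne.symm hi0), zero_mul, zero_add]
        obtain ⟨i', rfl⟩ := Fin.exists_succ_eq.2 hi0
        rw [Finset.sum_eq_single i']
        · rw [if_pos rfl]
          field_simp
        · intro k _ hk
          rw [if_neg (fun h => hk (Fin.succ_inj.1 h)), zero_mul]
        · intro h
          exact absurd (Finset.mem_univ _) h
  have hAdet : A.det = 1 / t₀ * (1 / (g * s)) * (1 / s) ^ (n + 1) := by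
    rw [hA, det_mul, TT'_det, UU_det, mul_one]
  have hAinv : A.det = 1 / (g * t₀ * s ^ (n + 2)) := by
    rw [hAdet, _root_.one_div_pow, pow_succ s (n + 1)]
    field_simp
  have hgmdet : (gm fun i => ∑ j, A i j • u j).det = (1 / (g * t₀ * s ^ (n + 2))) ^ 2 := by
    rw [gm_coord hu, det_mul, det_transpose, hAinv, sq]
  have hratio := ratio_ge hd hb (w := fun i => ∑ j, A i j • u j) (by rw [hgmdet]; positivity) hwdual
  rw [hgmdet] at hratio
  -- the norm constraints
  have hu01 : inner ℝ (u 0) (u 0) = (1 : ℝ) := by rw [inner_u hu, if_pos rfl]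
  have hC1 : ∀ t : ℝ, ZZ (lat b) u s 1 t → l ^ 2 ≤ s ^ 2 + 2 * s * t + D * t ^ 2 := by
    intro t ht
    unfold ZZ at ht
    rw [Int.cast_one, one_mul] at ht
    have hne : s • u 0 + t • one u ≠ 0 := by
      intro h0
      have h1 : inner ℝ (u 0 - u 1) (s • u 0 + t • one u) = s := by
        rw [inner_add_right, inner_smul_right, inner_smul_right, inner_sub_left, inner_sub_left, inner_one hu,
          inner_one hu, inner_u hu, inner_u hu, if_pos rfl, if_neg (by simp)]
        ring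
      rw [h0, inner_zero_right] at h1
      exact hs.ne h1
    have h1 := pow_le_pow_left₀ hl.le (hmin _ ht hne) 2
    rw [← real_inner_self_eq_norm_sq] at h1
    have h2 : inner ℝ (s • u 0 + t • one u) (s • u 0 + t • one u) = s ^ 2 + 2 * s * t + D * t ^ 2 := by
      rw [inner_add_left, inner_add_right, inner_add_right, inner_smul_left, inner_smul_left, inner_smul_right,
        inner_smul_right, inner_smul_left, inner_smul_left, inner_smul_right, inner_smul_right, hone, hu01,
        inner_one hu, real_inner_comm, inner_one hu]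
      simp only [conj_trivial]
      ring
    rwa [h2] at h1
  have hC2 : ∀ t : ℝ, ZZ (lat b) u s 2 t → l ^ 2 ≤ 2 * s ^ 2 + 4 * s * t + D * t ^ 2 := by
    intro t ht
    unfold ZZ at ht
    have h01 : (0 : Fin (n + 3)) ≠ 1 := by simp
    have ht2 := (lat b).sub_mem ht (hsL 0 1 h01)
    have e' : (((2 : ℤ) : ℝ) * s) • u 0 + t • one u - s • (u 0 - u 1) = s • (u 0 + u 1) + t • one u := by
      push_cast
      module
    rw [e'] at ht2
    have h02 : (0 : Fin (n + 3)) ≠ 2 := by
      intro h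
      have h3 := congrArg Fin.val h
      rw [Fin.val_two, Fin.val_zero] at h3
      omega
    have h12 : (1 : Fin (n + 3)) ≠ 2 := by
      intro h
      have h3 := congrArg Fin.val h
      rw [Fin.val_two, Fin.val_one] at h3
      omega
    have hne : s • (u 0 + u 1) + t • one u ≠ 0 := by
      intro h0
      have h1 : inner ℝ (u 0 - u 2) (s • (u 0 + u 1) + t • one u) = s := by
        rw [inner_add_right, inner_smul_right, inner_smul_right, inner_sub_left, inner_sub_left, inner_one hu,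
          inner_one hu, inner_add_right, inner_add_right, inner_u hu, inner_u hu, inner_u hu, inner_u hu, if_pos rfl,
          if_neg h01, if_neg (Ne.symm h02), if_neg (Ne.symm h12)]
        ring
      rw [h0, inner_zero_right] at h1
      exact hs.ne h1
    have h1 := pow_le_pow_left₀ hl.le (hmin _ ht2 hne) 2
    rw [← real_inner_self_eq_norm_sq] at h1
    have h2 : inner ℝ (s • (u 0 + u 1) + t • one u) (s • (u 0 + u 1) + t • one u) =
        2 * s ^ 2 + 4 * s * t + D * t ^ 2 := by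
      have e1 : inner ℝ (one u) (u 0 + u 1) = (2 : ℝ) := by
        rw [real_inner_comm, inner_add_left, inner_one hu, inner_one hu]; norm_num
      have e2 : inner ℝ (u 0 + u 1) (one u) = (2 : ℝ) := by
        rw [inner_add_left, inner_one hu, inner_one hu]; norm_num
      have e3 : inner ℝ (u 0 + u 1) (u 0 + u 1) = (2 : ℝ) := by
        rw [inner_add_left, inner_add_right, inner_add_right, inner_u hu, inner_u hu, inner_u hu, inner_u hu,
          if_pos rfl, if_neg h01, if_neg (Ne.symm h01), if_pos rfl]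
        norm_num
      rw [inner_add_left, inner_add_right, inner_add_right, inner_smul_left, inner_smul_left, inner_smul_right,
        inner_smul_right, inner_smul_left, inner_smul_left, inner_smul_right, inner_smul_right, hone, e1, e2, e3]
      simp only [conj_trivial]
      ring
    rwa [h2] at h1
  refine ⟨l ^ 2 / s ^ 2, t₀ ^ 2 / s ^ 2, g, by positivity, ?_, hg1, hgd, ?_, ?_, ?_⟩
  · rw [div_le_iff₀ (by positivity)]
    exact hls
  · rw [mul_div_assoc', div_le_div_iff_of_pos_right (by positivity)]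
    linarith
  · intro hg1'
    rw [hg1'] at ht₁
    obtain ⟨j₀, hj₀⟩ := hgen _ (ZZ_sum hsL ht₁)
    rw [Int.cast_natCast, Nat.cast_one, one_mul, ← hD] at hj₀
    -- reduce
    set d' : ℤ := ((n + 3 : ℕ) : ℤ) with hd'
    have hd'pos : 0 < d' := by rw [hd']; positivity
    set q : ℤ := (2 * j₀ + d') / (2 * d') with hq
    have hr := Int.emod_add_mul_ediv (2 * j₀ + d') (2 * d')
    have hr0 := Int.emod_nonneg (2 * j₀ + d') (show (2 * d') ≠ 0 by omega)
    have hr1 := Int.emod_lt_of_pos (2 * j₀ + d') (show 0 < 2 * d' by omega)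
    rw [← hq] at hr
    set r := (2 * j₀ + d') % (2 * d') with hrdef
    have hj2 : 2 * (j₀ - q * d') = r - d' := by linarith
    set j := j₀ - q * d' with hj
    have ht₀Z : ∀ k : ℤ, ZZ (lat b) u s 0 (k * t₀) := by
      intro k
      unfold ZZ
      rw [Int.cast_zero, zero_mul, zero_smul, zero_add, mul_smul, Int.cast_smul_eq_zsmul]
      exact (lat b).smul_mem k ht₀L
    set t := t₁ - q * t₀ with ht
    have hZt : ZZ (lat b) u s 1 t := by
      have := ht₁.add (ht₀Z (-q))
      simp only [Nat.cast_one, add_zero] at this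
      convert this using 1
      rw [ht]
      push_cast
      ring
    have hst : s + D * t = j * t₀ := by
      rw [ht, hj]
      push_cast
      have hDd : (d' : ℝ) = D := by rw [hd', hD]; push_cast; rfl
      rw [hDd]
      linarith
    refine ⟨j, ?_, ?_, fun k => ?_⟩
    · have h5 : 2 * |j| = |2 * j| := by rw [abs_mul]; norm_num
      rw [h5, hj2, abs_le]
      constructor <;> linarith
    · have h1 := hC1 t hZt
      have h2 : D * l ^ 2 ≤ (j : ℝ) ^ 2 * t₀ ^ 2 + (D - 1) * s ^ 2 := by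
        calc D * l ^ 2 ≤ D * (s ^ 2 + 2 * s * t + D * t ^ 2) := mul_le_mul_of_nonneg_left h1 (by linarith)
          _ = (s + D * t) ^ 2 + (D - 1) * s ^ 2 := by ring
          _ = _ := by rw [hst]; ring
      rw [mul_div_assoc', div_le_iff₀ (by positivity)]
      calc D * l ^ 2 ≤ _ := h2
        _ = _ := by field_simp
    · have hZ2 : ZZ (lat b) u s 2 (2 * t + k * t₀) := by
        have := (hZt.smul 2).add (ht₀Z k)
        simpa using this
      have h1 := hC2 _ hZ2
      have h2 : D * l ^ 2 ≤ (2 * (j : ℝ) + k * D) ^ 2 * t₀ ^ 2 + 2 * (D - 2) * s ^ 2 := by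
        calc D * l ^ 2 ≤ D * (2 * s ^ 2 + 4 * s * (2 * t + k * t₀) + D * (2 * t + k * t₀) ^ 2) :=
              mul_le_mul_of_nonneg_left h1 (by linarith)
          _ = (2 * (s + D * t) + k * D * t₀) ^ 2 + 2 * (D - 2) * s ^ 2 := by ring
          _ = _ := by rw [hst]; ring
      rw [mul_div_assoc', div_le_iff₀ (by positivity)]
      calc D * l ^ 2 ≤ _ := h2
        _ = _ := by field_simp
  · -- the ratio
    have h1 : (g : ℝ) ^ 2 * (t₀ ^ 2 / s ^ 2) * (2 / (l ^ 2 / s ^ 2)) ^ (n + 3) =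
        2 ^ (n + 3) * ((g * t₀ * s ^ (n + 2)) ^ 2 / (l ^ 2) ^ (n + 3)) := by
      rw [div_div_eq_mul_div, div_pow, mul_pow, mul_pow, mul_pow]
      have e1 : (s ^ 2) ^ (n + 3) = (s ^ (n + 2)) ^ 2 * s ^ 2 := by
        rw [← pow_mul, ← pow_mul, ← pow_add]
        congr 1
        ring
      rw [e1]
      field_simp
    rw [h1]
    refine mul_le_mul_of_nonneg_left ?_ (by positivity)
    rw [div_le_iff₀ (by positivity)]
    have h2 : ratio b ^ 2 * ((l ^ 2) ^ (n + 3) * (1 / (g * t₀ * s ^ (n + 2))) ^ 2) =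
        ratio b ^ 2 * (l ^ 2) ^ (n + 3) / (g * t₀ * s ^ (n + 2)) ^ 2 := by
      rw [_root_.one_div_pow]
      ring
    rw [h2, le_div_iff₀ (by positivity), one_mul] at hratio
    exact hratio

end CritL
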