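import Pool.Agent.Lib.CritL.Perm

/-!
# No critical lattice is preserved by the permutations of 15 orthonormal vectors
-/

set_option autoImplicit false

namespace CritL

open Matrix

theorem lat_span {d : ℕ} {b : Fin d → E d} (hb : LinearIndependent ℝ b) (w : E d)
    (h : ∀ x ∈ lat b, inner ℝ w x = (0 : ℝ)) : w = 0 := by
  have hspan : Submodule.span ℝ (Set.range b) = ⊤ := hb.span_eq_top_of_card_eq_finrank' (by simp)
  have hmem : w ∈ Submodule.span ℝ (Set.range b) := by rw [hspan]; exact Submodule.mem_top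
  obtain ⟨z, hz⟩ := (Submodule.mem_span_range_iff_exists_fun ℝ).1 hmem
  have h0 : inner ℝ w (∑ i, z i • b i) = (0 : ℝ) := by
    rw [inner_sum]
    refine Finset.sum_eq_zero fun i _ => ?_
    rw [inner_smul_right, h _ (Submodule.subset_span (Set.mem_range_self i)), mul_zero]
  have h1 : inner ℝ w w = (0 : ℝ) := by
    rwa [hz] at h0
  exact inner_self_eq_zero.1 h1

/-- the coroots -/
noncomputable def ww {n d : ℕ} (u : Fin (n + 1) → E d) (s : ℝ) (j : Fin n) : E d := (1 / s) • (u j.succ - u 0)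

theorem ww_inner {n d : ℕ} {u : Fin (n + 1) → E d} (hu : Orthonormal ℝ u) (s : ℝ) (i j : Fin n) :
    inner ℝ (ww u s i) (ww u s j) = (1 / s) ^ 2 * ((if i = j then 1 else 0) + 1) := by
  unfold ww
  rw [inner_smul_left, inner_smul_right, inner_sub_left, inner_sub_right, inner_sub_right, inner_u hu, inner_u hu,
    inner_u hu, inner_u hu, if_neg (Fin.succ_ne_zero i), if_neg (Ne.symm (Fin.succ_ne_zero j)), if_pos rfl]
  simp only [Fin.succ_inj, conj_trivial]
  ring

theorem ww_det {n d : ℕ} {u : Fin (n + 1) → E d} (hu : Orthonormal ℝ u) (s : ℝ) :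
    (gm (ww u s)).det = (1 / s ^ 2) ^ n * (n + 1) := by
  have h1 : gm (ww u s) = (1 / s ^ 2) • (1 + replicateCol Unit (fun _ : Fin n => (1 : ℝ)) *
      replicateRow Unit (fun _ : Fin n => (1 : ℝ))) := by
    funext i j
    rw [gm_apply, ww_inner hu]
    simp only [Matrix.smul_apply, Matrix.add_apply, mul_apply, replicateCol_apply, replicateRow_apply, one_apply,
      smul_eq_mul, Finset.univ_unique, Finset.sum_singleton, mul_one]
    rw [_root_.one_div_pow]
  rw [h1, det_smul, Fintype.card_fin, det_one_add_replicateCol_mul_replicateRow]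
  simp [dotProduct, add_comm]

theorem ww_li {n d : ℕ} {u : Fin (n + 1) → E d} (hu : Orthonormal ℝ u) {s : ℝ} (hs : s ≠ 0) :
    LinearIndependent ℝ (ww u s) := by
  rw [Fintype.linearIndependent_iff]
  intro a ha i
  have h1 : inner ℝ (u i.succ) (∑ j, a j • ww u s j) = (0 : ℝ) := by rw [ha, inner_zero_right]
  rw [inner_sum] at h1
  have h2 : ∀ j, inner ℝ (u i.succ) (a j • ww u s j) = if i = j then a i * (1 / s) else 0 := by
    intro j
    unfold ww
    rw [inner_smul_right, inner_smul_right, inner_sub_right, inner_u hu, inner_u hu, if_neg (Fin.succ_ne_zero i)]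
    by_cases hij : i = j
    · subst hij; simp
    · have : i.succ ≠ j.succ := fun h => hij (Fin.succ_inj.1 h)
      rw [if_neg this, if_neg hij]; simp
  simp only [h2, Finset.sum_ite_eq, Finset.mem_univ, if_true] at h1
  have h3 : (1 / s : ℝ) ≠ 0 := by positivity
  exact (mul_eq_zero.1 h1).resolve_right h3

theorem ww_dual {n d : ℕ} {u : Fin (n + 1) → E d} {s : ℝ} (hs : s ≠ 0) {L : Submodule ℤ (E d)}
    (h : ∀ x ∈ L, ∀ i j, ∃ n : ℤ, (inner ℝ (u i) x : ℝ) - inner ℝ (u j) x = n * s) (j : Fin n) :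
    ∀ x ∈ L, ∃ m : ℤ, inner ℝ (ww u s j) x = (m : ℝ) := by
  intro x hx
  obtain ⟨m, hm⟩ := h x hx j.succ 0
  refine ⟨m, ?_⟩
  unfold ww
  rw [inner_smul_left, inner_sub_left, hm]
  simp only [conj_trivial]
  field_simp

/-- **no critical lattice is preserved by the transpositions of 15 orthonormal vectors** -/
theorem no_15 {d : ℕ} {b : Fin d → E d} (hb : IsCritical b) {u : Fin 15 → E d} (hu : Orthonormal ℝ u)
    (h : TInv (lat b) u) : False := by
  have hd : 15 ≤ d := by
    have := hu.linearIndependent.fintype_card_le_finrank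
    simpa using this
  obtain ⟨m, rfl⟩ : ∃ m, d = 14 + m := ⟨d - 14, by omega⟩
  have hl := minL_pos (by omega) hb.1
  obtain ⟨s, hs, hls, -, hint⟩ := exists_s hu h hl (fun v hv h0 => minL_le b hv h0) (lat_span hb.1) (by norm_num)
  obtain ⟨Q, hQ, hQd⟩ := exists_consA 14 4 (by norm_num)
  have h1 := dual_vol (n := 14) (by norm_num) (by omega) hb (ww_li (u := u) hu hs.ne')
    (ww_dual hs.ne' hint) hQ
  rw [ww_det hu] at h1
  have h2 : minL b ^ 2 * (1 / s ^ 2) ≤ 2 := by
    rw [mul_one_div, div_le_iff₀ (by positivity)]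
    exact hls
  have h3 : (minL b ^ 2 * (1 / s ^ 2)) ^ 14 ≤ 2 ^ 14 := pow_le_pow_left₀ (by positivity) h2 14
  have hQ0 := hQ.pd.det_pos
  have h4 : (minL b ^ 2) ^ 14 * ((1 / s ^ 2) ^ 14 * ((14 : ℕ) + 1)) * Q.det ≤ 2 ^ 14 * 15 * (4 ^ (4 + 1) / 4 ^ 14) := by
    have h5 : (minL b ^ 2) ^ 14 * ((1 / s ^ 2) ^ 14 * ((14 : ℕ) + 1)) = (minL b ^ 2 * (1 / s ^ 2)) ^ 14 * 15 := by
      rw [mul_pow]
      push_cast
      ring
    rw [h5]
    exact mul_le_mul (mul_le_mul_of_nonneg_right h3 (by norm_num)) hQd hQ0.le (by positivity)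
  norm_num at h4 h1
  linarith

end CritL
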