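import Pool.Agent.Lib.CritL.PermFinal

/-!
# Root systems of type D
-/

set_option autoImplicit false

namespace CritL

open Matrix

/-- triangular matrix -/
noncomputable def TD (n : ℕ) : Matrix (Fin (n + 3)) (Fin (n + 3)) ℝ := Matrix.of fun i j =>
  if i = 0 then (if j = 0 then 2 else if j = 1 then 1 else 0) else (if j = i then 1 else 0)

theorem TD_det (n : ℕ) : (TD n).det = 2 := by
  rw [det_of_isUpperTriangular]
  · rw [Fin.prod_univ_succ]
    have h1 : ∀ i : Fin (n + 2), TD n i.succ i.succ = 1 := by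
      intro i
      unfold TD
      rw [of_apply, if_neg (Fin.succ_ne_zero _), if_pos rfl]
    rw [Finset.prod_eq_one fun i _ => h1 i]
    simp [TD]
  · intro i j hij
    have hji : j < i := hij
    unfold TD
    rw [of_apply]
    have hi : i ≠ 0 := by
      rintro rfl
      exact absurd hji (Fin.not_lt_zero j)
    rw [if_neg hi, if_neg hji.ne]

theorem sum_UU {n d : ℕ} (u : Fin (n + 3) → E d) (i : Fin (n + 3)) :
    ∑ j, UU n i j • u j = u i - if i = 0 then 0 else u 0 := by
  unfold UU
  simp only [of_apply, sub_smul, Finset.sum_sub_distrib]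
  congr 1
  · simp
  · by_cases hi : i = 0
    · simp [hi]
    · simp [hi]

/-- the reflections in the vectors `u i + u j` preserve `L` -/
def SInv {d k : ℕ} (L : Submodule ℤ (E d)) (u : Fin k → E d) : Prop :=
  ∀ i j, i ≠ j → ∀ x ∈ L, ((inner ℝ (u i) x : ℝ) + inner ℝ (u j) x) • (u i + u j) ∈ L

theorem sinv_of {d k : ℕ} {u : Fin k → E d} (hu : Orthonormal ℝ u) {b : Fin d → E d}
    (h : ∀ i j, i ≠ j → Preserves (u i + u j) b) : SInv (lat b) u := by
  intro i j hij x hx
  have h1 := (lat b).sub_mem hx (h i j hij x hx)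
  have h2 : inner ℝ (u i + u j) (u i + u j) = (2 : ℝ) := by
    rw [inner_add_left, inner_add_right, inner_add_right, inner_u hu, inner_u hu, inner_u hu, inner_u hu, if_pos rfl,
      if_neg hij, if_neg hij.symm, if_pos rfl]
    norm_num
  have h3 : refl (u i + u j) x = x - (inner ℝ (u i) x + inner ℝ (u j) x) • (u i + u j) := by
    unfold refl
    rw [h2, inner_add_left]
    congr 2
    ring
  rw [h3] at h1
  simpa using h1

/-- `D` type dual vectors -/
theorem exists_D {n d : ℕ} {u : Fin (n + 3) → E d} (hu : Orthonormal ℝ u) {L : Submodule ℤ (E d)}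
    (hT : TInv L u) (hS : SInv L u) {l : ℝ} (hl : 0 < l) (hmin : ∀ v ∈ L, v ≠ 0 → l ≤ ‖v‖)
    (hspan : ∀ w : E d, (∀ x ∈ L, inner ℝ w x = (0 : ℝ)) → w = 0) :
    ∃ w : Fin (n + 3) → E d, LinearIndependent ℝ w ∧ (∀ i, ∀ x ∈ L, ∃ k : ℤ, inner ℝ (w i) x = (k : ℝ)) ∧
      0 < (gm w).det ∧ (l ^ 2) ^ (n + 3) * (gm w).det ≤ 2 ^ (n + 3) * 4 := by
  obtain ⟨s, hs, hls, hsL, hint⟩ := exists_s hu hT hl hmin hspan (by omega)
  have h01 : (0 : Fin (n + 3)) ≠ 1 := by simp
  have h02 : (0 : Fin (n + 3)) ≠ 2 := by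
    intro h
    have h3 := congrArg Fin.val h
    rw [Fin.val_two, Fin.val_zero] at h3
    omega
  have h12 : (1 : Fin (n + 3)) ≠ 2 := by
    intro h
    have h3 := congrArg Fin.val h
    rw [Fin.val_two, Fin.val_one] at h3
    omega
  -- `x_0 + x_1` is a multiple of `s`
  have hplus : ∀ x ∈ L, ∃ m : ℤ, (inner ℝ (u 0) x : ℝ) + inner ℝ (u 1) x = m * s := by
    intro x hx
    set r : ℝ := (inner ℝ (u 0) x : ℝ) + inner ℝ (u 1) x with hr
    have h1 := hS 0 1 h01 x hx
    rw [← hr] at h1
    have h2 := hS 1 2 h12 _ h1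
    have h3 : inner ℝ (u 1) (r • (u 0 + u 1)) + inner ℝ (u 2) (r • (u 0 + u 1)) = r := by
      rw [inner_smul_right, inner_smul_right, inner_add_right, inner_add_right, inner_u hu, inner_u hu, inner_u hu,
        inner_u hu, if_neg (Ne.symm h01), if_pos rfl, if_neg (Ne.symm h02), if_neg (Ne.symm h12)]
      ring
    rw [h3] at h2
    have h4 := L.sub_mem h1 h2
    have h5 : r • (u 0 + u 1) - r • (u 1 + u 2) = r • (u 0 - u 2) := by module
    rw [h5] at h4
    obtain ⟨m, hm⟩ := hint _ h4 0 1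
    refine ⟨m, ?_⟩
    rw [← hm, inner_smul_right, inner_smul_right, inner_sub_right, inner_sub_right, inner_u hu, inner_u hu,
      inner_u hu, inner_u hu, if_pos rfl, if_neg h02, if_neg (Ne.symm h01), if_neg h12]
    ring
  set A : Matrix (Fin (n + 3)) (Fin (n + 3)) ℝ := (1 / s) • (TD n * UU n) with hA
  have hw : ∀ (i : Fin (n + 3)), (∑ j, A i j • u j) =
      (1 / s) • ∑ k, TD n i k • (u k - if k = 0 then 0 else u 0) := by
    intro i
    rw [hA]
    simp only [Matrix.smul_apply, smul_eq_mul, mul_apply, ← sum_UU, Finset.smul_sum, smul_smul, Finset.mul_sum,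
      Finset.sum_smul]
    rw [Finset.sum_comm]
  have hdetA : A.det = (1 / s) ^ (n + 3) * 2 := by
    rw [hA, det_smul, Fintype.card_fin, det_mul, TD_det, UU_det, mul_one]
  have hgm : (gm fun i => ∑ j, A i j • u j).det = ((1 / s) ^ (n + 3) * 2) ^ 2 := by
    rw [gm_coord hu, det_mul, det_transpose, hdetA, sq]
  refine ⟨fun i => ∑ j, A i j • u j, ?_, ?_, ?_, ?_⟩
  · rw [Fintype.linearIndependent_iff]
    intro a ha i
    have h1 : a ᵥ* A = 0 := by
      have h2 : ∑ j, (a ᵥ* A) j • u j = 0 := by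
        rw [← ha]
        simp only [vecMul, dotProduct, Finset.sum_smul, Finset.smul_sum, smul_smul]
        rw [Finset.sum_comm]
      funext j
      exact Fintype.linearIndependent_iff.1 hu.linearIndependent _ h2 j
    have h2 : A.det ≠ 0 := by rw [hdetA]; positivity
    exact congrFun (eq_zero_of_vecMul_eq_zero h2 h1) i
  · intro i x hx
    show ∃ k : ℤ, inner ℝ (∑ j, A i j • u j) x = (k : ℝ)
    rw [hw]
    by_cases hi : i = 0
    · subst hi
      obtain ⟨m, hm⟩ := hplus x hx
      refine ⟨m, ?_⟩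
      have h2 : ∑ k, TD n 0 k • (u k - if k = 0 then 0 else u 0) = u 0 + u 1 := by
        rw [Finset.sum_eq_add 0 1 h01]
        · simp only [TD, of_apply, if_true]
          rw [if_neg (Ne.symm h01), if_neg (Ne.symm h01)]
          module
        · intro c _ hc
          simp only [TD, of_apply, if_true]
          rw [if_neg hc.1, if_neg hc.2, zero_smul]
        · intro h; exact absurd (Finset.mem_univ _) h
        · intro h; exact absurd (Finset.mem_univ _) h
      rw [h2, inner_smul_left, inner_add_left, hm]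
      simp only [conj_trivial]
      field_simp
    · obtain ⟨m, hm⟩ := hint x hx i 0
      refine ⟨m, ?_⟩
      have h2 : ∑ k, TD n i k • (u k - if k = 0 then 0 else u 0) = u i - u 0 := by
        rw [Finset.sum_eq_single i]
        · simp [TD, hi]
        · intro c _ hc
          simp only [TD, of_apply]
          rw [if_neg hi, if_neg hc, zero_smul]
        · intro h; exact absurd (Finset.mem_univ _) h
      rw [h2, inner_smul_left, inner_sub_left, hm]
      simp only [conj_trivial]
      field_simp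
  · rw [hgm]; positivity
  · rw [hgm]
    have h2 : l ^ 2 * (1 / s) ^ 2 ≤ 2 := by
      rw [_root_.one_div_pow, mul_one_div, div_le_iff₀ (by positivity)]
      exact hls
    have h3 : (l ^ 2 * (1 / s) ^ 2) ^ (n + 3) ≤ 2 ^ (n + 3) := pow_le_pow_left₀ (by positivity) h2 _
    calc (l ^ 2) ^ (n + 3) * ((1 / s) ^ (n + 3) * 2) ^ 2 = (l ^ 2 * (1 / s) ^ 2) ^ (n + 3) * 4 := by
          rw [mul_pow, mul_pow, ← pow_mul, ← pow_mul, ← pow_mul, mul_comm (n + 3) 2]
          ring
      _ ≤ _ := mul_le_mul_of_nonneg_right h3 (by norm_num)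

/-- **no critical lattice is preserved by the reflections in `u i ± u j` for 13 orthonormal vectors** -/
theorem no_D13 {d : ℕ} {b : Fin d → E d} (hb : IsCritical b) {u : Fin 13 → E d} (hu : Orthonormal ℝ u)
    (hT : TInv (lat b) u) (hS : SInv (lat b) u) : False := by
  have hd : 13 ≤ d := by
    have := hu.linearIndependent.fintype_card_le_finrank
    simpa using this
  have hl := minL_pos (by omega) hb.1
  obtain ⟨w, hw, hint, hg0, hg⟩ := exists_D (n := 10) hu hT hS hl (fun v hv h0 => minL_le b hv h0) (lat_span hb.1)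
  obtain ⟨Q, hQ, hQd⟩ := exists_consA 13 4 (by norm_num)
  have hQ0 := hQ.pd.det_pos
  rcases Nat.eq_or_lt_of_le hd with hd' | hd'
  · subst hd'
    have h1 := ratio_ge (by norm_num) hb.1 hg0 hint
    have h2 := nf_crit (by norm_num) hb Q hQ
    rw [nf_det] at h2
    have h3 : ratio b ^ 2 * ((minL b ^ 2) ^ 13 * (gm w).det) ≤ 4 ^ (4 + 1) / 4 ^ 13 * (2 ^ 13 * 4) :=
      mul_le_mul (h2.trans hQd) hg (by positivity) (by positivity)
    norm_num at h3
    linarith
  · obtain ⟨m, rfl⟩ : ∃ m, d = 13 + m := ⟨d - 13, by omega⟩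
    have h1 := dual_vol (n := 13) (by norm_num) (by omega) hb hw hint hQ
    have h3 : (minL b ^ 2) ^ 13 * (gm w).det * Q.det ≤ (2 ^ 13 * 4) * (4 ^ (4 + 1) / 4 ^ 13) :=
      mul_le_mul hg hQd hQ0.le (by positivity)
    norm_num at h3
    linarith

end CritL
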