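import Pool.Agent.Lib.CritL.FinalE

/-!
# The volume of an endomorphism
-/

set_option autoImplicit false

namespace CritL

open Matrix

theorem mat_ext {m n : ℕ} {M N : Matrix (Fin m) (Fin n) ℝ} (h : ∀ y, M *ᵥ y = N *ᵥ y) : M = N := by
  funext i j
  have := congrFun (h (Pi.single j 1)) i
  simpa using this

theorem conj_apply {d k : ℕ} (P : Matrix (Fin d) (Fin d) ℝ) (W : Matrix (Fin d) (Fin k) ℝ) (i j : Fin k) :
    (Wᵀ * P * W) i j = (fun l => W l i) ⬝ᵥ (P *ᵥ (fun l => W l j)) := by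
  rw [Matrix.mul_assoc, mul_apply]
  rfl

/-- **the volume form of the bound** -/
theorem endo_vol {d : ℕ} {P : Matrix (Fin d) (Fin d) ℝ} (hP : Adm P) (A : Matrix (Fin d) (Fin d) ℤ) :
    ∃ k m : ℕ, k + m = d ∧ Module.finrank ℝ (LinearMap.range (rm A).mulVecLin) = k ∧
      ∀ Z : Matrix (Fin d) (Fin k) ℝ, Zᵀ * P * Z = 1 → (∀ y, rm A *ᵥ y = 0 → (Zᵀ * P) *ᵥ y = 0) →
        Dn k * Dn m ≤ ((rm A * Z)ᵀ * P * (rm A * Z)).det * P.det := by
  obtain ⟨k, N, C, V, M, H, hH, hA, hCV, hMN⟩ := exists_rank_factor A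
  have hCV' : rw' C * rw' V = 1 := by rw [← rw'_mul, hCV, rw'_one]
  have hMN' : rw' M * rw' N = rw' H := by rw [← rw'_mul, hMN]
  have hH' : (rw' H).det ≠ 0 := by
    have : (rw' H).det = ((H.det : ℤ) : ℝ) := ((Int.castRingHom ℝ).map_det H).symm
    rw [this]
    exact_mod_cast hH
  have hA' : rm A = rw' N * rw' C := by rw [← rw'_mul, ← hA]; rfl
  have hNinj : Function.Injective (rw' N).mulVec := by
    intro x y hxy
    have h1 := congrArg (rw' M *ᵥ ·) hxy
    simp only [mulVec_mulVec, hMN'] at h1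
    exact mulVec_inj hH' h1
  have hC : LinearIndependent ℤ C := by
    rw [Fintype.linearIndependent_iff]
    intro c hc
    have h1 : c ᵥ* C = 0 := by
      funext j
      have := congrFun hc j
      simpa [vecMul, dotProduct] using this
    have h2 : c ᵥ* (C * V) = 0 := by rw [← vecMul_vecMul, h1, zero_vecMul]
    rw [hCV, vecMul_one] at h2
    intro i
    exact congrFun h2 i
  have hkd : k ≤ d := by
    have := hC.fintype_card_le_finrank
    simpa using this
  obtain ⟨m, rfl⟩ : ∃ m, d = k + m := ⟨d - k, by omega⟩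
  refine ⟨k, m, rfl, ?_, ?_⟩
  · have h1 : (rm A).mulVecLin = (rw' N).mulVecLin ∘ₗ (rw' C).mulVecLin := by
      rw [hA', mulVecLin_mul]
    have h2 : LinearMap.range (rw' C).mulVecLin = ⊤ := by
      rw [LinearMap.range_eq_top]
      intro y
      refine ⟨rw' V *ᵥ y, ?_⟩
      rw [mulVecLin_apply, mulVec_mulVec, hCV', one_mulVec]
    rw [h1, LinearMap.range_comp_of_range_eq_top _ h2, LinearMap.finrank_range_of_inj hNinj]
    simp
  intro Z hZ hker
  -- the lattice of the image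
  set Q := (rw' N)ᵀ * P * rw' N with hQ
  have hQadm : Adm Q := by
    refine ⟨pd_conj hP.pd _ hNinj, fun x hx => ?_⟩
    rw [hQ, qf_conj]
    have e : rw' N *ᵥ ic x = ic (N *ᵥ x) := by
      funext i
      simp [rw', mulVec, dotProduct, ic]
    rw [e]
    refine hP.one_le _ fun h0 => hx ?_
    have h1 : rw' N *ᵥ ic x = rw' N *ᵥ 0 := by rw [e, h0, ic_zero, mulVec_zero]
    have h2 := hNinj h1
    exact ic_inj (by rw [h2, ic_zero])
  obtain ⟨P₁, hP₁, hle⟩ := section_multi hP C hC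
  set X := rw' C * P⁻¹ * (rw' C)ᵀ with hX
  have hPu : IsUnit P.det := isUnit_iff_ne_zero.2 hP.pd.det_pos.ne'
  set Y := Zᵀ * P * rw' V with hY
  have h1 : Zᵀ * P = Y * rw' C := by
    refine mat_ext fun y => ?_
    have h2 := hker (y - rw' V *ᵥ (rw' C *ᵥ y)) (by
      rw [hA', ← mulVec_mulVec, mulVec_sub]
      have : rw' C *ᵥ (rw' V *ᵥ (rw' C *ᵥ y)) = rw' C *ᵥ y := by
        rw [mulVec_mulVec, hCV', one_mulVec]
      rw [this, sub_self, mulVec_zero])
    rw [mulVec_sub, sub_eq_zero] at h2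
    rw [h2, hY]
    simp only [mulVec_mulVec, Matrix.mul_assoc]
  have h2 : Y * (rw' C * Z) = 1 := by rw [← Matrix.mul_assoc, ← h1, hZ]
  have h3 : rw' C * Z = X * Yᵀ := by
    have h4 : P * Z = (rw' C)ᵀ * Yᵀ := by
      have h5 := congrArg transpose h1
      rwa [transpose_mul, transpose_transpose, symm_of hP.pd, transpose_mul] at h5
    have h6 : Z = P⁻¹ * ((rw' C)ᵀ * Yᵀ) := by
      rw [← h4, ← Matrix.mul_assoc, nonsing_inv_mul _ hPu, Matrix.one_mul]
    conv_lhs => rw [h6]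
    rw [hX]
    simp only [Matrix.mul_assoc]
  have h4 : Y.det * (X.det * Y.det) = 1 := by
    have h5 := congrArg Matrix.det h2
    rwa [h3, det_mul, det_mul, det_transpose, det_one] at h5
  have h5 : ((rm A * Z)ᵀ * P * (rm A * Z)).det = Q.det * X.det := by
    have h6 : (rm A * Z)ᵀ * P * (rm A * Z) = (rw' C * Z)ᵀ * Q * (rw' C * Z) := by
      rw [hA', hQ]
      simp only [transpose_mul, Matrix.mul_assoc]
    rw [h6, h3, det_mul, det_mul, det_transpose, det_mul, det_transpose]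
    calc X.det * Y.det * Q.det * (X.det * Y.det) = (Y.det * (X.det * Y.det)) * (Q.det * X.det) := by ring
      _ = _ := by rw [h4, one_mul]
  rw [h5]
  have hQd := hQadm.pd.det_pos
  calc Dn k * Dn m ≤ Q.det * (P.det * X.det) :=
        mul_le_mul (Dn_le hQadm) ((Dn_le hP₁).trans hle) (Dn_pos m).le hQd.le
    _ = (Q.det * X.det) * P.det := by ring

/-- **volume form**, for lattices -/
theorem volE {d : ℕ} (hd : 0 < d) {b : Fin d → E d} (hb : LinearIndependent ℝ b) (F : E d →ₗ[ℝ] E d)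
    (hF : ∀ x ∈ lat b, F x ∈ lat b) {k : ℕ} (hk : Module.finrank ℝ (LinearMap.range F) = k) {u : Fin k → E d}
    (hu : Orthonormal ℝ u) (hker : ∀ i, ∀ x, F x = 0 → inner ℝ (u i) x = (0 : ℝ)) :
    ∃ m, k + m = d ∧ Dn k * Dn m ≤ (gm fun i => F (u i)).det * ratio b ^ 2 := by
  obtain ⟨A, hA⟩ := exists_mat F hF
  have hadm := nf_adm hd hb
  have hl := minL_pos hd hb
  obtain ⟨k', m, hkm, hk', hD⟩ := endo_vol hadm A
  have hbij := rpl_bij hb
  obtain rfl : k' = k := by
    set e := LinearEquiv.ofBijective (rpl b) hbij with he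
    have h1 : F ∘ₗ (e : (Fin d → ℝ) →ₗ[ℝ] E d) = (e : (Fin d → ℝ) →ₗ[ℝ] E d) ∘ₗ (rm A).mulVecLin := by
      refine LinearMap.ext fun z => ?_
      exact hA z
    have h2 : LinearMap.range (F ∘ₗ (e : (Fin d → ℝ) →ₗ[ℝ] E d)) = LinearMap.range F :=
      LinearMap.range_comp_of_range_eq_top _ (LinearEquiv.range e)
    rw [← hk', ← hk, ← h2, h1, LinearMap.range_comp]
    exact (LinearEquiv.finrank_map_eq e _).symm
  choose z hz using fun i => hbij.2 (u i)
  have hz' : ∀ i, rp b (z i) = u i := hz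
  have hin : ∀ x y : Fin d → ℝ, (minL b • x) ⬝ᵥ (nf b *ᵥ (minL b • y)) = inner ℝ (rp b x) (rp b y) := by
    intro x y
    rw [inner_rp, mulVec_smul, smul_dotProduct, dotProduct_smul]
    unfold nf
    rw [smul_mulVec, dotProduct_smul]
    simp only [smul_eq_mul]
    field_simp
  set Z : Matrix (Fin d) (Fin k') ℝ := Matrix.of fun l i => minL b * z i l with hZd
  have hcol : ∀ i, (fun l => Z l i) = minL b • z i := fun i => rfl
  have h1 : Zᵀ * nf b * Z = 1 := by
    funext i j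
    rw [conj_apply, hcol, hcol, hin, hz', hz', orthonormal_iff_ite.1 hu, one_apply]
  have h2 : ∀ y, rm A *ᵥ y = 0 → (Zᵀ * nf b) *ᵥ y = 0 := by
    intro y hy
    funext i
    have h3 : F (rp b y) = 0 := by
      rw [hA, hy]
      simp [rp]
    have h4 := hker i _ h3
    rw [← hz', ← hin, mulVec_smul, dotProduct_smul] at h4
    have h5 := (mul_eq_zero.1 h4).resolve_left hl.ne'
    rw [← mulVec_mulVec]
    exact h5
  have h3 := hD Z h1 h2
  refine ⟨m, hkm, ?_⟩
  rw [nf_det] at h3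
  refine h3.trans_eq ?_
  congr 2
  funext i j
  have hcol' : ∀ i, (fun l => (rm A * Z) l i) = minL b • (rm A *ᵥ z i) := by
    intro i
    rw [← mulVec_smul]
    rfl
  rw [conj_apply, hcol', hcol', hin, ← hA, ← hA, hz', hz', gm_apply]

end CritL
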